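import Pool.Agent.Helper79.GQ.Defs
import Pool.Agent.Helper79.GQ.LA
import Pool.Agent.Helper79.GQ.LB
import Pool.Agent.Helper79.GQ.LC
import Pool.Agent.Helper79.GR.DA
import Pool.Agent.Helper79.GQ.AB
import Pool.Agent.Helper79.GQ.ID
import Pool.Agent.Helper79.GQ.LH
import Pool.Agent.Helper79.GR.RA
import Pool.Agent.Helper79.GR.RB

/-!
Project GK (MP_13b103_pr, geodesic rays for laws which touch `0` and are unbounded), part M1: walks, passage times, moments, upper law of large numbers.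
Merged from the files of the folder GK (pieces by the whole team).
-/

set_option autoImplicit false

/-! ## Defs -/

section

namespace Pool.Agent.Helper98.GK

open MeasureTheory ProbabilityTheory Pool.Agent.Helper79.GR Pool.Agent.Helper79.GQ

/-- positive weights for which the long edge-self-avoiding walks are expensive -/
structure Gd {d : ℕ} (c : Edge d → ℝ) : Prop where
  pos : ∀ e, 0 < c e
  far : ∀ (x : V d) (M : ℕ), ∃ L : ℕ, ∀ w : List (St d), (eds x w).Nodup → L ≤ w.length →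
    (M : ℝ) ≤ cost c x w

/-- regularity: an edge-self-avoiding walk with at least `l` steps which starts in the ball of
radius `R` has a cost between `a` and `b` per step -/
def Rg {d : ℕ} (a b l R : ℝ) (c : Edge d → ℝ) : Prop :=
  ∀ x : V d, n1 x ≤ R → ∀ w : List (St d), (eds x w).Nodup → l ≤ w.length →
    a * w.length ≤ cost c x w ∧ cost c x w ≤ b * w.length

/-- the passage time with walks of at most `L` steps -/
noncomputable def TL {d : ℕ} (c : Edge d → ℝ) (L : ℕ) (x y : V d) : ℝ :=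
  ⨅ w : {w : List (St d) // w.length ≤ L ∧ pos x w = y}, cost c x w.1

section

variable {Ω : Type*} [MeasurableSpace Ω]

/-- independent identically distributed positive weights; `a` and `b` are such that the
exponential estimates for all walks hold -/
structure Env0 {d : ℕ} (P : Measure Ω) (X : Edge d → Ω → ℝ) (ν : Measure ℝ) (a b : ℝ) : Prop where
  prob : IsProbabilityMeasure P
  meas : ∀ e, Measurable (X e)
  indep : iIndepFun X P
  law : ∀ e, P.map (X e) = ν
  pos : ∀ e ω, 0 < X e ω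
  apos : 0 < a
  lo : ∃ l : ℝ, 0 < l ∧ 4 * d * (∫ x, Real.exp (-(l * x)) ∂ν) * Real.exp (l * a) ≤ 1
  up : ∃ l : ℝ, 0 < l ∧ Integrable (fun x => Real.exp (l * x)) ν ∧
    4 * d * (∫ x, Real.exp (l * x) ∂ν) * Real.exp (-(l * b)) ≤ 1

/-- the same with `Gd` everywhere -/
structure EnvK {d : ℕ} (P : Measure Ω) (X : Edge d → Ω → ℝ) (ν : Measure ℝ) (a b : ℝ) : Prop
    extends Env0 P X ν a b where
  gd : ∀ ω, Gd (cf X ω)

end

/-- The scenario: `c` are good weights, `c'` are the weights with the wall (`r = n₀ s`); as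
`GQ.Scn`. -/
structure Scn {d N : ℕ} (a b l m : ℝ) (μ : F d → ℝ) (w : Fin N → F d)
    (ρ : Fin N → F d →L[ℝ] ℝ) (g ε δ C b₁ η : ℝ) (n₀ s : ℕ) (c c' : Edge d → ℝ)
    (W : Finset (Edge d)) (z : Fin N → V d) : Prop where
  gd : Gd c
  gd' : Gd c'
  rg : Rg a b l (C * (n₀ * s)) c
  lpos : 0 ≤ l
  nrm : Nrm a m μ
  dir : Dir μ w ρ g
  wal : ∀ e, e ∈ W ↔ Wal μ ε (n₀ * s) w e
  off : ∀ e ∉ W, c' e = c e
  low : ∀ e ∈ W, c e - η ≤ c' e
  hig : ∀ e ∈ W, b₁ ≤ c' e
  eta : 0 ≤ η
  card : W.card * η ≤ 1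
  h1 : H1 μ c C δ (n₀ * s)
  h2 : ∀ i, H2 c (ρ i) C δ (n₀ * s) (z i)
  h3 : ∀ i, H3 c (w i) (3 * n₀) δ s
  far : ∀ i, 2 * ((n₀ : ℝ) * s) < μ (rv (z i))
  mpos : 0 < m
  b1 : m ≤ b₁
  dpos : 0 ≤ δ
  spos : m < (n₀ : ℝ) * s
  nE : ((1 + δ) * s / a + l + d) * (1 + m / a) ≤ ε * ((n₀ : ℝ) * s)
  nC : 3 * ((n₀ : ℝ) * s) / a + d ≤ C * ((n₀ : ℝ) * s)
  nC' : (2 * ((n₀ : ℝ) * s) + m) / a ≤ C * ((n₀ : ℝ) * s)
  nT : 5 * δ * ((n₀ : ℝ) * s) + m * d + 2 < (g - m * ε) * ((n₀ : ℝ) * s)
  nW : 5 * δ * ((n₀ : ℝ) * s) + m * d + 2 < (b₁ - m) * (((n₀ : ℝ) * s) / m)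
  nF : δ * ((n₀ : ℝ) * s) + m * d < (n₀ : ℝ) * s

/-- the edges of a `D`-ary tree of depth `k` with one more edge at every leaf -/
def Tr (D : ℕ) : ℕ → Type
  | 0 => Unit
  | k + 1 => Fin D × Option (Tr D k)

instance instFintypeTr (D : ℕ) : (k : ℕ) → Fintype (Tr D k)
  | 0 => inferInstanceAs (Fintype Unit)
  | k + 1 =>
    have := instFintypeTr D k
    inferInstanceAs (Fintype (Fin D × Option (Tr D k)))

/-- some path from the root to a leaf (with the last edge) has weights at most `s` -/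
def good (D : ℕ) (s : ℝ) : (k : ℕ) → (Tr D k → ℝ) → Prop
  | 0, ξ => ξ () ≤ s
  | k + 1, ξ => ∃ j : Fin D, ξ (j, none) ≤ s ∧ good D s k fun t => ξ (j, some t)

/-- the tree in the lattice: at depth `k` from the leaves the side steps are `± e (β k j)`, the last
edges have the direction `i₀` -/
def emb {d D : ℕ} (i₀ : Fin d) (β : ℕ → Fin D → Fin d) (s : Bool) :
    (k : ℕ) → V d → Tr D k → Edge d
  | 0, y, _ => ed y (i₀, true)
  | k + 1, y, (j, none) => ed y (β k j, s)
  | k + 1, y, (j, some t) => emb i₀ β s k (y + sv (β k j, s)) t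

/-- the edges whose lowest end has the level `h` (the level of `z` is `z i₀`) -/
def Lv {d : ℕ} (i₀ : Fin d) (h : ℤ) : Set (Edge d) :=
  {e | (∃ z ∈ e.1, z i₀ = h) ∧ ∀ z ∈ e.1, h ≤ z i₀}

/-- the next vertex: one step up and the side displacement `± dsp` -/
def nx {d : ℕ} (i₀ : Fin d) {τ : Type} (ι : V d → Bool → τ → Edge d) (dsp : (τ → ℝ) → V d)
    (c : Edge d → ℝ) (x : V d) (s : Bool) : V d :=
  x + sv (i₀, true) + (if s then dsp fun t => c (ι x s t) else -dsp fun t => c (ι x s t))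

/-- the vertex after `n` double rounds -/
def Yn {d : ℕ} (i₀ : Fin d) {τ : Type} (ι : V d → Bool → τ → Edge d) (dsp : (τ → ℝ) → V d)
    (c : Edge d → ℝ) : ℕ → V d → V d
  | 0, x => x
  | n + 1, x => Yn i₀ ι dsp c n (nx i₀ ι dsp c (nx i₀ ι dsp c x true) false)

/-- the cost of `n` double rounds -/
def Kn {d : ℕ} (i₀ : Fin d) {τ : Type} (ι : V d → Bool → τ → Edge d) (dsp : (τ → ℝ) → V d)
    (kap : (τ → ℝ) → ℝ) (c : Edge d → ℝ) : ℕ → V d → ℝ
  | 0, _ => 0
  | n + 1, x => kap (fun t => c (ι x true t)) +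
      kap (fun t => c (ι (nx i₀ ι dsp c x true) false t)) +
      Kn i₀ ι dsp kap c n (nx i₀ ι dsp c (nx i₀ ι dsp c x true) false)

/-- A system of rounds: from `x` (with sign `s`) the weights of the edges `ι x s t`, whose lowest end
has the level of `x`, decide the next vertex, and `kap` bounds the passage time to it. -/
structure Rd {d : ℕ} (i₀ : Fin d) (ν : Measure ℝ) {τ : Type} [Fintype τ]
    (ι : V d → Bool → τ → Edge d) (dsp : (τ → ℝ) → V d) (kap : (τ → ℝ) → ℝ) : Prop where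
  inj : ∀ x s, Function.Injective (ι x s)
  lev : ∀ x s t, ι x s t ∈ Lv i₀ (x i₀)
  dm : Measurable dsp
  d0 : ∀ ξ, dsp ξ i₀ = 0
  d1 : ∀ ξ j, |dsp ξ j| ≤ 1
  km : Measurable kap
  ki : Integrable kap (Measure.pi fun _ : τ => ν)
  walk : ∀ c : Edge d → ℝ, (∀ e, 0 < c e) → ∀ x s,
    T c x (nx i₀ ι dsp c x s) ≤ kap fun t => c (ι x s t)

/-- the side directions of the tree are different and different from `i₀` -/
structure Bet {d D : ℕ} (i₀ : Fin d) (β : ℕ → Fin D → Fin d) (K : ℕ) : Prop where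
  ne : ∀ k < K, ∀ j, β k j ≠ i₀
  inj : ∀ k < K, ∀ k' < K, ∀ j j', β k j = β k' j' → k = k' ∧ j = j'

end Pool.Agent.Helper98.GK

end

/-! ## GA -/

section

namespace Pool.Agent.Helper98.GK

open MeasureTheory ProbabilityTheory Pool.Agent.Helper79.GR Pool.Agent.Helper79.GQ

theorem cost_nonneg {d : ℕ} {c : Edge d → ℝ} (hc : ∀ e, 0 < c e) (x : V d) (w : List (St d)) :
    0 ≤ cost c x w := by
  induction w generalizing x with
  | nil => exact le_refl _
  | cons s w ih => exact add_nonneg (hc _).le (ih (x + sv s))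

private theorem bdd_ga {d : ℕ} {c : Edge d → ℝ} (hc : ∀ e, 0 < c e) (x y : V d) :
    BddBelow (Set.range fun w : {w : List (St d) // pos x w = y} => cost c x w.1) := by
  refine ⟨0, ?_⟩
  rintro _ ⟨w, rfl⟩
  exact Pool.Agent.Helper98.GK.cost_nonneg hc x w.1

theorem T_nonneg {d : ℕ} {c : Edge d → ℝ} (hc : ∀ e, 0 < c e) (x y : V d) : 0 ≤ T c x y :=
  Real.iInf_nonneg fun w => Pool.Agent.Helper98.GK.cost_nonneg hc x w.1

theorem T_le_cost {d : ℕ} {c : Edge d → ℝ} (hc : ∀ e, 0 < c e) {x y : V d} {w : List (St d)}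
    (hw : pos x w = y) : T c x y ≤ cost c x w :=
  ciInf_le (bdd_ga hc x y) (⟨w, hw⟩ : {w : List (St d) // pos x w = y})

theorem T_triangle {d : ℕ} {c : Edge d → ℝ} (hc : ∀ e, 0 < c e) (x y z : V d) :
    T c x z ≤ T c x y + T c y z := by
  have hne : Nonempty {w : List (St d) // pos x w = y} := by
    obtain ⟨w, hw, -⟩ := exists_walk x y
    exact ⟨⟨w, hw⟩⟩
  have hne' : Nonempty {w : List (St d) // pos y w = z} := by
    obtain ⟨w, hw, -⟩ := exists_walk y z
    exact ⟨⟨w, hw⟩⟩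
  have key : ∀ (w : {w : List (St d) // pos x w = y}) (w' : {w : List (St d) // pos y w = z}),
      T c x z ≤ cost c x w.1 + cost c y w'.1 := by
    intro w w'
    have h1 : pos x (w.1 ++ w'.1) = z := by rw [pos_append, w.2, w'.2]
    have h2 := Pool.Agent.Helper98.GK.T_le_cost hc h1
    rw [cost_append, w.2] at h2
    exact h2
  have h1 : ∀ w' : {w : List (St d) // pos y w = z}, T c x z - cost c y w'.1 ≤ T c x y :=
    fun w' => le_ciInf fun w => by linarith [key w w']
  have h2 : T c x z - T c x y ≤ T c y z := le_ciInf fun w' => by linarith [h1 w']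
  linarith

theorem geo_iff {d : ℕ} {c : Edge d → ℝ} (hc : ∀ e, 0 < c e) (x : V d) (w : List (St d)) :
    Geo c x w ↔ cost c x w = T c x (pos x w) := by
  constructor
  · intro hg
    have hne : Nonempty {w' : List (St d) // pos x w' = pos x w} := ⟨⟨w, rfl⟩⟩
    refine le_antisymm ?_ (Pool.Agent.Helper98.GK.T_le_cost hc rfl)
    exact le_ciInf fun w' => hg w'.1 w'.2
  · intro he w' hw'
    rw [he]
    exact Pool.Agent.Helper98.GK.T_le_cost hc hw'

end Pool.Agent.Helper98.GK

end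

/-! ## GB -/

section

namespace Pool.Agent.Helper98.GK

open MeasureTheory ProbabilityTheory Pool.Agent.Helper79.GR Pool.Agent.Helper79.GQ

theorem geo_split {d : ℕ} {c : Edge d → ℝ} (hc : ∀ e, 0 < c e) {x : V d} {w : List (St d)}
    (h : Geo c x w) (n : ℕ) :
    T c x (pos x (w.take n)) + T c (pos x (w.take n)) (pos x w) = T c x (pos x w) := by
  have h1 := (geo_iff hc x w).1 h
  have h2 := (geo_iff hc x (w.take n)).1 (h.take n)
  have h3 : cost c x w = cost c x (w.take n) + cost c (pos x (w.take n)) (w.drop n) := by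
    rw [← cost_append, List.take_append_drop]
  have h4 : pos (pos x (w.take n)) (w.drop n) = pos x w := by
    rw [← pos_append, List.take_append_drop]
  have h5 := T_le_cost hc h4
  have h6 := T_triangle hc x (pos x (w.take n)) (pos x w)
  apply le_antisymm
  · rw [← h1, ← h2, h3]
    linarith
  · exact h6

private theorem cost_pos' {d : ℕ} {c : Edge d → ℝ} (hc : ∀ e, 0 < c e) (x : V d)
    (w : List (St d)) (hw : 0 < w.length) : 0 < cost c x w := by
  cases w with
  | nil => exact absurd hw (lt_irrefl _)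
  | cons s w =>
    have h1 := hc (ed x s)
    have h2 := cost_nonneg hc (x + sv s) w
    have h3 : cost c x (s :: w) = c (ed x s) + cost c (x + sv s) w := rfl
    linarith

theorem geo_inj {d : ℕ} {c : Edge d → ℝ} (hc : ∀ e, 0 < c e) {x : V d} {w : List (St d)}
    (h : Geo c x w) {i j : ℕ} (hij : i < j) (hj : j ≤ w.length) :
    pos x (w.take i) ≠ pos x (w.take j) := by
  intro heq
  have hp : pos x (w.take i ++ w.drop j) = pos x w := by
    conv_rhs => rw [← List.take_append_drop j w]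
    rw [pos_append, pos_append, heq]
  have h1 := h _ hp
  have h2 : w.take j = w.take i ++ (w.drop i).take (j - i) := by
    rw [← List.take_add]
    congr 1
    omega
  have h3 : cost c x w = cost c x (w.take i) +
      cost c (pos x (w.take i)) ((w.drop i).take (j - i)) +
      cost c (pos x (w.take j)) (w.drop j) := by
    conv_lhs => rw [← List.take_append_drop j w]
    rw [cost_append]
    conv_lhs => rw [h2]
    rw [cost_append, ← h2]
  have h5 : ((w.drop i).take (j - i)).length = j - i := by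
    rw [List.length_take, List.length_drop]
    omega
  have h7 : 0 < cost c (pos x (w.take i)) ((w.drop i).take (j - i)) :=
    cost_pos' hc _ _ (by rw [h5]; omega)
  rw [cost_append, heq] at h1
  rw [heq] at h3 h7
  linarith

private theorem pos_take_succ {d : ℕ} (x : V d) (w : List (St d)) (i : ℕ) (hi : i < w.length) :
    pos x (w.take (i + 1)) = pos x (w.take i) + sv w[i] := by
  induction w generalizing x i with
  | nil => exact absurd hi (Nat.not_lt_zero _)
  | cons s w ih =>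
    cases i with
    | zero => rfl
    | succ i =>
      have := ih (x + sv s) i (by simpa using hi)
      simpa [pos] using this

private theorem eds_getElem {d : ℕ} (x : V d) (w : List (St d)) (i : ℕ)
    (hi : i < (eds x w).length) (hi' : i < w.length) :
    (eds x w)[i] = ed (pos x (w.take i)) w[i] := by
  induction w generalizing x i with
  | nil => exact absurd hi' (Nat.not_lt_zero _)
  | cons s w ih =>
    cases i with
    | zero => rfl
    | succ i =>
      have := ih (x + sv s) i (by simpa [eds] using hi) (by simpa using hi')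
      simpa [eds, pos] using this

theorem geo_nodup {d : ℕ} {c : Edge d → ℝ} (hc : ∀ e, 0 < c e) {x : V d} {w : List (St d)}
    (h : Geo c x w) : (eds x w).Nodup := by
  unfold List.Nodup
  rw [List.pairwise_iff_getElem]
  intro i j hi hj hij heq
  have hi' : i < w.length := by rwa [length_eds] at hi
  have hj' : j < w.length := by rwa [length_eds] at hj
  rw [eds_getElem x w i hi hi', eds_getElem x w j hj hj'] at heq
  have h1 := congrArg Subtype.val heq
  simp only [ed, Sym2.eq_iff] at h1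
  rcases h1 with h1 | h1
  · exact geo_inj hc h hij hj'.le h1.1
  · rw [← pos_take_succ x w j hj'] at h1
    exact geo_inj hc h (Nat.lt_succ_of_lt hij) hj' h1.1

end Pool.Agent.Helper98.GK

end

/-! ## AB -/

section

namespace Pool.Agent.Helper98.GK

open MeasureTheory ProbabilityTheory Pool.Agent.Helper79.GR Pool.Agent.Helper79.GQ

variable {Ω : Type*} [MeasurableSpace Ω] {d : ℕ} {P : Measure Ω} {X : Edge d → Ω → ℝ}
  {ν : Measure ℝ} {a b : ℝ}

theorem disjoint_geo {N : ℕ} {m : ℝ} {c : Edge d → ℝ} (hc : ∀ e, 0 < c e) {μ : F d → ℝ}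
    (hμ : Nrm a m μ) {w : Fin N → F d} {ρ : Fin N → F d →L[ℝ] ℝ} {g : ℝ} (hD : Dir μ w ρ g)
    (C δ : ℝ) (r : ℕ) (z : Fin N → V d) (hH : ∀ i, H2 c (ρ i) C δ r (z i))
    (hC : (r : ℝ) / a + d ≤ C * r) (hg : 4 * m * d + 2 * δ * r < 2 * g * r)
    (i j : Fin N) (hij : i ≠ j) (u u' : List (St d)) (hu : Geo c (fl r (w i)) u)
    (huz : pos (fl r (w i)) u = z i) (hu' : Geo c (fl r (w j)) u')
    (huz' : pos (fl r (w j)) u' = z j) (k l : ℕ) :
    pos (fl r (w i)) (u.take k) ≠ pos (fl r (w j)) (u'.take l) := by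
  intro hq
  have hapos := hμ.apos
  have nb : ∀ i, n1 (fl r (w i)) ≤ C * r := by
    intro i
    have h1 := n1_fl_le r (w i)
    have h2 : (r : ℝ) * nr (w i) ≤ r * (1 / a) :=
      mul_le_mul_of_nonneg_left (Dir.nr_le hμ hD i) (Nat.cast_nonneg r)
    have h3 : (r : ℝ) * (1 / a) = r / a := by ring
    linarith
  have s1 := geo_split hc hu k
  have s2 := geo_split hc hu' l
  rw [← hq, huz'] at s2
  rw [huz] at s1
  have t1 := T_triangle hc (fl r (w i)) (pos (fl r (w i)) (u.take k)) (z j)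
  have t2 := T_triangle hc (fl r (w j)) (pos (fl r (w i)) (u.take k)) (z i)
  have e1 := hH i (fl r (w i)) (fl r (w j)) (nb i) (nb j)
  have e2 := hH j (fl r (w j)) (fl r (w i)) (nb j) (nb i)
  rw [map_sub] at e1 e2
  have r1 := Dir.rho_fl hμ hD i r
  have r2 := Dir.rho_fl hμ hD j r
  have r3 := Dir.rho_fl' hμ hD hij r
  have r4 := Dir.rho_fl' hμ hD hij.symm r
  linarith

end Pool.Agent.Helper98.GK

end

/-! ## ID -/

section

namespace Pool.Agent.Helper98.GK

open MeasureTheory ProbabilityTheory Pool.Agent.Helper79.GR Pool.Agent.Helper79.GQ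

theorem incr_det {d : ℕ} {a b m : ℝ} {c : Edge d → ℝ} (hc : ∀ e, 0 < c e) {μ : F d → ℝ}
    (hμ : Nrm a m μ) {ρ : F d →L[ℝ] ℝ} (hρ : ∀ x, ρ x ≤ μ x) (A : Finset (V d)) (v z : V d)
    (r C κ δ R : ℝ) (hm : 0 ≤ m)
    (hnet : ∀ q : V d, n1 q ≤ C * r → ∃ x ∈ A, n1 (x - q) ≤ κ * r)
    (hT : ∀ x ∈ A, ∀ q : V d, n1 q ≤ C * r → n1 (x - q) ≤ κ * r → T c x q ≤ (b * κ + δ) * r)
    (h1 : ∀ x ∈ A, T c x (x + v) + T c (x + v) z - δ * r ≤ T c x z)
    (h2 : ∀ x ∈ A, ∀ u : V d, n1 u ≤ R * r → |T c x (x + u) - μ (rv u)| ≤ δ * r)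
    (hR : n1 v + 2 * (C + κ) * r ≤ R * r)
    (h3 : ∀ y : F d, nr y ≤ 2 * (C + κ) * r → μ (rv v + y) - μ (rv v) ≤ ρ y + δ * r) :
    ∀ x y : V d, n1 x ≤ C * r → n1 y ≤ C * r →
      T c x z - T c y z ≤ ρ (rv y - rv x) + (6 * δ + 2 * (b + m) * κ) * r := by
  intro x y hx hy
  obtain ⟨x', hx'A, hx'⟩ := hnet x hx
  obtain ⟨y', hy'A, hy'⟩ := hnet y hy
  have hyx : n1 (y' - x') ≤ 2 * (C + κ) * r := by
    have e : y' - x' = (y' - y) + (y + (-x + (x - x'))) := by abel
    have g1 := n1_add_le (y' - y) (y + (-x + (x - x')))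
    have g2 := n1_add_le y (-x + (x - x'))
    have g3 := n1_add_le (-x) (x - x')
    rw [n1_neg, n1_sub_comm x x'] at g3
    rw [e]
    linarith
  have hyx0 : 0 ≤ n1 (y' - x') := n1_nonneg _
  -- the passage times
  have t1 : T c x z ≤ T c x x' + T c x' z := GK.T_triangle hc x x' z
  have t2 : T c x x' ≤ (b * κ + δ) * r := by
    rw [T_symm c x x']
    exact hT x' hx'A x hx hx'
  have t3 : T c y' z ≤ T c y' y + T c y z := GK.T_triangle hc y' y z
  have t4 : T c y' y ≤ (b * κ + δ) * r := hT y' hy'A y hy hy'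
  have hu : x' + (v + (y' - x')) = y' + v := by abel
  have t5 : T c x' z ≤ T c x' (y' + v) + T c (y' + v) z := GK.T_triangle hc _ _ _
  have t6 := (abs_le.1 (h2 x' hx'A (v + (y' - x')) (by
    have g := n1_add_le v (y' - x')
    linarith))).2
  rw [hu, rv_add', rv_sub] at t6
  have t7 := (abs_le.1 (h2 y' hy'A v (by linarith))).1
  have t8 := h1 y' hy'A
  have t9 := h3 (rv y' - rv x') (by
    rw [← rv_sub, nr_rv]
    exact hyx)
  -- the linear form
  have l1 := (abs_le.1 (abs_le_of_le hμ hρ (rv (y' - y)))).2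
  have l2 := (abs_le.1 (abs_le_of_le hμ hρ (rv (x' - x)))).1
  rw [nr_rv] at l1 l2
  have l3 : m * n1 (y' - y) ≤ m * (κ * r) := mul_le_mul_of_nonneg_left hy' hm
  have l4 : m * n1 (x' - x) ≤ m * (κ * r) := mul_le_mul_of_nonneg_left hx' hm
  have l5 : ρ (rv y' - rv x') = ρ (rv y - rv x) + ρ (rv (y' - y)) - ρ (rv (x' - x)) := by
    rw [rv_sub, rv_sub, map_sub, map_sub, map_sub, map_sub]
    ring
  have l6 : (6 * δ + 2 * (b + m) * κ) * r =
      4 * (δ * r) + 2 * ((b * κ + δ) * r) + 2 * (m * (κ * r)) := by ring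
  rw [l6]
  linarith

end Pool.Agent.Helper98.GK

end

/-! ## RA -/

section

namespace Pool.Agent.Helper98.GK

open MeasureTheory ProbabilityTheory Pool.Agent.Helper79.GR Pool.Agent.Helper79.GQ

variable {Ω : Type*} [MeasurableSpace Ω] {d : ℕ} {P : Measure Ω} {X : Edge d → Ω → ℝ}
  {ν : Measure ℝ} {a b : ℝ}

private theorem RA_edge (hd : 1 ≤ d) : Nonempty (Edge d) :=
  ⟨ed 0 (⟨0, hd⟩, true)⟩

theorem Env0.probν (h : Env0 P X ν a b) (hd : 1 ≤ d) : IsProbabilityMeasure ν := by
  obtain ⟨e⟩ := RA_edge hd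
  have := h.prob
  rw [← h.law e]
  exact Measure.isProbabilityMeasure_map (h.meas e).aemeasurable

theorem Env0.posν (h : Env0 P X ν a b) (hd : 1 ≤ d) : ν (Set.Iic 0) = 0 := by
  obtain ⟨e⟩ := RA_edge hd
  rw [← h.law e, Measure.map_apply (h.meas e) measurableSet_Iic]
  have : X e ⁻¹' Set.Iic 0 = ∅ := by
    ext ω
    simp only [Set.mem_preimage, Set.mem_Iic, Set.mem_empty_iff_false, iff_false, not_le]
    exact h.pos e ω
  rw [this, measure_empty]

private theorem RA_ae (h : Env0 P X ν a b) (hd : 1 ≤ d) : ∀ᵐ x ∂ν, 0 < x := by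
  have h1 := h.posν hd
  rw [ae_iff]
  have : {x : ℝ | ¬ 0 < x} = Set.Iic 0 := by
    ext x
    simp
  rw [this, h1]

theorem Env0.bpos (h : Env0 P X ν a b) (hd : 1 ≤ d) : 0 < b := by
  have hp := h.probν hd
  obtain ⟨l, hl, hi, hle⟩ := h.up
  have h1 : (1 : ℝ) ≤ ∫ x, Real.exp (l * x) ∂ν := by
    have h2 : ∫ _x, (1 : ℝ) ∂ν ≤ ∫ x, Real.exp (l * x) ∂ν := by
      refine integral_mono_ae (integrable_const _) hi ?_
      filter_upwards [RA_ae h hd] with x hx
      exact Real.one_le_exp (by positivity)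
    simpa using h2
  have hd' : (1 : ℝ) ≤ d := by exact_mod_cast hd
  have he : 0 < Real.exp (-(l * b)) := Real.exp_pos _
  have h3 : (4 : ℝ) ≤ 4 * d * (∫ x, Real.exp (l * x) ∂ν) := by nlinarith
  have h4 : 4 * Real.exp (-(l * b)) ≤ 1 := le_trans (mul_le_mul_of_nonneg_right h3 he.le) hle
  have h5 : Real.exp (-(l * b)) < 1 := by linarith
  rw [Real.exp_lt_one_iff] at h5
  have h6 : 0 < l * b := by linarith
  exact (pos_iff_pos_of_mul_pos h6).1 hl

private theorem RA_exp {l x : ℝ} (hl : 0 < l) (hx : 0 < x) :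
    x ≤ l⁻¹ * Real.exp (l * x) ∧ x ^ 2 ≤ 2 * (l⁻¹) ^ 2 * Real.exp (l * x) := by
  have h1 := Real.quadratic_le_exp_of_nonneg (x := l * x) (by positivity)
  have hlx : 0 < l * x := by positivity
  have h2 : l * x ≤ Real.exp (l * x) := by nlinarith [sq_nonneg (l * x)]
  have h3 : (l * x) ^ 2 ≤ 2 * Real.exp (l * x) := by nlinarith
  constructor
  · calc x = l⁻¹ * (l * x) := by field_simp
      _ ≤ _ := mul_le_mul_of_nonneg_left h2 (by positivity)
  · calc x ^ 2 = (l⁻¹) ^ 2 * (l * x) ^ 2 := by field_simp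
      _ ≤ (l⁻¹) ^ 2 * (2 * Real.exp (l * x)) := mul_le_mul_of_nonneg_left h3 (by positivity)
      _ = _ := by ring

theorem Env0.integrable_id (h : Env0 P X ν a b) (hd : 1 ≤ d) :
    Integrable (fun x : ℝ => x) ν := by
  obtain ⟨l, hl, hi, -⟩ := h.up
  refine (hi.const_mul l⁻¹).mono' measurable_id.aestronglyMeasurable ?_
  filter_upwards [RA_ae h hd] with x hx
  rw [Real.norm_eq_abs, abs_of_pos hx]
  exact (RA_exp hl hx).1

theorem Env0.integrable_sq (h : Env0 P X ν a b) (hd : 1 ≤ d) :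
    Integrable (fun x : ℝ => x ^ 2) ν := by
  obtain ⟨l, hl, hi, -⟩ := h.up
  refine (hi.const_mul (2 * (l⁻¹) ^ 2)).mono' (measurable_id.pow_const 2).aestronglyMeasurable ?_
  filter_upwards [RA_ae h hd] with x hx
  rw [Real.norm_eq_abs, abs_of_pos (by positivity)]
  exact (RA_exp hl hx).2

theorem Env0.mean_pos (h : Env0 P X ν a b) (hd : 1 ≤ d) : 0 < ∫ x, x ∂ν := by
  have hp := h.probν hd
  rw [integral_pos_iff_support_of_nonneg_ae _ (h.integrable_id hd)]
  · have h1 : Function.support (fun x : ℝ => x) = {0}ᶜ := by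
      ext x
      simp
    rw [h1]
    have h2 : ν {(0 : ℝ)} = 0 := measure_mono_null (by simp) (h.posν hd)
    rw [prob_compl_eq_one_sub (measurableSet_singleton _), h2]
    simp
  · filter_upwards [RA_ae h hd] with x hx
    exact hx.le

end Pool.Agent.Helper98.GK

end

/-! ## RT -/

section

namespace Pool.Agent.Helper98.GK

open MeasureTheory ProbabilityTheory Pool.Agent.Helper79.GR Pool.Agent.Helper79.GQ

variable {Ω : Type*} [MeasurableSpace Ω] {d : ℕ} {P : Measure Ω} {X : Edge d → Ω → ℝ}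
  {ν : Measure ℝ} {a b : ℝ}

private theorem RT_phi (h : Env0 P X ν a b) {φ : ℝ → ℝ} (hφ : Measurable φ)
    (hi : Integrable φ ν) (x : V d) (w : List (St d)) :
    Integrable (fun ω => cost (fun e => φ (X e ω)) x w) P ∧
      ∫ ω, cost (fun e => φ (X e ω)) x w ∂P = w.length * ∫ t, φ t ∂ν := by
  induction w generalizing x with
  | nil =>
    refine ⟨integrable_zero _ _ _, ?_⟩
    change ∫ ω, (0 : ℝ) ∂P = _
    rw [integral_zero, List.length_nil, Nat.cast_zero, zero_mul]
  | cons s w ih =>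
    obtain ⟨h1, h2⟩ := ih (x + sv s)
    have h3 : Integrable (fun ω => φ (X (ed x s) ω)) P := by
      have h4 : Integrable φ (P.map (X (ed x s))) := by rw [h.law]; exact hi
      exact (integrable_map_measure hφ.aestronglyMeasurable (h.meas _).aemeasurable).1 h4
    have h5 : ∫ ω, φ (X (ed x s) ω) ∂P = ∫ t, φ t ∂ν := by
      rw [← h.law (ed x s)]
      exact (integral_map (h.meas _).aemeasurable hφ.aestronglyMeasurable).symm
    refine ⟨h3.add h1, ?_⟩
    change ∫ ω, (φ (X (ed x s) ω) + cost (fun e => φ (X e ω)) (x + sv s) w) ∂P = _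
    rw [integral_add h3 h1, h5, h2, List.length_cons, Nat.cast_add, Nat.cast_one]
    ring

private theorem RT_cs (c : Edge d → ℝ) (x : V d) (w : List (St d)) :
    cost c x w ^ 2 ≤ w.length * cost (fun e => c e ^ 2) x w := by
  induction w generalizing x with
  | nil =>
    change (0 : ℝ) ^ 2 ≤ _ * (0 : ℝ)
    simp
  | cons s w ih =>
    have h1 := ih (x + sv s)
    change (c (ed x s) + cost c (x + sv s) w) ^ 2 ≤
      _ * (c (ed x s) ^ 2 + cost (fun e => c e ^ 2) (x + sv s) w)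
    obtain ⟨S, hS⟩ : ∃ S, S = cost c (x + sv s) w := ⟨_, rfl⟩
    obtain ⟨S2, hS2⟩ : ∃ S2, S2 = cost (fun e => c e ^ 2) (x + sv s) w := ⟨_, rfl⟩
    obtain ⟨t, ht⟩ : ∃ t, t = c (ed x s) := ⟨_, rfl⟩
    rw [← hS, ← hS2] at h1
    rw [← hS, ← hS2, ← ht, List.length_cons, Nat.cast_add, Nat.cast_one]
    have hS20 : 0 ≤ S2 := by
      rw [hS2]
      have : ∀ (v : List (St d)) (z : V d), 0 ≤ cost (fun e => c e ^ 2) z v := by
        intro v
        induction v with
        | nil => exact fun _ => le_rfl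
        | cons u v ihv => exact fun z => add_nonneg (sq_nonneg _) (ihv _)
      exact this w _
    obtain ⟨n, hn⟩ : ∃ n : ℝ, n = (w.length : ℝ) := ⟨_, rfl⟩
    have hn0 : 0 ≤ n := by rw [hn]; exact Nat.cast_nonneg _
    rw [← hn] at h1 ⊢
    have key : 0 ≤ n * t ^ 2 - 2 * t * S + S2 := by
      rcases hn0.lt_or_eq with h2 | h2
      · have h3 : 0 ≤ n * (n * t ^ 2 - 2 * t * S + S2) := by
          nlinarith [sq_nonneg (n * t - S)]
        exact nonneg_of_mul_nonneg_right h3 h2
      · rw [← h2, zero_mul] at h1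
        have h3 : S = 0 := pow_eq_zero_iff (two_ne_zero) |>.1 (le_antisymm h1 (sq_nonneg S))
        rw [h3, ← h2]
        linarith
    nlinarith

private theorem RT_meas (h : Env0 P X ν a b) (x y : V d) :
    Measurable fun ω => T (cf X ω) x y :=
  (measurable_T_cfg x y).comp (measurable_pi_lambda _ fun e => h.meas e)

private theorem RT_bd (h : Env0 P X ν a b) (x y : V d) : ∃ w : List (St d),
    (w.length : ℝ) = n1 (y - x) ∧ ∀ ω, 0 ≤ T (cf X ω) x y ∧
      T (cf X ω) x y ≤ cost (fun e => X e ω) x w ∧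
      T (cf X ω) x y ^ 2 ≤ w.length * cost (fun e => X e ω ^ 2) x w := by
  obtain ⟨w, hw, hl⟩ := exists_walk x y
  refine ⟨w, hl, fun ω => ?_⟩
  have h0 : 0 ≤ T (cf X ω) x y := T_nonneg (fun e => h.pos e ω) x y
  have h1 : T (cf X ω) x y ≤ cost (cf X ω) x w := T_le_cost (fun e => h.pos e ω) hw
  refine ⟨h0, h1, ?_⟩
  exact (pow_le_pow_left₀ h0 h1 2).trans (RT_cs (cf X ω) x w)

theorem integrable_T (h : Env0 P X ν a b) (hd : 1 ≤ d) (x y : V d) :
    Integrable (fun ω => T (cf X ω) x y) P := by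
  obtain ⟨w, -, hw⟩ := RT_bd h x y
  refine Integrable.mono' (RT_phi h measurable_id (h.integrable_id hd) x w).1
    (RT_meas h x y).aestronglyMeasurable (Filter.Eventually.of_forall fun ω => ?_)
  rw [Real.norm_eq_abs, abs_of_nonneg (hw ω).1]
  exact (hw ω).2.1

theorem integrable_T_sq (h : Env0 P X ν a b) (hd : 1 ≤ d) (x y : V d) :
    Integrable (fun ω => T (cf X ω) x y ^ 2) P := by
  obtain ⟨w, -, hw⟩ := RT_bd h x y
  refine Integrable.mono' ((RT_phi h (measurable_id.pow_const 2) (h.integrable_sq hd) x w).1.const_mul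
    (w.length : ℝ)) ((RT_meas h x y).pow_const 2).aestronglyMeasurable
    (Filter.Eventually.of_forall fun ω => ?_)
  rw [Real.norm_eq_abs, abs_of_nonneg (sq_nonneg _)]
  exact (hw ω).2.2

theorem integral_T_le (h : Env0 P X ν a b) (hd : 1 ≤ d) (x y : V d) :
    ∫ ω, T (cf X ω) x y ∂P ≤ (∫ x, x ∂ν) * n1 (y - x) := by
  obtain ⟨w, hl, hw⟩ := RT_bd h x y
  obtain ⟨h1, h2⟩ := RT_phi h measurable_id (h.integrable_id hd) x w
  calc ∫ ω, T (cf X ω) x y ∂P ≤ ∫ ω, cost (fun e => id (X e ω)) x w ∂P :=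
        integral_mono (integrable_T h hd x y) h1 fun ω => (hw ω).2.1
    _ = w.length * ∫ t, id t ∂ν := h2
    _ = (∫ x, x ∂ν) * n1 (y - x) := by rw [hl, mul_comm]; rfl

theorem integral_T_sq_le (h : Env0 P X ν a b) (hd : 1 ≤ d) (x y : V d) :
    ∫ ω, T (cf X ω) x y ^ 2 ∂P ≤ (∫ x, x ^ 2 ∂ν) * n1 (y - x) ^ 2 := by
  obtain ⟨w, hl, hw⟩ := RT_bd h x y
  obtain ⟨h1, h2⟩ := RT_phi h (measurable_id.pow_const 2) (h.integrable_sq hd) x w
  calc ∫ ω, T (cf X ω) x y ^ 2 ∂P ≤ ∫ ω, (w.length : ℝ) * cost (fun e => id (X e ω) ^ 2) x w ∂P :=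
        integral_mono (integrable_T_sq h hd x y) (h1.const_mul _) fun ω => (hw ω).2.2
    _ = w.length * (w.length * ∫ t, id t ^ 2 ∂ν) := by rw [integral_const_mul, h2]
    _ = (∫ x, x ^ 2 ∂ν) * n1 (y - x) ^ 2 := by
      rw [hl]
      simp only [id]
      ring

end Pool.Agent.Helper98.GK

end

/-! ## RB -/

section

namespace Pool.Agent.Helper98.GK

open MeasureTheory ProbabilityTheory Pool.Agent.Helper79.GR Pool.Agent.Helper79.GQ

variable {Ω : Type*} [MeasurableSpace Ω] {d : ℕ} {P : Measure Ω} {X : Edge d → Ω → ℝ}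
  {ν : Measure ℝ} {a b : ℝ}

theorem map_shift (h : Env0 P X ν a b) (v : V d) :
    P.map (fun ω e => X (sh v e) ω) = P.map (fun ω e => X e ω) := by
  have h1 : P.map (fun ω e => X e ω) = Measure.infinitePi (fun e => P.map (X e)) :=
    h.indep.map_fun_eq_infinitePi_map₀ (measurable_pi_iff.2 h.meas).aemeasurable
  have h2 : P.map (fun ω e => X (sh v e) ω) =
      Measure.infinitePi (fun e => P.map (X (sh v e))) :=
    (h.indep.precomp (sh_injective v)).map_fun_eq_infinitePi_map₀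
      (measurable_pi_iff.2 fun e => h.meas (sh v e)).aemeasurable
  rw [h1, h2]
  congr 1
  funext e
  rw [h.law, h.law]

theorem identDistrib_T (h : Env0 P X ν a b) (v x y : V d) :
    IdentDistrib (fun ω => T (cf X ω) (x + v) (y + v)) (fun ω => T (cf X ω) x y) P P := by
  have hX : Measurable fun ω => cf X ω := measurable_pi_iff.2 h.meas
  refine ⟨((measurable_T_cfg _ _).comp hX).aemeasurable,
    ((measurable_T_cfg _ _).comp hX).aemeasurable, ?_⟩
  have e1 : (fun ω => T (cf X ω) (x + v) (y + v)) =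
      (fun c : Edge d → ℝ => T c x y) ∘ (fun ω e => X (sh v e) ω) := by
    funext ω
    exact (T_shift (cf X ω) v x y).symm
  have e2 : (fun ω => T (cf X ω) x y) =
      (fun c : Edge d → ℝ => T c x y) ∘ (fun ω e => X e ω) := rfl
  rw [e1, e2, ← Measure.map_map (measurable_T_cfg x y)
    (measurable_pi_iff.2 fun e => h.meas (sh v e)),
    ← Measure.map_map (measurable_T_cfg x y) (measurable_pi_iff.2 h.meas), map_shift h v]

theorem integral_T (h : Env0 P X ν a b) (x y : V d) :
    ∫ ω, T (cf X ω) x y ∂P = mm P X (y - x) := by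
  have := (identDistrib_T h x 0 (y - x)).integral_eq
  simpa [mm] using this

theorem mm_neg (h : Env0 P X ν a b) (x : V d) : mm P X (-x) = mm P X x := by
  have h1 := integral_T h x 0
  rw [zero_sub] at h1
  rw [← h1]
  unfold mm
  simp only [T_symm _ x 0]

end Pool.Agent.Helper98.GK

end

/-! ## RD -/

section

namespace Pool.Agent.Helper98.GK

open MeasureTheory ProbabilityTheory Pool.Agent.Helper79.GR Pool.Agent.Helper79.GQ

variable {Ω : Type*} [MeasurableSpace Ω] {d : ℕ} {P : Measure Ω} {X : Edge d → Ω → ℝ}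
  {ν : Measure ℝ} {a b : ℝ}

private theorem RD_cost (x : V d) (w : List (St d)) :
    Measurable fun c : Edge d → ℝ => cost c x w := by
  induction w generalizing x with
  | nil =>
    change Measurable fun _ : Edge d → ℝ => (0 : ℝ)
    exact measurable_const
  | cons s w ih =>
    change Measurable fun c : Edge d → ℝ => c (ed x s) + cost c (x + sv s) w
    exact (measurable_pi_apply _).add (ih _)

theorem measurable_TL (L : ℕ) (x y : V d) : Measurable fun c : Edge d → ℝ => TL c L x y := by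
  have : Countable {w : List (St d) // w.length ≤ L ∧ pos x w = y} := inferInstance
  exact Measurable.iInf fun w => RD_cost x w.1

theorem T_le_TL {c : Edge d → ℝ} (hc : ∀ e, 0 < c e) (L : ℕ) (x y : V d)
    (hL : n1 (y - x) ≤ L) : T c x y ≤ TL c L x y := by
  obtain ⟨w, hw, hl⟩ := exists_walk x y
  have hw' : w.length ≤ L := by
    rw [← hl] at hL
    exact_mod_cast hL
  have hne : Nonempty {w : List (St d) // w.length ≤ L ∧ pos x w = y} := ⟨⟨w, hw', hw⟩⟩
  exact le_ciInf fun u => T_le_cost hc u.2.2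

theorem TL_nonneg {c : Edge d → ℝ} (hc : ∀ e, 0 < c e) (L : ℕ) (x y : V d) :
    0 ≤ TL c L x y :=
  Real.iInf_nonneg fun w => cost_nonneg hc x w.1

private theorem RD_shift (c : Edge d → ℝ) (L : ℕ) (v x y : V d) :
    TL (fun e => c (sh v e)) L x y = TL c L (x + v) (y + v) := by
  unfold TL
  have hm : ∀ w : List (St d), pos x w = y ↔ pos (x + v) w = y + v := by
    intro w
    rw [pos_add, add_left_inj]
  refine Function.Surjective.iInf_congr
    (fun w : {w : List (St d) // w.length ≤ L ∧ pos x w = y} =>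
      ⟨w.1, w.2.1, (hm w.1).1 w.2.2⟩) ?_ ?_
  · rintro ⟨w, hw1, hw2⟩
    exact ⟨⟨w, hw1, (hm w).2 hw2⟩, rfl⟩
  · rintro ⟨w, hw1, hw2⟩
    exact (cost_shift c v x w).symm

theorem identDistrib_TL (h : Env0 P X ν a b) (L : ℕ) (v x y : V d) :
    IdentDistrib (fun ω => TL (cf X ω) L (x + v) (y + v)) (fun ω => TL (cf X ω) L x y) P P := by
  have hX : Measurable fun ω => cf X ω := measurable_pi_iff.2 h.meas
  refine ⟨((measurable_TL _ _ _).comp hX).aemeasurable,
    ((measurable_TL _ _ _).comp hX).aemeasurable, ?_⟩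
  have e1 : (fun ω => TL (cf X ω) L (x + v) (y + v)) =
      (fun c : Edge d → ℝ => TL c L x y) ∘ (fun ω e => X (sh v e) ω) := by
    funext ω
    exact (RD_shift (cf X ω) L v x y).symm
  have e2 : (fun ω => TL (cf X ω) L x y) =
      (fun c : Edge d → ℝ => TL c L x y) ∘ (fun ω e => X e ω) := rfl
  rw [e1, e2, ← Measure.map_map (measurable_TL L x y)
    (measurable_pi_iff.2 fun e => h.meas (sh v e)),
    ← Measure.map_map (measurable_TL L x y) (measurable_pi_iff.2 h.meas), map_shift h v]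

private noncomputable def RDext (B : Finset (Edge d)) (g : B → ℝ) : Edge d → ℝ :=
  fun e => open Classical in if he : e ∈ B then g ⟨e, he⟩ else 0

private theorem RD_meas (B : Finset (Edge d)) : Measurable (RDext B) := by
  classical
  rw [measurable_pi_iff]
  intro e
  by_cases he : e ∈ B
  · have : (fun g : B → ℝ => RDext B g e) = fun g => g ⟨e, he⟩ := by
      funext g
      rw [RDext, dif_pos he]
    rw [this]
    exact measurable_pi_apply _
  · have : (fun g : B → ℝ => RDext B g e) = fun _ => 0 := by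
      funext g
      rw [RDext, dif_neg he]
    rw [this]
    exact measurable_const

private theorem RD_cost_congr {c c' : Edge d → ℝ} (w : List (St d)) (x : V d)
    (h : ∀ e ∈ eds x w, c e = c' e) : cost c x w = cost c' x w := by
  induction w generalizing x with
  | nil => rfl
  | cons s w ih =>
    change c (ed x s) + cost c (x + sv s) w = c' (ed x s) + cost c' (x + sv s) w
    rw [h (ed x s) List.mem_cons_self, ih (x + sv s) fun e he => h e (List.mem_cons_of_mem _ he)]

private theorem RD_eq (c : Edge d → ℝ) (x y : V d) (L : ℕ) :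
    TL c L x y = TL (RDext (box x L) fun i => c i) L x y := by
  classical
  unfold TL
  congr 1
  funext w
  refine RD_cost_congr w.1 x fun e he => ?_
  have hb : e ∈ box x L := mem_box.2 ⟨w.1, w.2.1, he⟩
  rw [RDext, dif_pos hb]

theorem indepFun_TL (h : Env0 P X ν a b) (x y x' y' : V d) (L : ℕ)
    (h3 : 2 * (L : ℝ) < n1 (x' - x)) :
    IndepFun (fun ω => TL (cf X ω) L x y) (fun ω => TL (cf X ω) L x' y') P := by
  have hd := box_disjoint x x' L h3
  have hi := iIndepFun.indepFun_finset (box x L) (box x' L) hd h.indep h.meas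
  have hc := hi.comp (φ := fun g => TL (RDext (box x L) g) L x y)
    (ψ := fun g => TL (RDext (box x' L) g) L x' y')
    ((measurable_TL L x y).comp (RD_meas (box x L)))
    ((measurable_TL L x' y').comp (RD_meas (box x' L)))
  have e1 : (fun ω => TL (cf X ω) L x y) = (fun g => TL (RDext (box x L) g) L x y) ∘
      fun ω (i : box x L) => X i ω := by
    funext ω
    exact RD_eq (cf X ω) x y L
  have e2 : (fun ω => TL (cf X ω) L x' y') = (fun g => TL (RDext (box x' L) g) L x' y') ∘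
      fun ω (i : box x' L) => X i ω := by
    funext ω
    exact RD_eq (cf X ω) x' y' L
  rw [e1, e2]
  exact hc

end Pool.Agent.Helper98.GK

end

/-! ## GE -/

section

namespace Pool.Agent.Helper98.GK

open MeasureTheory ProbabilityTheory Pool.Agent.Helper79.GR Pool.Agent.Helper79.GQ

private theorem GE_pos_take_succ {d : ℕ} (x : V d) (w : List (St d)) (i : ℕ)
    (hi : i < w.length) : Pool.Agent.Helper79.GR.pos x (w.take (i + 1)) =
      Pool.Agent.Helper79.GR.pos x (w.take i) + sv w[i] := by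
  induction w generalizing x i with
  | nil => exact absurd hi (Nat.not_lt_zero _)
  | cons s w ih =>
    cases i with
    | zero => rfl
    | succ i =>
      have := ih (x + sv s) i (by simpa using hi)
      simpa [Pool.Agent.Helper79.GR.pos] using this

private theorem GE_eds_getElem {d : ℕ} (x : V d) (w : List (St d)) (i : ℕ)
    (hi : i < (eds x w).length) (hi' : i < w.length) :
    (eds x w)[i] = ed (Pool.Agent.Helper79.GR.pos x (w.take i)) w[i] := by
  induction w generalizing x i with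
  | nil => exact absurd hi' (Nat.not_lt_zero _)
  | cons s w ih =>
    cases i with
    | zero => rfl
    | succ i =>
      have := ih (x + sv s) i (by simpa [eds] using hi) (by simpa using hi')
      simpa [eds, Pool.Agent.Helper79.GR.pos] using this

/-- cutting out a loop -/
private theorem GE_cut {d : ℕ} {c : Edge d → ℝ} (hc : ∀ e, 0 < c e) (x : V d) (w : List (St d))
    {i j : ℕ} (hij : i < j) (hj : j ≤ w.length)
    (heq : Pool.Agent.Helper79.GR.pos x (w.take i) = Pool.Agent.Helper79.GR.pos x (w.take j)) :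
    Pool.Agent.Helper79.GR.pos x (w.take i ++ w.drop j) = Pool.Agent.Helper79.GR.pos x w ∧
      (w.take i ++ w.drop j).length < w.length ∧
      cost c x (w.take i ++ w.drop j) ≤ cost c x w := by
  refine ⟨?_, ?_, ?_⟩
  · conv_rhs => rw [← List.take_append_drop j w]
    rw [pos_append, pos_append, heq]
  · rw [List.length_append, List.length_take, List.length_drop]
    omega
  · have h2 : w.take j = w.take i ++ (w.drop i).take (j - i) := by
      rw [← List.take_add]
      congr 1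
      omega
    have h3 : cost c x w = cost c x (w.take i) +
        cost c (Pool.Agent.Helper79.GR.pos x (w.take i)) ((w.drop i).take (j - i)) +
        cost c (Pool.Agent.Helper79.GR.pos x (w.take j)) (w.drop j) := by
      conv_lhs => rw [← List.take_append_drop j w]
      rw [cost_append]
      conv_lhs => rw [h2]
      rw [cost_append, ← h2]
    have h4 := cost_nonneg hc (Pool.Agent.Helper79.GR.pos x (w.take i))
      ((w.drop i).take (j - i))
    rw [cost_append, heq]
    rw [heq] at h3 h4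
    linarith

theorem exists_erase {d : ℕ} {c : Edge d → ℝ} (hc : ∀ e, 0 < c e) (x : V d) (w : List (St d)) :
    ∃ w' : List (St d), pos x w' = pos x w ∧ (eds x w').Nodup ∧ w'.length ≤ w.length ∧
      cost c x w' ≤ cost c x w := by
  obtain ⟨n, hn⟩ : ∃ n, n = w.length := ⟨_, rfl⟩
  induction n using Nat.strong_induction_on generalizing w with
  | _ n ih =>
    by_cases hnd : (eds x w).Nodup
    · exact ⟨w, rfl, hnd, le_rfl, le_rfl⟩
    · have hcut : ∃ i j : ℕ, i < j ∧ j ≤ w.length ∧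
          Pool.Agent.Helper79.GR.pos x (w.take i) =
            Pool.Agent.Helper79.GR.pos x (w.take j) := by
        by_contra hcon
        push Not at hcon
        apply hnd
        unfold List.Nodup
        rw [List.pairwise_iff_getElem]
        intro i j hi hj hij heq
        have hi' : i < w.length := by rwa [length_eds] at hi
        have hj' : j < w.length := by rwa [length_eds] at hj
        rw [GE_eds_getElem x w i hi hi', GE_eds_getElem x w j hj hj'] at heq
        have h1 := congrArg Subtype.val heq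
        simp only [ed, Sym2.eq_iff] at h1
        rcases h1 with h1 | h1
        · exact hcon i j hij hj'.le h1.1
        · rw [← GE_pos_take_succ x w j hj'] at h1
          exact hcon i (j + 1) (Nat.lt_succ_of_lt hij) hj' h1.1
      obtain ⟨i, j, hij, hj, heq⟩ := hcut
      obtain ⟨h1, h2, h3⟩ := GE_cut hc x w hij hj heq
      obtain ⟨w', h4, h5, h6, h7⟩ := ih _ (by rw [hn]; exact h2) (w.take i ++ w.drop j) rfl
      exact ⟨w', h4.trans h1, h5, h6.trans h2.le, h7.trans h3⟩

theorem exists_min {d : ℕ} {c : Edge d → ℝ} (h : Gd c) (x y : V d) :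
    ∃ w, pos x w = y ∧ cost c x w = T c x y ∧ (eds x w).Nodup := by
  obtain ⟨w₀, hw₀, -⟩ := exists_walk x y
  obtain ⟨u₀, hu₀, hu₀n, -, hu₀c⟩ := exists_erase h.pos x w₀
  rw [hw₀] at hu₀
  obtain ⟨M, hM⟩ := exists_nat_ge (cost c x u₀)
  obtain ⟨L, hL⟩ := h.far x M
  obtain ⟨S, hS⟩ : ∃ S : Set (List (St d)), S = {w | Pool.Agent.Helper79.GR.pos x w = y ∧
      (eds x w).Nodup ∧ w.length ≤ L + u₀.length} := ⟨_, rfl⟩
  have hfin : S.Finite := by
    rw [hS]
    exact (List.finite_length_le (St d) (L + u₀.length)).subset fun w hw => hw.2.2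
  have hmem : u₀ ∈ S := by
    rw [hS]
    exact ⟨hu₀, hu₀n, by omega⟩
  obtain ⟨w₁, hw₁, hmin⟩ := Set.exists_min_image S (fun w => cost c x w) hfin ⟨u₀, hmem⟩
  have hall : ∀ w : List (St d), Pool.Agent.Helper79.GR.pos x w = y →
      cost c x w₁ ≤ cost c x w := by
    intro w hw
    obtain ⟨w', h1, h2, -, h4⟩ := exists_erase h.pos x w
    by_cases hl : w'.length ≤ L + u₀.length
    · have h5 : w' ∈ S := by
        rw [hS]
        exact ⟨h1.trans hw, h2, hl⟩
      exact (hmin w' h5).trans h4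
    · have h5 := hL w' h2 (by omega)
      exact ((hmin u₀ hmem).trans hM).trans (h5.trans h4)
  rw [hS] at hw₁
  refine ⟨w₁, hw₁.1, le_antisymm ?_ (T_le_cost h.pos hw₁.1), hw₁.2.1⟩
  have : Nonempty {w : List (St d) // Pool.Agent.Helper79.GR.pos x w = y} := ⟨⟨w₀, hw₀⟩⟩
  exact le_ciInf fun w => hall w.1 w.2

end Pool.Agent.Helper98.GK

end

/-! ## RM -/

section

namespace Pool.Agent.Helper98.GK

open MeasureTheory ProbabilityTheory Pool.Agent.Helper79.GR Pool.Agent.Helper79.GQ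

variable {Ω : Type*} [MeasurableSpace Ω] {d : ℕ} {P : Measure Ω} {X : Edge d → Ω → ℝ}
  {ν : Measure ℝ} {a b : ℝ}

private theorem RM_le {c : Edge d → ℝ} (hc : ∀ e, 0 < c e) {L : ℕ} {x y : V d}
    {w : List (St d)} (hL : w.length ≤ L) (hw : pos x w = y) : TL c L x y ≤ cost c x w := by
  refine ciInf_le (f := fun w : {w : List (St d) // w.length ≤ L ∧ pos x w = y} => cost c x w.1)
    ⟨0, ?_⟩ ⟨w, hL, hw⟩
  rintro _ ⟨u, rfl⟩
  exact cost_nonneg hc _ _

private theorem RM_pos (h : Env0 P X ν a b) (ω : Ω) : ∀ e, 0 < cf X ω e := fun e => h.pos e ω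

private theorem RM_meas (h : Env0 P X ν a b) (L : ℕ) (x y : V d) :
    Measurable fun ω => TL (cf X ω) L x y :=
  (measurable_TL L x y).comp (measurable_pi_lambda _ fun e => h.meas e)

private theorem RM_cost (h : Env0 P X ν a b) (hd : 1 ≤ d) (x : V d) (w : List (St d)) :
    MemLp (fun ω => cost (cf X ω) x w) 2 P := by
  induction w generalizing x with
  | nil =>
    change MemLp (fun _ : Ω => (0 : ℝ)) 2 P
    exact MemLp.zero
  | cons s w ih =>
    have h1 : MemLp (X (ed x s)) 2 P := by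
      rw [memLp_two_iff_integrable_sq (h.meas _).aestronglyMeasurable]
      have h4 : Integrable (fun x : ℝ => x ^ 2) (P.map (X (ed x s))) := by
        rw [h.law]; exact h.integrable_sq hd
      exact (integrable_map_measure (measurable_id.pow_const 2).aestronglyMeasurable
        (h.meas _).aemeasurable).1 h4
    exact h1.add (ih (x + sv s))

private theorem RM_walk (x y : V d) (L : ℕ) (hL : n1 (y - x) ≤ L) : ∃ w : List (St d),
    w.length ≤ L ∧ pos x w = y := by
  obtain ⟨w, hw, hl⟩ := exists_walk x y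
  refine ⟨w, ?_, hw⟩
  rw [← hl] at hL
  exact_mod_cast hL

theorem TL_mean (h : EnvK P X ν a b) (hd : 1 ≤ d) (v : V d) (δ : ℝ) (hδ : 0 < δ) :
    ∃ L : ℕ, n1 v ≤ L ∧ ∫ ω, TL (cf X ω) L 0 v ∂P ≤ mm P X v + δ := by
  have hP := h.prob
  obtain ⟨w, hw, hl⟩ := exists_walk 0 v
  rw [sub_zero] at hl
  have h1 : Filter.Tendsto (fun n : ℕ => ∫ ω, TL (cf X ω) (w.length + n) 0 v ∂P) Filter.atTop
      (nhds (∫ ω, T (cf X ω) 0 v ∂P)) := by
    refine tendsto_integral_of_dominated_convergence (fun ω => cost (cf X ω) 0 w)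
      (fun n => (RM_meas h.toEnv0 _ _ _).aestronglyMeasurable)
      ((RM_cost h.toEnv0 hd 0 w).integrable (by norm_num)) (fun n => ?_) ?_
    · refine Filter.Eventually.of_forall fun ω => ?_
      rw [Real.norm_eq_abs, abs_of_nonneg (TL_nonneg (RM_pos h.toEnv0 ω) _ _ _)]
      exact RM_le (RM_pos h.toEnv0 ω) (Nat.le_add_right _ _) hw
    · refine Filter.Eventually.of_forall fun ω => ?_
      obtain ⟨u, hu1, hu2, -⟩ := exists_min (h.gd ω) 0 v
      refine tendsto_const_nhds.congr' ?_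
      filter_upwards [Filter.eventually_ge_atTop u.length] with n hn
      refine le_antisymm (T_le_TL (RM_pos h.toEnv0 ω) _ _ _ ?_) ?_
      · rw [sub_zero, ← hl]
        exact_mod_cast Nat.le_add_right _ _
      · rw [← hu2]
        exact RM_le (RM_pos h.toEnv0 ω) (hn.trans (Nat.le_add_left _ _)) hu1
  have h2 : ∀ᶠ n : ℕ in Filter.atTop, ∫ ω, TL (cf X ω) (w.length + n) 0 v ∂P <
      (∫ ω, T (cf X ω) 0 v ∂P) + δ := h1.eventually_lt_const (by linarith)
  obtain ⟨n, hn⟩ := h2.exists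
  refine ⟨w.length + n, ?_, ?_⟩
  · rw [← hl]
    exact_mod_cast Nat.le_add_right _ _
  · exact hn.le

theorem integrable_TL (h : Env0 P X ν a b) (hd : 1 ≤ d) (L : ℕ) (x y : V d)
    (hL : n1 (y - x) ≤ L) : Integrable (fun ω => TL (cf X ω) L x y) P := by
  have hP := h.prob
  obtain ⟨w, hl, hw⟩ := RM_walk x y L hL
  refine Integrable.mono' ((RM_cost h hd x w).integrable (by norm_num))
    (RM_meas h L x y).aestronglyMeasurable (Filter.Eventually.of_forall fun ω => ?_)
  rw [Real.norm_eq_abs, abs_of_nonneg (TL_nonneg (RM_pos h ω) _ _ _)]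
  exact RM_le (RM_pos h ω) hl hw

theorem integrable_TL_sq (h : Env0 P X ν a b) (hd : 1 ≤ d) (L : ℕ) (x y : V d)
    (hL : n1 (y - x) ≤ L) : Integrable (fun ω => TL (cf X ω) L x y ^ 2) P := by
  have hP := h.prob
  obtain ⟨w, hl, hw⟩ := RM_walk x y L hL
  refine Integrable.mono' (RM_cost h hd x w).integrable_sq
    ((RM_meas h L x y).pow_const 2).aestronglyMeasurable (Filter.Eventually.of_forall fun ω => ?_)
  rw [Real.norm_eq_abs, abs_of_nonneg (sq_nonneg _)]
  exact pow_le_pow_left₀ (TL_nonneg (RM_pos h ω) _ _ _)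
    (RM_le (RM_pos h ω) hl hw) 2

end Pool.Agent.Helper98.GK

end

/-! ## RE -/

section

namespace Pool.Agent.Helper98.GK

open MeasureTheory ProbabilityTheory

private theorem int_mul {Ω : Type*} [MeasurableSpace Ω] (P : Measure Ω) (Y : ℕ → Ω → ℝ)
    (hm : ∀ j, Measurable (Y j)) (hi : ∀ j, Integrable (fun ω => Y j ω ^ 2) P) (i j : ℕ) :
    Integrable (fun ω => Y i ω * Y j ω) P := by
  refine Integrable.mono' ((hi i).add (hi j)) ((hm i).mul (hm j)).aestronglyMeasurable
    (Filter.Eventually.of_forall fun ω => ?_)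
  rw [Real.norm_eq_abs, abs_mul]
  show |Y i ω| * |Y j ω| ≤ Y i ω ^ 2 + Y j ω ^ 2
  rw [← sq_abs (Y i ω), ← sq_abs (Y j ω)]
  nlinarith [sq_nonneg (|Y i ω| - |Y j ω|), sq_nonneg (|Y i ω|), sq_nonneg (|Y j ω|)]

private theorem cov_le {Ω : Type*} [MeasurableSpace Ω] (P : Measure Ω)
    (Y : ℕ → Ω → ℝ) (C : ℝ) (D : ℕ) (hm : ∀ j, Measurable (Y j))
    (hi : ∀ j, Integrable (fun ω => Y j ω ^ 2) P) (hC : ∀ j, ∫ ω, Y j ω ^ 2 ∂P ≤ C)
    (h0 : ∀ i j, i + D ≤ j → ∫ ω, Y i ω * Y j ω ∂P = 0) (i j : ℕ) :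
    ∫ ω, Y i ω * Y j ω ∂P ≤ if i < j + D ∧ j < i + D then C else 0 := by
  split_ifs with h
  · have h1 : ∫ ω, Y i ω * Y j ω ∂P ≤ ∫ ω, (Y i ω ^ 2 + Y j ω ^ 2) / 2 ∂P := by
      refine integral_mono (int_mul P Y hm hi i j) (((hi i).add (hi j)).div_const 2) fun ω => ?_
      show Y i ω * Y j ω ≤ (Y i ω ^ 2 + Y j ω ^ 2) / 2
      nlinarith [sq_nonneg (Y i ω - Y j ω)]
    rw [integral_div, integral_add (hi i) (hi j)] at h1
    have h2 := hC i
    have h3 := hC j
    linarith
  · rcases not_and_or.1 h with h | h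
    · have h1 := h0 j i (not_lt.1 h)
      rw [show (fun ω => Y i ω * Y j ω) = fun ω => Y j ω * Y i ω from
        funext fun ω => mul_comm _ _, h1]
    · rw [h0 i j (not_lt.1 h)]

private theorem row_le (C : ℝ) (hC0 : 0 ≤ C) (D k i : ℕ) :
    ∑ j ∈ Finset.range k, (if i < j + D ∧ j < i + D then C else 0) ≤ 2 * D * C := by
  rw [← Finset.sum_filter, Finset.sum_const, nsmul_eq_mul]
  refine mul_le_mul_of_nonneg_right ?_ hC0
  have h1 : (Finset.range k).filter (fun j => i < j + D ∧ j < i + D) ⊆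
      Finset.Ico (i + 1 - D) (i + D) := by
    intro j hj
    rw [Finset.mem_filter] at hj
    rw [Finset.mem_Ico]
    omega
  have h2 := Finset.card_le_card h1
  rw [Nat.card_Ico] at h2
  have h3 : ((Finset.range k).filter (fun j => i < j + D ∧ j < i + D)).card ≤ 2 * D := by
    omega
  exact_mod_cast h3

private theorem sq_int {Ω : Type*} [MeasurableSpace Ω] (P : Measure Ω)
    (Y : ℕ → Ω → ℝ) (C : ℝ) (hC0 : 0 ≤ C) (D : ℕ) (hm : ∀ j, Measurable (Y j))
    (hi : ∀ j, Integrable (fun ω => Y j ω ^ 2) P) (hC : ∀ j, ∫ ω, Y j ω ^ 2 ∂P ≤ C)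
    (h0 : ∀ i j, i + D ≤ j → ∫ ω, Y i ω * Y j ω ∂P = 0) (k : ℕ) :
    Integrable (fun ω => (∑ j ∈ Finset.range k, Y j ω) ^ 2) P ∧
      ∫ ω, (∑ j ∈ Finset.range k, Y j ω) ^ 2 ∂P ≤ k * (2 * D * C) := by
  have e : (fun ω => (∑ j ∈ Finset.range k, Y j ω) ^ 2) =
      fun ω => ∑ i ∈ Finset.range k, ∑ j ∈ Finset.range k, Y i ω * Y j ω := by
    funext ω
    rw [pow_two, Finset.sum_mul_sum]
  have hi' : ∀ i ∈ Finset.range k,
      Integrable (fun ω => ∑ j ∈ Finset.range k, Y i ω * Y j ω) P := fun i _ =>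
    integrable_finsetSum _ fun j _ => int_mul P Y hm hi i j
  rw [e]
  refine ⟨integrable_finsetSum _ hi', ?_⟩
  rw [integral_finsetSum _ hi']
  have h1 : ∀ i ∈ Finset.range k,
      ∫ ω, ∑ j ∈ Finset.range k, Y i ω * Y j ω ∂P ≤ 2 * D * C := by
    intro i _
    rw [integral_finsetSum _ fun j _ => int_mul P Y hm hi i j]
    exact (Finset.sum_le_sum fun j _ => cov_le P Y C D hm hi hC h0 i j).trans
      (row_le C hC0 D k i)
  refine (Finset.sum_le_sum h1).trans ?_
  simp

theorem wlln2 {Ω : Type*} [MeasurableSpace Ω] (P : Measure Ω) [IsProbabilityMeasure P]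
    (Y : ℕ → Ω → ℝ) (C : ℝ) (D : ℕ) (hm : ∀ j, Measurable (Y j))
    (hi : ∀ j, Integrable (fun ω => Y j ω ^ 2) P) (hC : ∀ j, ∫ ω, Y j ω ^ 2 ∂P ≤ C)
    (h0 : ∀ i j, i + D ≤ j → ∫ ω, Y i ω * Y j ω ∂P = 0) (δ p : ℝ) (hδ : 0 < δ) (hp : 0 < p) :
    ∃ k₀ : ℕ, ∀ k ≥ k₀, P.real {ω | k * δ < ∑ j ∈ Finset.range k, Y j ω} ≤ p := by
  have hC0 : 0 ≤ C := (integral_nonneg fun ω => sq_nonneg (Y 0 ω)).trans (hC 0)
  obtain ⟨k₀, hk₀⟩ := exists_nat_gt (2 * D * C / (p * δ ^ 2))
  refine ⟨k₀ + 1, fun k hk => ?_⟩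
  have hk1 : (0 : ℝ) < k := by
    have : 0 < k := by omega
    exact_mod_cast this
  have hk2 : (k₀ : ℝ) ≤ k := by
    have : k₀ ≤ k := by omega
    exact_mod_cast this
  obtain ⟨hi', hb⟩ := sq_int P Y C hC0 D hm hi hC h0 k
  have h1 : (k * δ) ^ 2 * P.real {ω | (k * δ) ^ 2 ≤ (∑ j ∈ Finset.range k, Y j ω) ^ 2} ≤
      ∫ ω, (∑ j ∈ Finset.range k, Y j ω) ^ 2 ∂P :=
    mul_meas_ge_le_integral_of_nonneg (Filter.Eventually.of_forall fun ω => sq_nonneg _) hi' _
  have h2 : P.real {ω | k * δ < ∑ j ∈ Finset.range k, Y j ω} ≤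
      P.real {ω | (k * δ) ^ 2 ≤ (∑ j ∈ Finset.range k, Y j ω) ^ 2} := by
    refine measureReal_mono (fun ω hω => ?_) (measure_ne_top P _)
    have h7 : k * δ < ∑ j ∈ Finset.range k, Y j ω := hω
    have h8 : (0 : ℝ) ≤ k * δ := by positivity
    exact pow_le_pow_left₀ h8 h7.le 2
  have hpos : 0 < (k * δ) ^ 2 := by positivity
  have h3 : (k * δ) ^ 2 * P.real {ω | k * δ < ∑ j ∈ Finset.range k, Y j ω} ≤
      k * (2 * D * C) := (mul_le_mul_of_nonneg_left h2 hpos.le).trans (h1.trans hb)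
  have h4 : 2 * D * C < k * (p * δ ^ 2) := by
    have h5 : 2 * D * C < k₀ * (p * δ ^ 2) := (div_lt_iff₀ (by positivity)).1 hk₀
    exact h5.trans_le (mul_le_mul_of_nonneg_right hk2 (by positivity))
  have h6 : (k * δ) ^ 2 * P.real {ω | k * δ < ∑ j ∈ Finset.range k, Y j ω} ≤ (k * δ) ^ 2 * p := by
    refine h3.trans ?_
    calc (k : ℝ) * (2 * D * C) ≤ k * (k * (p * δ ^ 2)) :=
          mul_le_mul_of_nonneg_left h4.le hk1.le
      _ = (k * δ) ^ 2 * p := by ring
  exact le_of_mul_le_mul_left h6 hpos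

end Pool.Agent.Helper98.GK

end

/-! ## RF -/

section

namespace Pool.Agent.Helper98.GK

open MeasureTheory ProbabilityTheory Pool.Agent.Helper79.GR Pool.Agent.Helper79.GQ

variable {Ω : Type*} [MeasurableSpace Ω] {d : ℕ} {P : Measure Ω} {X : Edge d → Ω → ℝ}
  {ν : Measure ℝ} {a b : ℝ}

private theorem rf_sub (v : V d) (j : ℕ) : (j + 1) • v - j • v = v := by
  rw [add_smul, one_smul, add_sub_cancel_left]

private theorem rf_chain {c : Edge d → ℝ} (h : ∀ e, 0 < c e) (v : V d) (L : ℕ)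
    (hL : n1 v ≤ L) (k : ℕ) :
    T c 0 (k • v) ≤ ∑ j ∈ Finset.range k, TL c L (j • v) ((j + 1) • v) := by
  induction k with
  | zero =>
    have h1 : T c 0 ((0 : ℕ) • v) ≤ cost c 0 [] :=
      T_le_cost h (by rw [zero_smul]; rfl)
    have h2 : cost c (0 : V d) [] = 0 := rfl
    rw [Finset.sum_range_zero]
    linarith
  | succ k ih =>
    rw [Finset.sum_range_succ]
    have h1 := T_triangle h 0 (k • v) ((k + 1) • v)
    have h2 := T_le_TL h L (k • v) ((k + 1) • v) (by rw [rf_sub]; exact hL)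
    linarith

theorem upper_lln (h : EnvK P X ν a b) (hd : 1 ≤ d) (v : V d) (δ p : ℝ) (hδ : 0 < δ)
    (hp : 0 < p) :
    ∃ k₀ : ℕ, ∀ k ≥ k₀, P.real {ω | k * (mm P X v + δ) < T (cf X ω) 0 (k • v)} ≤ p := by
  haveI := h.prob
  have hpos : ∀ (ω : Ω) (e : Edge d), 0 < cf X ω e := fun ω e => h.pos e ω
  have hn := n1_nonneg v
  by_cases hv : v = 0
  · refine ⟨0, fun k _ => ?_⟩
    have he : {ω | k * (mm P X v + δ) < T (cf X ω) 0 (k • v)} = ∅ := by
      apply Set.eq_empty_of_forall_notMem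
      intro ω hω
      have h4 : k * (mm P X v + δ) < T (cf X ω) 0 (k • v) := hω
      have h1 : T (cf X ω) 0 (k • v) ≤ cost (cf X ω) 0 [] :=
        T_le_cost (hpos ω) (by rw [hv, smul_zero]; rfl)
      have h2 : cost (cf X ω) (0 : V d) [] = 0 := rfl
      have h3 : 0 ≤ mm P X v := integral_nonneg fun ω => T_nonneg (hpos ω) 0 v
      have h5 : (0 : ℝ) ≤ k * (mm P X v + δ) := by positivity
      linarith
    rw [he, measureReal_empty]
    exact hp.le
  · have hn0 : 0 < n1 v := lt_of_le_of_ne hn fun e => hv (n1_eq_zero.1 e.symm)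
    obtain ⟨L, hL, hE⟩ := TL_mean h hd v (δ / 2) (half_pos hδ)
    obtain ⟨E, hEdef⟩ : ∃ E, E = ∫ ω, TL (cf X ω) L 0 v ∂P := ⟨_, rfl⟩
    rw [← hEdef] at hE
    obtain ⟨D, hD⟩ := exists_nat_gt (2 * (L : ℝ) / n1 v)
    have hD' : 2 * (L : ℝ) < D * n1 v := by rwa [div_lt_iff₀ hn0] at hD
    have hLj : ∀ j : ℕ, n1 ((j + 1) • v - j • v) ≤ L := by
      intro j
      rw [rf_sub]
      exact hL
    have hcf : Measurable fun ω => cf X ω := measurable_pi_lambda _ fun e => h.meas e
    have hmT : ∀ j : ℕ, Measurable fun ω => TL (cf X ω) L (j • v) ((j + 1) • v) :=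
      fun j => (measurable_TL L _ _).comp hcf
    have hmeas : ∀ j : ℕ, Measurable fun ω => TL (cf X ω) L (j • v) ((j + 1) • v) - E :=
      fun j => (hmT j).sub_const _
    have hiT : ∀ j : ℕ, Integrable (fun ω => TL (cf X ω) L (j • v) ((j + 1) • v)) P :=
      fun j => integrable_TL h.toEnv0 hd L _ _ (hLj j)
    have hint : ∀ j : ℕ, Integrable (fun ω => TL (cf X ω) L (j • v) ((j + 1) • v) - E) P :=
      fun j => (hiT j).sub (integrable_const _)
    have hid : ∀ j : ℕ, IdentDistrib (fun ω => TL (cf X ω) L (j • v) ((j + 1) • v))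
        (fun ω => TL (cf X ω) L 0 v) P P := by
      intro j
      have h1 := identDistrib_TL h.toEnv0 L (j • v) 0 v
      have h2 : v + j • v = (j + 1) • v := by rw [add_smul, one_smul, add_comm]
      rwa [zero_add, h2] at h1
    have hmean : ∀ j : ℕ, ∫ ω, (TL (cf X ω) L (j • v) ((j + 1) • v) - E) ∂P = 0 := by
      intro j
      rw [integral_sub (hiT j) (integrable_const _), (hid j).integral_eq, ← hEdef,
        integral_const]
      simp
    have hsq : ∀ j : ℕ,
        Integrable (fun ω => (TL (cf X ω) L (j • v) ((j + 1) • v) - E) ^ 2) P := by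
      intro j
      have h1 := ((integrable_TL_sq h.toEnv0 hd L _ _ (hLj j)).sub
        ((hiT j).const_mul (2 * E))).add (integrable_const (E ^ 2))
      refine h1.congr (Filter.Eventually.of_forall fun ω => ?_)
      show TL (cf X ω) L (j • v) ((j + 1) • v) ^ 2 -
        2 * E * TL (cf X ω) L (j • v) ((j + 1) • v) + E ^ 2 = _
      ring
    have hC : ∀ j : ℕ, ∫ ω, (TL (cf X ω) L (j • v) ((j + 1) • v) - E) ^ 2 ∂P ≤
        ∫ ω, (TL (cf X ω) L 0 v - E) ^ 2 ∂P := by
      intro j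
      have h1 := (hid j).comp (u := fun x : ℝ => (x - E) ^ 2)
        ((measurable_id.sub_const E).pow_const 2)
      exact h1.integral_eq.le
    have h0 : ∀ i j : ℕ, i + D ≤ j → ∫ ω, (TL (cf X ω) L (i • v) ((i + 1) • v) - E) *
        (TL (cf X ω) L (j • v) ((j + 1) • v) - E) ∂P = 0 := by
      intro i j hij
      have hsub : j • v - i • v = (j - i) • v := by
        obtain ⟨e, rfl⟩ := Nat.exists_eq_add_of_le (le_trans (Nat.le_add_right i D) hij)
        rw [add_smul, add_sub_cancel_left, Nat.add_sub_cancel_left]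
      have h3 : 2 * (L : ℝ) < n1 (j • v - i • v) := by
        rw [hsub, n1_nsmul]
        have h4 : (D : ℝ) ≤ ((j - i : ℕ) : ℝ) := by
          exact_mod_cast Nat.le_sub_of_add_le (by omega)
        exact lt_of_lt_of_le hD' (mul_le_mul_of_nonneg_right h4 hn)
      have hI := indepFun_TL h.toEnv0 (i • v) ((i + 1) • v) (j • v) ((j + 1) • v) L h3
      have hI2 : IndepFun (fun ω => TL (cf X ω) L (i • v) ((i + 1) • v) - E)
          (fun ω => TL (cf X ω) L (j • v) ((j + 1) • v) - E) P :=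
        hI.comp (φ := fun x : ℝ => x - E) (ψ := fun x : ℝ => x - E)
          (measurable_id.sub_const _) (measurable_id.sub_const _)
      have h5 := hI2.integral_fun_mul_eq_mul_integral
        (hint i).aestronglyMeasurable (hint j).aestronglyMeasurable
      rw [h5, hmean i, zero_mul]
    obtain ⟨k₀, hk₀⟩ := wlln2 P (fun (j : ℕ) ω => TL (cf X ω) L (j • v) ((j + 1) • v) - E)
      (∫ ω, (TL (cf X ω) L 0 v - E) ^ 2 ∂P) D hmeas hsq hC h0 (δ / 2) p (half_pos hδ) hp
    refine ⟨k₀, fun k hk => le_trans ?_ (hk₀ k hk)⟩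
    refine measureReal_mono ?_
    intro ω hω
    have h1 : k * (mm P X v + δ) < T (cf X ω) 0 (k • v) := hω
    have h2 := rf_chain (hpos ω) v L hL k
    change (k : ℝ) * (δ / 2) <
      ∑ j ∈ Finset.range k, (TL (cf X ω) L (j • v) ((j + 1) • v) - E)
    rw [Finset.sum_sub_distrib, Finset.sum_const, Finset.card_range, nsmul_eq_mul]
    have h3 : (k : ℝ) * E ≤ k * (mm P X v + δ / 2) :=
      mul_le_mul_of_nonneg_left hE (Nat.cast_nonneg k)
    have h4 : (k : ℝ) * (mm P X v + δ) = k * (mm P X v + δ / 2) + k * (δ / 2) := by ring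
    linarith

end Pool.Agent.Helper98.GK

end
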