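import Pool.Agent.Helper98.GM.M1
import Pool.Agent.Helper79.GQ.LH
import Pool.Agent.Helper79.GQ.LA
import Pool.Agent.Helper79.GR.NC
import Pool.Agent.Helper79.GQ.IC
import Pool.Agent.Helper79.GQ.IE

/-!
Project GK (MP_13b103_pr, geodesic rays for laws which touch `0` and are unbounded), part M2: uniform regularity and the uniform law of large numbers.
Merged from the files of the folder GK (pieces by the whole team).
-/

set_option autoImplicit false

/-! ## PA -/

section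

namespace Pool.Agent.Helper98.GK

open MeasureTheory ProbabilityTheory Pool.Agent.Helper79.GR Pool.Agent.Helper79.GQ

variable {Ω : Type*} [MeasurableSpace Ω] {d : ℕ} {P : Measure Ω} {X : Edge d → Ω → ℝ}
  {ν : Measure ℝ} {a b : ℝ}

open Classical in
omit [MeasurableSpace Ω] in
private theorem PA_sum (x : V d) (w : List (St d)) (hw : (eds x w).Nodup) :
    (fun ω => cost (cf X ω) x w) = ∑ e ∈ (eds x w).toFinset, X e := by
  ext ω
  rw [Finset.sum_apply, List.sum_toFinset _ hw, cost_eq_sum]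
  rfl

open Classical in
private theorem PA_mgf (h : Env0 P X ν a b) (x : V d) (w : List (St d)) (hw : (eds x w).Nodup)
    (t : ℝ) : mgf (fun ω => cost (cf X ω) x w) P t =
      (∫ y, Real.exp (t * y) ∂ν) ^ w.length := by
  have h2 : ∀ e, mgf (X e) P t = ∫ y, Real.exp (t * y) ∂ν := by
    intro e
    rw [mgf, ← h.law e, integral_map (h.meas e).aemeasurable]
    exact (by fun_prop : Measurable fun y : ℝ => Real.exp (t * y)).aestronglyMeasurable
  rw [PA_sum x w hw, h.indep.mgf_sum h.meas]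
  simp only [h2]
  rw [Finset.prod_const, List.toFinset_card_of_nodup hw, length_eds]

open Classical in
private theorem PA_int (h : Env0 P X ν a b) (x : V d) (w : List (St d)) (hw : (eds x w).Nodup)
    (t : ℝ) (ht : Integrable (fun y => Real.exp (t * y)) ν) :
    Integrable (fun ω => Real.exp (t * cost (cf X ω) x w)) P := by
  have := h.prob
  have h1 : ∀ e ∈ (eds x w).toFinset, Integrable (fun ω => Real.exp (t * X e ω)) P := by
    intro e _
    rw [← h.law e] at ht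
    exact (integrable_map_measure ht.aestronglyMeasurable (h.meas e).aemeasurable).1 ht
  have h2 := h.indep.integrable_exp_mul_sum h.meas h1
  rw [← PA_sum x w hw] at h2
  exact h2

private theorem PA_prob (h : Env0 P X ν a b) (hd : 1 ≤ d) : IsProbabilityMeasure ν := by
  have := h.prob
  have : NeZero d := ⟨by omega⟩
  have e : Edge d := ed 0 (0, true)
  rw [← h.law e]
  exact Measure.isProbabilityMeasure_map (h.meas e).aemeasurable

private theorem PA_nonneg (h : Env0 P X ν a b) (hd : 1 ≤ d) : ∀ᵐ y ∂ν, 0 ≤ y := by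
  have := h.prob
  have : NeZero d := ⟨by omega⟩
  have e : Edge d := ed 0 (0, true)
  rw [← h.law e]
  rw [ae_map_iff (h.meas e).aemeasurable measurableSet_Ici]
  exact Filter.Eventually.of_forall fun ω => (h.pos e ω).le

theorem walk_lo (h : Env0 P X ν a b) (hd : 1 ≤ d) (x : V d) (w : List (St d))
    (hw : (eds x w).Nodup) :
    P.real {ω | cost (cf X ω) x w < a * w.length} ≤ (1 / (4 * d) : ℝ) ^ w.length := by
  have := h.prob
  have := PA_prob h hd
  obtain ⟨l, hl, h1⟩ := h.lo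
  have hd' : (1 : ℝ) ≤ d := by exact_mod_cast hd
  have hint : Integrable (fun y => Real.exp (-l * y)) ν := by
    refine Integrable.of_bound
      (by fun_prop : Measurable fun y : ℝ => Real.exp (-l * y)).aestronglyMeasurable 1 ?_
    filter_upwards [PA_nonneg h hd] with y hy
    rw [Real.norm_eq_abs, abs_of_pos (Real.exp_pos _), Real.exp_le_one_iff]
    nlinarith
  have h2 := measure_le_le_exp_mul_mgf (μ := P) (X := fun ω => cost (cf X ω) x w)
    (a * w.length) (neg_nonpos.2 hl.le) (PA_int h x w hw (-l) hint)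
  rw [PA_mgf h x w hw] at h2
  have h3 : P.real {ω | cost (cf X ω) x w < a * w.length} ≤
      P.real {ω | cost (cf X ω) x w ≤ a * w.length} :=
    measureReal_mono (fun ω (hω : cost (cf X ω) x w < a * w.length) => hω.le) (measure_ne_top _ _)
  refine h3.trans (h2.trans ?_)
  have e1 : Real.exp (- -l * (a * w.length)) = Real.exp (l * a) ^ w.length := by
    rw [← Real.exp_nat_mul]
    congr 1
    ring
  rw [e1, ← mul_pow]
  have hI : 0 ≤ ∫ y, Real.exp (-l * y) ∂ν := integral_nonneg fun y => (Real.exp_pos _).le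
  refine pow_le_pow_left₀ (mul_nonneg (Real.exp_pos _).le hI) ?_ _
  rw [le_div_iff₀ (by linarith)]
  have e2 : ∫ y, Real.exp (-l * y) ∂ν = ∫ y, Real.exp (-(l * y)) ∂ν := by
    congr 1
    ext y
    rw [neg_mul]
  rw [e2]
  linarith

theorem walk_up (h : Env0 P X ν a b) (hd : 1 ≤ d) (x : V d) (w : List (St d))
    (hw : (eds x w).Nodup) :
    P.real {ω | b * w.length < cost (cf X ω) x w} ≤ (1 / (4 * d) : ℝ) ^ w.length := by
  have := h.prob
  have := PA_prob h hd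
  obtain ⟨l, hl, hint, h1⟩ := h.up
  have hd' : (1 : ℝ) ≤ d := by exact_mod_cast hd
  have h2 := measure_ge_le_exp_mul_mgf (μ := P) (X := fun ω => cost (cf X ω) x w)
    (b * w.length) hl.le (PA_int h x w hw l hint)
  rw [PA_mgf h x w hw] at h2
  have h3 : P.real {ω | b * w.length < cost (cf X ω) x w} ≤
      P.real {ω | b * w.length ≤ cost (cf X ω) x w} :=
    measureReal_mono (fun ω (hω : b * w.length < cost (cf X ω) x w) => hω.le) (measure_ne_top _ _)
  refine h3.trans (h2.trans ?_)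
  have e1 : Real.exp (-l * (b * w.length)) = Real.exp (-(l * b)) ^ w.length := by
    rw [← Real.exp_nat_mul]
    congr 1
    ring
  rw [e1, ← mul_pow]
  have hI : 0 ≤ ∫ y, Real.exp (l * y) ∂ν := integral_nonneg fun y => (Real.exp_pos _).le
  refine pow_le_pow_left₀ (mul_nonneg (Real.exp_pos _).le hI) ?_ _
  rw [le_div_iff₀ (by linarith)]
  linarith

end Pool.Agent.Helper98.GK

end

/-! ## PB -/

section

namespace Pool.Agent.Helper98.GK

open MeasureTheory ProbabilityTheory Pool.Agent.Helper79.GR Pool.Agent.Helper79.GQ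

variable {Ω : Type*} [MeasurableSpace Ω] {d : ℕ} {P : Measure Ω} {X : Edge d → Ω → ℝ}
  {ν : Measure ℝ} {a b : ℝ}

theorem reg_prob (h : Env0 P X ν a b) (hd : 1 ≤ d) (x : V d) (n : ℕ) :
    P.real {ω | ∃ w : List (St d), w.length = n ∧ (eds x w).Nodup ∧
      (cost (cf X ω) x w < a * n ∨ b * n < cost (cf X ω) x w)} ≤ 2 * (1 / 2 : ℝ) ^ n := by
  have := h.prob
  classical
  have hsub : {ω | ∃ w : List (St d), w.length = n ∧ (eds x w).Nodup ∧
      (cost (cf X ω) x w < a * n ∨ b * n < cost (cf X ω) x w)} ⊆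
      ⋃ v ∈ (Finset.univ : Finset (Fin n → St d)), {ω | (eds x (List.ofFn v)).Nodup ∧
      (cost (cf X ω) x (List.ofFn v) < a * n ∨ b * n < cost (cf X ω) x (List.ofFn v))} := by
    rintro ω ⟨w, hw, hn, hc⟩
    subst hw
    refine Set.mem_biUnion (x := w.get) (Finset.mem_coe.2 (Finset.mem_univ _)) ?_
    rw [Set.mem_ofPred_eq, List.ofFn_get]
    exact ⟨hn, hc⟩
  refine (measureReal_mono hsub (measure_ne_top P _)).trans
    ((measureReal_biUnion_finset_le _ _).trans ?_)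
  have h1 : ∀ v ∈ (Finset.univ : Finset (Fin n → St d)),
      P.real {ω | (eds x (List.ofFn v)).Nodup ∧
      (cost (cf X ω) x (List.ofFn v) < a * n ∨ b * n < cost (cf X ω) x (List.ofFn v))} ≤
      2 * (1 / (4 * d) : ℝ) ^ n := by
    intro v _
    by_cases hv : (eds x (List.ofFn v)).Nodup
    · have e1 := walk_lo h hd x _ hv
      have e2 := walk_up h hd x _ hv
      rw [List.length_ofFn] at e1 e2
      have e3 : {ω | (eds x (List.ofFn v)).Nodup ∧
          (cost (cf X ω) x (List.ofFn v) < a * n ∨ b * n < cost (cf X ω) x (List.ofFn v))} ⊆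
          {ω | cost (cf X ω) x (List.ofFn v) < a * n} ∪
            {ω | b * n < cost (cf X ω) x (List.ofFn v)} := fun ω hω => hω.2
      refine (measureReal_mono e3).trans ((measureReal_union_le _ _).trans ?_)
      linarith
    · have e0 : {ω | (eds x (List.ofFn v)).Nodup ∧
          (cost (cf X ω) x (List.ofFn v) < a * n ∨ b * n < cost (cf X ω) x (List.ofFn v))} =
          (∅ : Set Ω) := by
        ext ω
        simp only [Set.mem_ofPred_eq, Set.mem_empty_iff_false, iff_false]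
        exact fun hω => hv hω.1
      rw [e0, measureReal_empty]
      positivity
  refine (Finset.sum_le_card_nsmul _ _ _ h1).trans (le_of_eq ?_)
  have hd0 : (d : ℝ) ≠ 0 := by
    have : (1 : ℝ) ≤ d := by exact_mod_cast hd
    positivity
  rw [Finset.card_univ, Fintype.card_fun, Fintype.card_fin, Fintype.card_prod, Fintype.card_fin,
    Fintype.card_bool, nsmul_eq_mul]
  push_cast
  rw [mul_left_comm, ← mul_pow]
  congr 2
  field_simp
  norm_num

theorem T_lo_prob (h : Env0 P X ν a b) (hd : 1 ≤ d) (x y : V d) (k : ℕ)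
    (hk : n1 (y - x) = k) :
    P.real {ω | T (cf X ω) x y < a * n1 (y - x)} ≤ 4 * (1 / 2 : ℝ) ^ k := by
  have := h.prob
  classical
  have hsub : {ω | T (cf X ω) x y < a * n1 (y - x)} ⊆
      ⋃ i : ℕ, {ω | ∃ w : List (St d), w.length = k + i ∧ (eds x w).Nodup ∧
        (cost (cf X ω) x w < a * (k + i : ℕ) ∨ b * (k + i : ℕ) < cost (cf X ω) x w)} := by
    intro ω hω
    have hpos : ∀ e, 0 < cf X ω e := fun e => h.pos e ω
    obtain ⟨w₀, hw₀, -⟩ := exists_walk x y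
    have : Nonempty {w : List (St d) // pos x w = y} := ⟨⟨w₀, hw₀⟩⟩
    obtain ⟨⟨w, hw⟩, hlt⟩ := exists_lt_of_ciInf_lt (show (⨅ w : {w : List (St d) // pos x w = y},
      cost (cf X ω) x w.1) < a * n1 (y - x) from hω)
    obtain ⟨w', hp, hn, -, hc⟩ := exists_erase hpos x w
    have h1 : n1 (y - x) ≤ w'.length := by
      have h2 := n1_pos_sub_le x w'
      rw [hp, hw] at h2
      exact h2
    have h2 : k ≤ w'.length := by
      rw [hk] at h1
      exact_mod_cast h1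
    refine Set.mem_iUnion.2 ⟨w'.length - k, w', by omega, hn, Or.inl ?_⟩
    rw [Nat.add_sub_cancel' h2]
    exact hc.trans_lt (hlt.trans_le (mul_le_mul_of_nonneg_left h1 h.apos.le))
  have hle : P {ω | T (cf X ω) x y < a * n1 (y - x)} ≤ ENNReal.ofReal (4 * (1 / 2 : ℝ) ^ k) := by
    refine (measure_mono hsub).trans ((measure_iUnion_le _).trans ?_)
    have hb : ∀ i : ℕ, P {ω | ∃ w : List (St d), w.length = k + i ∧ (eds x w).Nodup ∧
        (cost (cf X ω) x w < a * (k + i : ℕ) ∨ b * (k + i : ℕ) < cost (cf X ω) x w)} ≤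
        ENNReal.ofReal (2 * (1 / 2 : ℝ) ^ k * (1 / 2 : ℝ) ^ i) := by
      intro i
      rw [← ofReal_measureReal]
      apply ENNReal.ofReal_le_ofReal
      have h3 := reg_prob h hd x (k + i)
      rw [pow_add, ← mul_assoc] at h3
      exact h3
    refine (ENNReal.tsum_le_tsum hb).trans (le_of_eq ?_)
    have hs : HasSum (fun i : ℕ => 2 * (1 / 2 : ℝ) ^ k * (1 / 2 : ℝ) ^ i)
        (2 * (1 / 2 : ℝ) ^ k * (1 - 1 / 2)⁻¹) :=
      (hasSum_geometric_of_lt_one (by norm_num) (by norm_num)).mul_left _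
    rw [← ENNReal.ofReal_tsum_of_nonneg (fun i => by positivity) hs.summable, hs.tsum_eq]
    congr 1
    norm_num
    ring
  rw [Measure.real]
  exact ENNReal.toReal_le_of_le_ofReal (by positivity) hle

end Pool.Agent.Helper98.GK

end

/-! ## RC -/

section

namespace Pool.Agent.Helper98.GK

open MeasureTheory ProbabilityTheory Pool.Agent.Helper79.GR Pool.Agent.Helper79.GQ

variable {Ω : Type*} [MeasurableSpace Ω] {d : ℕ} {P : Measure Ω} {X : Edge d → Ω → ℝ}
  {ν : Measure ℝ} {a b : ℝ}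

private theorem rc_add (h : Env0 P X ν a b) (hd : 1 ≤ d) (x y : V d) :
    mm P X (x + y) ≤ mm P X x + mm P X y := by
  have h1 : ∫ ω, T (cf X ω) x (x + y) ∂P = mm P X y := by
    rw [integral_T h x (x + y), add_sub_cancel_left]
  rw [← h1]
  unfold mm
  rw [← integral_add (integrable_T h hd 0 x) (integrable_T h hd x (x + y))]
  refine integral_mono (integrable_T h hd 0 (x + y))
    ((integrable_T h hd 0 x).add (integrable_T h hd x (x + y))) fun ω => ?_
  exact Pool.Agent.Helper98.GK.T_triangle (fun e => h.pos e ω) 0 x (x + y)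

private theorem rc_hi (h : Env0 P X ν a b) (hd : 1 ≤ d) (x : V d) :
    mm P X x ≤ (∫ x, x ∂ν) * n1 x := by
  have h1 := integral_T_le h hd 0 x
  rw [sub_zero] at h1
  exact h1

private theorem rc_nsmul (h : Env0 P X ν a b) (hd : 1 ≤ d) (x : V d) (k : ℕ) :
    mm P X (k • x) ≤ k * mm P X x := by
  induction k with
  | zero =>
    have h1 := rc_hi h hd (0 : V d)
    rw [n1_zero, mul_zero] at h1
    simpa using h1
  | succ k ih =>
    have h1 := rc_add h hd (k • x) x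
    rw [← succ_nsmul] at h1
    push_cast
    linarith

private theorem rc_lo (h : Env0 P X ν a b) (hd : 1 ≤ d) (x : V d) (k : ℕ) (hk : n1 x = k) :
    a * k * (1 - 4 * (1 / 2 : ℝ) ^ k) ≤ mm P X x := by
  have := h.prob
  have h1 := T_lo_prob h hd 0 x k (by rw [sub_zero, hk])
  rw [sub_zero, hk] at h1
  have h2 := mul_meas_ge_le_integral_of_nonneg (μ := P) (f := fun ω => T (cf X ω) 0 x)
    (Filter.Eventually.of_forall fun ω =>
      Pool.Agent.Helper98.GK.T_nonneg (fun e => h.pos e ω) 0 x)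
    (integrable_T h hd 0 x) (a * k)
  have h3 : 1 ≤ P.real {ω | T (cf X ω) 0 x < a * k} + P.real {ω | a * k ≤ T (cf X ω) 0 x} := by
    have h4 : (Set.univ : Set Ω) ⊆
        {ω | T (cf X ω) 0 x < a * k} ∪ {ω | a * k ≤ T (cf X ω) 0 x} := by
      intro ω _
      rcases lt_or_ge (T (cf X ω) 0 x) (a * k) with h5 | h5
      · exact Or.inl h5
      · exact Or.inr h5
    have h5 := (measureReal_mono h4 (measure_ne_top P _)).trans (measureReal_union_le _ _)
    rwa [probReal_univ] at h5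
  have h4 : 0 ≤ a * k := mul_nonneg h.apos.le (Nat.cast_nonneg k)
  refine le_trans ?_ h2
  exact mul_le_mul_of_nonneg_left (by linarith) h4

theorem subM_mm (h : Env0 P X ν a b) (hd : 1 ≤ d) : SubM a (∫ x, x ∂ν) (mm P X) where
  apos := h.apos
  add := rc_add h hd
  hi := rc_hi h hd
  lo := by
    intro x
    obtain ⟨N, hN⟩ := exists_nat_n1 x
    have key : ∀ k : ℕ, a * N * (1 - 4 * (1 / 2 : ℝ) ^ k) ≤ mm P X x := by
      intro k
      rcases Nat.eq_zero_or_pos N with h0 | h0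
      · subst h0
        have h1 := rc_lo h hd x 0 (by rw [hN])
        simpa using h1
      rcases Nat.eq_zero_or_pos k with hk | hk
      · subst hk
        have h1 : 0 ≤ mm P X x := integral_nonneg fun ω =>
          Pool.Agent.Helper98.GK.T_nonneg (fun e => h.pos e ω) 0 x
        have h2 : 0 ≤ a * N := mul_nonneg h.apos.le (Nat.cast_nonneg N)
        rw [pow_zero]
        nlinarith
      · have h1 := rc_lo h hd (k • x) (k * N) (by rw [n1_nsmul, hN]; push_cast; rfl)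
        have h2 := rc_nsmul h hd x k
        have h3 : (1 / 2 : ℝ) ^ (k * N) ≤ (1 / 2 : ℝ) ^ k :=
          pow_le_pow_of_le_one (by norm_num) (by norm_num) (Nat.le_mul_of_pos_right k h0)
        have hk' : (0 : ℝ) < k := by exact_mod_cast hk
        have h4 : 0 ≤ a * N := mul_nonneg h.apos.le (Nat.cast_nonneg N)
        have h5 : (k : ℝ) * (a * N * (1 - 4 * (1 / 2 : ℝ) ^ k)) ≤ k * mm P X x := by
          calc (k : ℝ) * (a * N * (1 - 4 * (1 / 2 : ℝ) ^ k))
              ≤ (k : ℝ) * (a * N * (1 - 4 * (1 / 2 : ℝ) ^ (k * N))) := by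
                apply mul_le_mul_of_nonneg_left _ hk'.le
                apply mul_le_mul_of_nonneg_left _ h4
                linarith
            _ = a * (k * N : ℕ) * (1 - 4 * (1 / 2 : ℝ) ^ (k * N)) := by
                push_cast
                ring
            _ ≤ _ := h1.trans h2
        exact le_of_mul_le_mul_left h5 hk'
    have h1 : Filter.Tendsto (fun k : ℕ => a * N * (1 - 4 * (1 / 2 : ℝ) ^ k)) Filter.atTop
        (nhds (a * N * (1 - 4 * 0))) :=
      ((((tendsto_pow_atTop_nhds_zero_of_lt_one (by norm_num) (by norm_num)).const_mul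
        4).const_sub 1).const_mul (a * N))
    have h2 := le_of_tendsto' h1 key
    rw [mul_zero, sub_zero, mul_one] at h2
    rw [hN]
    exact h2

end Pool.Agent.Helper98.GK

end

/-! ## RG -/

section

namespace Pool.Agent.Helper98.GK

open MeasureTheory ProbabilityTheory Pool.Agent.Helper79.GR Pool.Agent.Helper79.GQ

variable {Ω : Type*} [MeasurableSpace Ω] {d : ℕ} {P : Measure Ω} {X : Edge d → Ω → ℝ}
  {ν : Measure ℝ} {a b : ℝ}

private theorem rg_amgm {k l t : ℝ} (hk : 0 < k) (hl : 0 < l) :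
    t ≤ l / k * t ^ 2 + k / (4 * l) := by
  have h1 : l / k * t ^ 2 + k / (4 * l) - t = (2 * l * t - k) ^ 2 / (4 * l * k) := by
    field_simp
    ring
  have h2 : 0 ≤ (2 * l * t - k) ^ 2 / (4 * l * k) := by positivity
  linarith

theorem lower_lln (h : EnvK P X ν a b) (hd : 1 ≤ d) (v : V d) (δ δ' : ℝ) (hδ : 0 < δ)
    (hδ' : 0 < δ') :
    ∃ k₀ : ℕ, ∀ k ≥ k₀,
      P.real {ω | T (cf X ω) 0 (k • v) < k * (tc (mm P X) (rv v) - δ')} * δ' ≤
        mm P X v - tc (mm P X) (rv v) + δ := by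
  have := h.prob
  have hS := subM_mm h.toEnv0 hd
  set t : ℝ := tc (mm P X) (rv v) with ht
  have hmm0 : 0 ≤ mm P X v := hS.nonneg v
  have htm : t ≤ mm P X v := by
    have h1 := mul_tc_le hS v 1
    rw [one_smul] at h1
    simpa using h1
  -- the second moment
  obtain ⟨S2, hS2⟩ : ∃ S2, S2 = ∫ x, x ^ 2 ∂ν := ⟨_, rfl⟩
  have hS20 : 0 ≤ S2 := by
    rw [hS2]
    exact integral_nonneg fun x => sq_nonneg x
  obtain ⟨M, hM⟩ : ∃ M, M = S2 * n1 v ^ 2 + 1 := ⟨_, rfl⟩
  have hM0 : 0 < M := by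
    rw [hM]
    positivity
  obtain ⟨l, hl⟩ : ∃ l, l = δ / (4 * M) := ⟨_, rfl⟩
  have hl0 : 0 < l := by
    rw [hl]
    positivity
  obtain ⟨k₀, hk₀⟩ := upper_lln h hd v (δ / 2) (δ * l) (by positivity) (by positivity)
  refine ⟨k₀ + 1, fun k hk => ?_⟩
  have hk1 : (1 : ℝ) ≤ k := by exact_mod_cast (by omega : 1 ≤ k)
  have hk0 : (0 : ℝ) < k := by linarith
  have hH := hk₀ k (by omega)
  set A : Set Ω := {ω | T (cf X ω) 0 (k • v) < k * (t - δ')} with hA
  set H : Set Ω := {ω | k * (mm P X v + δ / 2) < T (cf X ω) 0 (k • v)} with hHd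
  have hmT : Measurable fun ω => T (cf X ω) 0 (k • v) :=
    (measurable_T_cfg 0 (k • v)).comp (measurable_pi_lambda _ fun e => h.meas e)
  have hmA : MeasurableSet A := measurableSet_lt hmT measurable_const
  have hmH : MeasurableSet H := measurableSet_lt measurable_const hmT
  have hPA0 : 0 ≤ P.real A := measureReal_nonneg
  have hPA1 : P.real A ≤ 1 := measureReal_le_one
  have hPH0 : 0 ≤ P.real H := measureReal_nonneg
  have hsqi : Integrable (fun ω => l / k * T (cf X ω) 0 (k • v) ^ 2) P :=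
    (integrable_T_sq h.toEnv0 hd 0 (k • v)).const_mul _
  have hsq : ∫ ω, T (cf X ω) 0 (k • v) ^ 2 ∂P ≤ M * k ^ 2 := by
    refine (integral_T_sq_le h.toEnv0 hd 0 (k • v)).trans ?_
    rw [sub_zero, n1_nsmul, ← hS2, hM]
    nlinarith [sq_nonneg (k : ℝ)]
  -- the bound on the expectation
  have hint : mm P X (k • v) ≤
      k * (t - δ') * P.real A + l / k * (M * k ^ 2) + k / (4 * l) * P.real H +
        k * (mm P X v + δ / 2) * (1 - P.real A) := by
    have hcA : P.real A + P.real Aᶜ = 1 := by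
      rw [probReal_compl_eq_one_sub hmA]; ring
    have h1 : mm P X (k • v) ≤ ∫ ω, (A.indicator (fun _ => k * (t - δ')) ω +
        l / k * T (cf X ω) 0 (k • v) ^ 2 +
        H.indicator (fun _ => k / (4 * l)) ω +
        Aᶜ.indicator (fun _ => k * (mm P X v + δ / 2)) ω) ∂P := by
      refine integral_mono (integrable_T h.toEnv0 hd 0 (k • v)) ?_ ?_
      · exact ((((integrable_const _).indicator hmA).add hsqi).add
          ((integrable_const _).indicator hmH)).add ((integrable_const _).indicator hmA.compl)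
      · intro ω
        have h0 : 0 ≤ l / k * T (cf X ω) 0 (k • v) ^ 2 := by positivity
        have h3 : (0 : ℝ) ≤ H.indicator (fun _ => k / (4 * l)) ω :=
          Set.indicator_nonneg (fun _ _ => by positivity) ω
        have h7 := rg_amgm (t := T (cf X ω) 0 (k • v)) hk0 hl0
        change T (cf X ω) 0 (k • v) ≤ A.indicator (fun _ => k * (t - δ')) ω +
          l / k * T (cf X ω) 0 (k • v) ^ 2 +
          H.indicator (fun _ => k / (4 * l)) ω +
          Aᶜ.indicator (fun _ => k * (mm P X v + δ / 2)) ω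
        by_cases hωA : ω ∈ A
        · have e1 : Aᶜ.indicator (fun _ => k * (mm P X v + δ / 2)) ω = 0 :=
            Set.indicator_of_notMem (s := Aᶜ) (fun hc : ω ∈ Aᶜ => hc hωA) _
          rw [Set.indicator_of_mem hωA, e1]
          have h4 : T (cf X ω) 0 (k • v) < k * (t - δ') := hωA
          linarith
        · have e1 : Aᶜ.indicator (fun _ => k * (mm P X v + δ / 2)) ω =
              k * (mm P X v + δ / 2) := Set.indicator_of_mem hωA _
          rw [Set.indicator_of_notMem hωA, e1]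
          by_cases hωH : ω ∈ H
          · rw [Set.indicator_of_mem hωH]
            have h5 : (0 : ℝ) ≤ k * (mm P X v + δ / 2) := by positivity
            linarith
          · rw [Set.indicator_of_notMem hωH]
            have h4 : T (cf X ω) 0 (k • v) ≤ k * (mm P X v + δ / 2) := not_lt.1 hωH
            linarith
    rw [integral_add, integral_add, integral_add, integral_indicator_const _ hmA,
      integral_indicator_const _ hmH, integral_indicator_const _ hmA.compl,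
      integral_const_mul] at h1
    · have h6 : P.real Aᶜ = 1 - P.real A := by linarith
      rw [h6] at h1
      simp only [smul_eq_mul] at h1
      have h8 : l / k * ∫ ω, T (cf X ω) 0 (k • v) ^ 2 ∂P ≤ l / k * (M * k ^ 2) :=
        mul_le_mul_of_nonneg_left hsq (by positivity)
      linarith
    · exact (integrable_const _).indicator hmA
    · exact hsqi
    · exact ((integrable_const _).indicator hmA).add hsqi
    · exact (integrable_const _).indicator hmH
    · exact (((integrable_const _).indicator hmA).add hsqi).add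
        ((integrable_const _).indicator hmH)
    · exact (integrable_const _).indicator hmA.compl
  have hkt := mul_tc_le hS v k
  rw [← ht] at hkt
  have hb1 : l / k * (M * k ^ 2) = k * (δ / 4) := by
    rw [hl]
    field_simp
  have hb2 : k / (4 * l) * P.real H ≤ k * (δ / 4) := by
    have h1 : k / (4 * l) * P.real H ≤ k / (4 * l) * (δ * l) :=
      mul_le_mul_of_nonneg_left hH (by positivity)
    have h2 : k / (4 * l) * (δ * l) = k * (δ / 4) := by
      field_simp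
    linarith
  have hmain : t ≤ (t - δ') * P.real A + δ / 2 +
      (mm P X v + δ / 2) * (1 - P.real A) := by
    have h1 : k * t ≤ k * ((t - δ') * P.real A + δ / 2 +
      (mm P X v + δ / 2) * (1 - P.real A)) := by
      have h2 : k * t ≤ k * (t - δ') * P.real A + k * (δ / 4) + k * (δ / 4) +
          k * (mm P X v + δ / 2) * (1 - P.real A) := by linarith
      refine h2.trans (le_of_eq ?_)
      ring
    exact le_of_mul_le_mul_left h1 (by linarith)
  nlinarith [mul_nonneg (sub_nonneg.2 htm) hPA0]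

end Pool.Agent.Helper98.GK

end

/-! ## RH -/

section

namespace Pool.Agent.Helper98.GK

open MeasureTheory ProbabilityTheory Pool.Agent.Helper79.GR Pool.Agent.Helper79.GQ

variable {Ω : Type*} [MeasurableSpace Ω] {d : ℕ} {P : Measure Ω} {X : Edge d → Ω → ℝ}
  {ν : Measure ℝ} {a b : ℝ}

private theorem rh_exM {m : V d → ℝ} (hs : SubM a b m) (x : Fin d → ℝ) (ε C κ : ℝ)
    (hε : 0 < ε) (hκ : 0 < κ) :
    ∃ M : ℕ, 1 ≤ M ∧ m (fl M x) ≤ M * (tc m x + ε) ∧ C ≤ κ * M := by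
  have h1 : ∀ᶠ n : ℕ in Filter.atTop, m (fl n x) / n < tc m x + ε :=
    (tendsto_tc hs x).eventually_lt_const (by linarith)
  have h2 : ∀ᶠ n : ℕ in Filter.atTop, ⌈C / κ⌉₊ ≤ n := Filter.eventually_ge_atTop _
  have h3 : ∀ᶠ n : ℕ in Filter.atTop, 1 ≤ n := Filter.eventually_ge_atTop _
  obtain ⟨M, hM1, hM2, hM3⟩ := (h1.and (h2.and h3)).exists
  have hMpos : (0 : ℝ) < M := by exact_mod_cast hM3
  refine ⟨M, hM3, ?_, ?_⟩
  · rw [div_lt_iff₀ hMpos] at hM1
    linarith
  · have h4 : C / κ ≤ M := (Nat.le_ceil _).trans (by exact_mod_cast hM2)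
    rw [div_le_iff₀ hκ] at h4
    linarith

private theorem rh_abs_floor (t : ℝ) : |(⌊t⌋ : ℝ) - t| ≤ 1 := by
  rw [abs_le]
  constructor
  · linarith [Int.lt_floor_add_one t]
  · linarith [Int.floor_le t]

private theorem rh_nr (M : ℕ) (x : Fin d → ℝ) : nr (rv (fl M x) - (M : ℝ) • x) ≤ d := by
  unfold nr
  calc ∑ i, |(rv (fl M x) - (M : ℝ) • x) i| ≤ ∑ _i : Fin d, (1 : ℝ) := by
        refine Finset.sum_le_sum fun i _ => ?_
        simpa [rv, fl] using rh_abs_floor ((M : ℝ) * x i)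
    _ = d := by simp

private theorem rh_n1 (M r : ℕ) (hM : 1 ≤ M) (x : Fin d → ℝ) :
    n1 (fl r x - (r / M) • fl M x) ≤ d * (((r / M : ℕ) : ℝ) + 1) + M * nr x := by
  have hr : M * (r / M) + r % M = r := Nat.div_add_mod r M
  have hr2 : r % M ≤ M := (Nat.mod_lt r hM).le
  have hrR : (M : ℝ) * ((r / M : ℕ) : ℝ) + ((r % M : ℕ) : ℝ) = r := by exact_mod_cast hr
  have hr2R : ((r % M : ℕ) : ℝ) ≤ M := by exact_mod_cast hr2
  have hk0 : (0 : ℝ) ≤ ((r / M : ℕ) : ℝ) := Nat.cast_nonneg _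
  have hm0 : (0 : ℝ) ≤ ((r % M : ℕ) : ℝ) := Nat.cast_nonneg _
  generalize ((r % M : ℕ) : ℝ) = q at hrR hr2R hm0
  unfold n1 nr
  calc ∑ i, |(((fl r x - (r / M) • fl M x) i : ℤ) : ℝ)|
      ≤ ∑ i, ((((r / M : ℕ) : ℝ) + 1) + M * |x i|) := by
        refine Finset.sum_le_sum fun i _ => ?_
        have h1 : (((fl r x - (r / M) • fl M x) i : ℤ) : ℝ) =
            ((⌊(r : ℝ) * x i⌋ : ℝ) - r * x i) +
              (-(((r / M : ℕ) : ℝ) * ((⌊(M : ℝ) * x i⌋ : ℝ) - M * x i)) + q * x i) := by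
          have h0 : (fl r x - (r / M) • fl M x) i =
              ⌊(r : ℝ) * x i⌋ - ((r / M : ℕ) : ℤ) * ⌊(M : ℝ) * x i⌋ := by
            simp [fl]
          rw [h0, Int.cast_sub, Int.cast_mul, Int.cast_natCast]
          generalize ((⌊(r : ℝ) * x i⌋ : ℤ) : ℝ) = u
          rw [← hrR]
          ring
        have h2 := rh_abs_floor ((r : ℝ) * x i)
        have h3 : |-(((r / M : ℕ) : ℝ) * ((⌊(M : ℝ) * x i⌋ : ℝ) - M * x i))| ≤
            ((r / M : ℕ) : ℝ) := by
          rw [abs_neg, abs_mul, abs_of_nonneg hk0]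
          exact mul_le_of_le_one_right hk0 (rh_abs_floor _)
        have h4 : |q * x i| ≤ M * |x i| := by
          rw [abs_mul, abs_of_nonneg hm0]
          exact mul_le_mul_of_nonneg_right hr2R (abs_nonneg _)
        rw [h1]
        refine (abs_add_le _ _).trans ?_
        have h5 := abs_add_le (-(((r / M : ℕ) : ℝ) * ((⌊(M : ℝ) * x i⌋ : ℝ) - M * x i))) (q * x i)
        linarith
    _ = d * (((r / M : ℕ) : ℝ) + 1) + M * ∑ i, |x i| := by
        rw [Finset.sum_add_distrib, Finset.mul_sum, Finset.sum_const, Finset.card_univ,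
          Fintype.card_fin, nsmul_eq_mul]

/-- the constants for the time constant at the direction `x` -/
private theorem rh_tc {m : V d → ℝ} (hs : SubM a b m) (hb : 0 ≤ b) (M : ℕ) (x : Fin d → ℝ) :
    |tc m (rv (fl M x)) - M * tc m x| ≤ b * d := by
  rw [← tc_smul hs M (Nat.cast_nonneg _) x]
  exact (tc_lip hs _ _).trans (mul_le_mul_of_nonneg_left (rh_nr M x) hb)

/-- Markov's inequality for the passage time from `k • v` to `fl r x` -/
private theorem rh_markov (h : EnvK P X ν a b) (hd : 1 ≤ d) (x : Fin d → ℝ) (ε p : ℝ)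
    (hε : 0 < ε) (hp : 0 < p) (M : ℕ) (hM : 1 ≤ M)
    (hM2 : (∫ x, x ∂ν) * d ≤ ε * p / 2 * M) : ∃ r₀ : ℕ, ∀ r ≥ r₀,
      P.real {ω | ε * r < T (cf X ω) ((r / M) • fl M x) (fl r x)} ≤ p := by
  have hprob := h.prob
  have hpos : ∀ (ω : Ω) (e : Edge d), 0 < cf X ω e := fun ω e => h.pos e ω
  have hm := h.toEnv0.mean_pos hd
  obtain ⟨m, hmdef⟩ : ∃ m, m = ∫ x, x ∂ν := ⟨_, rfl⟩
  rw [← hmdef] at hm hM2
  have hεp : 0 < ε * p / 2 := by positivity
  refine ⟨max 1 ⌈(m * d + m * M * nr x) / (ε * p / 2)⌉₊, fun r hr => ?_⟩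
  have hr1 : 1 ≤ r := (le_max_left _ _).trans hr
  have hr1R : (1 : ℝ) ≤ r := by exact_mod_cast hr1
  have hr2 : m * d + m * M * nr x ≤ ε * p / 2 * r := by
    have h1 : (m * d + m * M * nr x) / (ε * p / 2) ≤ r :=
      (Nat.le_ceil _).trans (by exact_mod_cast (le_max_right _ _).trans hr)
    rw [div_le_iff₀ hεp] at h1
    linarith
  have h1 := integral_T_le h.toEnv0 hd ((r / M) • fl M x) (fl r x)
  rw [← hmdef] at h1
  have h2 := mul_le_mul_of_nonneg_left (rh_n1 M r hM x) hm.le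
  have hk0 : (0 : ℝ) ≤ ((r / M : ℕ) : ℝ) := Nat.cast_nonneg _
  have hkM : ((r / M : ℕ) : ℝ) * M ≤ r := by exact_mod_cast Nat.div_mul_le_self r M
  have h3 : ∫ ω, T (cf X ω) ((r / M) • fl M x) (fl r x) ∂P ≤ ε * r * p := by
    refine (h1.trans h2).trans ?_
    generalize ((r / M : ℕ) : ℝ) = k at hk0 hkM ⊢
    have h4 : k * (m * d) ≤ k * (ε * p / 2 * M) := mul_le_mul_of_nonneg_left hM2 hk0
    have h5 : ε * p / 2 * (k * M) ≤ ε * p / 2 * r := mul_le_mul_of_nonneg_left hkM hεp.le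
    nlinarith [h4, h5, hr2]
  have h4 := mul_meas_ge_le_integral_of_nonneg (μ := P)
    (f := fun ω => T (cf X ω) ((r / M) • fl M x) (fl r x))
    (Filter.Eventually.of_forall fun ω => Pool.Agent.Helper98.GK.T_nonneg (hpos ω) _ _)
    (integrable_T h.toEnv0 hd _ _) (ε * r)
  have h5 : P.real {ω | ε * r < T (cf X ω) ((r / M) • fl M x) (fl r x)} ≤
      P.real {ω | ε * r ≤ T (cf X ω) ((r / M) • fl M x) (fl r x)} := by
    refine measureReal_mono ?_
    intro ω hω
    simp only [Set.mem_ofPred_eq] at hω ⊢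
    exact hω.le
  have h6 : 0 < ε * (r : ℝ) := by positivity
  refine h5.trans ?_
  exact le_of_mul_le_mul_left (h4.trans h3) h6

theorem lln_dir_upper (h : EnvK P X ν a b) (hd : 1 ≤ d) (x : Fin d → ℝ) (δ p : ℝ) (hδ : 0 < δ)
    (hp : 0 < p) : ∃ r₀ : ℕ, ∀ r ≥ r₀,
      P.real {ω | r * tc (mm P X) x + δ * r < T (cf X ω) 0 (fl r x)} ≤ p := by
  have hprob := h.prob
  have hpos : ∀ (ω : Ω) (e : Edge d), 0 < cf X ω e := fun ω e => h.pos e ω
  have hs := subM_mm h.toEnv0 hd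
  have hm := h.toEnv0.mean_pos hd
  obtain ⟨m, hmdef⟩ : ∃ m, m = ∫ x, x ∂ν := ⟨_, rfl⟩
  have hnr : 0 ≤ nr x := Finset.sum_nonneg fun i _ => abs_nonneg _
  have ht : 0 ≤ tc (mm P X) x :=
    (mul_nonneg h.apos.le hnr).trans (le_tc hs x)
  have hκ : 0 < min (δ / 4) (δ / 4 * (p / 2) / 2) := lt_min (by linarith) (by positivity)
  obtain ⟨M, hM1, hM2, hM3⟩ := rh_exM hs x (δ / 4) (1 + (∫ x, x ∂ν) * d)
    (min (δ / 4) (δ / 4 * (p / 2) / 2)) (by linarith) hκ
  have hMpos : (0 : ℝ) < M := by exact_mod_cast hM1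
  have hmd : 0 ≤ (∫ x, x ∂ν) * d := mul_nonneg hm.le (Nat.cast_nonneg _)
  have hM4 : 1 + (∫ x, x ∂ν) * d ≤ δ / 4 * M :=
    hM3.trans (mul_le_mul_of_nonneg_right (min_le_left _ _) hMpos.le)
  have hM5 : 1 + (∫ x, x ∂ν) * d ≤ δ / 4 * (p / 2) / 2 * M :=
    hM3.trans (mul_le_mul_of_nonneg_right (min_le_right _ _) hMpos.le)
  obtain ⟨k₀, hk₀⟩ := upper_lln h hd (fl M x) 1 (p / 2) one_pos (by positivity)
  obtain ⟨r₁, hr₁⟩ := rh_markov h hd x (δ / 4) (p / 2) (by positivity) (by positivity) M hM1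
    (by linarith)
  refine ⟨max (M * k₀) r₁, fun r hr => ?_⟩
  have hr1 : k₀ ≤ r / M := by
    rw [Nat.le_div_iff_mul_le hM1, mul_comm]
    exact (le_max_left _ _).trans hr
  have hA := hk₀ (r / M) hr1
  have hB := hr₁ r ((le_max_right _ _).trans hr)
  have hsub : {ω | r * tc (mm P X) x + δ * r < T (cf X ω) 0 (fl r x)} ⊆
      {ω | ((r / M : ℕ) : ℝ) * (mm P X (fl M x) + 1) < T (cf X ω) 0 ((r / M) • fl M x)} ∪
        {ω | δ / 4 * r < T (cf X ω) ((r / M) • fl M x) (fl r x)} := by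
    intro ω hω
    simp only [Set.mem_ofPred_eq] at hω
    simp only [Set.mem_union, Set.mem_ofPred_eq]
    by_contra hcon
    push Not at hcon
    obtain ⟨hc1, hc2⟩ := hcon
    have h1 := Pool.Agent.Helper98.GK.T_triangle (hpos ω) 0 ((r / M) • fl M x) (fl r x)
    have hk0 : (0 : ℝ) ≤ ((r / M : ℕ) : ℝ) := Nat.cast_nonneg _
    have hkM : ((r / M : ℕ) : ℝ) * M ≤ r := by exact_mod_cast Nat.div_mul_le_self r M
    generalize ((r / M : ℕ) : ℝ) = k at hc1 hk0 hkM
    have h2 : k * mm P X (fl M x) ≤ k * (M * (tc (mm P X) x + δ / 4)) :=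
      mul_le_mul_of_nonneg_left hM2 hk0
    have h3 : k * M * (tc (mm P X) x + δ / 4) ≤ r * (tc (mm P X) x + δ / 4) :=
      mul_le_mul_of_nonneg_right hkM (by linarith)
    have h4 : k * 1 ≤ k * (δ / 4 * M) := mul_le_mul_of_nonneg_left (by linarith) hk0
    have h5 : k * M * (δ / 4) ≤ r * (δ / 4) := mul_le_mul_of_nonneg_right hkM (by linarith)
    have hr0 : (0 : ℝ) ≤ r := Nat.cast_nonneg _
    have h6 : 0 ≤ δ * r := mul_nonneg hδ.le hr0
    nlinarith [h1, h2, h3, h4, h5, hω, hc1, hc2]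
  have hC := (measureReal_mono (μ := P) hsub).trans (measureReal_union_le _ _)
  linarith

theorem lln_dir_lower (h : EnvK P X ν a b) (hd : 1 ≤ d) (x : Fin d → ℝ) (δ p : ℝ) (hδ : 0 < δ)
    (hp : 0 < p) : ∃ r₀ : ℕ, ∀ r ≥ r₀,
      P.real {ω | T (cf X ω) 0 (fl r x) < r * tc (mm P X) x - δ * r} ≤ p := by
  have hprob := h.prob
  have hpos : ∀ (ω : Ω) (e : Edge d), 0 < cf X ω e := fun ω e => h.pos e ω
  have hs := subM_mm h.toEnv0 hd
  have hm := h.toEnv0.mean_pos hd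
  have hnr : 0 ≤ nr x := Finset.sum_nonneg fun i _ => abs_nonneg _
  have ht : 0 ≤ tc (mm P X) x :=
    (mul_nonneg h.apos.le hnr).trans (le_tc hs x)
  have hδp : 0 < δ / 4 * (p / 2) / 2 := by positivity
  have hκ : 0 < min (δ / 8) (δ / 4 * (p / 2) / 2) := lt_min (by linarith) hδp
  obtain ⟨M, hM1, hM2, hM3⟩ := rh_exM hs x (δ / 4 * (p / 2) / 2) (1 + (∫ x, x ∂ν) * d)
    (min (δ / 8) (δ / 4 * (p / 2) / 2)) hδp hκ
  have hMpos : (0 : ℝ) < M := by exact_mod_cast hM1
  have hmd : 0 ≤ (∫ x, x ∂ν) * d := mul_nonneg hm.le (Nat.cast_nonneg _)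
  have hM4 : 1 + (∫ x, x ∂ν) * d ≤ δ / 8 * M :=
    hM3.trans (mul_le_mul_of_nonneg_right (min_le_left _ _) hMpos.le)
  have hM5 : 1 + (∫ x, x ∂ν) * d ≤ δ / 4 * (p / 2) / 2 * M :=
    hM3.trans (mul_le_mul_of_nonneg_right (min_le_right _ _) hMpos.le)
  have htv := rh_tc hs hm.le M x
  rw [abs_le] at htv
  have hδM : 0 < δ / 4 * M := by positivity
  obtain ⟨k₀, hk₀⟩ := lower_lln h hd (fl M x) 1 (δ / 4 * M) one_pos hδM
  obtain ⟨r₁, hr₁⟩ := rh_markov h hd x (δ / 4) (p / 2) (by positivity) (by positivity) M hM1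
    (by linarith)
  refine ⟨max (max (M * k₀) r₁) ⌈(M * tc (mm P X) x) / (δ / 8)⌉₊, fun r hr => ?_⟩
  have hr1 : k₀ ≤ r / M := by
    rw [Nat.le_div_iff_mul_le hM1, mul_comm]
    exact ((le_max_left _ _).trans (le_max_left _ _)).trans hr
  have hr2 : M * tc (mm P X) x ≤ δ / 8 * r := by
    have h1 : (M * tc (mm P X) x) / (δ / 8) ≤ r :=
      (Nat.le_ceil _).trans (by exact_mod_cast (le_max_right _ _).trans hr)
    rw [div_le_iff₀ (by linarith)] at h1
    linarith
  have hB := hr₁ r (((le_max_right _ _).trans (le_max_left _ _)).trans hr)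
  have hA : P.real {ω | T (cf X ω) 0 ((r / M) • fl M x) <
      (r / M : ℕ) * (tc (mm P X) (rv (fl M x)) - δ / 4 * M)} ≤ p / 2 := by
    have h1 := hk₀ (r / M) hr1
    have h2 : mm P X (fl M x) - tc (mm P X) (rv (fl M x)) + 1 ≤ p / 2 * (δ / 4 * M) := by
      nlinarith [hM2, htv.1, hM5]
    exact le_of_mul_le_mul_right (h1.trans h2) hδM
  have hsub : {ω | T (cf X ω) 0 (fl r x) < r * tc (mm P X) x - δ * r} ⊆
      {ω | T (cf X ω) 0 ((r / M) • fl M x) <
        (r / M : ℕ) * (tc (mm P X) (rv (fl M x)) - δ / 4 * M)} ∪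
        {ω | δ / 4 * r < T (cf X ω) ((r / M) • fl M x) (fl r x)} := by
    intro ω hω
    simp only [Set.mem_ofPred_eq] at hω
    simp only [Set.mem_union, Set.mem_ofPred_eq]
    by_contra hcon
    push Not at hcon
    obtain ⟨hc1, hc2⟩ := hcon
    have h1 := Pool.Agent.Helper98.GK.T_triangle (hpos ω) 0 (fl r x) ((r / M) • fl M x)
    rw [T_symm (cf X ω) (fl r x) ((r / M) • fl M x)] at h1
    have hk0 : (0 : ℝ) ≤ ((r / M : ℕ) : ℝ) := Nat.cast_nonneg _
    have hkM : ((r / M : ℕ) : ℝ) * M ≤ r := by exact_mod_cast Nat.div_mul_le_self r M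
    have hkM2 : (r : ℝ) - M ≤ ((r / M : ℕ) : ℝ) * M := by
      have h7 : M * (r / M) + r % M = r := Nat.div_add_mod r M
      have h8 : r % M ≤ M := (Nat.mod_lt r hM1).le
      have h9 : r ≤ (r / M) * M + M := by
        rw [mul_comm (r / M) M]
        omega
      have h10 : (r : ℝ) ≤ ((r / M : ℕ) : ℝ) * M + M := by exact_mod_cast h9
      linarith
    generalize ((r / M : ℕ) : ℝ) = k at hc1 hk0 hkM hkM2
    generalize (∫ x, x ∂ν) = m at hm hM2 hM3 hmd hM4 hM5 htv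
    have h2 : k * (M * tc (mm P X) x - m * d) ≤ k * tc (mm P X) (rv (fl M x)) :=
      mul_le_mul_of_nonneg_left (by linarith [htv.1]) hk0
    have h3 : (r - M) * tc (mm P X) x ≤ k * M * tc (mm P X) x :=
      mul_le_mul_of_nonneg_right hkM2 ht
    have h4 : k * (1 + m * d) ≤ k * (δ / 8 * M) := mul_le_mul_of_nonneg_left hM4 hk0
    have h5 : k * M * (δ / 8) ≤ r * (δ / 8) := mul_le_mul_of_nonneg_right hkM (by linarith)
    have hr0 : (0 : ℝ) ≤ r := Nat.cast_nonneg _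
    have h6 : 0 ≤ δ * r := mul_nonneg hδ.le hr0
    nlinarith [h1, h2, h3, h4, h5, hr2, hω, hc1, hc2, h6]
  have hC := (measureReal_mono (μ := P) hsub).trans (measureReal_union_le _ _)
  linarith

end Pool.Agent.Helper98.GK

end

/-! ## PC -/

section

namespace Pool.Agent.Helper98.GK

open MeasureTheory ProbabilityTheory Pool.Agent.Helper79.GR Pool.Agent.Helper79.GQ

variable {Ω : Type*} [MeasurableSpace Ω] {d : ℕ} {P : Measure Ω} {X : Edge d → Ω → ℝ}
  {ν : Measure ℝ} {a b : ℝ}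

private theorem PC_tail (h : Env0 P X ν a b) (hd : 1 ≤ d) (x : V d) (k : ℕ) :
    P.real {ω | ∃ w : List (St d), k ≤ w.length ∧ (eds x w).Nodup ∧
      (cost (cf X ω) x w < a * w.length ∨ b * w.length < cost (cf X ω) x w)} ≤
      4 * (1 / 2 : ℝ) ^ k := by
  have := h.prob
  set A : ℕ → Set Ω := fun j => {ω | ∃ w : List (St d), w.length = k + j ∧ (eds x w).Nodup ∧
      (cost (cf X ω) x w < a * (k + j : ℕ) ∨ b * (k + j : ℕ) < cost (cf X ω) x w)} with hA
  have h1 : {ω | ∃ w : List (St d), k ≤ w.length ∧ (eds x w).Nodup ∧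
      (cost (cf X ω) x w < a * w.length ∨ b * w.length < cost (cf X ω) x w)} ⊆ ⋃ j, A j := by
    rintro ω ⟨w, h2, h3, h4⟩
    rw [Set.mem_iUnion]
    obtain ⟨j, hj⟩ := Nat.exists_eq_add_of_le h2
    exact ⟨j, w, hj, h3, by rw [← hj]; exact h4⟩
  have h2 : ∀ j, P (A j) ≤ ENNReal.ofReal (2 * (1 / 2 : ℝ) ^ (k + j)) := by
    intro j
    have h3 := reg_prob h hd x (k + j)
    exact (ENNReal.le_ofReal_iff_toReal_le (measure_ne_top _ _) (by positivity)).2 h3
  have h4 : HasSum (fun j : ℕ => 2 * (1 / 2 : ℝ) ^ (k + j)) (4 * (1 / 2 : ℝ) ^ k) := by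
    have h5 := hasSum_geometric_two.mul_left (2 * (1 / 2 : ℝ) ^ k)
    have h6 : 2 * (1 / 2 : ℝ) ^ k * 2 = 4 * (1 / 2 : ℝ) ^ k := by ring
    rw [h6] at h5
    refine h5.congr_fun ?_
    intro j
    rw [pow_add]
    ring
  have h7 : P {ω | ∃ w : List (St d), k ≤ w.length ∧ (eds x w).Nodup ∧
      (cost (cf X ω) x w < a * w.length ∨ b * w.length < cost (cf X ω) x w)} ≤
      ENNReal.ofReal (4 * (1 / 2 : ℝ) ^ k) := by
    calc _ ≤ P (⋃ j, A j) := measure_mono h1
      _ ≤ ∑' j, P (A j) := measure_iUnion_le A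
      _ ≤ ∑' j, ENNReal.ofReal (2 * (1 / 2 : ℝ) ^ (k + j)) := ENNReal.tsum_le_tsum h2
      _ = ENNReal.ofReal (∑' j, 2 * (1 / 2 : ℝ) ^ (k + j)) :=
        (ENNReal.ofReal_tsum_of_nonneg (fun j => by positivity) h4.summable).symm
      _ = ENNReal.ofReal (4 * (1 / 2 : ℝ) ^ k) := by rw [h4.tsum_eq]
  exact ENNReal.toReal_le_of_le_ofReal (by positivity) h7

private theorem PC_box {d : ℕ} (R : ℝ) (hR : 0 ≤ R) :
    ∃ B : Finset (V d), (∀ x : V d, n1 x ≤ R → x ∈ B) ∧ (B.card : ℝ) ≤ (2 * R + 1) ^ d := by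
  refine ⟨Finset.Icc (fun _ => -⌊R⌋) (fun _ => ⌊R⌋), ?_, ?_⟩
  · intro x hx
    have h1 : ∀ i, |(x i : ℝ)| ≤ R := fun i =>
      (Finset.single_le_sum (f := fun i => |(x i : ℝ)|) (fun j _ => abs_nonneg _)
        (Finset.mem_univ i)).trans hx
    rw [Finset.mem_Icc]
    constructor
    · intro i
      have h2 : -x i ≤ ⌊R⌋ := Int.le_floor.2 (by
        push_cast
        exact (neg_le_abs _).trans (h1 i))
      change -⌊R⌋ ≤ x i
      linarith
    · intro i
      exact Int.le_floor.2 ((le_abs_self _).trans (h1 i))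
  · rw [Pi.card_Icc]
    simp only [Int.card_Icc, Finset.prod_const, Finset.card_univ, Fintype.card_fin]
    have h0 : 0 ≤ ⌊R⌋ := Int.floor_nonneg.2 hR
    have h1 : ((⌊R⌋ + 1 - -⌊R⌋).toNat : ℝ) ≤ 2 * R + 1 := by
      have h2 : ((⌊R⌋ + 1 - -⌊R⌋).toNat : ℝ) = ((⌊R⌋ + 1 - -⌊R⌋ : ℤ) : ℝ) := by
        have h3 : ((⌊R⌋ + 1 - -⌊R⌋).toNat : ℤ) = ⌊R⌋ + 1 - -⌊R⌋ := Int.toNat_of_nonneg (by omega)
        exact_mod_cast congrArg (Int.cast : ℤ → ℝ) h3
      rw [h2]
      push_cast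
      have := Int.floor_le R
      linarith
    push_cast
    gcongr

theorem rg_near (h : Env0 P X ν a b) (hd : 1 ≤ d) (C θ p : ℝ) (hC : 0 < C) (hθ : 0 < θ)
    (hp : 0 < p) : ∃ r₀ : ℕ, ∀ r : ℕ, r₀ ≤ r →
      P.real {ω | ¬ Rg a b (θ * r) (C * r) (cf X ω)} ≤ p := by
  have := h.prob
  set q : ℝ := (1 / 2 : ℝ) ^ θ with hq
  have hq0 : 0 < q := Real.rpow_pos_of_pos (by norm_num) θ
  have hq1 : q < 1 := Real.rpow_lt_one (by norm_num) (by norm_num) hθ
  have h1 := (tendsto_pow_const_mul_const_pow_of_abs_lt_one d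
    (show |q| < 1 by rwa [abs_of_pos hq0])).const_mul (4 * (2 * C + 1) ^ d)
  rw [mul_zero] at h1
  obtain ⟨r₀, hr₀⟩ := Filter.eventually_atTop.1
    ((h1.eventually_lt_const hp).and (Filter.eventually_ge_atTop 1))
  refine ⟨r₀, fun r hr => ?_⟩
  obtain ⟨h2, h3⟩ := hr₀ r hr
  have h3' : (1 : ℝ) ≤ r := by exact_mod_cast h3
  obtain ⟨B, hB1, hB2⟩ := PC_box (d := d) (C * r) (by positivity)
  set k := ⌈θ * r⌉₊ with hk
  have h4 : {ω | ¬ Rg a b (θ * r) (C * r) (cf X ω)} ⊆ ⋃ x ∈ B, {ω | ∃ w : List (St d),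
      k ≤ w.length ∧ (eds x w).Nodup ∧
      (cost (cf X ω) x w < a * w.length ∨ b * w.length < cost (cf X ω) x w)} := by
    intro ω hω
    have h5 : ¬ Rg a b (θ * r) (C * r) (cf X ω) := hω
    unfold Rg at h5
    push_neg at h5
    obtain ⟨x, hx, w, hw, hl, hc⟩ := h5
    rw [Set.mem_iUnion₂]
    refine ⟨x, hB1 x hx, w, Nat.ceil_le.2 hl, hw, ?_⟩
    by_cases h6 : a * w.length ≤ cost (cf X ω) x w
    · exact Or.inr (hc h6)
    · exact Or.inl (not_le.1 h6)
  have h7 : (1 / 2 : ℝ) ^ k ≤ q ^ r := by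
    have e1 : q ^ r = (1 / 2 : ℝ) ^ (θ * r) := by
      rw [hq, ← Real.rpow_natCast, ← Real.rpow_mul (by norm_num)]
    rw [e1, ← Real.rpow_natCast]
    exact Real.rpow_le_rpow_of_exponent_ge (by norm_num) (by norm_num) (Nat.le_ceil _)
  calc P.real {ω | ¬ Rg a b (θ * r) (C * r) (cf X ω)}
      ≤ P.real (⋃ x ∈ B, {ω | ∃ w : List (St d), k ≤ w.length ∧ (eds x w).Nodup ∧
      (cost (cf X ω) x w < a * w.length ∨ b * w.length < cost (cf X ω) x w)}) :=
        measureReal_mono h4 (measure_ne_top _ _)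
    _ ≤ ∑ x ∈ B, P.real {ω | ∃ w : List (St d), k ≤ w.length ∧ (eds x w).Nodup ∧
      (cost (cf X ω) x w < a * w.length ∨ b * w.length < cost (cf X ω) x w)} :=
        measureReal_biUnion_finset_le _ _
    _ ≤ ∑ _x ∈ B, 4 * (1 / 2 : ℝ) ^ k := Finset.sum_le_sum fun x _ => PC_tail h hd x k
    _ = B.card * (4 * (1 / 2 : ℝ) ^ k) := by rw [Finset.sum_const, nsmul_eq_mul]
    _ ≤ ((2 * C + 1) * r) ^ d * (4 * q ^ r) := by
        have e1 : (B.card : ℝ) ≤ ((2 * C + 1) * r) ^ d := by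
          refine hB2.trans ?_
          gcongr
          nlinarith
        have e2 : 4 * (1 / 2 : ℝ) ^ k ≤ 4 * q ^ r := by linarith
        exact mul_le_mul e1 e2 (by positivity) (by positivity)
    _ = 4 * (2 * C + 1) ^ d * ((r : ℝ) ^ d * q ^ r) := by
        rw [mul_pow]
        ring
    _ ≤ p := h2.le

end Pool.Agent.Helper98.GK

end

/-! ## GC -/

section

namespace Pool.Agent.Helper98.GK

open MeasureTheory ProbabilityTheory Pool.Agent.Helper79.GR Pool.Agent.Helper79.GQ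

theorem nodup_of_length {d : ℕ} {x : V d} {w : List (St d)}
    (h : (w.length : ℝ) = n1 (pos x w - x)) : (eds x w).Nodup := by
  have hb : Bd (1 : ℝ) 1 (fun _ : Edge d => (1 : ℝ)) := ⟨one_pos, fun _ => ⟨le_rfl, le_rfl⟩⟩
  refine Geo.nodup hb (x := x) (w := w) fun w' hw' => ?_
  have h1 := Pool.Agent.Helper79.GR.cost_le hb x w
  have h2 := Pool.Agent.Helper79.GR.le_cost hb x w'
  have h3 := n1_pos_sub_le x w'
  rw [hw', ← h] at h3
  linarith

theorem Rg.length_le {d : ℕ} {a b l R : ℝ} {c : Edge d → ℝ} (h : Rg a b l R c)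
    (hc : ∀ e, 0 < c e) (ha : 0 < a) (hl : 0 ≤ l) {x : V d} (hx : n1 x ≤ R) {w : List (St d)}
    (hw : Geo c x w) : a * w.length ≤ T c x (pos x w) + a * l := by
  rcases lt_or_ge (w.length : ℝ) l with h1 | h1
  · have h2 := T_nonneg hc x (pos x w)
    have h3 := mul_le_mul_of_nonneg_left h1.le ha.le
    linarith
  · have h2 := (h x hx w (geo_nodup hc hw) h1).1
    rw [(geo_iff hc x w).1 hw] at h2
    have h3 := mul_nonneg ha.le hl
    linarith

theorem Rg.le_T {d : ℕ} {a b l R : ℝ} {c : Edge d → ℝ} (h : Rg a b l R c) (hg : Gd c)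
    (ha : 0 < a) (hl : 0 ≤ l) {x : V d} (hx : n1 x ≤ R) (y : V d) :
    a * n1 (y - x) - a * l ≤ T c x y := by
  obtain ⟨w, hw, hcost, hnd⟩ := exists_min hg x y
  have h0 := n1_pos_sub_le x w
  rw [hw] at h0
  have h1 := mul_le_mul_of_nonneg_left h0 ha.le
  have h4 := mul_nonneg ha.le hl
  rcases lt_or_ge (w.length : ℝ) l with h2 | h2
  · have h3 := mul_le_mul_of_nonneg_left h2.le ha.le
    have h5 := T_nonneg hg.pos x y
    linarith
  · have h3 := (h x hx w hnd h2).1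
    rw [hcost] at h3
    linarith

private theorem GC_far {d : ℕ} {a b l R : ℝ} {c : Edge d → ℝ} (h : Rg a b l R c)
    (hc : ∀ e, 0 < c e) {x y : V d} (hx : n1 x ≤ R) (hl : l ≤ n1 (y - x)) :
    T c x y ≤ b * n1 (y - x) := by
  obtain ⟨w, hw, hlen⟩ := exists_walk x y
  have h1 : (eds x w).Nodup := nodup_of_length (by rw [hw]; exact hlen)
  have h2 := (h x hx w h1 (by rw [hlen]; exact hl)).2
  rw [hlen] at h2
  exact (T_le_cost hc hw).trans h2

theorem Rg.T_le {d : ℕ} {a b l R : ℝ} {c : Edge d → ℝ} (h : Rg a b l R c)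
    (hc : ∀ e, 0 < c e) (hd : 1 ≤ d) (hb : 0 ≤ b) (hl : 1 ≤ l) {x y : V d} (hx : n1 x ≤ R)
    (hy : n1 y ≤ R) : T c x y ≤ b * n1 (y - x) + 9 * b * l := by
  have hbl : 0 ≤ b * l := mul_nonneg hb (by linarith)
  rcases le_or_gt l (n1 (y - x)) with h1 | h1
  · have h2 := GC_far h hc hx h1
    linarith
  · obtain ⟨L, hL1, hL2⟩ : ∃ L : ℕ, l ≤ L ∧ (L : ℝ) ≤ 2 * l := by
      refine ⟨⌈l⌉₊, Nat.le_ceil l, ?_⟩
      have := Nat.ceil_lt_add_one (a := l) (by linarith)
      linarith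
    obtain ⟨i⟩ : Nonempty (Fin d) := ⟨⟨0, by omega⟩⟩
    obtain ⟨z, hz⟩ : ∃ z : V d, z = x + (2 * L) • sv ((i, true) : St d) := ⟨_, rfl⟩
    have hzx : n1 (z - x) = 2 * L := by
      rw [hz, add_sub_cancel_left, n1_nsmul, n1_sv]
      push_cast
      ring
    have h2 : T c x z ≤ b * n1 (z - x) := GC_far h hc hx (by rw [hzx]; linarith)
    have h3 : n1 (z - x) ≤ n1 (z - y) + n1 (y - x) := by
      have := n1_add_le (z - y) (y - x)
      rwa [sub_add_sub_cancel] at this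
    have h4 : n1 (z - y) ≤ n1 (z - x) + n1 (y - x) := by
      have := n1_add_le (z - x) (x - y)
      rw [sub_add_sub_cancel, n1_sub_comm x y] at this
      exact this
    have h5 : T c y z ≤ b * n1 (z - y) := GC_far h hc hy (by rw [hzx] at h3; linarith)
    have h6 := T_triangle hc x z y
    rw [T_symm c z y] at h6
    have h7 := mul_le_mul_of_nonneg_left h4 hb
    have h8 := mul_le_mul_of_nonneg_left hL2 hb
    rw [hzx] at h2 h7
    linarith

end Pool.Agent.Helper98.GK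

end

/-! ## RI -/

section

namespace Pool.Agent.Helper98.GK

open MeasureTheory ProbabilityTheory Pool.Agent.Helper79.GR Pool.Agent.Helper79.GQ

variable {Ω : Type*} [MeasurableSpace Ω] {d : ℕ} {P : Measure Ω} {X : Edge d → Ω → ℝ}
  {ν : Measure ℝ} {a b : ℝ}

private theorem ri_net (d : ℕ) (R κ : ℝ) (hκ : 0 < κ) :
    ∃ Y : Finset (Fin d → ℝ), ∀ x : Fin d → ℝ, nr x ≤ R → ∃ y ∈ Y, nr (x - y) ≤ κ := by
  have hc := (isCompact_closedBall (0 : Fin d → ℝ) R).totallyBounded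
  have hκ' : 0 < κ / ((d : ℝ) + 1) := by positivity
  obtain ⟨t, ht, hsub⟩ := Metric.totallyBounded_iff.1 hc _ hκ'
  refine ⟨ht.toFinset, ?_⟩
  intro x hx
  have hnr : 0 ≤ nr x := Finset.sum_nonneg fun i _ => abs_nonneg _
  have hxb : x ∈ Metric.closedBall (0 : Fin d → ℝ) R := by
    rw [mem_closedBall_zero_iff, pi_norm_le_iff_of_nonneg (hnr.trans hx)]
    intro i
    refine le_trans ?_ hx
    rw [Real.norm_eq_abs]
    exact Finset.single_le_sum (f := fun i => |x i|) (fun j _ => abs_nonneg _)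
      (Finset.mem_univ i)
  have h1 := hsub hxb
  simp only [Set.mem_iUnion, Metric.mem_ball] at h1
  obtain ⟨y, hy, hd⟩ := h1
  refine ⟨y, ht.mem_toFinset.2 hy, ?_⟩
  have h2 : ∀ i, |x i - y i| ≤ κ / ((d : ℝ) + 1) := by
    intro i
    have := (dist_le_pi_dist x y i).trans hd.le
    rwa [Real.dist_eq] at this
  calc nr (x - y) = ∑ i, |x i - y i| := rfl
    _ ≤ ∑ _i : Fin d, κ / ((d : ℝ) + 1) := Finset.sum_le_sum fun i _ => h2 i
    _ = d * (κ / ((d : ℝ) + 1)) := by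
        rw [Finset.sum_const, Finset.card_univ, Fintype.card_fin, nsmul_eq_mul]
    _ ≤ κ := by
        rw [mul_div_assoc', div_le_iff₀ (by positivity)]
        nlinarith

private theorem ri_T_lip {c : Edge d → ℝ} {l R : ℝ} (h : Rg a b l R c) (hc : ∀ e, 0 < c e)
    (hd : 1 ≤ d) (hb : 0 ≤ b) (hl : 1 ≤ l) (x : V d) {y z : V d} (hy : n1 y ≤ R) (hz : n1 z ≤ R) :
    |T c x y - T c x z| ≤ b * n1 (y - z) + 9 * b * l := by
  have h1 := T_triangle hc x z y
  have h2 := T_triangle hc x y z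
  have h3 := h.T_le hc hd hb hl hz hy
  have h4 := h.T_le hc hd hb hl hy hz
  rw [n1_sub_comm z y] at h4
  rw [abs_le]
  constructor <;> linarith

private theorem ri_det {c : Edge d → ℝ} (hc : ∀ e, 0 < c e) (hd : 1 ≤ d) {m : V d → ℝ} {b' : ℝ}
    (hm : SubM a b' m) (B κ δ θ R : ℝ) (hb : 0 ≤ b) (hB : b ≤ B) (hB' : b' ≤ B) (hκ : 0 ≤ κ)
    (hκ2 : κ ≤ 1 / 2) (hθ : 0 ≤ θ) (r : ℕ) (hr : 0 < r) (hrd : (d : ℝ) ≤ 1 / 2 * r)
    (hθr : 1 ≤ θ * r)
    (h : Rg a b (θ * r) ((R + 1) * r) c)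
    (v : V d) (hvR : n1 v ≤ R * r)
    (y : Fin d → ℝ) (hy : nr ((1 / (r : ℝ)) • rv v - y) ≤ κ)
    (h1 : T c 0 (fl r y) ≤ r * tc m y + δ * r) (h2 : r * tc m y - δ * r ≤ T c 0 (fl r y)) :
    |T c 0 v - tc m (rv v)| ≤ 2 * B * κ * r + B * d + 9 * B * θ * r + δ * r := by
  have hr' : (0 : ℝ) < r := by exact_mod_cast hr
  have hB0 : 0 ≤ B := hb.trans hB
  have hn : n1 (v - fl r y) ≤ κ * r + d := by
    have hstep : ∀ i, |((v - fl r y) i : ℝ)| ≤ r * |((1 / (r : ℝ)) • rv v - y) i| + 1 := by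
      intro i
      have e1 : ((v - fl r y) i : ℝ) = r * ((1 / (r : ℝ)) • rv v - y) i +
          (r * y i - (⌊r * y i⌋ : ℝ)) := by
        simp only [fl, rv, Pi.sub_apply, Pi.smul_apply, smul_eq_mul, Int.cast_sub]
        field_simp
        ring
      rw [e1]
      refine (abs_add_le _ _).trans ?_
      rw [abs_mul, abs_of_pos hr']
      have e2 : |(r : ℝ) * y i - (⌊(r : ℝ) * y i⌋ : ℝ)| ≤ 1 := by
        rw [abs_le]
        have := Int.floor_le ((r : ℝ) * y i)
        have := Int.lt_floor_add_one ((r : ℝ) * y i)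
        constructor <;> linarith
      linarith
    calc n1 (v - fl r y) = ∑ i, |((v - fl r y) i : ℝ)| := rfl
      _ ≤ ∑ i, (r * |((1 / (r : ℝ)) • rv v - y) i| + 1) :=
          Finset.sum_le_sum fun i _ => hstep i
      _ = r * nr ((1 / (r : ℝ)) • rv v - y) + d := by
          rw [Finset.sum_add_distrib, ← Finset.mul_sum]
          simp [nr]
      _ ≤ κ * r + d := by nlinarith
  have hn0 : 0 ≤ n1 (v - fl r y) := n1_nonneg _
  have hvR' : n1 v ≤ (R + 1) * r := by linarith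
  have hyR : n1 (fl r y) ≤ (R + 1) * r := by
    have e1 : fl r y = v - (v - fl r y) := by abel
    have e2 : n1 (fl r y) ≤ n1 v + n1 (v - fl r y) := by
      conv_lhs => rw [e1]
      unfold n1
      rw [← Finset.sum_add_distrib]
      refine Finset.sum_le_sum fun i _ => ?_
      have e3 : (((v - (v - fl r y)) i : ℤ) : ℝ) = ((v i : ℤ) : ℝ) - (((v - fl r y) i : ℤ) : ℝ) := by
        rw [Pi.sub_apply]
        push_cast
        ring
      rw [e3]
      exact abs_sub _ _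
    nlinarith
  have hT : |T c 0 v - T c 0 (fl r y)| ≤ B * (κ * r + d) + 9 * B * (θ * r) := by
    refine (ri_T_lip h hc hd hb hθr 0 hvR' hyR).trans (add_le_add ?_ ?_)
    · exact (mul_le_mul_of_nonneg_right hB hn0).trans (mul_le_mul_of_nonneg_left hn hB0)
    · have : 0 ≤ θ * r := by positivity
      nlinarith
  have hv : tc m (rv v) = r * tc m ((1 / (r : ℝ)) • rv v) := by
    rw [← tc_smul hm _ hr'.le, smul_smul, mul_one_div_cancel hr'.ne', one_smul]
  have hnr0 : 0 ≤ nr ((1 / (r : ℝ)) • rv v - y) := Finset.sum_nonneg fun i _ => abs_nonneg _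
  have hl : |tc m ((1 / (r : ℝ)) • rv v) - tc m y| ≤ B * κ :=
    (tc_lip hm _ _).trans
      ((mul_le_mul_of_nonneg_right hB' hnr0).trans (mul_le_mul_of_nonneg_left hy hB0))
  have hl2 : |tc m (rv v) - r * tc m y| ≤ B * κ * r := by
    rw [hv, ← mul_sub, abs_mul, abs_of_pos hr']
    nlinarith
  rw [abs_le] at hT hl2 ⊢
  obtain ⟨t1, t2⟩ := hT
  obtain ⟨l1, l2⟩ := hl2
  constructor <;> nlinarith

theorem lln_unif (h : EnvK P X ν a b) (hd : 1 ≤ d) (R δ p : ℝ) (hR : 0 < R) (hδ : 0 < δ)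
    (hp : 0 < p) : ∃ r₀ : ℕ, ∀ r ≥ r₀, P.real {ω | ∃ v : V d, n1 v ≤ R * r ∧
      δ * r < |T (cf X ω) 0 v - tc (mm P X) (rv v)|} ≤ p := by
  have := h.prob
  have hb := h.toEnv0.bpos hd
  obtain ⟨B, hBdef⟩ : ∃ B : ℝ, B = b + |∫ x, x ∂ν| := ⟨_, rfl⟩
  have hbB : b ≤ B := by
    rw [hBdef]
    have := abs_nonneg (∫ x, x ∂ν)
    linarith
  have hbB' : ∫ x, x ∂ν ≤ B := by
    rw [hBdef]
    have := le_abs_self (∫ x, x ∂ν)
    linarith
  have hB : 0 < B := hb.trans_le hbB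
  obtain ⟨κ, hκdef⟩ : ∃ κ : ℝ, κ = min (δ / (16 * B)) (1 / 2) := ⟨_, rfl⟩
  have hκ : 0 < κ := by
    rw [hκdef]
    positivity
  have hκ2 : κ ≤ 1 / 2 := by
    rw [hκdef]
    exact min_le_right _ _
  have hκ1 : 2 * B * κ ≤ δ / 8 := by
    have e1 : κ ≤ δ / (16 * B) := by
      rw [hκdef]
      exact min_le_left _ _
    rw [le_div_iff₀ (by positivity)] at e1
    linarith
  obtain ⟨θ, hθdef⟩ : ∃ θ : ℝ, θ = δ / (72 * B) := ⟨_, rfl⟩
  have hθ : 0 < θ := by
    rw [hθdef]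
    positivity
  have hθ1 : 9 * B * θ = δ / 8 := by
    rw [hθdef]
    field_simp
    norm_num
  obtain ⟨Y, hY⟩ := ri_net d R κ hκ
  have hp' : 0 < p / (4 * ((Y.card : ℝ) + 1)) := by positivity
  have hδ2 : 0 < δ / 2 := by positivity
  choose r1 hr1 using fun x => lln_dir_upper h hd x (δ / 2) (p / (4 * ((Y.card : ℝ) + 1))) hδ2 hp'
  choose r2 hr2 using fun x => lln_dir_lower h hd x (δ / 2) (p / (4 * ((Y.card : ℝ) + 1))) hδ2 hp'
  obtain ⟨r3, hr3⟩ := rg_near h.toEnv0 hd (R + 1) θ (p / 2) (by linarith) hθ (by linarith)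
  refine ⟨Y.sup r1 + Y.sup r2 + r3 + ⌈8 * B * d / δ⌉₊ + ⌈2 * (d : ℝ)⌉₊ + ⌈1 / θ⌉₊ + 1, ?_⟩
  intro r hr
  have hr0 : 0 < r := by omega
  have hr0' : (0 : ℝ) < r := by exact_mod_cast hr0
  have hrd : B * d ≤ δ / 8 * r := by
    have e1 : ⌈8 * B * d / δ⌉₊ ≤ r := by omega
    have e2 : 8 * B * d / δ ≤ r := (Nat.le_ceil _).trans (by exact_mod_cast e1)
    rw [div_le_iff₀ hδ] at e2
    linarith
  have hrd2 : (d : ℝ) ≤ 1 / 2 * r := by
    have e1 : ⌈2 * (d : ℝ)⌉₊ ≤ r := by omega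
    have e2 : 2 * (d : ℝ) ≤ r := (Nat.le_ceil _).trans (by exact_mod_cast e1)
    linarith
  have hθr : 1 ≤ θ * r := by
    have e1 : ⌈1 / θ⌉₊ ≤ r := by omega
    have e2 : 1 / θ ≤ r := (Nat.le_ceil _).trans (by exact_mod_cast e1)
    rw [div_le_iff₀ hθ] at e2
    linarith
  set up : (Fin d → ℝ) → Set Ω := fun x =>
    {ω | r * tc (mm P X) x + δ / 2 * r < T (cf X ω) 0 (fl r x)} with hup
  set lo : (Fin d → ℝ) → Set Ω := fun x =>
    {ω | T (cf X ω) 0 (fl r x) < r * tc (mm P X) x - δ / 2 * r} with hlo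
  set rg : Set Ω := {ω | ¬ Rg a b (θ * r) ((R + 1) * r) (cf X ω)} with hrg
  have hsub : {ω | ∃ v : V d, n1 v ≤ R * r ∧
      δ * r < |T (cf X ω) 0 v - tc (mm P X) (rv v)|} ⊆ (⋃ y ∈ Y, (up y ∪ lo y)) ∪ rg := by
    rintro ω ⟨v, hv, hlt⟩
    by_contra hcon
    rw [Set.mem_union, not_or] at hcon
    obtain ⟨hcon, hreg⟩ := hcon
    rw [hrg, Set.mem_ofPred_eq, not_not] at hreg
    have hnr : nr ((1 / (r : ℝ)) • rv v) ≤ R := by
      have e1 : nr ((1 / (r : ℝ)) • rv v) = (1 / (r : ℝ)) * n1 v := by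
        simp only [nr, n1, rv, Pi.smul_apply, smul_eq_mul, abs_mul]
        rw [← Finset.mul_sum, abs_of_pos (by positivity)]
      rw [e1, one_div, inv_mul_le_iff₀ hr0']
      linarith
    obtain ⟨y, hyY, hy⟩ := hY _ hnr
    have hyc : ω ∉ up y ∪ lo y := fun hh => hcon (Set.mem_biUnion hyY hh)
    rw [Set.mem_union, not_or] at hyc
    obtain ⟨h1, h2⟩ := hyc
    rw [hup, Set.mem_ofPred_eq, not_lt] at h1
    rw [hlo, Set.mem_ofPred_eq, not_lt] at h2
    have h3 := ri_det (h.gd ω).pos hd (subM_mm h.toEnv0 hd) B κ (δ / 2) θ R hb.le hbB hbB' hκ.le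
      hκ2 hθ.le r hr0 hrd2 hθr hreg v hv y hy h1 h2
    have h4 : 2 * B * κ * r ≤ δ / 8 * r := mul_le_mul_of_nonneg_right hκ1 hr0'.le
    rw [hθ1] at h3
    nlinarith
  refine (measureReal_mono hsub (measure_ne_top _ _)).trans ?_
  refine (measureReal_union_le _ _).trans ?_
  have hlast : P.real rg ≤ p / 2 := hr3 r (by omega)
  have hfirst : P.real (⋃ y ∈ Y, (up y ∪ lo y)) ≤ p / 2 := by
    refine (measureReal_biUnion_finset_le _ _).trans ?_
    calc ∑ y ∈ Y, P.real (up y ∪ lo y)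
        ≤ ∑ _y ∈ Y, (p / (4 * ((Y.card : ℝ) + 1)) + p / (4 * ((Y.card : ℝ) + 1))) := by
          refine Finset.sum_le_sum fun y hy => ?_
          refine (measureReal_union_le _ _).trans (add_le_add ?_ ?_)
          · apply hr1
            have := Finset.le_sup (f := r1) hy
            omega
          · apply hr2
            have := Finset.le_sup (f := r2) hy
            omega
      _ = Y.card * (p / 2 / ((Y.card : ℝ) + 1)) := by
          rw [Finset.sum_const, nsmul_eq_mul]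
          field_simp
          ring
      _ ≤ p / 2 := by
          rw [mul_div_assoc', div_le_iff₀ (by positivity)]
          nlinarith
  linarith

end Pool.Agent.Helper98.GK

end

/-! ## IA -/

section

namespace Pool.Agent.Helper98.GK

open MeasureTheory ProbabilityTheory Pool.Agent.Helper79.GR Pool.Agent.Helper79.GQ

variable {Ω : Type*} [MeasurableSpace Ω] {d : ℕ} {P : Measure Ω} {X : Edge d → Ω → ℝ}
  {ν : Measure ℝ} {a b : ℝ}

theorem lln_unif_at (h : EnvK P X ν a b) (hd : 1 ≤ d) (R δ p : ℝ) (hR : 0 < R) (hδ : 0 < δ)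
    (hp : 0 < p) : ∃ r₀ : ℕ, ∀ r ≥ r₀, ∀ x : V d, P.real {ω | ∃ v : V d, n1 v ≤ R * r ∧
      δ * r < |T (cf X ω) x (x + v) - tc (mm P X) (rv v)|} ≤ p := by
  obtain ⟨r₀, hr₀⟩ := lln_unif h hd R δ p hR hδ hp
  refine ⟨r₀, fun r hr x => ?_⟩
  refine le_trans (le_of_eq ?_) (hr₀ r hr)
  let S : Set (Edge d → ℝ) := {c | ∃ v : V d, n1 v ≤ R * r ∧
    δ * r < |T c 0 v - tc (mm P X) (rv v)|}
  have hS : MeasurableSet S := by
    have hS' : S = ⋃ v : V d, {c | n1 v ≤ R * r ∧ δ * r < |T c 0 v - tc (mm P X) (rv v)|} := by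
      ext c
      simp [S]
    rw [hS']
    refine MeasurableSet.iUnion fun v => ?_
    by_cases hv : n1 v ≤ R * r
    · simp only [hv, true_and]
      exact measurableSet_lt measurable_const
        (continuous_abs.measurable.comp ((measurable_T_cfg 0 v).sub_const _))
    · simp [hv]
  have h1 : {ω | ∃ v : V d, n1 v ≤ R * r ∧
      δ * r < |T (cf X ω) x (x + v) - tc (mm P X) (rv v)|} =
      (fun ω e => X (sh x e) ω) ⁻¹' S := by
    ext ω
    have hT : ∀ v : V d, T (fun e => X (sh x e) ω) 0 v = T (cf X ω) x (x + v) := by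
      intro v
      have := T_shift (cf X ω) x 0 v
      rw [zero_add, add_comm v x] at this
      exact this
    simp only [Set.mem_ofPred_eq, Set.mem_preimage, S, hT]
  have h2 : {ω | ∃ v : V d, n1 v ≤ R * r ∧
      δ * r < |T (cf X ω) 0 v - tc (mm P X) (rv v)|} = (fun ω e => X e ω) ⁻¹' S := rfl
  rw [h1, h2, measureReal_def, measureReal_def,
    ← Measure.map_apply (measurable_pi_iff.2 fun e => h.meas (sh x e)) hS,
    ← Measure.map_apply (measurable_pi_iff.2 h.meas) hS, map_shift h.toEnv0 x]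

end Pool.Agent.Helper98.GK

end

/-! ## IB -/

section

namespace Pool.Agent.Helper98.GK

open MeasureTheory ProbabilityTheory Filter Topology Pool.Agent.Helper79.GR
  Pool.Agent.Helper79.GQ

variable {Ω : Type*} [MeasurableSpace Ω] {d : ℕ} {P : Measure Ω} {X : Edge d → Ω → ℝ}
  {ν : Measure ℝ} {a b : ℝ}

theorem excess_small (h : Env0 P X ν a b) (hd : 1 ≤ d) (w : F d) (K : ℕ) (δ : ℝ)
    (hδ : 0 < δ) : ∃ R₀ : ℕ, ∀ R ≥ R₀,
      (K : ℝ) * (mm P X (fl R w) - tc (mm P X) (rv (fl R w)) + 1) < δ * R := by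
  have hS := subM_mm h hd
  obtain ⟨m, hm⟩ : ∃ m : ℝ, m = ∫ x, x ∂ν := ⟨_, rfl⟩
  rw [← hm] at hS
  have h1 : Tendsto (fun n : ℕ => (K : ℝ) * (mm P X (fl n w) / n - tc (mm P X) w +
      (|m| * d + 1) / n)) atTop (𝓝 ((K : ℝ) * (tc (mm P X) w - tc (mm P X) w + 0))) :=
    (((tendsto_tc hS w).sub_const _).add
      (tendsto_const_div_atTop_nhds_zero_nat (|m| * d + 1))).const_mul _
  rw [sub_self, add_zero, mul_zero] at h1
  obtain ⟨R₀, hR₀⟩ := eventually_atTop.1 ((h1.eventually_lt_const hδ).and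
    (eventually_gt_atTop 0))
  refine ⟨R₀, fun R hR => ?_⟩
  obtain ⟨h2, h3⟩ := hR₀ R hR
  have h3' : (0 : ℝ) < R := by exact_mod_cast h3
  have h4 : (R : ℝ) * tc (mm P X) w - |m| * d ≤ tc (mm P X) (rv (fl R w)) := by
    have h5 := tc_lip hS (rv (fl R w)) ((R : ℝ) • w)
    rw [tc_smul hS _ h3'.le] at h5
    have h6 : m * nr (rv (fl R w) - (R : ℝ) • w) ≤ |m| * d :=
      (mul_le_mul_of_nonneg_right (le_abs_self m) (nr_nonneg _)).trans
        (mul_le_mul_of_nonneg_left (nr_fl R w) (abs_nonneg m))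
    linarith [(abs_le.1 (h5.trans h6)).1]
  have h7 : (K : ℝ) * (mm P X (fl R w) - tc (mm P X) (rv (fl R w)) + 1) ≤
      (K : ℝ) * (mm P X (fl R w) - R * tc (mm P X) w + (|m| * d + 1)) :=
    mul_le_mul_of_nonneg_left (by linarith) (Nat.cast_nonneg K)
  refine h7.trans_lt ?_
  have h8 : (K : ℝ) * (mm P X (fl R w) - R * tc (mm P X) w + (|m| * d + 1)) =
      (K : ℝ) * (mm P X (fl R w) / R - tc (mm P X) w + (|m| * d + 1) / R) * R := by
    field_simp
  rw [h8]
  exact mul_lt_mul_of_pos_right h2 h3'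

end Pool.Agent.Helper98.GK

end

/-! ## RJ -/

section

namespace Pool.Agent.Helper98.GK

open MeasureTheory ProbabilityTheory Pool.Agent.Helper79.GR Pool.Agent.Helper79.GQ

variable {Ω : Type*} [MeasurableSpace Ω] {d : ℕ} {P : Measure Ω} {X : Edge d → Ω → ℝ}
  {ν : Measure ℝ} {a b : ℝ}

theorem markov_targets (h : Env0 P X ν a b) (hd : 1 ≤ d) (w : V d) (r k : ℕ)
    (A : Finset (V d)) (δ δ' : ℝ) (hδ' : 0 < δ')
    (hk : ∀ x ∈ A, mm P X (r • w) + mm P X (k • (r • w) - x) -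
      mm P X ((k + 1) • (r • w) - x) ≤ δ) :
    P.real {ω | ∃ x ∈ A, T (cf X ω) x ((k + 1) • (r • w)) <
      T (cf X ω) x (x + r • w) + T (cf X ω) (x + r • w) ((k + 1) • (r • w)) - δ'} ≤
      A.card * δ / δ' := by
  have := h.prob
  set z : V d := (k + 1) • (r • w) with hz
  have hF0 : ∀ (x : V d) (ω : Ω), 0 ≤ T (cf X ω) x (x + r • w) +
      T (cf X ω) (x + r • w) z - T (cf X ω) x z := fun x ω => by
    have h1 := T_triangle (c := cf X ω) (fun e => h.pos e ω) x (x + r • w) z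
    linarith
  have hFi : ∀ x : V d, Integrable (fun ω => T (cf X ω) x (x + r • w) +
      T (cf X ω) (x + r • w) z - T (cf X ω) x z) P := fun x =>
    ((integrable_T h hd _ _).add (integrable_T h hd _ _)).sub (integrable_T h hd _ _)
  have hint : ∀ x ∈ A, ∫ ω, (T (cf X ω) x (x + r • w) +
      T (cf X ω) (x + r • w) z - T (cf X ω) x z) ∂P ≤ δ := by
    intro x hx
    have hadd : Integrable (fun ω => T (cf X ω) x (x + r • w) + T (cf X ω) (x + r • w) z) P :=
      (integrable_T h hd _ _).add (integrable_T h hd _ _)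
    rw [integral_sub hadd (integrable_T h hd _ _),
      integral_add (integrable_T h hd _ _) (integrable_T h hd _ _), integral_T h, integral_T h,
      integral_T h]
    have h1 : x + r • w - x = r • w := by abel
    have h2 : z - (x + r • w) = k • (r • w) - x := by
      rw [hz, succ_nsmul]
      abel
    rw [h1, h2]
    exact hk x hx
  have hmk : ∀ x ∈ A, P.real {ω | δ' ≤ T (cf X ω) x (x + r • w) +
      T (cf X ω) (x + r • w) z - T (cf X ω) x z} ≤ δ / δ' := by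
    intro x hx
    have h1 := mul_meas_ge_le_integral_of_nonneg (μ := P)
      (f := fun ω => T (cf X ω) x (x + r • w) + T (cf X ω) (x + r • w) z - T (cf X ω) x z)
      (Filter.Eventually.of_forall fun ω => hF0 x ω) (hFi x) δ'
    rw [le_div_iff₀ hδ', mul_comm]
    exact h1.trans (hint x hx)
  have hsub : {ω | ∃ x ∈ A, T (cf X ω) x z <
      T (cf X ω) x (x + r • w) + T (cf X ω) (x + r • w) z - δ'} ⊆
      ⋃ x ∈ A, {ω | δ' ≤ T (cf X ω) x (x + r • w) +
        T (cf X ω) (x + r • w) z - T (cf X ω) x z} := by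
    rintro ω ⟨x, hx, hlt⟩
    rw [Set.mem_iUnion₂]
    refine ⟨x, hx, ?_⟩
    change δ' ≤ _
    linarith
  calc P.real {ω | ∃ x ∈ A, T (cf X ω) x z <
      T (cf X ω) x (x + r • w) + T (cf X ω) (x + r • w) z - δ'}
      ≤ P.real (⋃ x ∈ A, {ω | δ' ≤ T (cf X ω) x (x + r • w) +
        T (cf X ω) (x + r • w) z - T (cf X ω) x z}) := measureReal_mono hsub (measure_ne_top _ _)
    _ ≤ ∑ x ∈ A, P.real {ω | δ' ≤ T (cf X ω) x (x + r • w) +
        T (cf X ω) (x + r • w) z - T (cf X ω) x z} := measureReal_biUnion_finset_le _ _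
    _ ≤ ∑ _x ∈ A, δ / δ' := Finset.sum_le_sum hmk
    _ = A.card * δ / δ' := by rw [Finset.sum_const, nsmul_eq_mul, mul_div_assoc]

end Pool.Agent.Helper98.GK

end

/-! ## LH -/

section

namespace Pool.Agent.Helper98.GK

open MeasureTheory ProbabilityTheory Pool.Agent.Helper79.GR Pool.Agent.Helper79.GQ

variable {Ω : Type*} [MeasurableSpace Ω] {d : ℕ} {P : Measure Ω} {X : Edge d → Ω → ℝ}
  {ν : Measure ℝ} {a b : ℝ}

private lemma LH_n1_fl_neg {d : ℕ} (n : ℕ) (x : F d) : n1 (fl n (-x) - (-fl n x)) ≤ d := by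
  have h1 : ∀ i : Fin d, |(((fl n (-x) - (-fl n x)) i : ℤ) : ℝ)| ≤ 1 := by
    intro i
    have e : (((fl n (-x) - (-fl n x)) i : ℤ) : ℝ) = (⌊-((n : ℝ) * x i)⌋ : ℝ) + ⌊(n : ℝ) * x i⌋ := by
      simp [fl]
    rw [e, abs_le]
    have h2 := Int.floor_le (-((n : ℝ) * x i))
    have h3 := Int.floor_le ((n : ℝ) * x i)
    have h4 : ((-1 : ℤ) : ℝ) ≤ ((⌊-((n : ℝ) * x i)⌋ + ⌊(n : ℝ) * x i⌋ : ℤ) : ℝ) := by
      have h5 := Int.lt_floor_add_one (-((n : ℝ) * x i))
      have h6 := Int.lt_floor_add_one ((n : ℝ) * x i)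
      have h7 : ((-2 : ℤ) : ℝ) < ((⌊-((n : ℝ) * x i)⌋ + ⌊(n : ℝ) * x i⌋ : ℤ) : ℝ) := by
        push_cast
        linarith
      have h8 := Int.cast_lt.1 h7
      exact Int.cast_le.2 (by omega)
    push_cast at h4
    constructor
    · linarith
    · linarith
  unfold n1
  calc ∑ i, |(((fl n (-x) - (-fl n x)) i : ℤ) : ℝ)| ≤ ∑ _i : Fin d, (1 : ℝ) :=
        Finset.sum_le_sum fun i _ => h1 i
    _ = d := by simp

private lemma LH_n1_nonneg {d : ℕ} (x : V d) : 0 ≤ n1 x :=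
  Finset.sum_nonneg fun _ _ => abs_nonneg _

private theorem LH_tc_neg (h : Env0 P X ν a b) (hd : 1 ≤ d) (x : F d) :
    tc (mm P X) (-x) = tc (mm P X) x := by
  have hs := subM_mm h hd
  set m : ℝ := ∫ x, x ∂ν
  have h1 := ((tendsto_tc hs (-x)).sub (tendsto_tc hs x)).abs
  have h2 : Filter.Tendsto (fun n : ℕ => |m| * d / (n : ℝ)) Filter.atTop (nhds 0) :=
    tendsto_const_div_atTop_nhds_zero_nat (|m| * d)
  have h3 : |tc (mm P X) (-x) - tc (mm P X) x| ≤ 0 := by
    refine le_of_tendsto_of_tendsto h1 h2 (Filter.Eventually.of_forall fun n => ?_)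
    show |mm P X (fl n (-x)) / n - mm P X (fl n x) / n| ≤ |m| * d / n
    rw [← sub_div, abs_div, Nat.abs_cast]
    refine div_le_div_of_nonneg_right ?_ (Nat.cast_nonneg n)
    rw [← mm_neg h (fl n x)]
    refine (hs.lip _ _).trans ?_
    calc m * n1 (fl n (-x) - -fl n x) ≤ |m| * n1 (fl n (-x) - -fl n x) :=
          mul_le_mul_of_nonneg_right (le_abs_self m) (LH_n1_nonneg _)
      _ ≤ |m| * d := mul_le_mul_of_nonneg_left (LH_n1_fl_neg n x) (abs_nonneg m)
  exact sub_eq_zero.1 (abs_eq_zero.1 (le_antisymm h3 (abs_nonneg _)))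

theorem nrm_tc (h : Env0 P X ν a b) (hd : 1 ≤ d) : Nrm a (∫ x, x ∂ν) (tc (mm P X)) :=
  ⟨h.apos, tc_add_le (subM_mm h hd), fun t ht x => tc_smul (subM_mm h hd) t ht x,
    LH_tc_neg h hd, le_tc (subM_mm h hd), tc_le (subM_mm h hd)⟩

private lemma LH_single {m t : ℝ} {μ : F d → ℝ} (h : Nrm a m μ)
    (ht : ∀ i : Fin d, μ (rv (sv (i, true))) ≤ t) (i : Fin d) (u : ℝ) :
    μ (Pi.single i u) ≤ |u| * t := by
  have e1 : rv (sv ((i, true) : St d)) = Pi.single i (1 : ℝ) := by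
    funext j
    by_cases hj : j = i <;> simp [rv, sv, Pi.single_apply, hj]
  have h1 := ht i
  rw [e1] at h1
  have h3 : μ (Pi.single i |u|) = |u| * μ (Pi.single i (1 : ℝ)) := by
    rw [← h.smul |u| (abs_nonneg u)]
    congr 1
    funext j
    by_cases hj : j = i <;> simp [Pi.single_apply, hj]
  have h4 : μ (Pi.single i u) = μ (Pi.single i |u|) := by
    rcases le_total 0 u with hu | hu
    · rw [abs_of_nonneg hu]
    · rw [abs_of_nonpos hu, ← h.even (Pi.single i (-u))]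
      congr 1
      funext j
      by_cases hj : j = i <;> simp [Pi.single_apply, hj]
  rw [h4, h3]
  exact mul_le_mul_of_nonneg_left h1 (abs_nonneg u)

private lemma LH_sum {m t : ℝ} {μ : F d → ℝ} (h : Nrm a m μ)
    (ht : ∀ i : Fin d, μ (rv (sv (i, true))) ≤ t) (x : F d) (S : Finset (Fin d)) :
    μ (∑ i ∈ S, Pi.single i (x i)) ≤ ∑ i ∈ S, |x i| * t := by
  classical
  induction S using Finset.induction_on with
  | empty =>
    rw [Finset.sum_empty, Finset.sum_empty]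
    have h1 := h.smul 0 le_rfl (0 : F d)
    rw [zero_mul, zero_smul] at h1
    exact h1.le
  | insert i S hi ih =>
    rw [Finset.sum_insert hi, Finset.sum_insert hi]
    exact (h.add _ _).trans (add_le_add (LH_single h ht i (x i)) ih)

theorem nrm_mono {m t : ℝ} {μ : F d → ℝ} (h : Nrm a m μ)
    (ht : ∀ i : Fin d, μ (rv (sv (i, true))) ≤ t) : Nrm a t μ := by
  refine ⟨h.apos, h.add, h.smul, h.even, h.lo, fun x => ?_⟩
  have h1 := LH_sum h ht x Finset.univ
  have e1 : (∑ i, Pi.single i (x i) : F d) = x := Finset.univ_sum_single x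
  rw [e1, ← Finset.sum_mul] at h1
  rw [mul_comm]
  exact h1

end Pool.Agent.Helper98.GK

end

/-! ## IE -/

section

namespace Pool.Agent.Helper98.GK

open MeasureTheory ProbabilityTheory Pool.Agent.Helper79.GR Pool.Agent.Helper79.GQ

variable {Ω : Type*} [MeasurableSpace Ω] {d : ℕ} {P : Measure Ω} {X : Edge d → Ω → ℝ}
  {ν : Measure ℝ} {a b : ℝ}

/-- the integer part of a large multiple of a vector which is not zero -/
private theorem IE_fl_ne {d : ℕ} {w : F d} (hw : w ≠ 0) :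
    ∃ r₀ : ℕ, ∀ n ≥ r₀, fl n w ≠ 0 := by
  obtain ⟨i, hi⟩ : ∃ i, w i ≠ 0 := by
    by_contra hn
    push Not at hn
    exact hw (funext hn)
  obtain ⟨r₀, hr₀⟩ := exists_nat_ge (1 / |w i|)
  have hpos : 0 < |w i| := abs_pos.2 hi
  have h1 : 1 ≤ (r₀ : ℝ) * |w i| := (div_le_iff₀ hpos).1 hr₀
  refine ⟨r₀, fun n hn h0 => ?_⟩
  have hn' : (r₀ : ℝ) ≤ n := by exact_mod_cast hn
  have h2 : 1 ≤ (n : ℝ) * |w i| := h1.trans (mul_le_mul_of_nonneg_right hn' hpos.le)
  have h3 : ⌊(n : ℝ) * w i⌋ = 0 := congrFun h0 i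
  rw [Int.floor_eq_zero_iff, Set.mem_Ico] at h3
  rcases lt_or_gt_of_ne hi with hlt | hgt
  · rw [abs_of_neg hlt] at h2
    linarith [h3.1]
  · rw [abs_of_pos hgt] at h2
    linarith [h3.2]

/-- the union over a finite set -/
private theorem IE_union [IsProbabilityMeasure P] (A : Finset (V d)) (E : V d → Set Ω) (p' : ℝ)
    (hE : ∀ x, P.real (E x) ≤ p') : P.real {ω | ∃ x ∈ A, ω ∈ E x} ≤ A.card * p' := by
  have e1 : {ω | ∃ x ∈ A, ω ∈ E x} = ⋃ x ∈ A, E x := by
    ext ω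
    simp
  rw [e1]
  refine (measureReal_biUnion_finset_le _ _).trans ?_
  have e2 : (A.card : ℝ) * p' = ∑ _x ∈ A, p' := by rw [Finset.sum_const, nsmul_eq_mul]
  rw [e2]
  exact Finset.sum_le_sum fun x _ => hE x

theorem increments (h : EnvK P X ν a b) (hd : 1 ≤ d) {w : F d} {ρ : F d →L[ℝ] ℝ}
    (hw : HasFDerivAt (tc (mm P X)) ρ w) (hw0 : w ≠ 0) (C δ p : ℝ) (hC : 0 < C) (hδ : 0 < δ)
    (hp : 0 < p) : ∃ r₀ : ℕ, ∀ r : ℕ, r₀ ≤ r → ∃ v : V d, v ≠ 0 ∧ ∀ k₀ : ℕ, ∃ k > k₀,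
      P.real {ω | ¬ H2 (cf X ω) ρ C δ r (k • v)} ≤ p := by
  have := h.prob
  have hN : Nrm a (∫ x, x ∂ν) (tc (mm P X)) := nrm_tc h.toEnv0 hd
  have hρ : ∀ x, ρ x ≤ tc (mm P X) x := grad_le hN hw
  have hb : 0 ≤ b := (h.toEnv0.bpos hd).le
  obtain ⟨m, hm⟩ : ∃ m : ℝ, m = ∫ x, x ∂ν := ⟨_, rfl⟩
  rw [← hm] at hN
  have hm0 : 0 ≤ m := hN.apos.le.trans (hN.a_le_m hd)
  -- the constants
  obtain ⟨κ, hκ, hκb⟩ : ∃ κ : ℝ, 0 < κ ∧ 2 * (b + m) * κ ≤ δ / 2 := by
    refine ⟨δ / (4 * (b + m + 1)), by positivity, ?_⟩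
    have h4 : 0 < b + m + 1 := by positivity
    calc 2 * (b + m) * (δ / (4 * (b + m + 1)))
        ≤ 2 * (b + m + 1) * (δ / (4 * (b + m + 1))) :=
          mul_le_mul_of_nonneg_right (by linarith) (by positivity)
      _ = δ / 2 := by field_simp; norm_num
  obtain ⟨δ₁, hδ₁, hδδ⟩ : ∃ δ₁ : ℝ, 0 < δ₁ ∧ 6 * δ₁ ≤ δ / 2 :=
    ⟨δ / 12, by positivity, by linarith⟩
  obtain ⟨θ, hθ, hθb⟩ : ∃ θ : ℝ, 0 < θ ∧ 9 * b * θ ≤ δ₁ := by
    refine ⟨δ₁ / (9 * (b + 1)), by positivity, ?_⟩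
    calc 9 * b * (δ₁ / (9 * (b + 1))) ≤ 9 * (b + 1) * (δ₁ / (9 * (b + 1))) :=
          mul_le_mul_of_nonneg_right (by linarith) (by positivity)
      _ = δ₁ := by field_simp
  obtain ⟨C', hC'1, hCC'⟩ : ∃ C' : ℕ, 1 ≤ C' ∧ C ≤ C' := by
    obtain ⟨C₀, hC₀⟩ := exists_nat_ge C
    exact ⟨C₀ + 1, by omega, hC₀.trans (by push_cast; linarith)⟩
  have hC'0 : (0 : ℝ) < C' := by exact_mod_cast hC'1
  obtain ⟨M, hM1, r₁, hr₁⟩ := diff_upper hN hw (2 * (C' + κ)) δ₁ (by positivity) hδ₁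
  have hM0 : (0 : ℝ) < M := by exact_mod_cast hM1
  obtain ⟨K, N, hK, r₂, hr₂⟩ := exists_net d (κ / C') (by positivity)
  obtain ⟨R, hRdef⟩ : ∃ R : ℝ, R = M * nr w + d + 2 * (C' + κ) := ⟨_, rfl⟩
  have hR0 : 0 < R := by
    have := nr_nonneg w
    rw [hRdef]
    positivity
  have hK1 : (0 : ℝ) < K + 1 := by positivity
  obtain ⟨p', hp', hKp⟩ : ∃ p' : ℝ, 0 < p' ∧ K * p' ≤ p / 3 := by
    refine ⟨p / (3 * (K + 1)), by positivity, ?_⟩
    rw [mul_div_assoc', div_le_div_iff₀ (by positivity) (by positivity)]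
    nlinarith
  obtain ⟨r₃, hr₃⟩ := lln_unif_at h hd R δ₁ p' hR0 hδ₁ hp'
  obtain ⟨r₄, hr₄⟩ := excess_small h.toEnv0 hd w K (p' * δ₁ / M) (by positivity)
  obtain ⟨r₅, hr₅⟩ := IE_fl_ne hw0
  obtain ⟨r₆, hr₆⟩ := rg_near h.toEnv0 hd (C' + κ) θ (p / 3) (by positivity) hθ (by positivity)
  obtain ⟨r₇, hr₇⟩ := exists_nat_ge (1 / θ)
  refine ⟨max (max (max r₁ r₂) (max r₆ r₇)) (max (max r₃ r₄) (max r₅ 1)), fun r hr => ?_⟩
  have hrr₁ : r₁ ≤ r :=
    (le_max_left _ _).trans ((le_max_left _ _).trans ((le_max_left _ _).trans hr))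
  have hrr₂ : r₂ ≤ r :=
    (le_max_right _ _).trans ((le_max_left _ _).trans ((le_max_left _ _).trans hr))
  have hrr₆ : r₆ ≤ r :=
    (le_max_left _ _).trans ((le_max_right _ _).trans ((le_max_left _ _).trans hr))
  have hrr₇ : r₇ ≤ r :=
    (le_max_right _ _).trans ((le_max_right _ _).trans ((le_max_left _ _).trans hr))
  have hrr₃ : r₃ ≤ r :=
    (le_max_left _ _).trans ((le_max_left _ _).trans ((le_max_right _ _).trans hr))
  have hrr₄ : r₄ ≤ r :=
    (le_max_right _ _).trans ((le_max_left _ _).trans ((le_max_right _ _).trans hr))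
  have hrr₅ : r₅ ≤ r :=
    (le_max_left _ _).trans ((le_max_right _ _).trans ((le_max_right _ _).trans hr))
  have hr1 : 1 ≤ r :=
    (le_max_right _ _).trans ((le_max_right _ _).trans ((le_max_right _ _).trans hr))
  have hr0 : (0 : ℝ) < r := by exact_mod_cast hr1
  have hr1' : (1 : ℝ) ≤ r := by exact_mod_cast hr1
  have hθr : 1 ≤ θ * r := by
    have h1 : (r₇ : ℝ) ≤ r := by exact_mod_cast hrr₇
    have h2 := (div_le_iff₀ hθ).1 (hr₇.trans h1)
    linarith
  have hMr : r ≤ M * r := Nat.le_mul_of_pos_left r hM1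
  have hCr : r ≤ C' * r := Nat.le_mul_of_pos_left r hC'1
  refine ⟨fl (M * r) w, hr₅ (M * r) (hrr₅.trans hMr), fun k₀ => ?_⟩
  obtain ⟨v, hv⟩ : ∃ v : V d, v = fl (M * r) w := ⟨_, rfl⟩
  rw [← hv]
  obtain ⟨A, hA⟩ : ∃ A : Finset (V d), A = N (C' * r) := ⟨_, rfl⟩
  have hcard : (A.card : ℝ) ≤ K := by
    rw [hA]
    exact_mod_cast hK (C' * r)
  have hnn : 0 ≤ mm P X (1 • v) - (1 : ℕ) * tc (mm P X) (rv v) + 1 := by
    have := mul_tc_le (subM_mm h.toEnv0 hd) v 1
    linarith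
  have hex := hr₄ (M * r) (hrr₄.trans hMr)
  rw [← hv] at hex
  have hex' : (K : ℝ) * (mm P X (1 • v) - (1 : ℕ) * tc (mm P X) (rv v) + 1) < p' * δ₁ * r := by
    have e1 : p' * δ₁ / M * ((M * r : ℕ) : ℝ) = p' * δ₁ * r := by
      push_cast
      field_simp
    rw [e1] at hex
    rw [one_smul, Nat.cast_one, one_mul]
    exact hex
  obtain ⟨k, hk, hgood⟩ := good_targets (subM_mm h.toEnv0 hd) v A 1 (p' * δ₁ * r)
    ((mul_le_mul_of_nonneg_right hcard hnn).trans_lt hex') k₀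
  refine ⟨k + 1, by omega, ?_⟩
  have E1 := markov_targets h.toEnv0 hd v 1 k A (p' * δ₁ * r) (δ₁ * r) (mul_pos hδ₁ hr0) hgood
  rw [one_smul] at E1
  have E2 := IE_union (P := P) A (fun x => {ω | ∃ u : V d, n1 u ≤ R * r ∧
    δ₁ * r < |T (cf X ω) x (x + u) - tc (mm P X) (rv u)|}) p' (hr₃ r hrr₃)
  have E3 := hr₆ r hrr₆
  have hsub : {ω | ¬ H2 (cf X ω) ρ C δ r ((k + 1) • v)} ⊆
      ({ω | ∃ x ∈ A, T (cf X ω) x ((k + 1) • v) <
        T (cf X ω) x (x + v) + T (cf X ω) (x + v) ((k + 1) • v) - δ₁ * r} ∪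
      {ω | ∃ x ∈ A, ω ∈ {ω | ∃ u : V d, n1 u ≤ R * r ∧
        δ₁ * r < |T (cf X ω) x (x + u) - tc (mm P X) (rv u)|}}) ∪
      {ω | ¬ Rg a b (θ * r) ((C' + κ) * r) (cf X ω)} := by
    intro ω hω
    by_contra hn
    simp only [Set.mem_union, Set.mem_setOf_eq, not_or, not_exists, not_and, not_lt,
      not_not] at hn
    obtain ⟨⟨hn1, hn2⟩, hn3⟩ := hn
    apply hω
    have hnet : ∀ q : V d, n1 q ≤ C' * (r : ℝ) → ∃ x ∈ A, n1 (x - q) ≤ κ * r := by
      intro q hq
      obtain ⟨x, hx, hxq⟩ := hr₂ (C' * r) (hrr₂.trans hCr) q (by push_cast; exact hq)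
      refine ⟨x, by rw [hA]; exact hx, hxq.trans (le_of_eq ?_)⟩
      push_cast
      field_simp
    have hvR : n1 v + 2 * (C' + κ) * (r : ℝ) ≤ R * r := by
      have h1 := n1_fl_le (M * r) w
      rw [← hv] at h1
      push_cast at h1
      have h2 : (d : ℝ) ≤ d * r := le_mul_of_one_le_right (Nat.cast_nonneg d) hr1'
      rw [hRdef]
      nlinarith
    have h3 : ∀ y : F d, nr y ≤ 2 * (C' + κ) * (r : ℝ) →
        tc (mm P X) (rv v + y) - tc (mm P X) (rv v) ≤ ρ y + δ₁ * r := by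
      intro y hy
      rw [hv]
      exact hr₁ r hrr₁ y hy
    have hT : ∀ x ∈ A, ∀ q : V d, n1 q ≤ C' * (r : ℝ) → n1 (x - q) ≤ κ * r →
        T (cf X ω) x q ≤ (b * κ + δ₁) * r := by
      intro x _ q hq hxq
      have e0 : (C' + κ) * (r : ℝ) = C' * r + κ * r := by ring
      have e1 : 0 ≤ κ * (r : ℝ) := (mul_pos hκ hr0).le
      have hx : n1 x ≤ (C' + κ) * (r : ℝ) := by
        have h4 := n1_add_le (x - q) q
        rw [sub_add_cancel] at h4
        rw [e0]
        linarith only [h4, hq, hxq]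
      have hq' : n1 q ≤ (C' + κ) * (r : ℝ) := by
        rw [e0]
        linarith only [hq, e1]
      have h5 := hn3.T_le (h.gd ω).pos hd hb hθr hx hq'
      have h6 : n1 (q - x) ≤ κ * r := by
        rw [← n1_neg, neg_sub]
        exact hxq
      have h7 : b * n1 (q - x) ≤ b * (κ * r) := mul_le_mul_of_nonneg_left h6 hb
      have h8 : 9 * b * (θ * r) ≤ δ₁ * r := by
        have h9 := mul_le_mul_of_nonneg_right hθb hr0.le
        linarith only [h9]
      have e2 : (b * κ + δ₁) * (r : ℝ) = b * (κ * r) + δ₁ * r := by ring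
      rw [e2]
      linarith only [h5, h7, h8]
    have key := incr_det (h.gd ω).pos hN hρ A v ((k + 1) • v) r C' κ δ₁ R hm0 hnet hT
      hn1 hn2 hvR h3
    intro x y hx hy
    have hCC : C * (r : ℝ) ≤ C' * r := mul_le_mul_of_nonneg_right hCC' hr0.le
    have h5 := key x y (hx.trans hCC) (hy.trans hCC)
    have h6 : (6 * δ₁ + 2 * (b + m) * κ) * r ≤ δ * r :=
      mul_le_mul_of_nonneg_right (by linarith) hr0.le
    linarith
  refine (measureReal_mono hsub).trans ?_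
  refine (measureReal_union_le _ _).trans ?_
  have E4 := measureReal_union_le (μ := P)
    {ω | ∃ x ∈ A, T (cf X ω) x ((k + 1) • v) <
        T (cf X ω) x (x + v) + T (cf X ω) (x + v) ((k + 1) • v) - δ₁ * r}
    {ω | ∃ x ∈ A, ω ∈ {ω | ∃ u : V d, n1 u ≤ R * r ∧
        δ₁ * r < |T (cf X ω) x (x + u) - tc (mm P X) (rv u)|}}
  have h9 : (A.card : ℝ) * (p' * δ₁ * r) / (δ₁ * r) = A.card * p' := by
    field_simp
  rw [h9] at E1
  have h10 : (A.card : ℝ) * p' ≤ p / 3 :=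
    (mul_le_mul_of_nonneg_right hcard hp'.le).trans hKp
  linarith

end Pool.Agent.Helper98.GK

end
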