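import Pool.Agent.Helper98.GM.M1
import Pool.Agent.Helper98.GM.M2
import Pool.Agent.Helper79.GQ.AD
import Pool.Agent.Helper79.GQ.BB
import Pool.Agent.Helper79.GQ.BC
import Pool.Agent.Helper79.GQ.BD
import Pool.Agent.Helper79.GQ.BF
import Pool.Agent.Helper79.GQ.BH
import Pool.Agent.Helper79.GQ.BG
import Pool.Agent.Helper79.GQ.BJ
import Pool.Agent.Helper79.GQ.IF
import Pool.Agent.Helper79.GQ.MA
import Pool.Agent.Helper79.GQ.BL

/-!
Project GK (MP_13b103_pr, geodesic rays for laws which touch `0` and are unbounded), part M3: rays from gradients of the time constant.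
Merged from the files of the folder GK (pieces by the whole team).
-/

set_option autoImplicit false

/-! ## AD -/

section

namespace Pool.Agent.Helper98.GK

open MeasureTheory ProbabilityTheory Pool.Agent.Helper79.GR Pool.Agent.Helper79.GQ

variable {Ω : Type*} [MeasurableSpace Ω] {d : ℕ} {P : Measure Ω} {X : Edge d → Ω → ℝ}
  {ν : Measure ℝ} {a b : ℝ}

/-- the union bound for finitely many events -/
private theorem AD_union [IsProbabilityMeasure P] {N : ℕ} (E : Fin N → Set Ω) (q : ℝ)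
    (hE : ∀ i, P.real (E i) ≤ q) : P.real {ω | ∃ i, ω ∈ E i} ≤ N * q := by
  have e1 : {ω | ∃ i, ω ∈ E i} = ⋃ i, E i := by
    ext ω
    simp
  rw [e1]
  refine (measureReal_iUnion_fintype_le _).trans ?_
  refine (Finset.sum_le_sum fun i _ => hE i).trans ?_
  rw [Finset.sum_const, nsmul_eq_mul, Finset.card_univ, Fintype.card_fin]

/-- a property which holds with outer probability at least `1 - p` for all `p > 0` -/
private theorem AD_ae [IsProbabilityMeasure P] (S : Set Ω)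
    (hS : ∀ p : ℝ, 0 < p → ∃ E : Set Ω, MeasurableSet E ∧ E ⊆ S ∧ 1 - p ≤ P.real E) :
    ∀ᵐ ω ∂P, ω ∈ S := by
  rw [ae_iff]
  by_contra hne
  have hpos : 0 < P.real {ω | ¬ ω ∈ S} :=
    ENNReal.toReal_pos hne (measure_ne_top P _)
  obtain ⟨E, hE, hES, hp⟩ := hS (P.real {ω | ¬ ω ∈ S} / 2) (half_pos hpos)
  have h1 : P.real {ω | ¬ ω ∈ S} ≤ P.real Eᶜ :=
    measureReal_mono fun ω hω hωE => hω (hES hωE)
  rw [probReal_compl_eq_one_sub hE] at h1
  linarith

theorem theorem_disjoint (h : EnvK P X ν a b) (hd : 1 ≤ d) {N : ℕ} {w : Fin N → F d}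
    {ρ : Fin N → F d →L[ℝ] ℝ} {g : ℝ} (hD : Dir (tc (mm P X)) w ρ g) :
    ∀ᵐ ω ∂P, ∃ (x : Fin N → V d) (s : Fin N → ℕ → St d),
      (∀ i n, Geo (cf X ω) (x i) (pre (s i) n)) ∧
      ∀ i j, i ≠ j → ∀ k l, pos (x i) (pre (s i) k) ≠ pos (x j) (pre (s j) l) := by
  have := h.prob
  have hN : Nrm a (∫ x, x ∂ν) (tc (mm P X)) := nrm_tc h.toEnv0 hd
  obtain ⟨m, hm⟩ : ∃ m : ℝ, m = ∫ x, x ∂ν := ⟨_, rfl⟩
  rw [← hm] at hN
  refine AD_ae {ω | ∃ (x : Fin N → V d) (s : Fin N → ℕ → St d),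
      (∀ i n, Geo (cf X ω) (x i) (pre (s i) n)) ∧
      ∀ i j, i ≠ j → ∀ k l, pos (x i) (pre (s i) k) ≠ pos (x j) (pre (s j) l)} fun p hp => ?_
  have ha : 0 < a := h.apos
  have hg : 0 < g := hD.gpos
  obtain ⟨C, hC⟩ : ∃ C : ℝ, C = 1 / a + d := ⟨_, rfl⟩
  have hC0 : 0 < C := by
    rw [hC]
    positivity
  have hδ : 0 < g / 2 := half_pos hg
  have hq : 0 < p / (N + 1) := by positivity
  have hw0 : ∀ i, w i ≠ 0 := by
    intro i hi
    have h1 := hD.one i
    rw [hi, hN.zero] at h1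
    exact zero_ne_one h1
  choose r₀ hr₀ using fun i => increments h hd (hD.der i) (hw0 i) C (g / 2) (p / (N + 1)) hC0 hδ hq
  obtain ⟨r₁, hr₁⟩ := exists_nat_ge (4 * m * d / g)
  obtain ⟨r, hr, hr1, hrg⟩ : ∃ r : ℕ, (∀ i, r₀ i ≤ r) ∧ 1 ≤ r ∧ 4 * m * d < g * r := by
    refine ⟨(Finset.univ.sup r₀) + r₁ + 1, fun i => ?_, by omega, ?_⟩
    · have := Finset.le_sup (f := r₀) (Finset.mem_univ i)
      omega
    · rw [div_le_iff₀ hg] at hr₁
      push_cast
      have h2 : (0 : ℝ) ≤ ((Finset.univ.sup r₀ : ℕ) : ℝ) := Nat.cast_nonneg _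
      nlinarith
  have hr1' : (1 : ℝ) ≤ r := by exact_mod_cast hr1
  choose v hv0 hv using fun i => hr₀ i r (hr i)
  choose k hk hkp using fun (n : ℕ) (i : Fin N) => hv i n
  obtain ⟨E, hE⟩ : ∃ E : ℕ → Set Ω, E = fun n =>
    {ω | ∀ i, H2 (cf X ω) (ρ i) C (g / 2) r (k n i • v i)} := ⟨_, rfl⟩
  have hcf : Measurable fun ω => cf X ω := measurable_pi_iff.2 h.meas
  have hEm : ∀ n, MeasurableSet (E n) := by
    intro n
    have e1 : E n = ⋂ i, {ω | H2 (cf X ω) (ρ i) C (g / 2) r (k n i • v i)} := by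
      rw [hE]
      ext ω
      simp
    rw [e1]
    exact MeasurableSet.iInter fun i => hcf (measurableSet_H2 (ρ i) C (g / 2) r (k n i • v i))
  have hEp : ∀ n, 1 - p ≤ P.real (E n) := by
    intro n
    have h1 := AD_union (P := P)
      (fun i => {ω | ¬ H2 (cf X ω) (ρ i) C (g / 2) r (k n i • v i)}) _ (hkp n)
    have e1 : (E n)ᶜ = {ω | ∃ i, ω ∈ {ω | ¬ H2 (cf X ω) (ρ i) C (g / 2) r (k n i • v i)}} := by
      rw [hE]
      ext ω
      simp
    rw [← e1, probReal_compl_eq_one_sub (hEm n)] at h1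
    have h2 : (N : ℝ) * (p / (N + 1)) ≤ p := by
      rw [mul_div_assoc', div_le_iff₀ (by positivity)]
      nlinarith
    linarith
  obtain ⟨hm1, hm2⟩ := prob_io P E hEm (1 - p) hEp
  refine ⟨_, hm1, fun ω hω => ?_, hm2⟩
  refine ⟨fun i => fl r (w i), disj_rays (cf X ω) _ fun n => ?_⟩
  obtain ⟨K, hK⟩ := exists_nat_ge (∑ i, n1 (fl r (w i)))
  have hK' : ∀ i, n1 (fl r (w i)) ≤ K := fun i =>
    (Finset.single_le_sum (f := fun i => n1 (fl r (w i)))
      (fun j _ => n1_nonneg _) (Finset.mem_univ i)).trans hK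
  obtain ⟨n', hn', hEω⟩ := hω (n + K)
  rw [hE] at hEω
  have hb : ∀ e, 0 < cf X ω e := fun e => h.pos e ω
  choose u hu hcost _hnd using fun i => exists_min (h.gd ω) (fl r (w i)) (k n' i • v i)
  have hgeo : ∀ i, Geo (cf X ω) (fl r (w i)) (u i) := by
    intro i
    rw [geo_iff hb, hcost i, hu i]
  refine ⟨u, fun i => ⟨?_, hgeo i⟩, fun i j hij k' l' => ?_⟩
  · have h1 := n1_pos_sub_le (fl r (w i)) (u i)
    rw [hu i] at h1
    have h2 := n1_add_le (k n' i • v i - fl r (w i)) (fl r (w i))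
    rw [sub_add_cancel, n1_nsmul] at h2
    have h3 : 1 ≤ n1 (v i) := by
      obtain ⟨j, hj⟩ := exists_nat_n1 (v i)
      have h0 : n1 (v i) ≠ 0 := fun h => hv0 i (n1_eq_zero.1 h)
      rw [hj] at h0 ⊢
      have : j ≠ 0 := by
        intro h
        apply h0
        rw [h]
        simp
      exact_mod_cast Nat.one_le_iff_ne_zero.2 this
    have h4 : (n : ℝ) + K ≤ k n' i := by
      have := hk n' i
      exact_mod_cast (by omega : n + K ≤ k n' i)
    have h5 : (k n' i : ℝ) ≤ k n' i * n1 (v i) :=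
      le_mul_of_one_le_right (Nat.cast_nonneg _) h3
    have h6 := hK' i
    have h7 : (n : ℝ) ≤ (u i).length := by linarith
    exact_mod_cast h7
  · refine disjoint_geo hb hN hD C (g / 2) r (fun i => k n' i • v i) hEω ?_ ?_ i j hij
      (u i) (u j) (hgeo i) (hu i) (hgeo j) (hu j) k' l'
    · rw [hC]
      have h1 : (d : ℝ) ≤ d * r := le_mul_of_one_le_right (Nat.cast_nonneg d) hr1'
      have h2 : (1 / a + (d : ℝ)) * r = r / a + d * r := by ring
      linarith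
    · linarith

end Pool.Agent.Helper98.GK

end

/-! ## BB -/

section

namespace Pool.Agent.Helper98.GK

open MeasureTheory ProbabilityTheory Pool.Agent.Helper79.GR Pool.Agent.Helper79.GQ

private theorem BB_tub {d : ℕ} {a m : ℝ} {μ : F d → ℝ} (h : Nrm a m μ) {w : F d}
    (h1 : μ w = 1) (hw : nr w ≤ 1 / a) (hm : 0 ≤ m) {t E ε r : ℝ} (ht : 0 ≤ t) {q : V d}
    (hq : nr (rv q - t • w) ≤ E) (hE : E * (1 + m / a) ≤ ε * r) : Tub μ ε r w q := by
  have hE0 : 0 ≤ E := (nr_nonneg _).trans hq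
  have e1 : rv q - μ (rv q) • w = (rv q - t • w) + (t - μ (rv q)) • w := by
    rw [sub_smul]
    abel
  have e2 : μ (t • w) = t := by rw [h.smul t ht, h1, mul_one]
  have e3 : |t - μ (rv q)| ≤ m * E := by
    have h2 := h.lip (rv q) (t • w)
    rw [e2, abs_sub_comm] at h2
    exact h2.trans (mul_le_mul_of_nonneg_left hq hm)
  unfold Tub
  rw [e1]
  have h3 := nr_add_le (rv q - t • w) ((t - μ (rv q)) • w)
  rw [nr_smul] at h3
  have h4 : |t - μ (rv q)| * nr w ≤ m * E * (1 / a) :=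
    mul_le_mul e3 hw (nr_nonneg _) (mul_nonneg hm hE0)
  have h5 : E * (1 + m / a) = E + m * E * (1 / a) := by ring
  linarith

theorem tube_walk {d N : ℕ} {a b l R m : ℝ} {c : Edge d → ℝ} (hg : Gd c) (hr : Rg a b l R c)
    (hl : 0 ≤ l) {μ : F d → ℝ} (hμ : Nrm a m μ) {w : Fin N → F d} {ρ : Fin N → F d →L[ℝ] ℝ}
    {g : ℝ} (hD : Dir μ w ρ g) (i : Fin N) (ε δ r : ℝ) (n s : ℕ) (h3 : H3 c (w i) n δ s)
    (hδ : 0 ≤ δ) (hR : (n : ℝ) * s / a + d ≤ R)
    (hE : ((1 + δ) * s / a + l + d) * (1 + m / a) ≤ ε * r) :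
    ∃ u : List (St d), pos 0 u = fl (n * s) (w i) ∧ cost c 0 u ≤ n * ((1 + δ) * s) ∧
      ∀ e ∈ eds 0 u, ¬ Wal μ ε r w e := by
  have ha : 0 < a := hμ.apos
  have hm : 0 ≤ m := by
    have h1 := hμ.hi (w i)
    rw [hD.one i] at h1
    by_contra hc'
    have h2 : m * nr (w i) ≤ 0 := mul_nonpos_of_nonpos_of_nonneg (not_le.1 hc').le (nr_nonneg _)
    linarith
  have hnr : nr (w i) ≤ 1 / a := Dir.nr_le hμ hD i
  have hs0 : (0 : ℝ) ≤ s := Nat.cast_nonneg s
  have hd0 : (0 : ℝ) ≤ d := Nat.cast_nonneg d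
  have hsa : 0 ≤ (1 + δ) * (s : ℝ) / a := div_nonneg (mul_nonneg (by linarith) hs0) ha.le
  have key : ∀ k ≤ n, ∃ u : List (St d), pos 0 u = fl (k * s) (w i) ∧
      cost c 0 u ≤ k * ((1 + δ) * s) ∧
      ∀ j, Tub μ ε r (w i) (pos 0 (u.take j)) := by
    intro k
    induction k with
    | zero =>
      intro _
      have hfl : fl (0 * s) (w i) = 0 := by
        funext x
        simp [fl]
      refine ⟨[], ?_, ?_, ?_⟩
      · rw [hfl]
        rfl
      · change (0 : ℝ) ≤ _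
        simp
      · intro j
        rw [List.take_nil]
        change Tub μ ε r (w i) (0 : V d)
        refine BB_tub hμ (hD.one i) hnr hm le_rfl ?_ hE
        rw [rv_zero, zero_smul, sub_zero, nr_zero]
        linarith
    | succ k ih =>
      intro hk
      obtain ⟨u, hu1, hu2, hu3⟩ := ih (Nat.le_of_succ_le hk)
      obtain ⟨v, hv1, hv2, -⟩ := exists_min hg (fl (k * s) (w i)) (fl ((k + 1) * s) (w i))
      have hgeo : Geo c (fl (k * s) (w i)) v := by
        rw [geo_iff hg.pos, hv1]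
        exact hv2
      have hxR : n1 (fl (k * s) (w i)) ≤ R := by
        have h1 := n1_fl_le (k * s) (w i)
        have h2 : (((k * s : ℕ) : ℝ)) * nr (w i) ≤ (n : ℝ) * s * (1 / a) := by
          refine mul_le_mul ?_ hnr (nr_nonneg _) (mul_nonneg (Nat.cast_nonneg n) hs0)
          push_cast
          exact mul_le_mul_of_nonneg_right (by exact_mod_cast (Nat.le_of_succ_le hk)) hs0
        have h4 : (n : ℝ) * s * (1 / a) = (n : ℝ) * s / a := by rw [mul_one_div]
        linarith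
      have hlen : (v.length : ℝ) ≤ (1 + δ) * s / a + l := by
        have h1 := Rg.length_le hr hg.pos ha hl hxR hgeo
        rw [hv1] at h1
        have h2 := h3 k hk
        have h4 : a * ((1 + δ) * s / a + l) = (1 + δ) * s + a * l := by
          rw [mul_add, mul_div_cancel₀ _ ha.ne']
        refine le_of_mul_le_mul_left ?_ ha
        rw [h4]
        linarith
      refine ⟨u ++ v, ?_, ?_, ?_⟩
      · rw [pos_append, hu1, hv1]
      · rw [cost_append, hu1, hv2]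
        have h1 := h3 k hk
        push_cast
        linarith
      · intro j
        rw [List.take_append, pos_append]
        rcases le_total j u.length with hj | hj
        · rw [Nat.sub_eq_zero_of_le hj, List.take_zero]
          exact hu3 j
        · rw [List.take_of_length_le hj, hu1]
          refine BB_tub hμ (hD.one i) hnr hm (t := ((k * s : ℕ) : ℝ)) (Nat.cast_nonneg _) ?_ hE
          have h1 := n1_pos_sub_le (fl (k * s) (w i)) (v.take (j - u.length))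
          have h2 : ((v.take (j - u.length)).length : ℝ) ≤ v.length := by
            exact_mod_cast List.length_take_le' _ _
          have h3' := nr_fl (k * s) (w i)
          have h4 := nr_add_le (rv (pos (fl (k * s) (w i)) (v.take (j - u.length))) -
            rv (fl (k * s) (w i))) (rv (fl (k * s) (w i)) - ((k * s : ℕ) : ℝ) • w i)
          rw [sub_add_sub_cancel, ← rv_sub, nr_rv] at h4
          linarith
  obtain ⟨u, hu1, hu2, hu3⟩ := key n le_rfl
  exact ⟨u, hu1, hu2, not_wal fun k _ _ => ⟨i, hu3 k⟩⟩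

end Pool.Agent.Helper98.GK

end

/-! ## BC -/

section

namespace Pool.Agent.Helper98.GK

open MeasureTheory ProbabilityTheory Pool.Agent.Helper79.GR Pool.Agent.Helper79.GQ

theorem far_walk {d N : ℕ} {a m : ℝ} {c : Edge d → ℝ} (hc : Gd c) {μ : F d → ℝ}
    (hμ : Nrm a m μ) {w : Fin N → F d} {ρ : Fin N → F d →L[ℝ] ℝ} {g : ℝ} (hD : Dir μ w ρ g)
    (i : Fin N) (ε δ r C : ℝ) (x z : V d) (h2 : H2 c (ρ i) C δ r z)
    (hx : 2 * r + δ * r < ρ i (rv x)) (hxC : n1 x ≤ C * r) (hC : 2 * r / a ≤ C * r) :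
    ∃ u : List (St d), pos x u = z ∧ cost c x u = T c x z ∧ ∀ e ∈ eds x u, ¬ Wal μ ε r w e := by
  obtain ⟨u, hu, hcu, -⟩ := exists_min hc x z
  have hg : Geo c x u := by rw [geo_iff hc.pos, hu, hcu]
  refine ⟨u, hu, hcu, not_wal ?_⟩
  intro k _ hA
  exfalso
  have h1 := geo_split hc.pos hg k
  rw [hu] at h1
  have h0 : 0 ≤ T c x (Pool.Agent.Helper79.GR.pos x (u.take k)) := T_nonneg hc.pos _ _
  have hq : n1 (Pool.Agent.Helper79.GR.pos x (u.take k)) ≤ C * r := by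
    refine (hμ.n1_le _).trans (le_trans ?_ hC)
    exact div_le_div_of_nonneg_right hA.2 hμ.apos.le
  have h3 := h2 x (Pool.Agent.Helper79.GR.pos x (u.take k)) hxC hq
  have h4 := hD.le i (rv (Pool.Agent.Helper79.GR.pos x (u.take k)))
  have h5 := hA.2
  rw [map_sub] at h3
  linarith

end Pool.Agent.Helper98.GK

end

/-! ## GD -/

section

namespace Pool.Agent.Helper98.GK

open MeasureTheory ProbabilityTheory Pool.Agent.Helper79.GR Pool.Agent.Helper79.GQ

/-- the sum over a list without repetitions after the change of the weights in `W` -/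
private theorem gd_sum {d : ℕ} {c c' : Edge d → ℝ} (W : Finset (Edge d)) (f : Edge d → ℝ)
    (hf : ∀ e, 0 ≤ f e) (hoff : ∀ e ∉ W, c' e = c e) (hlow : ∀ e ∈ W, c e - f e ≤ c' e)
    (L : List (Edge d)) (hL : L.Nodup) : (L.map c).sum ≤ (L.map c').sum + ∑ e ∈ W, f e := by
  classical
  rw [← List.sum_toFinset c hL, ← List.sum_toFinset c' hL]
  have h1 : ∑ e ∈ L.toFinset, c e ≤ ∑ e ∈ L.toFinset, (c' e + if e ∈ W then f e else 0) := by
    refine Finset.sum_le_sum fun e _ => ?_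
    split_ifs with h
    · have := hlow e h
      linarith
    · rw [hoff e h, add_zero]
  have h2 : ∑ e ∈ L.toFinset, (if e ∈ W then f e else 0) ≤ ∑ e ∈ W, f e := by
    rw [← Finset.sum_filter]
    refine Finset.sum_le_sum_of_subset_of_nonneg (fun e he => (Finset.mem_filter.1 he).2)
      fun e _ _ => hf e
  rw [Finset.sum_add_distrib] at h1
  linarith

theorem Gd.of_change {d : ℕ} {c c' : Edge d → ℝ} (h : Gd c) (W : Finset (Edge d))
    (hpos : ∀ e, 0 < c' e) (hoff : ∀ e ∉ W, c' e = c e) : Gd c' where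
  pos := hpos
  far := by
    intro x M
    obtain ⟨L, hL⟩ := h.far x (M + ⌈∑ e ∈ W, c e⌉₊)
    refine ⟨L, fun w hw hl => ?_⟩
    have h1 := hL w hw hl
    have h2 := gd_sum W c (fun e => (h.pos e).le) hoff
      (fun e _ => by have := (hpos e).le; linarith) (eds x w) hw
    have h3 := Nat.le_ceil (∑ e ∈ W, c e)
    rw [cost_eq_sum] at h1
    rw [cost_eq_sum]
    push_cast at h1
    linarith

theorem T_mod_ge {d : ℕ} {c c' : Edge d → ℝ} (hc : ∀ e, 0 < c e) (hc' : Gd c')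
    (W : Finset (Edge d)) (η : ℝ) (hη : 0 ≤ η) (hoff : ∀ e ∉ W, c' e = c e)
    (hlow : ∀ e ∈ W, c e - η ≤ c' e) (x y : V d) : T c x y - W.card * η ≤ T c' x y := by
  obtain ⟨u, hu, hcu, hnd⟩ := exists_min hc' x y
  have h1 := gd_sum W (fun _ => η) (fun _ => hη) hoff hlow (eds x u) hnd
  rw [Finset.sum_const, nsmul_eq_mul] at h1
  have h2 : T c x y ≤ cost c x u := T_le_cost hc hu
  rw [cost_eq_sum] at h2
  rw [cost_eq_sum] at hcu
  linarith

end Pool.Agent.Helper98.GK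

end

/-! ## BE -/

section

namespace Pool.Agent.Helper98.GK

open MeasureTheory ProbabilityTheory Pool.Agent.Helper79.GR Pool.Agent.Helper79.GQ

variable {d N : ℕ} {a b l m : ℝ} {μ : F d → ℝ} {w : Fin N → F d} {ρ : Fin N → F d →L[ℝ] ℝ}
  {g ε δ C b₁ η : ℝ} {n₀ s : ℕ} {c c' : Edge d → ℝ} {W : Finset (Edge d)} {z : Fin N → V d}

theorem Scn.n1_x (h : Scn a b l m μ w ρ g ε δ C b₁ η n₀ s c c' W z) (i : Fin N) :
    n1 (fl (3 * n₀ * s) (w i)) ≤ C * ((n₀ : ℝ) * s) := by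
  have h1 := n1_fl_le (3 * n₀ * s) (w i)
  have h2 := h.dir.nr_le h.nrm i
  have h3 := h.nC
  have h4 : ((3 * n₀ * s : ℕ) : ℝ) * nr (w i) ≤ 3 * ((n₀ : ℝ) * s) / a := by
    have h5 : ((3 * n₀ * s : ℕ) : ℝ) = 3 * ((n₀ : ℝ) * s) := by push_cast; ring
    rw [h5, div_eq_mul_one_div (3 * ((n₀ : ℝ) * s)) a]
    exact mul_le_mul_of_nonneg_left h2 (by positivity)
  linarith

private theorem be_rho (h : Scn a b l m μ w ρ g ε δ C b₁ η n₀ s c c' W z) (i : Fin N) :
    3 * ((n₀ : ℝ) * s) - m * d ≤ ρ i (rv (fl (3 * n₀ * s) (w i))) := by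
  have h1 := h.dir.rho_fl h.nrm i (3 * n₀ * s)
  have h5 : ((3 * n₀ * s : ℕ) : ℝ) = 3 * ((n₀ : ℝ) * s) := by push_cast; ring
  rwa [h5] at h1

theorem Scn.upper (h : Scn a b l m μ w ρ g ε δ C b₁ η n₀ s c c' W z) (i : Fin N) :
    T c' 0 (z i) ≤ 3 * (1 + δ) * ((n₀ : ℝ) * s) + T c (fl (3 * n₀ * s) (w i)) (z i) := by
  have ha := h.nrm.apos
  obtain ⟨u, hu1, hu2, hu3⟩ := tube_walk h.gd h.rg h.lpos h.nrm h.dir i ε δ ((n₀ : ℝ) * s) (3 * n₀) s
    (h.h3 i) h.dpos (by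
      have h1 := h.nC
      have h5 : ((3 * n₀ : ℕ) : ℝ) * s = 3 * ((n₀ : ℝ) * s) := by push_cast; ring
      rw [h5]
      exact h1) h.nE
  have hF := h.nF
  have hx : 2 * ((n₀ : ℝ) * s) + δ * ((n₀ : ℝ) * s) < ρ i (rv (fl (3 * n₀ * s) (w i))) := by
    have h1 := be_rho h i
    linarith
  have hC : 2 * ((n₀ : ℝ) * s) / a ≤ C * ((n₀ : ℝ) * s) := by
    have h1 := h.nC'
    have h2 := h.mpos
    have h3 : 2 * ((n₀ : ℝ) * s) / a ≤ (2 * ((n₀ : ℝ) * s) + m) / a :=
      div_le_div_of_nonneg_right (by linarith) ha.le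
    linarith
  obtain ⟨v, hv1, hv2, hv3⟩ := far_walk h.gd h.nrm h.dir i ε δ ((n₀ : ℝ) * s) C
    (fl (3 * n₀ * s) (w i)) (z i) (h.h2 i) hx (h.n1_x i) hC
  have e1 : cost c' 0 u = cost c 0 u :=
    cost_mod W h.off 0 u fun e he hW => hu3 e he ((h.wal e).1 hW)
  have e2 : cost c' (fl (3 * n₀ * s) (w i)) v = cost c (fl (3 * n₀ * s) (w i)) v :=
    cost_mod W h.off _ v fun e he hW => hv3 e he ((h.wal e).1 hW)
  have hp : pos 0 (u ++ v) = z i := by rw [pos_append, hu1, hv1]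
  have h1 := T_le_cost h.gd'.pos hp
  rw [cost_append, hu1, e1, e2, hv2] at h1
  have h2 : ((3 * n₀ : ℕ) : ℝ) * ((1 + δ) * s) = 3 * (1 + δ) * ((n₀ : ℝ) * s) := by
    push_cast; ring
  rw [h2] at hu2
  linarith

theorem Scn.lower0 (h : Scn a b l m μ w ρ g ε δ C b₁ η n₀ s c c' W z) {q : V d}
    (hq : n1 q ≤ C * ((n₀ : ℝ) * s)) :
    μ (rv q) - δ * ((n₀ : ℝ) * s) - 1 ≤ T c' 0 q := by
  have h1 := T_mod_ge h.gd.pos h.gd' W η h.eta h.off h.low 0 q
  have h2 := (abs_le.1 (h.h1 q hq)).1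
  have h3 := h.card
  linarith

theorem Scn.lower1 (h : Scn a b l m μ w ρ g ε δ C b₁ η n₀ s c c' W z) (i : Fin N) {q : V d}
    (hq : n1 q ≤ C * ((n₀ : ℝ) * s)) :
    T c (fl (3 * n₀ * s) (w i)) (z i) + 3 * ((n₀ : ℝ) * s) - m * d - ρ i (rv q) -
      δ * ((n₀ : ℝ) * s) - 1 ≤ T c' q (z i) := by
  have h1 := T_mod_ge h.gd.pos h.gd' W η h.eta h.off h.low q (z i)
  have h2 := h.h2 i (fl (3 * n₀ * s) (w i)) q (h.n1_x i) hq
  rw [map_sub] at h2
  have h3 := be_rho h i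
  have h4 := h.card
  linarith

theorem Scn.excl (h : Scn a b l m μ w ρ g ε δ C b₁ η n₀ s c c' W z) {i j : Fin N} (hij : j ≠ i)
    {q : V d} (hq : Ann μ ((n₀ : ℝ) * s) q) (ht : Tub μ ε ((n₀ : ℝ) * s) (w j) q) :
    T c' 0 (z i) < T c' 0 q + T c' q (z i) := by
  have ha := h.nrm.apos
  have hr : 0 < (n₀ : ℝ) * s := h.mpos.trans h.spos
  set r : ℝ := (n₀ : ℝ) * s with hrdef
  have hn : n1 q ≤ C * r := by
    refine (h.nrm.n1_le q).trans (le_trans ?_ h.nC')
    apply div_le_div_of_nonneg_right _ ha.le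
    have := hq.2
    have := h.mpos
    linarith
  have h0 := h.lower0 hn
  have h1 := h.lower1 i hn
  have h2 := h.upper i
  have hT := h.nT
  have ht1 := hq.1
  have hmp := h.mpos
  set t : ℝ := μ (rv q) with htdef
  have e1 : ρ i (rv q) = t * ρ i (w j) + ρ i (rv q - t • w j) := by
    rw [map_sub, map_smul, smul_eq_mul]
    ring
  have e2 : ρ i (rv q - t • w j) ≤ m * (ε * r) := by
    refine (h.dir.le i _).trans ((h.nrm.hi _).trans ?_)
    exact mul_le_mul_of_nonneg_left ht hmp.le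
  have e3 : t * ρ i (w j) ≤ t * (1 - g) :=
    mul_le_mul_of_nonneg_left (h.dir.sep i j hij.symm) (hr.le.trans ht1)
  have e4 : g * r ≤ g * t := mul_le_mul_of_nonneg_left ht1 h.dir.gpos.le
  rw [← hrdef] at h0 h1 h2 hT
  nlinarith [h0, h1, h2, hT, e1, e2, e3, e4]

end Pool.Agent.Helper98.GK

end

/-! ## BH -/

section

namespace Pool.Agent.Helper98.GK

open MeasureTheory ProbabilityTheory Pool.Agent.Helper79.GR Pool.Agent.Helper79.GQ

variable {d N : ℕ} {a b l m : ℝ} {μ : F d → ℝ} {w : Fin N → F d} {ρ : Fin N → F d →L[ℝ] ℝ}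
  {g ε δ C b₁ η : ℝ} {n₀ s : ℕ} {c c' : Edge d → ℝ} {W : Finset (Edge d)} {z : Fin N → V d}

private theorem bh_meet (h : Scn a b l m μ w ρ g ε δ C b₁ η n₀ s c c' W z) (i : Fin N) :
    ∃ q, Ann μ ((n₀ : ℝ) * s) q ∧ Tub μ ε ((n₀ : ℝ) * s) (w i) q ∧
      T c' 0 q + T c' q (z i) = T c' 0 (z i) := by
  by_contra H
  push Not at H
  have hrm : m < (n₀ : ℝ) * s := h.spos
  have hm0 : 0 < m := h.mpos
  have hr0 : 0 < (n₀ : ℝ) * s := lt_trans hm0 hrm
  have ha : 0 < a := h.nrm.apos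
  obtain ⟨u, hu, hcu, -⟩ := exists_min h.gd' 0 (z i)
  have hgeo : Geo c' 0 u := (geo_iff h.gd'.pos 0 u).2 (by rw [hu]; exact hcu)
  have hfar : 2 * ((n₀ : ℝ) * s) < μ (rv (pos 0 u)) := by
    rw [hu]
    exact h.far i
  obtain ⟨k₁, k₂, hk, hk₂, h1, h2, h3, h4⟩ := exists_crossing h.nrm hr0 u hfar
  have hsplit : ∀ k, T c' 0 (pos 0 (u.take k)) + T c' (pos 0 (u.take k)) (z i) =
      T c' 0 (z i) := by
    intro k
    have := geo_split h.gd'.pos hgeo k
    rwa [hu] at this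
  have hin : ∀ k, k₁ < k → k < k₂ → Ann μ ((n₀ : ℝ) * s) (pos 0 (u.take k)) ∧
      ∀ j, ¬ Tub μ ε ((n₀ : ℝ) * s) (w j) (pos 0 (u.take k)) := by
    intro k hk1 hk2
    refine ⟨h3 k hk1 hk2, fun j hj => ?_⟩
    by_cases hji : j = i
    · rw [hji] at hj
      exact H _ (h3 k hk1 hk2) hj (hsplit k)
    · have := h.excl hji (h3 k hk1 hk2) hj
      rw [hsplit k] at this
      exact lt_irrefl _ this
  have hcost := crossing_cost h.nrm hrm (fun e he => h.hig e ((h.wal e).2 he)) u hk hk₂ h1 h2 hin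
  set q₁ : V d := pos 0 (u.take k₁) with hq₁
  set q₂ : V d := pos 0 (u.take k₂) with hq₂
  have htt : (u.take k₂).take k₁ = u.take k₁ := by
    rw [List.take_take, min_eq_left hk.le]
  have hdec : u.take k₁ ++ (u.take k₂).drop k₁ = u.take k₂ := by
    rw [← htt]
    exact List.take_append_drop k₁ (u.take k₂)
  have hg1 : cost c' 0 (u.take k₁) = T c' 0 q₁ := (geo_iff h.gd'.pos 0 _).1 (hgeo.take k₁)
  have hg2 : cost c' 0 (u.take k₂) = T c' 0 q₂ := (geo_iff h.gd'.pos 0 _).1 (hgeo.take k₂)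
  have hsum : T c' 0 q₂ = T c' 0 q₁ + cost c' q₁ ((u.take k₂).drop k₁) := by
    rw [← hg1, ← hg2, ← cost_append, hdec]
  have hpos : pos q₁ ((u.take k₂).drop k₁) = q₂ := by
    rw [hq₁, ← pos_append, hdec]
  have hlen : (((u.take k₂).drop k₁).length : ℝ) = (k₂ : ℝ) - k₁ := by
    rw [List.length_drop, List.length_take, min_eq_left hk₂, Nat.cast_sub hk.le]
  have hn := n1_pos_sub_le q₁ ((u.take k₂).drop k₁)
  rw [hpos, hlen] at hn
  have hlip := h.nrm.lip' (rv q₂) (rv q₁)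
  rw [← rv_sub, nr_rv] at hlip
  have hbig : μ (rv q₂) - μ (rv q₁) ≤ m * ((k₂ : ℝ) - k₁) := by
    have := mul_le_mul_of_nonneg_left hn hm0.le
    linarith
  have hk12 : (n₀ : ℝ) * s / m ≤ (k₂ : ℝ) - k₁ := by
    rw [div_le_iff₀ hm0]
    linarith
  have hmul : (b₁ - m) * (((n₀ : ℝ) * s) / m) ≤ (b₁ - m) * ((k₂ : ℝ) - k₁) :=
    mul_le_mul_of_nonneg_left hk12 (sub_nonneg.2 h.b1)
  have hC1 : n1 q₁ ≤ C * ((n₀ : ℝ) * s) := by
    refine (h.nrm.n1_le q₁).trans (le_trans ?_ h.nC')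
    exact (div_le_div_iff_of_pos_right ha).2 (by linarith)
  have hC2 : n1 q₂ ≤ C * ((n₀ : ℝ) * s) := by
    refine (h.nrm.n1_le q₂).trans (le_trans ?_ h.nC')
    exact (div_le_div_iff_of_pos_right ha).2 h4
  have e0 := h.lower0 hC1
  have e1 := h.lower1 i hC2
  have e2 := h.upper i
  have e3 := hsplit k₂
  have e4 := h.dir.le i (rv q₂)
  have e5 := h.nW
  have e6 : b₁ * ((k₂ : ℝ) - k₁) = m * ((k₂ : ℝ) - k₁) + (b₁ - m) * ((k₂ : ℝ) - k₁) := by ring
  have e7 : T c' 0 q₂ + T c' q₂ (z i) = T c' 0 (z i) := e3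
  have e8 : 3 * (1 + δ) * ((n₀ : ℝ) * s) = 3 * ((n₀ : ℝ) * s) + 3 * (δ * ((n₀ : ℝ) * s)) := by ring
  have e9 : 5 * δ * ((n₀ : ℝ) * s) = 5 * (δ * ((n₀ : ℝ) * s)) := by ring
  rw [e8] at e2
  rw [e9] at e5
  linarith

theorem Scn.gg (h : Scn a b l m μ w ρ g ε δ C b₁ η n₀ s c c' W z) :
    GG μ ε ((n₀ : ℝ) * s) w c' z :=
  fun i => ⟨bh_meet h i, fun _ hj _ hq ht => h.excl hj hq ht⟩

end Pool.Agent.Helper98.GK

end

/-! ## BJ -/

section

namespace Pool.Agent.Helper98.GK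

open MeasureTheory ProbabilityTheory Pool.Agent.Helper79.GR Pool.Agent.Helper79.GQ

private theorem BJ_fin {d : ℕ} (R : ℝ) : {x : V d | n1 x ≤ R}.Finite := by
  obtain ⟨M, hM⟩ := exists_nat_ge R
  refine (Set.Finite.pi' fun _ : Fin d => Set.finite_Icc (-(M : ℤ)) M).subset ?_
  intro x hx i
  have h1 : |(x i : ℝ)| ≤ n1 x :=
    Finset.single_le_sum (f := fun j => |(x j : ℝ)|) (fun _ _ => abs_nonneg _)
      (Finset.mem_univ i)
  have h2 : |(x i : ℝ)| ≤ M := h1.trans (le_trans hx hM)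
  have h3 : |x i| ≤ (M : ℤ) := by exact_mod_cast h2
  exact abs_le.1 h3

theorem rays_of_GG {d N : ℕ} {a m : ℝ} {c : Edge d → ℝ} (hc : Gd c) {μ : F d → ℝ}
    (hμ : Nrm a m μ) (ε r : ℝ) (hr : 0 < r) (w : Fin N → F d) (v : Fin N → V d)
    (hv : ∀ i, v i ≠ 0)
    (h : ∀ n : ℕ, ∃ k : Fin N → ℕ, (∀ i, n < k i) ∧ GG μ ε r w c fun i => k i • v i) :
    ∃ s : Fin N → ℕ → St d, Function.Injective s ∧ ∀ i, Ray c (s i) := by
  have ha : 0 < a := hμ.apos
  obtain ⟨M, hM⟩ : ∃ M : ℕ, ∀ q : V d, n1 q ≤ 2 * r / a → T c 0 q < M := by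
    obtain ⟨B, hB⟩ := ((BJ_fin (d := d) (2 * r / a)).image fun q => T c 0 q).bddAbove
    obtain ⟨M, hM⟩ := exists_nat_gt B
    exact ⟨M, fun q hq => (hB ⟨q, hq, rfl⟩).trans_lt hM⟩
  obtain ⟨L, hL⟩ := hc.far 0 M
  apply konig_many c N L
  intro n
  obtain ⟨k, hk, hG⟩ := h n
  choose q hqA hqT hqe using fun i => (hG i).1
  choose w1 hw1 hc1 hn1 using fun i => exists_min hc 0 (q i)
  choose w2 hw2 hc2 hn2 using fun i => exists_min hc (q i) (k i • v i)
  have hpos : ∀ i, Pool.Agent.Helper79.GR.pos 0 (w1 i ++ w2 i) = k i • v i := fun i => by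
    rw [pos_append, hw1, hw2]
  have hgeo : ∀ i, Geo c 0 (w1 i ++ w2 i) := fun i => by
    rw [geo_iff hc.pos, hpos, cost_append, hw1, hc1, hc2]
    exact hqe i
  refine ⟨fun i => w1 i ++ w2 i, fun i => ⟨?_, hgeo i⟩, ?_⟩
  · obtain ⟨j, hj⟩ := exists_nat_n1 (v i)
    have hj0 : j ≠ 0 := by
      rintro rfl
      rw [Nat.cast_zero] at hj
      exact hv i (n1_eq_zero.1 hj)
    have h1 := n1_pos_sub_le (0 : V d) (w1 i ++ w2 i)
    rw [hpos, sub_zero, n1_nsmul, hj] at h1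
    have h2 : k i * j ≤ (w1 i ++ w2 i).length := by exact_mod_cast h1
    have h3 : k i * 1 ≤ k i * j := Nat.mul_le_mul_left _ (Nat.one_le_iff_ne_zero.2 hj0)
    have h4 := hk i
    change n ≤ (w1 i ++ w2 i).length
    omega
  · intro i j hij
    by_contra hne
    have hij' : (w1 i ++ w2 i).take L = (w1 j ++ w2 j).take L := hij
    have hlen : (w1 i).length ≤ L := by
      by_contra hlt
      have h2 : n1 (q i) ≤ 2 * r / a :=
        (hμ.n1_le (q i)).trans (div_le_div_of_nonneg_right (hqA i).2 ha.le)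
      have h3 := hM (q i) h2
      have h4 := hL (w1 i) (hn1 i) (not_le.1 hlt).le
      rw [hc1] at h4
      linarith
    have hq : Pool.Agent.Helper79.GR.pos 0 ((w1 j ++ w2 j).take (w1 i).length) = q i := by
      have h1 : ((w1 j ++ w2 j).take L).take (w1 i).length =
          (w1 j ++ w2 j).take (w1 i).length := by
        rw [List.take_take, min_eq_left hlen]
      rw [← h1, ← hij', List.take_take, min_eq_left hlen, List.take_left', hw1]
      rfl
    have hs := geo_split hc.pos (hgeo j) (w1 i).length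
    rw [hq, hpos] at hs
    exact absurd hs ((hG j).2 i hne (q i) (hqA i) (hqT i)).ne'

end Pool.Agent.Helper98.GK

end

/-! ## BK -/

section

namespace Pool.Agent.Helper98.GK

open MeasureTheory ProbabilityTheory Pool.Agent.Helper79.GR Pool.Agent.Helper79.GQ

theorem constants (d : ℕ) (a m b₁ g : ℝ) (ha : 0 < a) (hm : 0 < m) (hb₁ : m < b₁)
    (hg : 0 < g) : ∃ (ε δ C θ : ℝ) (n₀ : ℕ), 0 < ε ∧ 0 < δ ∧ 0 < C ∧ 0 < θ ∧ 1 ≤ n₀ ∧
      ∃ s₀ : ℕ, ∀ s ≥ s₀, 1 ≤ s ∧ m < (n₀ : ℝ) * s ∧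
        ((1 + δ) * s / a + θ * ((n₀ : ℝ) * s) + d) * (1 + m / a) ≤ ε * ((n₀ : ℝ) * s) ∧
        3 * ((n₀ : ℝ) * s) / a + d ≤ C * ((n₀ : ℝ) * s) ∧
        (2 * ((n₀ : ℝ) * s) + m) / a ≤ C * ((n₀ : ℝ) * s) ∧
        5 * δ * ((n₀ : ℝ) * s) + m * d + 2 < (g - m * ε) * ((n₀ : ℝ) * s) ∧
        5 * δ * ((n₀ : ℝ) * s) + m * d + 2 < (b₁ - m) * (((n₀ : ℝ) * s) / m) ∧
        δ * ((n₀ : ℝ) * s) + m * d < (n₀ : ℝ) * s := by
  have hbm : 0 < b₁ - m := by linarith
  set ε : ℝ := g / (2 * m) with hε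
  have hεpos : 0 < ε := by positivity
  set δ : ℝ := min (1 / 4) (min (g / 40) ((b₁ - m) / (20 * m))) with hδ
  have hδpos : 0 < δ := by
    have : 0 < (b₁ - m) / (20 * m) := by positivity
    exact lt_min (by norm_num) (lt_min (by positivity) this)
  have hδ1 : δ ≤ 1 / 4 := min_le_left _ _
  have hδ2 : δ ≤ g / 40 := (min_le_right _ _).trans (min_le_left _ _)
  have hδ3 : δ ≤ (b₁ - m) / (20 * m) := (min_le_right _ _).trans (min_le_right _ _)
  set C : ℝ := 3 / a + d + (2 + m) / a with hC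
  have hCpos : 0 < C := by positivity
  have hM : 0 < 1 + m / a := by positivity
  set θ : ℝ := ε / (4 * (1 + m / a)) with hθ
  have hθpos : 0 < θ := by positivity
  set K : ℝ := ((1 + δ) / a) * (1 + m / a) with hK
  have hK0 : 0 ≤ K := by positivity
  set L : ℝ := 2 * (d * (1 + m / a)) with hL
  have hL0 : 0 ≤ L := by positivity
  obtain ⟨n₁, hn₁⟩ := exists_nat_ge (2 * K / ε)
  have hmd : 0 ≤ m * (d : ℝ) := by positivity
  have e1 : 0 ≤ 2 * L / ε := by positivity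
  have e2 : 0 ≤ 8 * (m * d + 2) / g := by positivity
  have e3 : 0 ≤ 4 * m * (m * d + 2) / (b₁ - m) := by positivity
  obtain ⟨s₁, hs₁⟩ := exists_nat_ge (1 + m + 2 * L / ε + 8 * (m * d + 2) / g
    + 4 * m * (m * d + 2) / (b₁ - m) + 4 * (m * d))
  refine ⟨ε, δ, C, θ, n₁ + 1, hεpos, hδpos, hCpos, hθpos, by omega, s₁ + 1, ?_⟩
  intro s hs
  have hsr : (s₁ : ℝ) + 1 ≤ (s : ℝ) := by exact_mod_cast hs
  have hs0 : (0 : ℝ) ≤ (s : ℝ) := Nat.cast_nonneg s
  have hn : ((n₁ + 1 : ℕ) : ℝ) = (n₁ : ℝ) + 1 := by push_cast; ring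
  have hn0 : (0 : ℝ) ≤ (n₁ : ℝ) := Nat.cast_nonneg n₁
  set R : ℝ := ((n₁ + 1 : ℕ) : ℝ) * s with hR
  have hRs : (s : ℝ) ≤ R := by rw [hR, hn]; nlinarith
  have hR1 : 1 + m + 2 * L / ε + 8 * (m * d + 2) / g
    + 4 * m * (m * d + 2) / (b₁ - m) + 4 * (m * d) < R := by linarith
  have r1 : 1 < R := by linarith
  have r2 : m < R := by linarith
  have r3 : 2 * L / ε < R := by linarith
  have r4 : 8 * (m * d + 2) / g < R := by linarith
  have r5 : 4 * m * (m * d + 2) / (b₁ - m) < R := by linarith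
  have r6 : 4 * (m * d) < R := by linarith
  have q3 : L ≤ ε * R / 2 := by
    rw [div_lt_iff₀ hεpos] at r3; linarith
  have q4 : m * d + 2 < g * R / 8 := by
    rw [div_lt_iff₀ hg] at r4; linarith
  have q5 : m * d + 2 < (b₁ - m) * (R / m) / 4 := by
    rw [div_lt_iff₀ hbm] at r5
    have h1 : 4 * (m * d + 2) < R * (b₁ - m) / m := by
      rw [lt_div_iff₀ hm]; linarith
    have h2 : (b₁ - m) * (R / m) = R * (b₁ - m) / m := by ring
    rw [h2]; linarith
  have qK : K * s ≤ ε * R / 2 := by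
    rw [div_le_iff₀ hεpos] at hn₁
    have h1 : 2 * K * s ≤ (n₁ : ℝ) * ε * s := mul_le_mul_of_nonneg_right hn₁ hs0
    have h2 : ε * R = (n₁ : ℝ) * ε * s + ε * s := by rw [hR, hn]; ring
    have h3 : 0 ≤ ε * s := by positivity
    linarith
  have hR0 : 0 < R := by linarith
  refine ⟨by omega, r2, ?_, ?_, ?_, ?_, ?_, ?_⟩
  · have h0 : θ * (1 + m / a) = ε / 4 := by
      rw [hθ]; field_simp
    have h1 : ((1 + δ) * s / a + θ * R + d) * (1 + m / a) = K * s + ε / 4 * R + L / 2 := by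
      rw [hK, hL, ← h0]; ring
    rw [h1]; linarith
  · have h1 : C * R = 3 * R / a + d * R + (2 + m) / a * R := by rw [hC]; ring
    have h2 : (0 : ℝ) ≤ (2 + m) / a * R := by positivity
    have h3 : (d : ℝ) ≤ d * R := by
      have : (0 : ℝ) ≤ (d : ℝ) := Nat.cast_nonneg d
      nlinarith
    rw [h1]; linarith
  · have h1 : C * R = 3 * R / a + d * R + (2 * R + m * R) / a := by rw [hC]; ring
    have h2 : (2 * R + m) / a ≤ (2 * R + m * R) / a := by
      apply div_le_div_of_nonneg_right _ ha.le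
      nlinarith
    have h3 : (0 : ℝ) ≤ 3 * R / a := by positivity
    have h4 : (0 : ℝ) ≤ d * R := by positivity
    rw [h1]; linarith
  · have h1 : (g - m * ε) * R = g * R / 2 := by
      rw [hε]; field_simp; ring
    have h2 : 5 * δ * R ≤ g * R / 8 := by nlinarith
    rw [h1]; linarith
  · have h2 : 5 * δ * R ≤ (b₁ - m) * (R / m) / 4 := by
      have h3 : (b₁ - m) * (R / m) / 4 = 5 * ((b₁ - m) / (20 * m)) * R := by
        field_simp; ring
      rw [h3]
      nlinarith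
    have h4 : 0 < (b₁ - m) * (R / m) := by positivity
    linarith
  · have h1 : δ * R ≤ R / 4 := by nlinarith
    linarith

end Pool.Agent.Helper98.GK

end

/-! ## IF -/

section

namespace Pool.Agent.Helper98.GK

open MeasureTheory ProbabilityTheory Pool.Agent.Helper79.GR Pool.Agent.Helper79.GQ

variable {Ω : Type*} [MeasurableSpace Ω] {d : ℕ} {P : Measure Ω} {X : Edge d → Ω → ℝ}
  {ν : Measure ℝ} {a b : ℝ}

private theorem IF_step {a m : ℝ} {μ : F d → ℝ} (h : Nrm a m μ) {w : F d} (hw : μ w = 1)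
    (s l : ℕ) : μ (rv (fl ((l + 1) * s) w - fl (l * s) w)) ≤ s + 2 * |m| * d := by
  have h1 := h.lip' (rv (fl ((l + 1) * s) w - fl (l * s) w)) ((s : ℝ) • w)
  have h2 : μ ((s : ℝ) • w) = s := by rw [h.smul _ (Nat.cast_nonneg s), hw, mul_one]
  have h3 : nr (rv (fl ((l + 1) * s) w - fl (l * s) w) - (s : ℝ) • w) ≤ 2 * d := by
    have e : rv (fl ((l + 1) * s) w - fl (l * s) w) - (s : ℝ) • w =
        (rv (fl ((l + 1) * s) w) - (((l + 1) * s : ℕ) : ℝ) • w) +
          -(rv (fl (l * s) w) - ((l * s : ℕ) : ℝ) • w) := by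
      rw [rv_sub]
      funext i
      simp only [Pi.sub_apply, Pi.add_apply, Pi.neg_apply, Pi.smul_apply, smul_eq_mul]
      push_cast
      ring
    rw [e]
    refine (nr_add_le _ _).trans ?_
    rw [nr_neg]
    have := nr_fl ((l + 1) * s) w
    have := nr_fl (l * s) w
    linarith
  have h4 : m * nr (rv (fl ((l + 1) * s) w - fl (l * s) w) - (s : ℝ) • w) ≤ |m| * (2 * d) :=
    (mul_le_mul_of_nonneg_right (le_abs_self m) (nr_nonneg _)).trans
      (mul_le_mul_of_nonneg_left h3 (abs_nonneg m))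
  rw [h2] at h1
  linarith

theorem steps (h : EnvK P X ν a b) (hd : 1 ≤ d) {w : F d} (hw : tc (mm P X) w = 1) (n : ℕ)
    (δ p : ℝ) (hδ : 0 < δ) (hp : 0 < p) :
    ∃ s₀ : ℕ, ∀ s ≥ s₀, P.real {ω | ¬ H3 (cf X ω) w n δ s} ≤ p := by
  have := h.prob
  have hN := nrm_tc h.toEnv0 hd
  set m : ℝ := ∫ x, x ∂ν with hm
  have hR : 0 < nr w + d + 1 := by
    have h1 := nr_nonneg w
    have h2 : (0 : ℝ) ≤ d := Nat.cast_nonneg d
    linarith
  have hn : (0 : ℝ) < n + 1 := by positivity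
  obtain ⟨r₀, hr₀⟩ := lln_unif_at h hd (nr w + d + 1) (δ / 2) (p / (n + 1)) hR (by positivity)
    (by positivity)
  obtain ⟨k, hk⟩ := exists_nat_ge (4 * |m| * d / δ)
  refine ⟨max (max r₀ k) 1, fun s hs => ?_⟩
  have hs1 : 1 ≤ s := (le_max_right _ _).trans hs
  have hsr : r₀ ≤ s := ((le_max_left _ _).trans (le_max_left _ _)).trans hs
  have hsk : k ≤ s := ((le_max_right _ _).trans (le_max_left _ _)).trans hs
  have hs1' : (1 : ℝ) ≤ s := by exact_mod_cast hs1
  have hsk' : 4 * |m| * d ≤ δ * s := by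
    have h1 : 4 * |m| * d / δ ≤ s := hk.trans (by exact_mod_cast hsk)
    rw [div_le_iff₀ hδ] at h1
    linarith
  have hsub : {ω | ¬ H3 (cf X ω) w n δ s} ⊆ ⋃ l ∈ Finset.range n,
      {ω | ∃ v : V d, n1 v ≤ (nr w + d + 1) * s ∧ δ / 2 * s <
        |T (cf X ω) (fl (l * s) w) (fl (l * s) w + v) - tc (mm P X) (rv v)|} := by
    intro ω hω
    by_contra hno
    apply hω
    intro l hl
    by_contra hlt
    apply hno
    refine Set.mem_biUnion (x := l) (Finset.mem_coe.2 (Finset.mem_range.2 hl)) ?_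
    refine ⟨fl ((l + 1) * s) w - fl (l * s) w, ?_, ?_⟩
    · have h1 := n1_fl_sub_le ((l + 1) * s) (l * s)
        (Nat.mul_le_mul_right s (Nat.le_succ l)) w
      have h2 : ((((l + 1) * s : ℕ) : ℝ) - ((l * s : ℕ) : ℝ)) = s := by
        push_cast
        ring
      rw [h2] at h1
      have h3 : (d : ℝ) ≤ d * s := le_mul_of_one_le_right (Nat.cast_nonneg d) hs1'
      have h4 : (nr w + d + 1) * s = s * nr w + d * s + s := by ring
      rw [h4]
      linarith
    · rw [add_sub_cancel]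
      have h1 := IF_step hN hw s l
      have h2 := le_abs_self (T (cf X ω) (fl (l * s) w) (fl ((l + 1) * s) w) -
        tc (mm P X) (rv (fl ((l + 1) * s) w - fl (l * s) w)))
      rw [not_le] at hlt
      nlinarith
  refine (measureReal_mono hsub (measure_ne_top P _)).trans ((measureReal_biUnion_finset_le _ _).trans ?_)
  refine (Finset.sum_le_sum fun l _ => hr₀ s hsr (fl (l * s) w)).trans ?_
  rw [Finset.sum_const, Finset.card_range, nsmul_eq_mul, mul_div_assoc', div_le_iff₀ hn]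
  nlinarith

theorem near (h : EnvK P X ν a b) (hd : 1 ≤ d) (C δ p : ℝ) (hC : 0 < C) (hδ : 0 < δ)
    (hp : 0 < p) : ∃ r₀ : ℕ, ∀ r : ℕ, r₀ ≤ r →
      P.real {ω | ¬ H1 (tc (mm P X)) (cf X ω) C δ r} ≤ p := by
  obtain ⟨r₀, hr₀⟩ := lln_unif_at h hd C δ p hC hδ hp
  refine ⟨r₀, fun r hr => ?_⟩
  refine le_trans (le_of_eq ?_) (hr₀ r hr 0)
  congr 1
  ext ω
  constructor
  · intro hω
    by_contra hno
    apply hω
    intro v hv
    by_contra hlt
    exact hno ⟨v, hv, by rw [zero_add]; exact not_le.1 hlt⟩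
  · rintro ⟨v, hv, hlt⟩ hH
    rw [zero_add] at hlt
    exact absurd (hH v hv) (not_le.2 hlt)

end Pool.Agent.Helper98.GK

end

/-! ## MA -/

section

namespace Pool.Agent.Helper98.GK

open MeasureTheory ProbabilityTheory Pool.Agent.Helper79.GR Pool.Agent.Helper79.GQ

private lemma MA_le' {d : ℕ} {f g : (Edge d → ℝ) → ℝ} (hf : Measurable f) (hg : Measurable g) :
    Measurable fun c => f c ≤ g c :=
  measurableSet_setOfPred.1 (measurableSet_le hf hg)

private lemma MA_lt' {d : ℕ} {f g : (Edge d → ℝ) → ℝ} (hf : Measurable f) (hg : Measurable g) :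
    Measurable fun c => f c < g c :=
  measurableSet_setOfPred.1 (measurableSet_lt hf hg)

private instance MA_countable' {d : ℕ} : Countable (Edge d) := by
  have : Countable (Sym2 (V d)) := Quot.mk_surjective.countable
  exact inferInstance

private lemma MA_cost {d : ℕ} (x : V d) (w : List (St d)) :
    Measurable fun c : Edge d → ℝ => cost c x w := by
  induction w generalizing x with
  | nil =>
    simp only [cost]
    exact measurable_const
  | cons s w ih =>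
    simp only [cost]
    exact (measurable_pi_apply _).add (ih _)

theorem measurableSet_Gd {d : ℕ} : MeasurableSet {c : Edge d → ℝ | Gd c} := by
  have e : {c : Edge d → ℝ | Gd c} = {c : Edge d → ℝ | (∀ e, 0 < c e) ∧
      ∀ (x : V d) (M : ℕ), ∃ L : ℕ, ∀ w : List (St d), (eds x w).Nodup → L ≤ w.length →
        (M : ℝ) ≤ cost c x w} := by
    ext c
    exact ⟨fun h => ⟨h.pos, h.far⟩, fun h => ⟨h.1, h.2⟩⟩
  rw [e]
  refine measurableSet_setOfPred.2 ?_
  refine Measurable.and (Measurable.forall fun e => MA_lt' measurable_const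
    (measurable_pi_apply e)) ?_
  exact Measurable.forall fun x => Measurable.forall fun M => Measurable.exists fun L =>
    Measurable.forall fun w => measurable_const.imp (measurable_const.imp
      (MA_le' measurable_const (MA_cost x w)))

theorem measurableSet_Rg {d : ℕ} (a b l R : ℝ) :
    MeasurableSet {c : Edge d → ℝ | Rg a b l R c} := by
  refine measurableSet_setOfPred.2 ?_
  unfold Rg
  exact Measurable.forall fun x => measurable_const.imp (Measurable.forall fun w =>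
    measurable_const.imp (measurable_const.imp
      ((MA_le' measurable_const (MA_cost x w)).and (MA_le' (MA_cost x w) measurable_const))))

end Pool.Agent.Helper98.GK

end

/-! ## BL -/

section

namespace Pool.Agent.Helper98.GK

open MeasureTheory ProbabilityTheory Pool.Agent.Helper79.GR Pool.Agent.Helper79.GQ

variable {Ω : Type*} [MeasurableSpace Ω] {d : ℕ} {P : Measure Ω} {X : Edge d → Ω → ℝ}
  {ν : Measure ℝ} {a b : ℝ}

theorem theorem_rays (h : EnvK P X ν a b) (hd : 1 ≤ d)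
    (hwall : ∃ b₁ : ℝ, ∫ x, x ∂ν < b₁ ∧ ∀ (n : ℕ) (η p : ℝ), 0 < η → 0 < p →
      ∃ M : ℝ, b₁ ≤ M ∧ 0 < ν (Set.Ici M) ∧ n * ν.real (Set.Ioi (M + η)) ≤ p)
    {N : ℕ} {w : Fin N → F d} {ρ : Fin N → F d →L[ℝ] ℝ} {g : ℝ}
    (hD : Dir (tc (mm P X)) w ρ g) :
    ∃ A : Set Ω, MeasurableSet A ∧ 0 < P A ∧
      ∀ ω ∈ A, ∃ s : Fin N → ℕ → St d, Function.Injective s ∧ ∀ i, Ray (cf X ω) (s i) := by
  classical
  have hP := h.prob
  have ha : 0 < a := h.apos
  have hn : Nrm a (∫ x, x ∂ν) (tc (mm P X)) := nrm_tc h.toEnv0 hd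
  have hb0 : 0 < b := h.toEnv0.bpos hd
  have hν : IsProbabilityMeasure ν := h.toEnv0.probν hd
  obtain ⟨b₁, hb₁, hM0⟩ := hwall
  generalize hμ : tc (mm P X) = μ at *
  generalize hm : (∫ x, x ∂ν) = m at *
  have ham : a ≤ m := hn.a_le_m hd
  have hm0 : 0 < m := lt_of_lt_of_le ha ham
  obtain ⟨ε, δ, C, θ, n₀, hε, hδ, hC, hθ, hn₀, s₀, hs₀⟩ :=
    constants d a m b₁ g ha hm0 hb₁ hD.gpos
  have hp : (0 : ℝ) < 1 / (4 * ((N : ℝ) + 1)) := by positivity
  generalize hpp : (1 : ℝ) / (4 * ((N : ℝ) + 1)) = p at *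
  have hw0 : ∀ i, w i ≠ 0 := by
    intro i hi
    have h1 := hD.one i
    rw [hi, hn.zero] at h1
    exact zero_ne_one h1
  -- the scales
  obtain ⟨r₁, hr₁⟩ := near h hd C δ p hC hδ hp
  rw [hμ] at hr₁
  obtain ⟨r₄, hr₄⟩ := rg_near h.toEnv0 hd C θ p hC hθ hp
  have hinc : ∀ i, ∃ r₀ : ℕ, ∀ r : ℕ, r₀ ≤ r → ∃ v : V d, v ≠ 0 ∧ ∀ k₀ : ℕ, ∃ k > k₀,
      P.real {ω | ¬ H2 (cf X ω) (ρ i) C δ r (k • v)} ≤ p := by
    intro i
    have hder : HasFDerivAt (tc (mm P X)) (ρ i) (w i) := by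
      rw [hμ]
      exact hD.der i
    exact increments h hd hder (hw0 i) C δ p hC hδ hp
  choose r₂ hr₂ using hinc
  have hst : ∀ i, ∃ s₀ : ℕ, ∀ s ≥ s₀, P.real {ω | ¬ H3 (cf X ω) (w i) (3 * n₀) δ s} ≤ p := by
    intro i
    have hone : tc (mm P X) (w i) = 1 := by
      rw [hμ]
      exact hD.one i
    exact steps h hd hone (3 * n₀) δ p hδ hp
  choose s₃ hs₃ using hst
  obtain ⟨s, hs_0, hs_1, hs_4, hs_2, hs_3⟩ : ∃ s : ℕ, s₀ ≤ s ∧ r₁ ≤ s ∧ r₄ ≤ s ∧
      (∀ i, r₂ i ≤ s) ∧ ∀ i, s₃ i ≤ s := by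
    refine ⟨s₀ + r₁ + r₄ + (∑ i, r₂ i) + ∑ i, s₃ i, by omega, by omega, by omega, ?_, ?_⟩
    · intro i
      have := Finset.single_le_sum (f := r₂) (fun j _ => Nat.zero_le (r₂ j)) (Finset.mem_univ i)
      omega
    · intro i
      have := Finset.single_le_sum (f := s₃) (fun j _ => Nat.zero_le (s₃ j)) (Finset.mem_univ i)
      omega
  have hsr : s ≤ n₀ * s := Nat.le_mul_of_pos_left s hn₀
  have hcast : ((n₀ * s : ℕ) : ℝ) = (n₀ : ℝ) * s := Nat.cast_mul n₀ s
  obtain ⟨hs1, c1, c2, c3, c4, c5, c6, c7⟩ := hs₀ s hs_0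
  have hr0 : 0 < (n₀ : ℝ) * s := lt_trans hm0 c1
  have e1 : P.real {ω | ¬ H1 μ (cf X ω) C δ ((n₀ : ℝ) * s)} ≤ p := by
    have := hr₁ (n₀ * s) (hs_1.trans hsr)
    rwa [hcast] at this
  have e4 : P.real {ω | ¬ Rg a b (θ * ((n₀ : ℝ) * s)) (C * ((n₀ : ℝ) * s)) (cf X ω)} ≤ p := by
    have := hr₄ (n₀ * s) (hs_4.trans hsr)
    rwa [hcast] at this
  have e3 : ∀ i, P.real {ω | ¬ H3 (cf X ω) (w i) (3 * n₀) δ s} ≤ p := fun i =>
    hs₃ i s (hs_3 i)
  have e2 : ∀ i, ∃ v : V d, v ≠ 0 ∧ ∀ k₀ : ℕ, ∃ k > k₀,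
      P.real {ω | ¬ H2 (cf X ω) (ρ i) C δ ((n₀ : ℝ) * s) (k • v)} ≤ p := by
    intro i
    have := hr₂ i (n₀ * s) ((hs_2 i).trans hsr)
    rwa [hcast] at this
  choose v hv0 hv using e2
  -- the wall
  set W : Finset (Edge d) := (wal_finite hn ε ((n₀ : ℝ) * s) w).toFinset with hW
  have hWm : ∀ e, e ∈ W ↔ Wal μ ε ((n₀ : ℝ) * s) w e := by
    intro e
    rw [hW, Set.Finite.mem_toFinset]
    rfl
  obtain ⟨η, hη0, hη2⟩ : ∃ η : ℝ, 0 < η ∧ W.card * η ≤ 1 := by
    have hc0 : (0 : ℝ) < (W.card : ℝ) + 1 := by positivity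
    refine ⟨1 / ((W.card : ℝ) + 1), by positivity, ?_⟩
    rw [mul_one_div, div_le_one hc0]
    linarith
  obtain ⟨M, hM1, hM2, hM3⟩ := hM0 W.card η p hη0 hp
  have hMpos : 0 < M := by linarith
  have hH : 0 < ν.real (Set.Ici M) := by
    rw [measureReal_def]
    exact ENNReal.toReal_pos hM2.ne' (measure_ne_top ν _)
  have e5 : P.real {ω | ¬ ∀ e ∈ W, cf X ω e ≤ M + η} ≤ p := by
    have hsub : {ω | ¬ ∀ e ∈ W, cf X ω e ≤ M + η} ⊆ ⋃ e ∈ W, {ω | M + η < X e ω} := by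
      intro ω hω
      simp only [Set.mem_ofPred_eq, not_forall, not_le] at hω
      obtain ⟨e, he, hlt⟩ := hω
      simp only [Set.mem_iUnion, Set.mem_ofPred_eq]
      exact ⟨e, he, hlt⟩
    have h1 : ∀ e, P.real {ω | M + η < X e ω} = ν.real (Set.Ioi (M + η)) := by
      intro e
      rw [← h.law e, measureReal_def, measureReal_def,
        Measure.map_apply (h.meas e) measurableSet_Ioi]
      rfl
    refine (measureReal_mono hsub (measure_ne_top P _)).trans ((measureReal_biUnion_finset_le _ _).trans ?_)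
    rw [Finset.sum_congr rfl fun e _ => h1 e, Finset.sum_const, nsmul_eq_mul]
    exact hM3
  set q₀ : ℝ := ν.real (Set.Ici M) ^ W.card * (1 / 4) with hq₀
  have hq0 : 0 < q₀ := by positivity
  -- the targets
  obtain ⟨K, hK⟩ := exists_nat_ge (2 * ((n₀ : ℝ) * s) / a)
  have hk : ∀ (n : ℕ) (i : Fin N), ∃ k : ℕ, n < k ∧ K < k ∧
      P.real {ω | ¬ H2 (cf X ω) (ρ i) C δ ((n₀ : ℝ) * s) (k • v i)} ≤ p := by
    intro n i
    obtain ⟨k, hk1, hk2⟩ := hv i (max n K)
    exact ⟨k, lt_of_le_of_lt (le_max_left _ _) hk1, lt_of_le_of_lt (le_max_right _ _) hk1, hk2⟩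
  choose k hk1 hk2 hk3 using hk
  have hfar : ∀ n i, 2 * ((n₀ : ℝ) * s) < μ (rv (k n i • v i)) := by
    intro n i
    refine lt_of_lt_of_le ?_ (hn.lo _)
    rw [nr_rv, n1_nsmul]
    obtain ⟨j, hj⟩ := exists_nat_n1 (v i)
    have hj0 : 1 ≤ j := by
      rcases Nat.eq_zero_or_pos j with rfl | hj'
      · rw [Nat.cast_zero] at hj
        exact absurd (n1_eq_zero.1 hj) (hv0 i)
      · exact hj'
    rw [hj]
    have h1 : (1 : ℝ) ≤ (j : ℝ) := by exact_mod_cast hj0
    have h2 : (K : ℝ) < (k n i : ℝ) := by exact_mod_cast hk2 n i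
    have h3 : (k n i : ℝ) ≤ (k n i : ℝ) * j := le_mul_of_one_le_right (Nat.cast_nonneg _) h1
    have h4 : 2 * ((n₀ : ℝ) * s) / a < (k n i : ℝ) * j := by linarith
    rw [div_lt_iff₀ ha] at h4
    linarith
  -- the events
  set E : ℕ → Set (Edge d → ℝ) := fun n => {c | Gd c ∧
    Rg a b (θ * ((n₀ : ℝ) * s)) (C * ((n₀ : ℝ) * s)) c ∧ (∀ e ∈ W, c e ≤ M + η) ∧
    H1 μ c C δ ((n₀ : ℝ) * s) ∧
    (∀ i, H2 c (ρ i) C δ ((n₀ : ℝ) * s) (k n i • v i)) ∧ ∀ i, H3 c (w i) (3 * n₀) δ s} with hE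
  set G : ℕ → Set (Edge d → ℝ) := fun n => {c | Gd c ∧
    GG μ ε ((n₀ : ℝ) * s) w c fun i => k n i • v i} with hG
  have hEm : ∀ n, MeasurableSet (E n) := by
    intro n
    have h2 : MeasurableSet {c : Edge d → ℝ | ∀ i, H2 c (ρ i) C δ ((n₀ : ℝ) * s)
        (k n i • v i)} := by
      rw [Set.ofPred_forall]
      exact MeasurableSet.iInter fun i => measurableSet_H2 _ _ _ _ _
    have h3 : MeasurableSet {c : Edge d → ℝ | ∀ i, H3 c (w i) (3 * n₀) δ s} := by
      rw [Set.ofPred_forall]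
      exact MeasurableSet.iInter fun i => measurableSet_H3 _ _ _ _
    have h5 : MeasurableSet {c : Edge d → ℝ | ∀ e ∈ W, c e ≤ M + η} := by
      have he : {c : Edge d → ℝ | ∀ e ∈ W, c e ≤ M + η} =
          ⋂ e ∈ W, {c : Edge d → ℝ | c e ≤ M + η} := by
        ext c
        simp
      rw [he]
      exact MeasurableSet.biInter (Set.to_countable _) fun e _ =>
        measurableSet_le (measurable_pi_apply e) measurable_const
    exact measurableSet_Gd.inter ((measurableSet_Rg _ _ _ _).inter (h5.inter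
      ((measurableSet_H1 μ C δ _).inter (h2.inter h3))))
  have hGm : ∀ n, MeasurableSet (G n) := fun n =>
    measurableSet_Gd.inter (measurableSet_GG _ _ _ _ _)
  have hEP : ∀ n, 1 / 4 ≤ P.real {ω | (fun e => X e ω) ∈ E n} := by
    intro n
    have hX : Measurable fun ω e => X e ω := measurable_pi_lambda _ fun e => h.meas e
    have hms : MeasurableSet {ω | (fun e => X e ω) ∈ E n} := hX (hEm n)
    have hc := probReal_compl_eq_one_sub (μ := P) hms
    have hsub : {ω | (fun e => X e ω) ∈ E n}ᶜ ⊆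
        {ω | ¬ Rg a b (θ * ((n₀ : ℝ) * s)) (C * ((n₀ : ℝ) * s)) (cf X ω)} ∪
        ({ω | ¬ ∀ e ∈ W, cf X ω e ≤ M + η} ∪ ({ω | ¬ H1 μ (cf X ω) C δ ((n₀ : ℝ) * s)} ∪
        ((⋃ i, {ω | ¬ H2 (cf X ω) (ρ i) C δ ((n₀ : ℝ) * s) (k n i • v i)}) ∪
          ⋃ i, {ω | ¬ H3 (cf X ω) (w i) (3 * n₀) δ s}))) := by
      intro ω hω
      by_contra hcon
      simp only [Set.mem_union, Set.mem_ofPred_eq, Set.mem_iUnion, not_or, not_exists,
        not_not] at hcon
      exact hω ⟨h.gd ω, hcon.1, hcon.2.1, hcon.2.2.1, hcon.2.2.2.1, hcon.2.2.2.2⟩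
    have hle : P.real ({ω | (fun e => X e ω) ∈ E n}ᶜ) ≤ p + (p + (p + (N * p + N * p))) := by
      refine (measureReal_mono hsub).trans ((measureReal_union_le _ _).trans
        (add_le_add e4 ((measureReal_union_le _ _).trans
        (add_le_add e5 ((measureReal_union_le _ _).trans
        (add_le_add e1 ((measureReal_union_le _ _).trans (add_le_add ?_ ?_))))))))
      · refine (measureReal_iUnion_fintype_le _).trans ?_
        refine (Finset.sum_le_sum fun i _ => hk3 n i).trans ?_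
        rw [Finset.sum_const, Finset.card_univ, Fintype.card_fin, nsmul_eq_mul]
      · refine (measureReal_iUnion_fintype_le _).trans ?_
        refine (Finset.sum_le_sum fun i _ => e3 i).trans ?_
        rw [Finset.sum_const, Finset.card_univ, Fintype.card_fin, nsmul_eq_mul]
    have hp4 : p * (4 * ((N : ℝ) + 1)) = 1 := by
      rw [← hpp]
      have : (4 * ((N : ℝ) + 1)) ≠ 0 := by positivity
      field_simp
    have hN : (0 : ℝ) ≤ (N : ℝ) := Nat.cast_nonneg N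
    nlinarith
  have hres : ∀ n, q₀ ≤ P.real {ω | (fun e => X e ω) ∈ G n} := by
    intro n
    refine le_trans ?_ (resample P X h.meas h.indep ν h.law W (Set.Ici M)
      measurableSet_Ici (E n) (G n) (hEm n) (hGm n) ?_)
    · exact mul_le_mul_of_nonneg_left (hEP n) (by positivity)
    · rintro c c' ⟨hgd, hrg, hlow, h1, h2, h3⟩ hin hoff
      have hgd' : Gd c' := by
        refine hgd.of_change W (fun e => ?_) hoff
        by_cases he : e ∈ W
        · exact hMpos.trans_le (hin e he)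
        · rw [hoff e he]
          exact hgd.pos e
      have hscn : Scn a b (θ * ((n₀ : ℝ) * s)) m μ w ρ g ε δ C b₁ η n₀ s c c' W
          (fun i => k n i • v i) :=
        { gd := hgd
          gd' := hgd'
          rg := hrg
          lpos := by positivity
          nrm := hn
          dir := hD
          wal := hWm
          off := hoff
          low := fun e he => by
            have h4 : M ≤ c' e := hin e he
            have h5 := hlow e he
            linarith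
          hig := fun e he => by
            have h4 : M ≤ c' e := hin e he
            linarith
          eta := hη0.le
          card := hη2
          h1 := h1
          h2 := h2
          h3 := h3
          far := hfar n
          mpos := hm0
          b1 := hb₁.le
          dpos := hδ.le
          spos := c1
          nE := c2
          nC := c3
          nC' := c4
          nT := c5
          nW := c6
          nF := c7 }
      exact ⟨hgd', hscn.gg⟩
  -- infinitely often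
  have hGmΩ : ∀ n, MeasurableSet {ω | (fun e => X e ω) ∈ G n} := fun n =>
    (measurable_pi_lambda (fun ω e => X e ω) fun e => h.meas e) (hGm n)
  obtain ⟨hA, hAq⟩ := prob_io P (fun n => {ω | (fun e => X e ω) ∈ G n}) hGmΩ q₀ hres
  refine ⟨_, hA, ?_, ?_⟩
  · have h1 := lt_of_lt_of_le hq0 hAq
    rw [measureReal_def] at h1
    exact (ENNReal.toReal_pos_iff.1 h1).1
  · intro ω hω
    refine rays_of_GG (h.gd ω) hn ε ((n₀ : ℝ) * s) hr0 w v hv0 ?_
    intro n
    obtain ⟨j, hj, hjG⟩ := hω n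
    exact ⟨k j, fun i => lt_of_le_of_lt hj (hk1 j i), hjG.2⟩

end Pool.Agent.Helper98.GK

end
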