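import Pool.Agent.Helper98.GM.M1
import Pool.Agent.Helper98.GM.M2
import Pool.Agent.Helper98.GM.M3
import Pool.Agent.Helper79.GQ.FA
import Pool.Agent.Helper79.GQ.FE

/-!
Project GK (MP_13b103_pr, geodesic rays for laws which touch `0` and are unbounded), part M4: from the model to the frozen form of the statement.
Merged from the files of the folder GK (pieces by the whole team).
-/

set_option autoImplicit false

/-! ## FA -/

section

namespace Pool.Agent.Helper98.GK

open MeasureTheory ProbabilityTheory Pool.Agent.Helper79.GR Pool.Agent.Helper79.GQ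

private theorem FA_sv_apply {d : ℕ} (s : St d) : sv s s.1 ≠ 0 := by
  rcases s with ⟨i, _ | _⟩ <;> simp [sv]

private theorem FA_sv_inj {d : ℕ} {s s' : St d} (h : sv s = sv s') : s = s' := by
  have h1 : s.1 = s'.1 := by
    by_contra hne
    have h2 := congrFun h s.1
    have h3 : sv s' s.1 = 0 := Pi.single_eq_of_ne hne _
    rw [h3] at h2
    exact FA_sv_apply s h2
  rcases s with ⟨i, b⟩
  rcases s' with ⟨i', b'⟩
  have h1' : i = i' := h1
  subst h1'
  have h2 := congrFun h i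
  simp only [sv, Pi.single_eq_same] at h2
  cases b <;> cases b' <;> simp_all

private theorem FA_near {d : ℕ} {x y : V d} (h : ∑ i, |x i - y i| = 1) :
    ∃ s : St d, y = x + sv s := by
  obtain ⟨i, hi⟩ : ∃ i, x i ≠ y i := by
    by_contra hcon
    push Not at hcon
    rw [Finset.sum_eq_zero (fun i _ => by rw [hcon i, sub_self, abs_zero])] at h
    exact zero_ne_one h
  have h1 : 1 ≤ |x i - y i| := Int.one_le_abs (sub_ne_zero.2 hi)
  have h2 := Finset.add_sum_erase Finset.univ (fun j => |x j - y j|) (Finset.mem_univ i)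
  have h3 : 0 ≤ ∑ j ∈ Finset.univ.erase i, |x j - y j| :=
    Finset.sum_nonneg fun j _ => abs_nonneg _
  have h2' : |x i - y i| + ∑ j ∈ Finset.univ.erase i, |x j - y j| = 1 := h2.trans h
  have h4 : ∑ j ∈ Finset.univ.erase i, |x j - y j| = 0 := by omega
  have h5 : |x i - y i| = 1 := by omega
  rw [Finset.sum_eq_zero_iff_of_nonneg (fun j _ => abs_nonneg _)] at h4
  have h6 : ∀ j, j ≠ i → y j = x j := by
    intro j hj
    have h7 := h4 j (Finset.mem_erase.2 ⟨hj, Finset.mem_univ _⟩)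
    have h8 := abs_eq_zero.1 h7
    omega
  rcases abs_eq (zero_le_one) |>.1 h5 with h7 | h7
  · refine ⟨(i, false), funext fun j => ?_⟩
    by_cases hj : j = i
    · subst hj
      simp only [sv, Pi.add_apply, Pi.single_eq_same]
      simp
      omega
    · rw [h6 j hj]
      simp [sv, hj]
  · refine ⟨(i, true), funext fun j => ?_⟩
    by_cases hj : j = i
    · subst hj
      simp only [sv, Pi.add_apply, Pi.single_eq_same]
      simp
      omega
    · rw [h6 j hj]
      simp [sv, hj]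

private theorem FA_walk {d : ℕ} {c : Edge d → ℝ} (t : Sym2 (Fin d → ℤ) → ℝ)
    (ht : ∀ e : Edge d, t e.1 = c e) (q : ℕ → V d) (u : ℕ → St d) (L : ℕ)
    (hq : ∀ k < L, q (k + 1) = q k + sv (u k)) :
    pos (q 0) (pre u L) = q L ∧
      cost c (q 0) (pre u L) = ∑ k ∈ Finset.range L, t s(q k, q (k + 1)) := by
  induction L with
  | zero => exact ⟨rfl, rfl⟩
  | succ L ih =>
    obtain ⟨h1, h2⟩ := ih fun k hk => hq k (by omega)
    have h3 : pre u (L + 1) = pre u L ++ [u L] := by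
      unfold pre
      rw [List.range_succ, List.map_append]
      rfl
    have h4 := hq L (by omega)
    constructor
    · rw [h3, pos_append, h1, h4]
      rfl
    · rw [h3, cost_append, h1, h2, Finset.sum_range_succ]
      congr 1
      show c (ed (q L) (u L)) + 0 = _
      rw [add_zero, ← ht, h4]
      rfl

theorem ray_path {d : ℕ} {c : Edge d → ℝ} (hc : ∀ e, 0 < c e)
    (t : Sym2 (Fin d → ℤ) → ℝ) (ht : ∀ e : Edge d, t e.1 = c e) (x : V d) (s : ℕ → St d)
    (hs : ∀ n, Geo c x (pre s n)) (γ : ℕ → (Fin d → ℤ)) (hγ : ∀ k, γ k = pos x (pre s k)) :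
    Function.Injective γ ∧ (∀ k, ∑ i, |γ k i - γ (k + 1) i| = 1) ∧
      ∀ m n : ℕ, m ≤ n →
        ∀ (L : ℕ) (q : ℕ → (Fin d → ℤ)), q 0 = γ m → q L = γ n →
          (∀ k < L, ∑ i, |q k i - q (k + 1) i| = 1) →
          ∑ k ∈ Finset.range (n - m), t s(γ (m + k), γ (m + k + 1)) ≤
            ∑ k ∈ Finset.range L, t s(q k, q (k + 1)) := by
  have hpre : ∀ (u : ℕ → St d) (L : ℕ), pre u (L + 1) = pre u L ++ [u L] := by
    intro u L
    unfold pre
    rw [List.range_succ, List.map_append]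
    rfl
  have hstep : ∀ k, γ (k + 1) = γ k + sv (s k) := by
    intro k
    rw [hγ, hγ, hpre, pos_append]
    rfl
  have hlen : ∀ (u : ℕ → St d) (L : ℕ), (pre u L).length = L := by
    intro u L
    simp [pre]
  have htake : ∀ (u : ℕ → St d) (i j : ℕ), i ≤ j → (pre u j).take i = pre u i := by
    intro u i j hij
    unfold pre
    rw [← List.map_take, List.take_range, min_eq_left hij]
  refine ⟨?_, ?_, ?_⟩
  · have key : ∀ m n, m < n → γ m ≠ γ n := by
      intro m n hmn h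
      have h1 := geo_inj hc (hs n) hmn (by rw [hlen])
      rw [htake _ _ _ hmn.le, htake _ _ _ (le_refl n), ← hγ, ← hγ] at h1
      exact h1 h
    intro m n h
    rcases lt_trichotomy m n with h1 | h1 | h1
    · exact absurd h (key m n h1)
    · exact h1
    · exact absurd h.symm (key n m h1)
  · intro k
    rw [hstep]
    exact sum_sv _ _
  · intro m n hmn L q hq0 hqL hq
    have hex : ∀ k, ∃ u : St d, k < L → q (k + 1) = q k + sv u := by
      intro k
      by_cases hk : k < L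
      · obtain ⟨u, hu⟩ := FA_near (hq k hk)
        exact ⟨u, fun _ => hu⟩
      · exact ⟨s 0, fun h => absurd h hk⟩
    choose u hu using hex
    obtain ⟨h1, h2⟩ := FA_walk t ht q u L hu
    obtain ⟨h3, h4⟩ := FA_walk t ht (fun k => γ (m + k)) (fun k => s (m + k)) (n - m)
      (fun k _ => hstep (m + k))
    have h5 : pre s n = pre s m ++ pre (fun k => s (m + k)) (n - m) := by
      unfold pre
      conv_lhs => rw [show n = m + (n - m) by omega, List.range_add, List.map_append,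
        List.map_map]
      rfl
    have h6 := hs n (pre s m ++ pre u L) (by
      rw [pos_append, ← hγ, ← hγ, ← hq0, h1, hqL])
    rw [h5, cost_append, cost_append, ← hγ] at h6
    have h7 : cost c (γ m) (pre (fun k => s (m + k)) (n - m)) ≤
        cost c (γ m) (pre u L) := le_of_add_le_add_left h6
    rw [← hq0, h2] at h7
    have h8 : cost c (q 0) (pre (fun k => s (m + k)) (n - m)) =
        ∑ k ∈ Finset.range (n - m), t s(γ (m + k), γ (m + (k + 1))) := by
      rw [hq0]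
      exact h4
    rw [h8] at h7
    exact h7

theorem rays_to_paths {d : ℕ} {c : Edge d → ℝ} (hc : ∀ e, 0 < c e)
    (t : Sym2 (Fin d → ℤ) → ℝ) (ht : ∀ e : Edge d, t e.1 = c e) (N : ℕ)
    (s : Fin N → ℕ → St d) (hs : Function.Injective s) (hr : ∀ i, Ray c (s i)) :
    (N : ℕ∞) ≤ Set.encard {γ : ℕ → (Fin d → ℤ) |
      γ 0 = 0 ∧ Function.Injective γ ∧
      (∀ k, ∑ i, |γ k i - γ (k + 1) i| = 1) ∧
      ∀ m n : ℕ, m ≤ n →
        ∀ (L : ℕ) (q : ℕ → (Fin d → ℤ)), q 0 = γ m → q L = γ n →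
          (∀ k < L, ∑ i, |q k i - q (k + 1) i| = 1) →
          ∑ k ∈ Finset.range (n - m), t s(γ (m + k), γ (m + k + 1)) ≤
            ∑ k ∈ Finset.range L, t s(q k, q (k + 1))} := by
  have hstep : ∀ i k, pos 0 (pre (s i) (k + 1)) = pos 0 (pre (s i) k) + sv (s i k) := by
    intro i k
    unfold pre
    rw [List.range_succ, List.map_append, pos_append]
    rfl
  have hinj : Function.Injective fun (i : Fin N) (k : ℕ) => pos (0 : V d) (pre (s i) k) := by
    intro i j hij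
    apply hs
    funext k
    apply FA_sv_inj
    have h1 := hstep i k
    have h2 := hstep j k
    have h3 : pos (0 : V d) (pre (s i) k) = pos 0 (pre (s j) k) := congrFun hij k
    have h4 : pos (0 : V d) (pre (s i) (k + 1)) = pos 0 (pre (s j) (k + 1)) :=
      congrFun hij (k + 1)
    rw [h1, h2, h3] at h4
    exact add_left_cancel h4
  have h5 : Set.range (fun (i : Fin N) (k : ℕ) => pos (0 : V d) (pre (s i) k)) ⊆
      {γ : ℕ → (Fin d → ℤ) |
      γ 0 = 0 ∧ Function.Injective γ ∧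
      (∀ k, ∑ i, |γ k i - γ (k + 1) i| = 1) ∧
      ∀ m n : ℕ, m ≤ n →
        ∀ (L : ℕ) (q : ℕ → (Fin d → ℤ)), q 0 = γ m → q L = γ n →
          (∀ k < L, ∑ i, |q k i - q (k + 1) i| = 1) →
          ∑ k ∈ Finset.range (n - m), t s(γ (m + k), γ (m + k + 1)) ≤
            ∑ k ∈ Finset.range L, t s(q k, q (k + 1))} := by
    rintro _ ⟨i, rfl⟩
    exact ⟨rfl, ray_path hc t ht 0 (s i) (hr i) _ fun _ => rfl⟩
  refine le_trans (le_of_eq ?_) (Set.encard_le_encard h5)
  rw [← Set.image_univ, hinj.encard_image, Set.encard_univ, ENat.card_eq_coe_fintype_card,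
    Fintype.card_fin]

end Pool.Agent.Helper98.GK

end

/-! ## FD -/

section

namespace Pool.Agent.Helper98.GK

open MeasureTheory

private theorem FD_Ioi_zero (ν : Measure ℝ) (s : ℝ) (h : ∀ b, s < b → ν (Set.Ici b) = 0) :
    ν (Set.Ioi s) = 0 := by
  have h1 : Set.Ioi s ⊆ ⋃ n : ℕ, Set.Ici (s + 1 / ((n : ℝ) + 1)) := by
    intro x hx
    obtain ⟨n, hn⟩ := exists_nat_one_div_lt (sub_pos.2 (Set.mem_Ioi.1 hx))
    refine Set.mem_iUnion.2 ⟨n, ?_⟩
    rw [Set.mem_Ici]
    linarith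
  refine measure_mono_null h1 (measure_iUnion_null fun n => h _ ?_)
  have h2 : (0 : ℝ) < 1 / ((n : ℝ) + 1) := by positivity
  linarith

theorem exists_wall (ν : Measure ℝ) [IsProbabilityMeasure ν] (hi : Integrable (fun x : ℝ => x) ν)
    (hx : ∀ x, ν {x} ≠ 1) :
    ∃ b₁ : ℝ, ∫ x, x ∂ν < b₁ ∧ ∀ (n : ℕ) (η p : ℝ), 0 < η → 0 < p →
      ∃ M : ℝ, b₁ ≤ M ∧ 0 < ν (Set.Ici M) ∧ n * ν.real (Set.Ioi (M + η)) ≤ p := by
  have h1 : ∃ b₁ : ℝ, ∫ x, x ∂ν < b₁ ∧ 0 < ν (Set.Ici b₁) := by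
    by_contra hcon
    push Not at hcon
    have h2 : ν (Set.Ioi (∫ x, x ∂ν)) = 0 :=
      FD_Ioi_zero ν _ fun b hb => le_antisymm (hcon b hb) bot_le
    have h3 : ∀ᵐ x ∂ν, x ≤ ∫ x, x ∂ν := by
      rw [ae_iff]
      have h4 : {a : ℝ | ¬ a ≤ ∫ x, x ∂ν} = Set.Ioi (∫ x, x ∂ν) := by
        ext a
        simp
      rw [h4]
      exact h2
    have h5 : ∫ y, ((∫ x, x ∂ν) - y) ∂ν = 0 := by
      rw [integral_sub (integrable_const _) hi, integral_const]
      simp
    have h6 : 0 ≤ᵐ[ν] fun y => (∫ x, x ∂ν) - y := by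
      filter_upwards [h3] with y hy
      exact sub_nonneg.2 hy
    have h7 := (integral_eq_zero_iff_of_nonneg_ae h6 ((integrable_const _).sub hi)).1 h5
    have h8 : ∀ᵐ y ∂ν, y ∈ ({∫ x, x ∂ν} : Set ℝ) := by
      filter_upwards [h7] with y hy
      have h9 : (∫ x, x ∂ν) - y = 0 := hy
      rw [Set.mem_singleton_iff]
      linarith
    refine hx (∫ x, x ∂ν) ?_
    exact (prob_compl_eq_zero_iff (measurableSet_singleton _)).1 h8
  obtain ⟨b₁, hb, hb1⟩ := h1
  refine ⟨b₁, hb, fun n η p hη hp => ?_⟩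
  by_cases hA : ∀ M, 0 < ν (Set.Ici M)
  · have h2 : Filter.Tendsto (fun x : ℝ => (n : ℝ) * ν.real (Set.Ioi (x + η))) Filter.atTop
        (nhds 0) := by
      have h3 : Filter.Tendsto (fun x : ℝ => ProbabilityTheory.cdf ν (x + η)) Filter.atTop
          (nhds 1) :=
        (ProbabilityTheory.tendsto_cdf_atTop ν).comp
          (Filter.tendsto_atTop_add_const_right _ _ Filter.tendsto_id)
      have h4 : Filter.Tendsto (fun x : ℝ => (n : ℝ) * (1 - ProbabilityTheory.cdf ν (x + η)))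
          Filter.atTop (nhds ((n : ℝ) * (1 - 1))) :=
        (tendsto_const_nhds.sub h3).const_mul _
      rw [sub_self, mul_zero] at h4
      refine h4.congr fun x => ?_
      rw [ProbabilityTheory.cdf_eq_real, ← Set.compl_Iic, probReal_compl_eq_one_sub measurableSet_Iic]
    obtain ⟨M, hM1, hM2⟩ := ((h2.eventually (ge_mem_nhds hp)).and
      (Filter.eventually_ge_atTop b₁)).exists
    exact ⟨M, hM2, hA M, hM1⟩
  · push Not at hA
    obtain ⟨M0, hM0⟩ := hA
    have hbd : BddAbove {x : ℝ | 0 < ν (Set.Ici x)} := by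
      refine ⟨M0, fun x hx => ?_⟩
      by_contra hcon
      have h3 : ν (Set.Ici x) ≤ ν (Set.Ici M0) :=
        measure_mono (Set.Ici_subset_Ici.2 (not_le.1 hcon).le)
      exact absurd (lt_of_lt_of_le hx (h3.trans hM0)) (lt_irrefl 0)
    have hs0 : ν (Set.Ioi (sSup {x : ℝ | 0 < ν (Set.Ici x)})) = 0 := by
      refine FD_Ioi_zero ν _ fun b hb2 => ?_
      by_contra hcon
      exact absurd (le_csSup hbd (show b ∈ {x : ℝ | 0 < ν (Set.Ici x)} from pos_iff_ne_zero.2 hcon))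
        (not_le.2 hb2)
    refine ⟨max b₁ (sSup {x : ℝ | 0 < ν (Set.Ici x)} - η / 2), le_max_left _ _, ?_, ?_⟩
    · rcases le_total (sSup {x : ℝ | 0 < ν (Set.Ici x)} - η / 2) b₁ with h4 | h4
      · rw [max_eq_left h4]
        exact hb1
      · rw [max_eq_right h4]
        obtain ⟨x, hx1, hx2⟩ := exists_lt_of_lt_csSup (s := {x : ℝ | 0 < ν (Set.Ici x)})
          ⟨b₁, hb1⟩ (show sSup {x : ℝ | 0 < ν (Set.Ici x)} - η / 2 < _ by linarith)
        exact lt_of_lt_of_le hx1 (measure_mono (Set.Ici_subset_Ici.2 hx2.le))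
    · have h5 : ν.real (Set.Ioi (max b₁ (sSup {x : ℝ | 0 < ν (Set.Ici x)} - η / 2) + η)) = 0 := by
        rw [measureReal_def]
        have h6 : ν (Set.Ioi (max b₁ (sSup {x : ℝ | 0 < ν (Set.Ici x)} - η / 2) + η)) = 0 := by
          refine measure_mono_null (Set.Ioi_subset_Ioi ?_) hs0
          have := le_max_right b₁ (sSup {x : ℝ | 0 < ν (Set.Ici x)} - η / 2)
          linarith
        rw [h6]
        rfl
      rw [h5, mul_zero]
      exact hp.le

end Pool.Agent.Helper98.GK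

end

/-! ## PD -/

section

namespace Pool.Agent.Helper98.GK

open MeasureTheory ProbabilityTheory Pool.Agent.Helper79.GR Pool.Agent.Helper79.GQ

variable {Ω : Type*} [MeasurableSpace Ω] {d : ℕ} {P : Measure Ω} {X : Edge d → Ω → ℝ}
  {ν : Measure ℝ} {a b : ℝ}

theorem ae_gd (h : Env0 P X ν a b) (hd : 1 ≤ d) : ∀ᵐ ω ∂P, Gd (cf X ω) := by
  have := h.prob
  have hx : ∀ x : V d, ∀ᵐ ω ∂P, ∀ᶠ n in Filter.atTop,
      ω ∉ {ω | ∃ w : List (St d), w.length = n ∧ (eds x w).Nodup ∧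
        (cost (cf X ω) x w < a * n ∨ b * n < cost (cf X ω) x w)} := by
    intro x
    apply ae_eventually_notMem
    have hs : HasSum (fun n : ℕ => 2 * (1 / 2 : ℝ) ^ n) (2 * 2) :=
      hasSum_geometric_two.mul_left 2
    have hb : ∀ n : ℕ, P {ω | ∃ w : List (St d), w.length = n ∧ (eds x w).Nodup ∧
        (cost (cf X ω) x w < a * n ∨ b * n < cost (cf X ω) x w)} ≤
        ENNReal.ofReal (2 * (1 / 2 : ℝ) ^ n) := by
      intro n
      rw [← ofReal_measureReal]
      exact ENNReal.ofReal_le_ofReal (reg_prob h hd x n)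
    refine ne_top_of_le_ne_top ?_ (ENNReal.tsum_le_tsum hb)
    rw [← ENNReal.ofReal_tsum_of_nonneg (fun n => by positivity) hs.summable]
    exact ENNReal.ofReal_ne_top
  filter_upwards [ae_all_iff.2 hx] with ω hω
  refine ⟨fun e => h.pos e ω, fun x M => ?_⟩
  obtain ⟨L, hL⟩ := Filter.eventually_atTop.1 (hω x)
  refine ⟨max L ⌈(M : ℝ) / a⌉₊, fun w hw hl => ?_⟩
  have h1 := hL w.length ((le_max_left _ _).trans hl)
  have h2 : (M : ℝ) / a ≤ w.length :=
    (Nat.le_ceil _).trans (by exact_mod_cast (le_max_right _ _).trans hl)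
  rw [div_le_iff₀ h.apos] at h2
  by_contra hcon
  apply h1
  refine ⟨w, rfl, hw, Or.inl ?_⟩
  have h3 := not_le.1 hcon
  linarith

end Pool.Agent.Helper98.GK

end

/-! ## PE -/

section

namespace Pool.Agent.Helper98.GK

open MeasureTheory ProbabilityTheory Pool.Agent.Helper79.GR Pool.Agent.Helper79.GQ

variable {Ω : Type*} [MeasurableSpace Ω] {d : ℕ} {P : Measure Ω} {X : Edge d → Ω → ℝ}
  {ν : Measure ℝ} {a b : ℝ}

private theorem PE_cost_one (x : V d) (w : List (St d)) :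
    cost (fun _ : Edge d => (1 : ℝ)) x w = w.length := by
  induction w generalizing x with
  | nil => simp [cost]
  | cons s w ih =>
    rw [cost, ih, List.length_cons]
    push_cast
    ring

private theorem PE_gd_one : Gd (fun _ : Edge d => (1 : ℝ)) where
  pos _ := one_pos
  far x M := ⟨M, fun w _ hw => by
    rw [PE_cost_one]
    exact_mod_cast hw⟩

theorem exists_envK (h : Env0 P X ν a b) (hd : 1 ≤ d) :
    ∃ X' : Edge d → Ω → ℝ, EnvK P X' ν a b ∧ ∀ᵐ ω ∂P, ∀ e, X' e ω = X e ω := by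
  classical
  have hcf : Measurable (cf X) := measurable_pi_iff.2 fun e => h.meas e
  have hG : MeasurableSet {ω | Gd (cf X ω)} := hcf measurableSet_Gd
  have hae := ae_gd h hd
  set X' : Edge d → Ω → ℝ := fun e ω => if Gd (cf X ω) then X e ω else 1 with hX'
  have heq : ∀ ω, Gd (cf X ω) → ∀ e, X' e ω = X e ω := fun ω hω e => if_pos hω
  have hne : ∀ ω, ¬ Gd (cf X ω) → ∀ e, X' e ω = 1 := fun ω hω e => if_neg hω
  have haeq : ∀ᵐ ω ∂P, ∀ e, X' e ω = X e ω := hae.mono heq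
  have hae1 : ∀ e, X e =ᵐ[P] X' e := fun e => haeq.mono fun ω hω => (hω e).symm
  refine ⟨X', ⟨⟨h.prob, ?_, ?_, ?_, ?_, h.apos, h.lo, h.up⟩, ?_⟩, haeq⟩
  · exact fun e => Measurable.ite hG (h.meas e) measurable_const
  · exact h.indep.congr hae1
  · intro e
    rw [← h.law e]
    exact (Measure.map_congr (hae1 e)).symm
  · intro e ω
    by_cases hω : Gd (cf X ω)
    · rw [heq ω hω]
      exact h.pos e ω
    · rw [hne ω hω]
      exact one_pos
  · intro ω
    by_cases hω : Gd (cf X ω)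
    · have h1 : cf X' ω = cf X ω := funext fun e => heq ω hω e
      rw [h1]
      exact hω
    · have h1 : cf X' ω = fun _ => 1 := funext fun e => hne ω hω e
      rw [h1]
      exact PE_gd_one

end Pool.Agent.Helper98.GK

end

/-! ## PF -/

section

namespace Pool.Agent.Helper98.GK

open MeasureTheory ProbabilityTheory Pool.Agent.Helper79.GR Pool.Agent.Helper79.GQ

variable {Ω : Type*} [MeasurableSpace Ω] {d : ℕ} {P : Measure Ω} {X : Edge d → Ω → ℝ}
  {ν : Measure ℝ} {a b : ℝ}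

theorem exists_env0 [IsProbabilityMeasure P] (hν : ν (Set.Iic 0) = 0)
    (t : Edge d → Ω → ℝ) (hm : ∀ e, Measurable (t e)) (hi : iIndepFun t P)
    (hl : ∀ e, P.map (t e) = ν) (ha : 0 < a)
    (hlo : ∃ l : ℝ, 0 < l ∧ 4 * d * (∫ x, Real.exp (-(l * x)) ∂ν) * Real.exp (l * a) ≤ 1)
    (hup : ∃ l : ℝ, 0 < l ∧ Integrable (fun x => Real.exp (l * x)) ν ∧
      4 * d * (∫ x, Real.exp (l * x) ∂ν) * Real.exp (-(l * b)) ≤ 1) :
    ∃ X : Edge d → Ω → ℝ, Env0 P X ν a b ∧ ∀ᵐ ω ∂P, ∀ e, X e ω = t e ω := by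
  classical
  let g : ℝ → ℝ := fun x => if 0 < x then x else 1
  have hg : Measurable g := Measurable.ite measurableSet_Ioi measurable_id measurable_const
  have hae : ∀ᵐ x ∂ν, 0 < x := by
    rw [ae_iff]
    have h1 : {x : ℝ | ¬0 < x} = Set.Iic 0 := by
      ext x
      simp
    rw [h1]
    exact hν
  have hgν : ν.map g = ν := by
    have h1 : g =ᵐ[ν] id := by
      filter_upwards [hae] with x hx
      exact if_pos hx
    rw [Measure.map_congr h1, Measure.map_id]
  refine ⟨fun e ω => g (t e ω), ⟨inferInstance, fun e => hg.comp (hm e),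
    hi.comp (fun _ => g) (fun _ => hg), fun e => ?_, fun e ω => ?_, ha, hlo, hup⟩, ?_⟩
  · have h1 := Measure.map_map (μ := P) hg (hm e)
    rw [hl e, hgν] at h1
    exact h1.symm
  · change 0 < (if 0 < t e ω then t e ω else 1)
    split_ifs with h
    · exact h
    · exact one_pos
  · rw [ae_all_iff]
    intro e
    have h1 : ∀ᵐ ω ∂P, 0 < t e ω := by
      have h2 := hae
      rw [← hl e, ae_map_iff (hm e).aemeasurable measurableSet_Ioi] at h2
      exact h2
    filter_upwards [h1] with ω hω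
    exact if_pos hω

end Pool.Agent.Helper98.GK

end

/-! ## HA -/

section

namespace Pool.Agent.Helper98.GK

open MeasureTheory Filter Topology

theorem exists_lo (ν : Measure ℝ) [IsProbabilityMeasure ν] (hν : ν (Set.Iic 0) = 0) (d : ℕ) :
    ∃ a : ℝ, 0 < a ∧
      ∃ l : ℝ, 0 < l ∧ 4 * d * (∫ x, Real.exp (-(l * x)) ∂ν) * Real.exp (l * a) ≤ 1 := by
  have hpos : ∀ᵐ x ∂ν, 0 < x := by
    rw [ae_iff]
    refine measure_mono_null ?_ hν
    intro x hx
    exact not_lt.1 hx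
  have hlim : Tendsto (fun n : ℕ => ∫ x, Real.exp (-((n : ℝ) * x)) ∂ν) atTop
      (𝓝 (∫ _x, (0 : ℝ) ∂ν)) := by
    refine tendsto_integral_of_dominated_convergence (fun _ => (1 : ℝ)) ?_
      (integrable_const _) ?_ ?_
    · intro n
      have : Continuous fun x : ℝ => Real.exp (-((n : ℝ) * x)) := by fun_prop
      exact this.aestronglyMeasurable
    · intro n
      filter_upwards [hpos] with x hx
      rw [Real.norm_eq_abs, abs_of_pos (Real.exp_pos _)]
      refine Real.exp_le_one_iff.2 ?_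
      have : 0 ≤ (n : ℝ) * x := mul_nonneg (Nat.cast_nonneg n) hx.le
      linarith
    · filter_upwards [hpos] with x hx
      refine Real.tendsto_exp_neg_atTop_nhds_zero.comp ?_
      exact tendsto_natCast_atTop_atTop.atTop_mul_const hx
  rw [integral_zero] at hlim
  have h1 : Tendsto (fun n : ℕ => 4 * (d : ℝ) * ∫ x, Real.exp (-((n : ℝ) * x)) ∂ν) atTop
      (𝓝 (4 * d * 0)) := hlim.const_mul _
  rw [mul_zero] at h1
  obtain ⟨n, hn1, hn2⟩ := ((h1.eventually_lt_const (show (0 : ℝ) < 1 / 2 by norm_num)).and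
    (eventually_gt_atTop 0)).exists
  have hn : (0 : ℝ) < n := by exact_mod_cast hn2
  refine ⟨Real.log 2 / n, div_pos (Real.log_pos (by norm_num)) hn, n, hn, ?_⟩
  rw [mul_div_cancel₀ _ hn.ne', Real.exp_log (by norm_num)]
  linarith

theorem exists_up (ν : Measure ℝ) [IsProbabilityMeasure ν]
    (he : ∃ η : ℝ, 0 < η ∧ Integrable (fun x => Real.exp (η * x)) ν) (d : ℕ) :
    ∃ b : ℝ, ∃ l : ℝ, 0 < l ∧ Integrable (fun x => Real.exp (l * x)) ν ∧
      4 * d * (∫ x, Real.exp (l * x) ∂ν) * Real.exp (-(l * b)) ≤ 1 := by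
  obtain ⟨η, hη, hi⟩ := he
  obtain ⟨I, hI⟩ : ∃ I : ℝ, I = 4 * d * ∫ x, Real.exp (η * x) ∂ν := ⟨_, rfl⟩
  refine ⟨Real.log (|I| + 1) / η, η, hη, hi, ?_⟩
  rw [← hI, mul_div_cancel₀ _ hη.ne', Real.exp_neg, Real.exp_log (by positivity),
    ← div_eq_mul_inv, div_le_one (by positivity)]
  linarith [le_abs_self I]

end Pool.Agent.Helper98.GK

end

/-! ## FE -/

section

namespace Pool.Agent.Helper98.GK

open MeasureTheory ProbabilityTheory Pool.Agent.Helper79.GR Pool.Agent.Helper79.GQ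

/-- `exists_up`, `exists_env0`, `exists_envK`, `theorem_rays` (`exists_wall`), `theorem_disjoint`,
`ray_path`, `rays_to_paths`; compare `GQ/FE.lean`. -/
theorem final_dir (d : ℕ) (hd : 1 ≤ d) (ν : Measure ℝ) [IsProbabilityMeasure ν]
    (hν : ν (Set.Iic 0) = 0) (he : ∃ η : ℝ, 0 < η ∧ Integrable (fun x => Real.exp (η * x)) ν)
    (hpt : ∀ x, ν {x} ≠ 1) (N : ℕ) (a : ℝ) (ha : 0 < a)
    (hlo : ∃ l : ℝ, 0 < l ∧ 4 * d * (∫ x, Real.exp (-(l * x)) ∂ν) * Real.exp (l * a) ≤ 1)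
    (hN : ∀ (Ω : Type) (mΩ : MeasurableSpace Ω) (P : Measure Ω) (X : Edge d → Ω → ℝ) (b : ℝ),
      EnvK P X ν a b → ∃ (w : Fin N → F d) (ρ : Fin N → F d →L[ℝ] ℝ) (g : ℝ),
        Dir (tc (mm P X)) w ρ g) :
  ∀ (Ω : Type) (mΩ : MeasurableSpace Ω) (P : Measure Ω), IsProbabilityMeasure P →
  ∀ (t : Sym2 (Fin d → ℤ) → Ω → ℝ),
    (∀ e, Measurable (t e)) →
    iIndepFun
      (fun e : {e : Sym2 (Fin d → ℤ) //
          ∃ x y : Fin d → ℤ, e = s(x, y) ∧ ∑ i, |x i - y i| = 1} => t e.1)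
      P →
    (∀ x y : Fin d → ℤ, ∑ i, |x i - y i| = 1 →
      Measure.map (t s(x, y)) P = ν) →
    (∃ A : Set Ω, MeasurableSet A ∧ 0 < P A ∧ ∀ ω ∈ A,
      (N : ℕ∞) ≤ Set.encard {γ : ℕ → (Fin d → ℤ) |
        γ 0 = 0 ∧ Function.Injective γ ∧
        (∀ k, ∑ i, |γ k i - γ (k + 1) i| = 1) ∧
        ∀ m n : ℕ, m ≤ n →
          ∀ (L : ℕ) (q : ℕ → (Fin d → ℤ)), q 0 = γ m → q L = γ n →
            (∀ k < L, ∑ i, |q k i - q (k + 1) i| = 1) →
            ∑ k ∈ Finset.range (n - m), t s(γ (m + k), γ (m + k + 1)) ω ≤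
              ∑ k ∈ Finset.range L, t s(q k, q (k + 1)) ω}) ∧
    ∀ᵐ ω ∂P, ∃ γ : Fin N → ℕ → (Fin d → ℤ),
      (∀ i j, i ≠ j → ∀ k l, γ i k ≠ γ j l) ∧
      ∀ j, Function.Injective (γ j) ∧
        (∀ k, ∑ i, |γ j k i - γ j (k + 1) i| = 1) ∧
        ∀ m n : ℕ, m ≤ n →
          ∀ (L : ℕ) (q : ℕ → (Fin d → ℤ)), q 0 = γ j m → q L = γ j n →
            (∀ k < L, ∑ i, |q k i - q (k + 1) i| = 1) →
            ∑ k ∈ Finset.range (n - m), t s(γ j (m + k), γ j (m + k + 1)) ω ≤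
              ∑ k ∈ Finset.range L, t s(q k, q (k + 1)) ω := by
  intro Ω mΩ P hP t htm hti htl
  have hlaw : ∀ e : Edge d, P.map (t e.1) = ν := by
    rintro ⟨e, x, y, rfl, hxy⟩
    exact htl x y hxy
  obtain ⟨b, hup⟩ := exists_up ν he d
  obtain ⟨X₀, hX₀, hae₀⟩ := exists_env0 (P := P) hν (fun e : Edge d => t e.1)
    (fun e => htm e.1) hti hlaw ha hlo hup
  obtain ⟨X, hX, hae⟩ := exists_envK hX₀ hd
  have hedge : ∀ᵐ ω ∂P, ∀ e : Edge d, X e ω = t e.1 ω := by
    filter_upwards [hae₀, hae] with ω h1 h2 e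
    rw [h2 e, h1 e]
  obtain ⟨w, ρ, g, hD⟩ := hN Ω mΩ P X b hX
  have hint : Integrable (fun x : ℝ => x) ν := by
    obtain ⟨η, hη, hi⟩ := he
    refine (hi.const_mul η⁻¹).mono' measurable_id.aestronglyMeasurable ?_
    have h1 : ∀ᵐ x ∂ν, x ∉ Set.Iic (0 : ℝ) := measure_eq_zero_iff_ae_notMem.1 hν
    filter_upwards [h1] with x hx
    have h2 : 0 < x := not_le.1 hx
    rw [Real.norm_eq_abs, abs_of_pos h2]
    have h3 := Real.add_one_le_exp (η * x)
    have h4 : η⁻¹ * (η * x) ≤ η⁻¹ * Real.exp (η * x) :=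
      mul_le_mul_of_nonneg_left (by linarith) (inv_nonneg.2 hη.le)
    rwa [inv_mul_cancel_left₀ hη.ne'] at h4
  refine ⟨?_, ?_⟩
  · obtain ⟨A, hA, hPA, hrays⟩ := theorem_rays hX hd (exists_wall ν hint hpt) hD
    have hBm : MeasurableSet {ω | ∀ e : Edge d, X e ω = t e.1 ω} := by
      have h1 : {ω | ∀ e : Edge d, X e ω = t e.1 ω} =
          ⋂ e : Edge d, {ω | X e ω = t e.1 ω} := by
        ext ω
        simp
      rw [h1]
      exact MeasurableSet.iInter fun e => measurableSet_eq_fun (hX.meas e) (htm e.1)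
    refine ⟨A ∩ {ω | ∀ e : Edge d, X e ω = t e.1 ω}, hA.inter hBm, ?_, ?_⟩
    · have h1 : P (A ∩ {ω | ∀ e : Edge d, X e ω = t e.1 ω}) = P A := by
        refine measure_congr ?_
        filter_upwards [hedge] with ω hω
        refine propext ⟨fun h => h.1, fun h => ⟨h, hω⟩⟩
      rw [h1]
      exact hPA
    · rintro ω ⟨hωA, hω2⟩
      obtain ⟨s, hs, hr⟩ := hrays ω hωA
      exact rays_to_paths (c := cf X ω) (fun e => hX.pos e ω) (fun e => t e ω)
        (fun e => (hω2 e).symm) N s hs hr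
  · filter_upwards [theorem_disjoint hX hd hD, hedge] with ω hω hω2
    obtain ⟨x, s, hs1, hs2⟩ := hω
    exact ⟨fun i k => pos (x i) (pre (s i) k), hs2, fun j =>
      ray_path (c := cf X ω) (fun e => hX.pos e ω) (fun e => t e ω)
        (fun e => (hω2 e).symm) (x j) (s j) (hs1 j) _ (fun k => rfl)⟩

end Pool.Agent.Helper98.GK

end
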