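import Pool.Agent.Helper98.GM.M1

/-!
Project GK (MP_13b103_pr, geodesic rays for laws which touch `0` and are unbounded), part M5: trees of side steps.
Merged from the files of the folder GK (pieces by the whole team).
-/

set_option autoImplicit false

/-! ## HB -/

section

namespace Pool.Agent.Helper98.GK

open MeasureTheory ProbabilityTheory Pool.Agent.Helper79.GR Pool.Agent.Helper79.GQ

theorem measurableSet_good (D : ℕ) (s : ℝ) (k : ℕ) :
    MeasurableSet {ξ : Tr D k → ℝ | good D s k ξ} := by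
  induction k with
  | zero =>
    have h : Measurable fun ξ : Tr D 0 → ℝ => ξ () := measurable_pi_apply _
    exact measurableSet_le h measurable_const
  | succ k ih =>
    have h1 : {ξ : Tr D (k + 1) → ℝ | good D s (k + 1) ξ} =
        ⋃ j : Fin D, ({ξ : Tr D (k + 1) → ℝ | ξ (j, none) ≤ s} ∩
          (fun (ξ : Tr D (k + 1) → ℝ) (t : Tr D k) => ξ (j, some t)) ⁻¹'
            {ξ : Tr D k → ℝ | good D s k ξ}) := by
      ext ξ
      simp only [Set.mem_iUnion]
      rfl
    rw [h1]
    refine MeasurableSet.iUnion fun j => MeasurableSet.inter ?_ ?_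
    · have h : Measurable fun ξ : Tr D (k + 1) → ℝ => ξ (j, none) := measurable_pi_apply _
      exact measurableSet_le h measurable_const
    · have h : Measurable fun (ξ : Tr D (k + 1) → ℝ) (t : Tr D k) => ξ (j, some t) :=
        measurable_pi_lambda _ fun t => measurable_pi_apply _
      exact h ih

private theorem HB_curry (ν : Measure ℝ) [IsProbabilityMeasure ν] (D : ℕ) (α : Type)
    [Fintype α] :
    (Measure.pi fun _ : Fin D × α => ν).map (MeasurableEquiv.curry (Fin D) α ℝ) =
      Measure.pi fun _ : Fin D => Measure.pi fun _ : α => ν := by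
  have h := Measure.infinitePi_map_curry (fun (_ : Fin D) (_ : α) => ν)
  simp only [Measure.infinitePi_eq_pi] at h
  exact h

private theorem HB_option (ν : Measure ℝ) [IsProbabilityMeasure ν] (α : Type) [Fintype α]
    (s : ℝ) (B : Set (α → ℝ)) (hB : MeasurableSet B) :
    (Measure.pi fun _ : Option α => ν) {η | η none ≤ s ∧ (fun t => η (some t)) ∈ B} =
      ν (Set.Iic s) * (Measure.pi fun _ : α => ν) B := by
  have h := Measure.pi_map_piOptionEquivProd (β := fun _ : Option α => ℝ) (fun _ => ν)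
  have hS : MeasurableSet {η : Option α → ℝ | η none ≤ s ∧ (fun t => η (some t)) ∈ B} := by
    have h1 : Measurable fun η : Option α → ℝ => η none := measurable_pi_apply _
    have h2 : Measurable fun (η : Option α → ℝ) (t : α) => η (some t) :=
      measurable_pi_lambda _ fun t => measurable_pi_apply _
    exact (measurableSet_le h1 measurable_const).inter (h2 hB)
  rw [← h, Measure.map_apply (MeasurableEquiv.measurable _) hS]
  have h3 : (MeasurableEquiv.piOptionEquivProd fun _ : Option α => ℝ).symm ⁻¹'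
      {η : Option α → ℝ | η none ≤ s ∧ (fun t => η (some t)) ∈ B} = B ×ˢ Set.Iic s := by
    ext p
    constructor
    · intro hp
      exact ⟨hp.2, hp.1⟩
    · intro hp
      exact ⟨hp.2, hp.1⟩
  rw [h3, Measure.prod_prod, mul_comm]

theorem good_step (ν : Measure ℝ) [IsProbabilityMeasure ν] (D : ℕ) (s : ℝ) (k : ℕ) :
    (Measure.pi fun _ : Tr D (k + 1) => ν).real {ξ | ¬ good D s (k + 1) ξ} =
      (1 - ν.real (Set.Iic s) * (Measure.pi fun _ : Tr D k => ν).real {ξ | good D s k ξ}) ^ D := by
  obtain ⟨B, hB⟩ : ∃ B : Set (Option (Tr D k) → ℝ),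
      B = {η | η none ≤ s ∧ (fun t => η (some t)) ∈ {ξ : Tr D k → ℝ | good D s k ξ}} :=
    ⟨_, rfl⟩
  have hBm : MeasurableSet B := by
    rw [hB]
    have h1 : Measurable fun η : Option (Tr D k) → ℝ => η none := measurable_pi_apply _
    have h2 : Measurable fun (η : Option (Tr D k) → ℝ) (t : Tr D k) => η (some t) :=
      measurable_pi_lambda _ fun t => measurable_pi_apply _
    exact (measurableSet_le h1 measurable_const).inter (h2 (measurableSet_good D s k))
  have h1 : {ξ : Tr D (k + 1) → ℝ | ¬ good D s (k + 1) ξ} =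
      (MeasurableEquiv.curry (Fin D) (Option (Tr D k)) ℝ) ⁻¹'
        Set.pi Set.univ fun _ : Fin D => Bᶜ := by
    ext ξ
    constructor
    · intro h j _ hj
      rw [hB] at hj
      exact h ⟨j, hj.1, hj.2⟩
    · rintro h ⟨j, hj1, hj2⟩
      refine h j (Set.mem_univ j) ?_
      rw [hB]
      exact ⟨hj1, hj2⟩
  have h2 : (Measure.pi fun _ : Tr D (k + 1) => ν) {ξ | ¬ good D s (k + 1) ξ} =
      (Measure.pi fun _ : Fin D => Measure.pi fun _ : Option (Tr D k) => ν)
        (Set.pi Set.univ fun _ : Fin D => Bᶜ) := by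
    rw [← HB_curry ν D (Option (Tr D k)), MeasurableEquiv.map_apply, h1]
    rfl
  have h3 : (Measure.pi fun _ : Option (Tr D k) => ν).real Bᶜ =
      1 - ν.real (Set.Iic s) * (Measure.pi fun _ : Tr D k => ν).real {ξ | good D s k ξ} := by
    rw [probReal_compl_eq_one_sub hBm, hB, measureReal_def, HB_option ν (Tr D k) s _
      (measurableSet_good D s k), ENNReal.toReal_mul]
    rfl
  rw [← h3, measureReal_def, h2, Measure.pi_pi, Finset.prod_const, Finset.card_univ,
    Fintype.card_fin, ENNReal.toReal_pow]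
  rfl

end Pool.Agent.Helper98.GK

end

/-! ## HC -/

section

namespace Pool.Agent.Helper98.GK

open MeasureTheory ProbabilityTheory Pool.Agent.Helper79.GR Pool.Agent.Helper79.GQ

theorem HC_mem_ed {d : ℕ} {x z : V d} {s : St d} : z ∈ (ed x s).1 ↔ z = x ∨ z = x + sv s := by
  unfold ed
  exact Sym2.mem_iff

theorem HC_sv_ne {d : ℕ} (s : St d) {i : Fin d} (hi : i ≠ s.1) : sv s i = 0 := by
  unfold sv
  exact Pi.single_eq_of_ne hi _

theorem HC_sv_self {d : ℕ} (s : St d) : sv s s.1 ≠ 0 := by
  unfold sv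
  rw [Pi.single_eq_same]
  split <;> decide

theorem emb_coord {d D : ℕ} {i₀ : Fin d} {β : ℕ → Fin D → Fin d} {K : ℕ}
    (s : Bool) (x : V d) (t : Tr D K) (z : V d) (hz : z ∈ (emb i₀ β s K x t).1) (i : Fin d)
    (hi : i ≠ i₀) (hβi : ∀ k < K, ∀ j, β k j ≠ i) : z i = x i := by
  induction K generalizing x with
  | zero =>
    have hz' : z ∈ (ed x (i₀, true)).1 := hz
    rcases HC_mem_ed.1 hz' with rfl | rfl
    · rfl
    · rw [Pi.add_apply, HC_sv_ne (i₀, true) hi, add_zero]
  | succ K ih =>
    obtain ⟨j, o⟩ := t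
    have hj : i ≠ β K j := fun h => hβi K (Nat.lt_succ_self K) j h.symm
    cases o with
    | none =>
      have hz' : z ∈ (ed x (β K j, s)).1 := hz
      rcases HC_mem_ed.1 hz' with rfl | rfl
      · rfl
      · rw [Pi.add_apply, HC_sv_ne (β K j, s) hj, add_zero]
    | some t =>
      have hz' : z ∈ (emb i₀ β s K (x + sv (β K j, s)) t).1 := hz
      rw [ih _ t hz' fun k hk => hβi k (Nat.lt_succ_of_lt hk), Pi.add_apply,
        HC_sv_ne (β K j, s) hj, add_zero]

/-- the coordinate `β K j` of the ends of the edges of the subtree `j` -/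
private theorem HC_sub {d D : ℕ} {i₀ : Fin d} {β : ℕ → Fin D → Fin d} {K : ℕ}
    (hβ : Bet i₀ β (K + 1)) (s : Bool) (x : V d) (j : Fin D) (t : Tr D K) (z : V d)
    (hz : z ∈ (emb i₀ β s K (x + sv (β K j, s)) t).1) : z (β K j) ≠ x (β K j) := by
  have h1 := emb_coord s (x + sv (β K j, s)) t z hz (β K j) (hβ.ne K (Nat.lt_succ_self K) j)
    (fun k hk j' h => by
      have := (hβ.inj k (Nat.lt_succ_of_lt hk) K (Nat.lt_succ_self K) j' j h).1
      omega)
  rw [h1, Pi.add_apply]
  intro h
  exact HC_sv_self (β K j, s) (by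
    have : sv (β K j, s) (β K j) = 0 := by omega
    exact this)

/-- the coordinate `β K j'` of the ends of the edges of the subtree `j ≠ j'` -/
private theorem HC_sub' {d D : ℕ} {i₀ : Fin d} {β : ℕ → Fin D → Fin d} {K : ℕ}
    (hβ : Bet i₀ β (K + 1)) (s : Bool) (x : V d) (j j' : Fin D) (hj : j ≠ j') (t : Tr D K)
    (z : V d) (hz : z ∈ (emb i₀ β s K (x + sv (β K j, s)) t).1) :
    z (β K j') = x (β K j') := by
  have h1 := emb_coord s (x + sv (β K j, s)) t z hz (β K j') (hβ.ne K (Nat.lt_succ_self K) j')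
    (fun k hk j'' h => by
      have := (hβ.inj k (Nat.lt_succ_of_lt hk) K (Nat.lt_succ_self K) j'' j' h).1
      omega)
  rw [h1, Pi.add_apply, HC_sv_ne (β K j, s), add_zero]
  intro h
  exact hj (hβ.inj K (Nat.lt_succ_self K) K (Nat.lt_succ_self K) j' j h).2.symm

private theorem HC_ex {d : ℕ} (e : Edge d) : ∃ z, z ∈ e.1 := by
  obtain ⟨e, x, y, rfl, -⟩ := e
  exact ⟨x, Sym2.mem_mk_left x y⟩

theorem emb_ne {d D : ℕ} {i₀ : Fin d} {β : ℕ → Fin D → Fin d} {K : ℕ}
    (hβ : Bet i₀ β (K + 1)) (s : Bool) (x : V d) (t : Tr D (K + 1)) :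
    emb i₀ β s (K + 1) x t ≠ ed x (i₀, true) := by
  obtain ⟨j, o⟩ := t
  intro h
  cases o with
  | none =>
    have h1 : ed x (β K j, s) = ed x (i₀, true) := h
    have h2 : x + sv (β K j, s) ∈ (ed x (i₀, true)).1 := by
      rw [← h1]
      exact HC_mem_ed.2 (Or.inr rfl)
    have hne : β K j ≠ i₀ := hβ.ne K (Nat.lt_succ_self K) j
    rcases HC_mem_ed.1 h2 with h3 | h3
    · have h4 := congrFun h3 (β K j)
      rw [Pi.add_apply] at h4
      exact HC_sv_self (β K j, s) (by
        have : sv (β K j, s) (β K j) = 0 := by omega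
        exact this)
    · have h4 := congrFun h3 (β K j)
      rw [Pi.add_apply, Pi.add_apply, HC_sv_ne (i₀, true) hne] at h4
      exact HC_sv_self (β K j, s) (by
        have : sv (β K j, s) (β K j) = 0 := by omega
        exact this)
  | some t =>
    have h1 : emb i₀ β s K (x + sv (β K j, s)) t = ed x (i₀, true) := h
    have h2 : x ∈ (emb i₀ β s K (x + sv (β K j, s)) t).1 := by
      rw [h1]
      exact HC_mem_ed.2 (Or.inl rfl)
    exact HC_sub hβ s x j t x h2 rfl

private theorem HC_ed_inj {d : ℕ} {x : V d} {i j : Fin d} {s : Bool}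
    (h : ed x (i, s) = ed x (j, s)) : i = j := by
  by_contra hij
  have h2 : x + sv (i, s) ∈ (ed x (j, s)).1 := by
    rw [← h]
    exact HC_mem_ed.2 (Or.inr rfl)
  rcases HC_mem_ed.1 h2 with h3 | h3
  · have h4 := congrFun h3 i
    rw [Pi.add_apply] at h4
    exact HC_sv_self (i, s) (by
      have : sv (i, s) i = 0 := by omega
      exact this)
  · have h4 := congrFun h3 i
    rw [Pi.add_apply, Pi.add_apply, HC_sv_ne (j, s) hij] at h4
    exact HC_sv_self (i, s) (by
      have : sv (i, s) i = 0 := by omega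
      exact this)

theorem emb_injective {d D : ℕ} {i₀ : Fin d} {β : ℕ → Fin D → Fin d} {K : ℕ}
    (hβ : Bet i₀ β K) (s : Bool) (x : V d) : Function.Injective (emb i₀ β s K x) := by
  induction K generalizing x with
  | zero => exact fun a b _ => rfl
  | succ K ih =>
    have hβ' : Bet i₀ β K := ⟨fun k hk => hβ.ne k (Nat.lt_succ_of_lt hk),
      fun k hk k' hk' => hβ.inj k (Nat.lt_succ_of_lt hk) k' (Nat.lt_succ_of_lt hk')⟩
    rintro ⟨j, o⟩ ⟨j', o'⟩ h
    cases o with
    | none =>
      cases o' with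
      | none =>
        have h1 : ed x (β K j, s) = ed x (β K j', s) := h
        have h2 := (hβ.inj K (Nat.lt_succ_self K) K (Nat.lt_succ_self K) j j' (HC_ed_inj h1)).2
        rw [h2]
      | some t' =>
        have h1 : ed x (β K j, s) = emb i₀ β s K (x + sv (β K j', s)) t' := h
        have h2 : x ∈ (emb i₀ β s K (x + sv (β K j', s)) t').1 := by
          rw [← h1]
          exact HC_mem_ed.2 (Or.inl rfl)
        exact absurd rfl (HC_sub hβ s x j' t' x h2)
    | some t =>
      cases o' with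
      | none =>
        have h1 : emb i₀ β s K (x + sv (β K j, s)) t = ed x (β K j', s) := h
        have h2 : x ∈ (emb i₀ β s K (x + sv (β K j, s)) t).1 := by
          rw [h1]
          exact HC_mem_ed.2 (Or.inl rfl)
        exact absurd rfl (HC_sub hβ s x j t x h2)
      | some t' =>
        have h1 : emb i₀ β s K (x + sv (β K j, s)) t =
          emb i₀ β s K (x + sv (β K j', s)) t' := h
        obtain ⟨z, hz⟩ := HC_ex (emb i₀ β s K (x + sv (β K j, s)) t)
        have hz' : z ∈ (emb i₀ β s K (x + sv (β K j', s)) t').1 := by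
          rw [← h1]
          exact hz
        by_cases hjj : j = j'
        · subst hjj
          rw [ih hβ' _ h1]
        · exact absurd (HC_sub' hβ s x j j' hjj t z hz) (HC_sub hβ s x j' t' z hz')

theorem emb_level {d D : ℕ} {i₀ : Fin d} {β : ℕ → Fin D → Fin d} {K : ℕ}
    (hβ : Bet i₀ β K) (s : Bool) (x : V d) (t : Tr D K) : emb i₀ β s K x t ∈ Lv i₀ (x i₀) := by
  induction K generalizing x with
  | zero =>
    refine ⟨⟨x, HC_mem_ed.2 (Or.inl rfl), rfl⟩, ?_⟩
    intro z hz
    have hz' : z ∈ (ed x (i₀, true)).1 := hz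
    rcases HC_mem_ed.1 hz' with rfl | rfl
    · exact le_rfl
    · rw [Pi.add_apply]
      have : sv (i₀, true) i₀ = 1 := by simp [sv]
      omega
  | succ K ih =>
    have hβ' : Bet i₀ β K := ⟨fun k hk => hβ.ne k (Nat.lt_succ_of_lt hk),
      fun k hk k' hk' => hβ.inj k (Nat.lt_succ_of_lt hk) k' (Nat.lt_succ_of_lt hk')⟩
    obtain ⟨j, o⟩ := t
    have hne : i₀ ≠ β K j := fun h => hβ.ne K (Nat.lt_succ_self K) j h.symm
    have h0 : sv (β K j, s) i₀ = 0 := HC_sv_ne (β K j, s) hne
    cases o with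
    | none =>
      refine ⟨⟨x, HC_mem_ed.2 (Or.inl rfl), rfl⟩, ?_⟩
      intro z hz
      have hz' : z ∈ (ed x (β K j, s)).1 := hz
      rcases HC_mem_ed.1 hz' with rfl | rfl
      · exact le_rfl
      · rw [Pi.add_apply, h0, add_zero]
    | some t =>
      have h1 := ih hβ' (x + sv (β K j, s)) t
      have h2 : (x + sv (β K j, s)) i₀ = x i₀ := by rw [Pi.add_apply, h0, add_zero]
      rw [h2] at h1
      exact h1

end Pool.Agent.Helper98.GK

end

/-! ## HD -/

section

namespace Pool.Agent.Helper98.GK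

open MeasureTheory ProbabilityTheory Pool.Agent.Helper79.GR Pool.Agent.Helper79.GQ

private theorem HD_step {d : ℕ} {c : Edge d → ℝ} (hc : ∀ e, 0 < c e) (x : V d) (s : St d) :
    T c x (x + sv s) ≤ c (ed x s) := by
  have h : pos x [s] = x + sv s := rfl
  refine (T_le_cost hc h).trans (le_of_eq ?_)
  simp [cost]

open Classical in
/-- the displacement of the first good child of the list -/
private noncomputable def HD_sel {d D K : ℕ} (β : Fin D → Fin d) (s₀ : ℝ)
    (dsp : (Tr D K → ℝ) → V d) (ξ : Tr D (K + 1) → ℝ) : List (Fin D) → V d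
  | [] => 0
  | j :: l => if ξ (j, none) ≤ s₀ ∧ good D s₀ K (fun t => ξ (j, some t)) then
      Pi.single (β j) 1 + dsp (fun t => ξ (j, some t)) else HD_sel β s₀ dsp ξ l

private theorem HD_sel_spec {d D K : ℕ} (β : Fin D → Fin d) (s₀ : ℝ)
    (dsp : (Tr D K → ℝ) → V d) (ξ : Tr D (K + 1) → ℝ) (l : List (Fin D)) :
    (∃ j ∈ l, (ξ (j, none) ≤ s₀ ∧ good D s₀ K (fun t => ξ (j, some t))) ∧
      HD_sel β s₀ dsp ξ l = Pi.single (β j) 1 + dsp (fun t => ξ (j, some t))) ∨
    ((∀ j ∈ l, ¬ (ξ (j, none) ≤ s₀ ∧ good D s₀ K (fun t => ξ (j, some t)))) ∧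
      HD_sel β s₀ dsp ξ l = 0) := by
  induction l with
  | nil => exact Or.inr ⟨by simp, rfl⟩
  | cons j l ih =>
    by_cases h : ξ (j, none) ≤ s₀ ∧ good D s₀ K (fun t => ξ (j, some t))
    · exact Or.inl ⟨j, List.mem_cons_self, h, by rw [HD_sel, if_pos h]⟩
    · rcases ih with ⟨j', h1, h2, h3⟩ | ⟨h1, h2⟩
      · exact Or.inl ⟨j', List.mem_cons_of_mem _ h1, h2, by rw [HD_sel, if_neg h, h3]⟩
      · refine Or.inr ⟨fun j' hj' => ?_, by rw [HD_sel, if_neg h, h2]⟩
        rcases List.mem_cons.1 hj' with rfl | h3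
        · exact h
        · exact h1 j' h3

private theorem HD_sel_meas {d D K : ℕ} (β : Fin D → Fin d) (s₀ : ℝ)
    (dsp : (Tr D K → ℝ) → V d) (hd : Measurable dsp) (l : List (Fin D)) :
    Measurable fun ξ : Tr D (K + 1) → ℝ => HD_sel β s₀ dsp ξ l := by
  induction l with
  | nil => exact measurable_const
  | cons j l ih =>
    have h0 : Measurable fun (ξ : Tr D (K + 1) → ℝ) (t : Tr D K) => ξ (j, some t) :=
      measurable_pi_lambda _ fun t => measurable_pi_apply _
    have h1 : MeasurableSet {ξ : Tr D (K + 1) → ℝ |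
        ξ (j, none) ≤ s₀ ∧ good D s₀ K (fun t => ξ (j, some t))} := by
      refine MeasurableSet.inter ?_ (h0 (measurableSet_good D s₀ K))
      have h : Measurable fun ξ : Tr D (K + 1) → ℝ => ξ (j, none) := measurable_pi_apply _
      exact measurableSet_le h measurable_const
    have h2 : Measurable fun ξ : Tr D (K + 1) → ℝ =>
        (Pi.single (β j) 1 + dsp (fun t => ξ (j, some t)) : V d) := by
      refine measurable_pi_lambda _ fun i => ?_
      have h3 : Measurable fun ξ : Tr D (K + 1) → ℝ => dsp (fun t => ξ (j, some t)) i :=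
        (measurable_pi_apply i).comp (hd.comp h0)
      exact measurable_const.add h3
    exact Measurable.ite h1 h2 ih

private theorem HD_main {d D : ℕ} {i₀ : Fin d} {β : ℕ → Fin D → Fin d} {K : ℕ} (hβ : Bet i₀ β K)
    (s₀ : ℝ) :
    ∃ dsp : (Tr D K → ℝ) → V d, Measurable dsp ∧
      (∀ ξ i, (∀ k < K, ∀ j, β k j ≠ i) → dsp ξ i = 0) ∧
      (∀ ξ j, 0 ≤ dsp ξ j ∧ dsp ξ j ≤ 1) ∧
      ∀ c : Edge d → ℝ, (∀ e, 0 < c e) → ∀ (x : V d) (s : Bool),
        good D s₀ K (fun t => c (emb i₀ β s K x t)) →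
          T c x (x + sv (i₀, true) + (if s then dsp fun t => c (emb i₀ β s K x t)
            else -dsp fun t => c (emb i₀ β s K x t))) ≤ (K + 1) * s₀ := by
  induction K with
  | zero =>
    refine ⟨fun _ => 0, measurable_const, fun _ _ _ => rfl, fun _ _ => ⟨le_rfl, zero_le_one⟩, ?_⟩
    intro c hc x s hg
    have h1 : c (ed x (i₀, true)) ≤ s₀ := hg
    have h2 := HD_step hc x (i₀, true)
    simp only [neg_zero, ite_self, add_zero, Nat.cast_zero, zero_add, one_mul]
    exact h2.trans h1
  | succ K ih =>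
    have hβ' : Bet i₀ β K := ⟨fun k hk => hβ.ne k (Nat.lt_succ_of_lt hk),
      fun k hk k' hk' => hβ.inj k (Nat.lt_succ_of_lt hk) k' (Nat.lt_succ_of_lt hk')⟩
    obtain ⟨dsp, h1, h2, h3, h4⟩ := ih hβ'
    refine ⟨fun ξ => HD_sel (β K) s₀ dsp ξ (List.finRange D), HD_sel_meas _ _ _ h1 _, ?_, ?_, ?_⟩
    · intro ξ i hi
      rcases HD_sel_spec (β K) s₀ dsp ξ (List.finRange D) with ⟨j, -, -, h5⟩ | ⟨-, h5⟩
      · change HD_sel (β K) s₀ dsp ξ (List.finRange D) i = 0
        rw [h5, Pi.add_apply, h2 _ i fun k hk => hi k (Nat.lt_succ_of_lt hk),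
          Pi.single_eq_of_ne (hi K (Nat.lt_succ_self K) j).symm, add_zero]
      · change HD_sel (β K) s₀ dsp ξ (List.finRange D) i = 0
        rw [h5, Pi.zero_apply]
    · intro ξ i
      change 0 ≤ HD_sel (β K) s₀ dsp ξ (List.finRange D) i ∧
        HD_sel (β K) s₀ dsp ξ (List.finRange D) i ≤ 1
      rcases HD_sel_spec (β K) s₀ dsp ξ (List.finRange D) with ⟨j, -, -, h5⟩ | ⟨-, h5⟩
      · rw [h5, Pi.add_apply]
        by_cases hij : i = β K j
        · have h6 : dsp (fun t => ξ (j, some t)) i = 0 := h2 _ i fun k hk j' h => by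
            rw [hij] at h
            have := (hβ.inj k (Nat.lt_succ_of_lt hk) K (Nat.lt_succ_self K) j' j h).1
            omega
          rw [h6, hij, Pi.single_eq_same]
          exact ⟨by norm_num, by norm_num⟩
        · rw [Pi.single_eq_of_ne hij, zero_add]
          exact h3 _ i
      · rw [h5, Pi.zero_apply]
        exact ⟨le_rfl, zero_le_one⟩
    · intro c hc x s hg
      rcases HD_sel_spec (β K) s₀ dsp (fun t => c (emb i₀ β s (K + 1) x t)) (List.finRange D)
        with ⟨j, -, h6, h5⟩ | ⟨h6, -⟩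
      · have h7 := h4 c hc (x + sv (β K j, s)) s h6.2
        have h8 : c (ed x (β K j, s)) ≤ s₀ := h6.1
        have h9 := HD_step hc x (β K j, s)
        have h10 : x + sv (i₀, true) + (if s then HD_sel (β K) s₀ dsp
              (fun t => c (emb i₀ β s (K + 1) x t)) (List.finRange D)
            else -HD_sel (β K) s₀ dsp (fun t => c (emb i₀ β s (K + 1) x t)) (List.finRange D)) =
            x + sv (β K j, s) + sv (i₀, true) +
              (if s then dsp fun t => c (emb i₀ β s K (x + sv (β K j, s)) t)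
              else -dsp fun t => c (emb i₀ β s K (x + sv (β K j, s)) t)) := by
          rw [h5]
          have h11 : (fun t => c (emb i₀ β s (K + 1) x (j, some t))) =
              fun t => c (emb i₀ β s K (x + sv (β K j, s)) t) := rfl
          rw [h11]
          cases s with
          | true =>
            have h12 : sv (β K j, true) = (Pi.single (β K j) 1 : V d) := rfl
            rw [if_pos rfl, if_pos rfl, h12]
            abel
          | false =>
            have h12 : sv (β K j, false) = -(Pi.single (β K j) 1 : V d) := by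
              have h13 : sv (β K j, false) = (Pi.single (β K j) (-1) : V d) := rfl
              rw [h13, Pi.single_neg]
            rw [if_neg (by decide), if_neg (by decide), h12]
            abel
        rw [h10]
        refine (T_triangle hc x (x + sv (β K j, s)) _).trans ?_
        push_cast
        linarith
      · obtain ⟨j, h7, h8⟩ := hg
        exact absurd ⟨h7, h8⟩ (h6 j (List.mem_finRange j))

theorem tree_dsp {d D : ℕ} {i₀ : Fin d} {β : ℕ → Fin D → Fin d} {K : ℕ} (hβ : Bet i₀ β K)
    (s₀ : ℝ) :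
    ∃ dsp : (Tr D K → ℝ) → V d, Measurable dsp ∧ (∀ ξ, dsp ξ i₀ = 0) ∧
      (∀ ξ j, 0 ≤ dsp ξ j ∧ dsp ξ j ≤ 1) ∧
      ∀ c : Edge d → ℝ, (∀ e, 0 < c e) → ∀ (x : V d) (s : Bool),
        good D s₀ K (fun t => c (emb i₀ β s K x t)) →
          T c x (x + sv (i₀, true) + (if s then dsp fun t => c (emb i₀ β s K x t)
            else -dsp fun t => c (emb i₀ β s K x t))) ≤ (K + 1) * s₀ := by
  obtain ⟨dsp, h1, h2, h3, h4⟩ := HD_main hβ s₀
  exact ⟨dsp, h1, fun ξ => h2 ξ i₀ fun k hk j => hβ.ne k hk j, h3, h4⟩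

end Pool.Agent.Helper98.GK

end

/-! ## HE -/

section

namespace Pool.Agent.Helper98.GK

open MeasureTheory ProbabilityTheory Pool.Agent.Helper79.GR Pool.Agent.Helper79.GQ

variable {Ω : Type*} [MeasurableSpace Ω] {d : ℕ} {P : Measure Ω} {X : Edge d → Ω → ℝ}
  {ν : Measure ℝ} {a b : ℝ}

omit [MeasurableSpace Ω] in
private theorem he_le {A : Type*} [MeasurableSpace A] (S : Set (Edge d)) (f : (Edge d → ℝ) → A)
    (hf : Measurable f) (hfS : ∀ c c' : Edge d → ℝ, (∀ e ∈ S, c e = c' e) → f c = f c') :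
    MeasurableSpace.comap (fun ω => f (cf X ω)) inferInstance ≤
      ⨆ e ∈ S, MeasurableSpace.comap (X e) inferInstance := by
  classical
  have h1 : (fun ω => f (cf X ω)) =
      fun ω => f (fun e => if e ∈ S then X e ω else 1) := by
    funext ω
    refine hfS _ _ fun e he => ?_
    rw [if_pos he]
    rfl
  rw [h1]
  refine Measurable.comap_le (hf.comp ?_)
  refine @measurable_pi_lambda _ _ _ (⨆ e ∈ S, MeasurableSpace.comap (X e) inferInstance) _ _
    fun e => ?_
  by_cases he : e ∈ S
  · simp only [if_pos he]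
    have h2 : MeasurableSpace.comap (X e) inferInstance ≤
        ⨆ e ∈ S, MeasurableSpace.comap (X e) inferInstance :=
      le_iSup₂ (f := fun e (_ : e ∈ S) => MeasurableSpace.comap (X e) inferInstance) e he
    exact (comap_measurable (X e)).mono h2 le_rfl
  · simp only [if_neg he]
    exact measurable_const

theorem indep_of_disjoint (h : Env0 P X ν a b) {A B : Type*} [MeasurableSpace A]
    [MeasurableSpace B] (S S' : Set (Edge d)) (hS : Disjoint S S') (f : (Edge d → ℝ) → A)
    (g : (Edge d → ℝ) → B) (hf : Measurable f) (hg : Measurable g)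
    (hfS : ∀ c c' : Edge d → ℝ, (∀ e ∈ S, c e = c' e) → f c = f c')
    (hgS : ∀ c c' : Edge d → ℝ, (∀ e ∈ S', c e = c' e) → g c = g c') :
    IndepFun (fun ω => f (cf X ω)) (fun ω => g (cf X ω)) P := by
  have h1 := indep_iSup_of_disjoint (m := fun e => MeasurableSpace.comap (X e) inferInstance)
    (fun e => (h.meas e).comap_le) h.indep.iIndep hS
  exact indep_of_indep_of_le_left (indep_of_indep_of_le_right h1 (he_le S' g hg hgS))
    (he_le S f hf hfS)

theorem map_array (h : Env0 P X ν a b) {τ : Type} [Fintype τ] (ι : τ → Edge d)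
    (hι : Function.Injective ι) :
    P.map (fun ω t => X (ι t) ω) = Measure.pi fun _ : τ => ν := by
  have := h.prob
  have h1 := h.indep.precomp hι
  rw [iIndepFun_iff_map_fun_eq_pi_map fun t => (h.meas (ι t)).aemeasurable] at h1
  rw [h1]
  congr 1
  funext t
  exact h.law (ι t)

end Pool.Agent.Helper98.GK

end

/-! ## HF -/

section

namespace Pool.Agent.Helper98.GK

open MeasureTheory ProbabilityTheory Pool.Agent.Helper79.GR Pool.Agent.Helper79.GQ

variable {d : ℕ} {i₀ : Fin d} {ν : Measure ℝ} {τ : Type} [Fintype τ]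
  {ι : V d → Bool → τ → Edge d} {dsp : (τ → ℝ) → V d} {kap : (τ → ℝ) → ℝ}

theorem Rd.nx_level (h : Rd i₀ ν ι dsp kap) (c : Edge d → ℝ) (x : V d) (s : Bool) :
    nx i₀ ι dsp c x s i₀ = x i₀ + 1 := by
  have h1 : sv (i₀, true) i₀ = (1 : ℤ) := by simp [sv]
  unfold nx
  rw [Pi.add_apply, Pi.add_apply, h1]
  split
  · rw [h.d0, add_zero]
  · rw [Pi.neg_apply, h.d0, neg_zero, add_zero]

theorem Rd.Yn_level (h : Rd i₀ ν ι dsp kap) (c : Edge d → ℝ) (n : ℕ) (x : V d) :
    Yn i₀ ι dsp c n x i₀ = x i₀ + 2 * n := by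
  induction n generalizing x with
  | zero => simp [Yn]
  | succ n ih =>
    unfold Yn
    rw [ih, h.nx_level, h.nx_level]
    push_cast
    ring

theorem Rd.T_le_Kn (h : Rd i₀ ν ι dsp kap) {c : Edge d → ℝ} (hc : ∀ e, 0 < c e) (n : ℕ)
    (x : V d) : T c x (Yn i₀ ι dsp c n x) ≤ Kn i₀ ι dsp kap c n x := by
  induction n generalizing x with
  | zero => exact T_le_cost hc (w := []) rfl
  | succ n ih =>
    unfold Yn Kn
    have h1 := h.walk c hc x true
    have h2 := h.walk c hc (nx i₀ ι dsp c x true) false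
    have h3 := ih (nx i₀ ι dsp c (nx i₀ ι dsp c x true) false)
    have h4 := T_triangle hc x (nx i₀ ι dsp c x true)
      (Yn i₀ ι dsp c n (nx i₀ ι dsp c (nx i₀ ι dsp c x true) false))
    have h5 := T_triangle hc (nx i₀ ι dsp c x true)
      (nx i₀ ι dsp c (nx i₀ ι dsp c x true) false)
      (Yn i₀ ι dsp c n (nx i₀ ι dsp c (nx i₀ ι dsp c x true) false))
    linarith

private theorem HF_nx_congr (h : Rd i₀ ν ι dsp kap) {c c' : Edge d → ℝ} (x : V d) (s : Bool)
    (hc : ∀ e ∈ Lv i₀ (x i₀), c e = c' e) :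
    (fun t => c (ι x s t)) = fun t => c' (ι x s t) :=
  funext fun t => hc _ (h.lev x s t)

theorem Rd.Yn_congr (h : Rd i₀ ν ι dsp kap) {c c' : Edge d → ℝ} (n : ℕ) (x : V d)
    (hc : ∀ e : Edge d, (∃ k : ℤ, x i₀ ≤ k ∧ k < x i₀ + 2 * n ∧ e ∈ Lv i₀ k) → c e = c' e) :
    Yn i₀ ι dsp c n x = Yn i₀ ι dsp c' n x ∧
      Kn i₀ ι dsp kap c n x = Kn i₀ ι dsp kap c' n x := by
  induction n generalizing x with
  | zero => exact ⟨rfl, rfl⟩
  | succ n ih =>
    have h1 : (fun t => c (ι x true t)) = fun t => c' (ι x true t) :=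
      HF_nx_congr h x true fun e he => hc e ⟨x i₀, le_rfl, by push_cast; omega, he⟩
    have e1 : nx i₀ ι dsp c x true = nx i₀ ι dsp c' x true := by
      unfold nx
      rw [h1]
    have hl1 : nx i₀ ι dsp c' x true i₀ = x i₀ + 1 := h.nx_level c' x true
    have h2 : (fun t => c (ι (nx i₀ ι dsp c' x true) false t)) =
        fun t => c' (ι (nx i₀ ι dsp c' x true) false t) :=
      HF_nx_congr h _ false fun e he => hc e ⟨x i₀ + 1, by omega, by push_cast; omega, by
        rw [hl1] at he
        exact he⟩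
    have e2 : nx i₀ ι dsp c (nx i₀ ι dsp c x true) false =
        nx i₀ ι dsp c' (nx i₀ ι dsp c' x true) false := by
      rw [e1]
      unfold nx at h2 ⊢
      rw [h2]
    have hl2 : nx i₀ ι dsp c' (nx i₀ ι dsp c' x true) false i₀ = x i₀ + 2 := by
      rw [h.nx_level, hl1]
      ring
    have h3 := ih (nx i₀ ι dsp c' (nx i₀ ι dsp c' x true) false) (fun e he => by
      obtain ⟨k, hk1, hk2, hk3⟩ := he
      rw [hl2] at hk1 hk2
      exact hc e ⟨k, by omega, by push_cast; omega, hk3⟩)
    refine ⟨?_, ?_⟩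
    · unfold Yn
      rw [e2]
      exact h3.1
    · unfold Kn
      rw [e2, h3.2, h1, e1, h2]

theorem Rd.measurable_nx (h : Rd i₀ ν ι dsp kap) (x : V d) (s : Bool) :
    Measurable fun c : Edge d → ℝ => nx i₀ ι dsp c x s := by
  have h1 : Measurable fun (c : Edge d → ℝ) (t : τ) => c (ι x s t) :=
    measurable_pi_lambda _ fun t => measurable_pi_apply _
  have h2 : Measurable fun c : Edge d → ℝ => dsp fun t => c (ι x s t) := h.dm.comp h1
  unfold nx
  cases s
  · exact measurable_const.add h2.neg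
  · exact measurable_const.add h2

/-- a measurable choice of countably many measurable functions -/
theorem HF_choice {α β γ : Type*} [MeasurableSpace α] [MeasurableSpace β] [MeasurableSpace γ]
    [Countable β] [MeasurableSingletonClass β] (f : α → β → γ) (g : α → β)
    (hf : ∀ y, Measurable fun a => f a y) (hg : Measurable g) : Measurable fun a => f a (g a) := by
  intro S hS
  have h1 : (fun a => f a (g a)) ⁻¹' S =
      ⋃ y : β, (g ⁻¹' {y} ∩ (fun a => f a y) ⁻¹' S) := by
    ext a
    simp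
  rw [h1]
  exact MeasurableSet.iUnion fun y => (hg (measurableSet_singleton y)).inter (hf y hS)

theorem Rd.measurable_Yn (h : Rd i₀ ν ι dsp kap) (n : ℕ) (x : V d) :
    Measurable fun c : Edge d → ℝ => Yn i₀ ι dsp c n x := by
  induction n generalizing x with
  | zero => exact measurable_const
  | succ n ih =>
    have h1 : Measurable fun c : Edge d → ℝ => nx i₀ ι dsp c (nx i₀ ι dsp c x true) false :=
      HF_choice (fun c y => nx i₀ ι dsp c y false) (fun c => nx i₀ ι dsp c x true)
        (fun y => h.measurable_nx y false) (h.measurable_nx x true)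
    exact HF_choice (fun c y => Yn i₀ ι dsp c n y) _ ih h1

theorem Rd.measurable_Kn (h : Rd i₀ ν ι dsp kap) (n : ℕ) (x : V d) :
    Measurable fun c : Edge d → ℝ => Kn i₀ ι dsp kap c n x := by
  induction n generalizing x with
  | zero => exact measurable_const
  | succ n ih =>
    have h0 : ∀ (y : V d) (s : Bool), Measurable fun c : Edge d → ℝ =>
        kap fun t => c (ι y s t) := fun y s =>
      h.km.comp (measurable_pi_lambda _ fun t => measurable_pi_apply _)
    have h1 : Measurable fun c : Edge d → ℝ => nx i₀ ι dsp c (nx i₀ ι dsp c x true) false :=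
      HF_choice (fun c y => nx i₀ ι dsp c y false) (fun c => nx i₀ ι dsp c x true)
        (fun y => h.measurable_nx y false) (h.measurable_nx x true)
    have h2 : Measurable fun c : Edge d → ℝ =>
        kap fun t => c (ι (nx i₀ ι dsp c x true) false t) :=
      HF_choice (fun c y => kap fun t => c (ι y false t)) _ (fun y => h0 y false)
        (h.measurable_nx x true)
    have h3 := HF_choice (fun c y => Kn i₀ ι dsp kap c n y) _ ih h1
    exact ((h0 x true).add h2).add h3

end Pool.Agent.Helper98.GK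

end

/-! ## HG -/

section

namespace Pool.Agent.Helper98.GK

open MeasureTheory ProbabilityTheory Pool.Agent.Helper79.GR Pool.Agent.Helper79.GQ

variable {Ω : Type*} [MeasurableSpace Ω] {d : ℕ} {P : Measure Ω} {X : Edge d → Ω → ℝ}
  {ν : Measure ℝ} {a b : ℝ} {i₀ : Fin d} {τ : Type} [Fintype τ]
  {ι : V d → Bool → τ → Edge d} {dsp : (τ → ℝ) → V d} {kap : (τ → ℝ) → ℝ}

/-- a random index which is independent of the functions -/
private theorem HG_index (h : Env0 P X ν a b) (S S' : Set (Edge d)) (hS : Disjoint S S')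
    (y : (Edge d → ℝ) → V d) (hy : Measurable y)
    (hyS : ∀ c c' : Edge d → ℝ, (∀ e ∈ S, c e = c' e) → y c = y c')
    (F : Finset (V d)) (hF : ∀ c, y c ∈ F) (G : V d → (Edge d → ℝ) → ℝ) (m : ℝ)
    (hG : ∀ v ∈ F, Measurable (G v))
    (hGS : ∀ v ∈ F, ∀ c c' : Edge d → ℝ, (∀ e ∈ S', c e = c' e) → G v c = G v c')
    (hGi : ∀ v ∈ F, Integrable (fun ω => G v (cf X ω)) P ∧ ∫ ω, G v (cf X ω) ∂P = m) :
    Integrable (fun ω => G (y (cf X ω)) (cf X ω)) P ∧
      ∫ ω, G (y (cf X ω)) (cf X ω) ∂P = m := by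
  classical
  have := h.prob
  have hcf : Measurable (cf X) := measurable_pi_lambda _ fun e => h.meas e
  obtain ⟨f, hfd⟩ : ∃ f : V d → (Edge d → ℝ) → ℝ, f = fun v c => if y c = v then 1 else 0 :=
    ⟨_, rfl⟩
  have hf1 : ∀ v c, y c = v → f v c = 1 := fun v c hv => by rw [hfd]; exact if_pos hv
  have hf0 : ∀ v c, y c ≠ v → f v c = 0 := fun v c hv => by rw [hfd]; exact if_neg hv
  have hf : ∀ v, Measurable (f v) := by
    intro v
    rw [hfd]
    exact Measurable.ite (hy (measurableSet_singleton v)) measurable_const measurable_const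
  have hfi : ∀ v, Integrable (fun ω => f v (cf X ω)) P := by
    intro v
    refine Integrable.of_bound ((hf v).comp hcf).aestronglyMeasurable 1
      (Filter.Eventually.of_forall fun ω => ?_)
    by_cases hv : y (cf X ω) = v
    · rw [hf1 v _ hv, norm_one]
    · rw [hf0 v _ hv, norm_zero]; exact zero_le_one
  have hind : ∀ v ∈ F, IndepFun (fun ω => f v (cf X ω)) (fun ω => G v (cf X ω)) P := by
    intro v hv
    refine indep_of_disjoint h S S' hS (f v) (G v) (hf v) (hG v hv) ?_ (hGS v hv)
    intro c c' hcc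
    rw [hfd]
    show (if y c = v then (1 : ℝ) else 0) = if y c' = v then 1 else 0
    rw [hyS c c' hcc]
  have hprod : ∀ v ∈ F, Integrable (fun ω => f v (cf X ω) * G v (cf X ω)) P := by
    intro v hv
    exact (hind v hv).integrable_mul (hfi v) (hGi v hv).1
  have hpv : ∀ v ∈ F, ∫ ω, f v (cf X ω) * G v (cf X ω) ∂P = (∫ ω, f v (cf X ω) ∂P) * m := by
    intro v hv
    rw [(hind v hv).integral_fun_mul_eq_mul_integral (hfi v).aestronglyMeasurable
      (hGi v hv).1.aestronglyMeasurable, (hGi v hv).2]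
  have hsum : (fun ω => G (y (cf X ω)) (cf X ω)) =
      fun ω => ∑ v ∈ F, f v (cf X ω) * G v (cf X ω) := by
    funext ω
    rw [Finset.sum_eq_single (y (cf X ω))]
    · rw [hf1 _ _ rfl, one_mul]
    · intro v _ hv
      rw [hf0 v _ (Ne.symm hv), zero_mul]
    · intro hn
      exact absurd (hF _) hn
  have hone : ∑ v ∈ F, ∫ ω, f v (cf X ω) ∂P = 1 := by
    rw [← integral_finset_sum _ (fun v _ => hfi v)]
    have h1 : (fun ω => ∑ v ∈ F, f v (cf X ω)) = fun _ => (1 : ℝ) := by
      funext ω
      rw [Finset.sum_eq_single (y (cf X ω))]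
      · rw [hf1 _ _ rfl]
      · intro v _ hv
        rw [hf0 v _ (Ne.symm hv)]
      · intro hn
        exact absurd (hF _) hn
    rw [h1]
    simp
  rw [hsum]
  refine ⟨integrable_finset_sum _ hprod, ?_⟩
  rw [integral_finset_sum _ hprod, Finset.sum_congr rfl hpv, ← Finset.sum_mul, hone, one_mul]

private theorem HG_disj {i₀ : Fin d} {k k' : ℤ} {e : Edge d} (h : e ∈ Lv i₀ k)
    (h' : e ∈ Lv i₀ k') : k = k' := by
  obtain ⟨⟨z, hz, hzk⟩, hall⟩ := h
  obtain ⟨⟨z', hz', hzk'⟩, hall'⟩ := h'
  have h1 := hall z' hz'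
  have h2 := hall' z hz
  omega

private theorem HG_nx (hR : Rd i₀ ν ι dsp kap) {c c' : Edge d → ℝ} (v : V d) (s : Bool)
    (hc : ∀ e ∈ Lv i₀ (v i₀), c e = c' e) : nx i₀ ι dsp c v s = nx i₀ ι dsp c' v s := by
  have h1 : (fun t => c (ι v s t)) = fun t => c' (ι v s t) :=
    funext fun t => hc _ (hR.lev v s t)
  unfold nx
  rw [h1]

private theorem HG_near (hR : Rd i₀ ν ι dsp kap) (c : Edge d → ℝ) (v : V d) (s : Bool)
    (j : Fin d) : v j - 2 ≤ nx i₀ ι dsp c v s j ∧ nx i₀ ι dsp c v s j ≤ v j + 2 := by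
  have h1 := hR.d1 (fun t => c (ι v s t)) j
  rw [abs_le] at h1
  have h2 : (0 : ℤ) ≤ sv (d := d) (i₀, true) j ∧ sv (d := d) (i₀, true) j ≤ 1 := by
    unfold sv
    by_cases hj : j = i₀
    · subst hj
      simp
    · simp [Pi.single_eq_of_ne hj]
  have h3 : nx i₀ ι dsp c v s j = v j + sv (d := d) (i₀, true) j +
      (if s then dsp (fun t => c (ι v s t)) j else -dsp (fun t => c (ι v s t)) j) := by
    unfold nx
    cases s <;> rfl
  rw [h3]
  cases s
  · simp only [Bool.false_eq_true, if_false]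
    omega
  · simp only [if_true]
    omega

theorem Rd.mean_Kn (h : Env0 P X ν a b) (hR : Rd i₀ ν ι dsp kap) (n : ℕ) (x : V d) :
    Integrable (fun ω => Kn i₀ ι dsp kap (cf X ω) n x) P ∧
      ∫ ω, Kn i₀ ι dsp kap (cf X ω) n x ∂P =
        2 * n * ∫ ξ, kap ξ ∂(Measure.pi fun _ : τ => ν) := by
  classical
  have := h.prob
  have hk : ∀ (v : V d) (s : Bool), Integrable (fun ω => kap fun t => cf X ω (ι v s t)) P ∧
      ∫ ω, kap (fun t => cf X ω (ι v s t)) ∂P = ∫ ξ, kap ξ ∂(Measure.pi fun _ : τ => ν) := by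
    intro v s
    have hm : Measurable (fun ω (t : τ) => X (ι v s t) ω) :=
      measurable_pi_lambda _ fun t => h.meas _
    have hmap := map_array h (ι v s) (hR.inj v s)
    constructor
    · have h1 : Integrable kap (P.map (fun ω (t : τ) => X (ι v s t) ω)) := by
        rw [hmap]; exact hR.ki
      exact h1.comp_measurable hm
    · have h2 := integral_map (μ := P) hm.aemeasurable
        (hR.km.aestronglyMeasurable (μ := P.map (fun ω (t : τ) => X (ι v s t) ω)))
      rw [hmap] at h2
      exact h2.symm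
  have hkm : ∀ (v : V d) (s : Bool), Measurable fun c : Edge d → ℝ => kap fun t => c (ι v s t) :=
    fun v s => hR.km.comp (measurable_pi_lambda _ fun t => measurable_pi_apply _)
  induction n generalizing x with
  | zero =>
    refine ⟨integrable_zero _ _ _, ?_⟩
    show ∫ _ω, (0 : ℝ) ∂P = _
    rw [integral_zero]
    simp
  | succ n ih =>
    -- the first round
    have e1 := hk x true
    -- the second round
    have e2 := HG_index h (Lv i₀ (x i₀)) (Lv i₀ (x i₀ + 1))
      (Set.disjoint_left.2 fun e he he' => by have := HG_disj he he'; omega)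
      (fun c => nx i₀ ι dsp c x true) (hR.measurable_nx x true)
      (fun c c' hc => HG_nx hR x true hc)
      ((Fintype.piFinset fun j => Finset.Icc (x j - 2) (x j + 2)).filter
        fun v => v i₀ = x i₀ + 1)
      (fun c => Finset.mem_filter.2 ⟨Fintype.mem_piFinset.2 fun j =>
        Finset.mem_Icc.2 (HG_near hR c x true j), hR.nx_level c x true⟩)
      (fun v c => kap fun t => c (ι v false t)) _ (fun v _ => hkm v false)
      (fun v hv c c' hc => by
        have h1 : (fun t => c (ι v false t)) = fun t => c' (ι v false t) := by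
          funext t
          apply hc
          have h2 := hR.lev v false t
          rwa [(Finset.mem_filter.1 hv).2] at h2
        show kap (fun t => c (ι v false t)) = kap fun t => c' (ι v false t)
        rw [h1])
      (fun v _ => hk v false)
    -- the other rounds
    have hy : ∀ c : Edge d → ℝ, nx i₀ ι dsp c (nx i₀ ι dsp c x true) false =
        Yn i₀ ι dsp c 1 x := fun c => rfl
    have e3 := HG_index h (Lv i₀ (x i₀) ∪ Lv i₀ (x i₀ + 1))
      {e | ∃ k : ℤ, x i₀ + 2 ≤ k ∧ e ∈ Lv i₀ k}
      (Set.disjoint_left.2 fun e he he' => by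
        obtain ⟨k, hk1, hk2⟩ := he'
        rcases he with he | he
        · have := HG_disj he hk2; omega
        · have := HG_disj he hk2; omega)
      (fun c => nx i₀ ι dsp c (nx i₀ ι dsp c x true) false)
      (by simp only [hy]; exact hR.measurable_Yn 1 x)
      (fun c c' hc => by
        have h1 : nx i₀ ι dsp c x true = nx i₀ ι dsp c' x true :=
          HG_nx hR x true fun e he => hc e (Or.inl he)
        show nx i₀ ι dsp c (nx i₀ ι dsp c x true) false =
          nx i₀ ι dsp c' (nx i₀ ι dsp c' x true) false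
        rw [h1]
        apply HG_nx hR
        intro e he
        rw [hR.nx_level] at he
        exact hc e (Or.inr he))
      ((Fintype.piFinset fun j => Finset.Icc (x j - 4) (x j + 4)).filter
        fun v => v i₀ = x i₀ + 2)
      (fun c => Finset.mem_filter.2 ⟨Fintype.mem_piFinset.2 fun j => Finset.mem_Icc.2 (by
        have h1 := HG_near hR c x true j
        have h2 := HG_near hR c (nx i₀ ι dsp c x true) false j
        omega), by
        rw [hR.nx_level, hR.nx_level]; ring⟩)
      (fun v c => Kn i₀ ι dsp kap c n v) _ (fun v _ => hR.measurable_Kn n v)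
      (fun v hv c c' hc => by
        refine (hR.Yn_congr n v fun e he => hc e ?_).2
        obtain ⟨k, hk1, _, hk3⟩ := he
        rw [(Finset.mem_filter.1 hv).2] at hk1
        exact ⟨k, hk1, hk3⟩)
      (fun v _ => ih v)
    constructor
    · exact (e1.1.add e2.1).add e3.1
    · have h1 := integral_add (e1.1.add e2.1) e3.1
      have h2 := integral_add e1.1 e2.1
      simp only [Pi.add_apply] at h1
      have h3 : ∫ ω, Kn i₀ ι dsp kap (cf X ω) (n + 1) x ∂P =
          ∫ ω, (kap fun t => cf X ω (ι x true t)) +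
            (kap fun t => cf X ω (ι (nx i₀ ι dsp (cf X ω) x true) false t)) +
            Kn i₀ ι dsp kap (cf X ω) n
              (nx i₀ ι dsp (cf X ω) (nx i₀ ι dsp (cf X ω) x true) false) ∂P := rfl
      rw [h3, h1, h2, e1.2, e2.2, e3.2]
      push_cast
      ring

end Pool.Agent.Helper98.GK

end
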