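import Pool.Agent.Helper98.GM.M1
import Pool.Agent.Helper98.GM.M2
import Pool.Agent.Helper98.GM.M5

/-!
Project GK (MP_13b103_pr, geodesic rays for laws which touch `0` and are unbounded), part M6: rounds, and the bound for the time constant of an axis.
Merged from the files of the folder GK (pieces by the whole team).
-/

set_option autoImplicit false

/-! ## HY -/

section

namespace Pool.Agent.Helper98.GK

open MeasureTheory ProbabilityTheory Pool.Agent.Helper79.GR Pool.Agent.Helper79.GQ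

variable {Ω : Type*} [MeasurableSpace Ω] {d : ℕ} {P : Measure Ω} {X : Edge d → Ω → ℝ}
  {ν : Measure ℝ} {a b : ℝ} {i₀ : Fin d} {τ : Type} [Fintype τ]
  {ι : V d → Bool → τ → Edge d} {dsp : (τ → ℝ) → V d} {kap : (τ → ℝ) → ℝ}

private lemma HY_cfm (h : Env0 P X ν a b) : Measurable (fun ω => cf X ω) :=
  measurable_pi_lambda _ fun e => h.meas e

private theorem HY_key (h : Env0 P X ν a b) {S S' : Set (Edge d)} (hS : Disjoint S S')
    (Y : Finset (V d)) {g : (Edge d → ℝ) → V d} (hg : Measurable g)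
    (hgS : ∀ c c' : Edge d → ℝ, (∀ e ∈ S, c e = c' e) → g c = g c') (hgY : ∀ c, g c ∈ Y)
    {φ : (Edge d → ℝ) → ℝ} (hφ : Measurable φ)
    (hφS : ∀ c c' : Edge d → ℝ, (∀ e ∈ S, c e = c' e) → φ c = φ c') {C : ℝ}
    (hφC : ∀ c, |φ c| ≤ C) {G : V d → (Edge d → ℝ) → ℝ} (hG : ∀ y ∈ Y, Measurable (G y))
    (hGS : ∀ y ∈ Y, ∀ c c' : Edge d → ℝ, (∀ e ∈ S', c e = c' e) → G y c = G y c')
    (hGi : ∀ y ∈ Y, Integrable (fun ω => G y (cf X ω)) P) :
    Integrable (fun ω => φ (cf X ω) * G (g (cf X ω)) (cf X ω)) P ∧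
    ∫ ω, φ (cf X ω) * G (g (cf X ω)) (cf X ω) ∂P =
      ∑ y ∈ Y, (∫ ω, φ (cf X ω) * (if g (cf X ω) = y then 1 else 0) ∂P) *
        ∫ ω, G y (cf X ω) ∂P := by
  classical
  haveI := h.prob
  have hm := HY_cfm h
  have e1 : ∀ ω, φ (cf X ω) * G (g (cf X ω)) (cf X ω) =
      ∑ y ∈ Y, (φ (cf X ω) * (if g (cf X ω) = y then 1 else 0)) * G y (cf X ω) := by
    intro ω
    rw [Finset.sum_eq_single (g (cf X ω))]
    · rw [if_pos rfl, mul_one]
    · intro y _ hy
      rw [if_neg (Ne.symm hy), mul_zero, zero_mul]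
    · intro hn
      exact absurd (hgY _) hn
  have hf : ∀ y, Measurable (fun c : Edge d → ℝ => φ c * (if g c = y then (1 : ℝ) else 0)) := by
    intro y
    refine hφ.mul (Measurable.ite ?_ measurable_const measurable_const)
    exact hg (measurableSet_singleton y)
  have hind : ∀ y ∈ Y, IndepFun
      (fun ω => (fun c : Edge d → ℝ => φ c * (if g c = y then (1 : ℝ) else 0)) (cf X ω))
      (fun ω => G y (cf X ω)) P := fun y hy =>
    indep_of_disjoint h S S' hS _ _ (hf y) (hG y hy) (by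
      intro c c' hc
      simp only [hφS c c' hc, hgS c c' hc]) (hGS y hy)
  have hfi : ∀ y, Integrable
      (fun ω => φ (cf X ω) * (if g (cf X ω) = y then (1 : ℝ) else 0)) P := by
    intro y
    refine Integrable.of_bound ((hf y).comp hm).aestronglyMeasurable C
      (Filter.Eventually.of_forall fun ω => ?_)
    have h1 := hφC (cf X ω)
    rw [Real.norm_eq_abs, abs_mul]
    by_cases h2 : g (cf X ω) = y
    · rw [if_pos h2, abs_one, mul_one]
      exact h1
    · rw [if_neg h2, abs_zero, mul_zero]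
      exact (abs_nonneg _).trans h1
  have hpi : ∀ y ∈ Y, Integrable
      (fun ω => (φ (cf X ω) * (if g (cf X ω) = y then (1 : ℝ) else 0)) * G y (cf X ω)) P :=
    fun y hy => (hind y hy).integrable_mul (hfi y) (hGi y hy)
  have e2 : (fun ω => φ (cf X ω) * G (g (cf X ω)) (cf X ω)) = fun ω =>
      ∑ y ∈ Y, (φ (cf X ω) * (if g (cf X ω) = y then 1 else 0)) * G y (cf X ω) := funext e1
  rw [e2]
  constructor
  · exact integrable_finset_sum Y hpi
  · rw [integral_finset_sum Y hpi]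
    refine Finset.sum_congr rfl fun y hy => ?_
    exact (hind y hy).integral_fun_mul_eq_mul_integral ((hf y).comp hm).aestronglyMeasurable
      ((hG y hy).comp hm).aestronglyMeasurable

private theorem HY_sum (h : Env0 P X ν a b) {S : Set (Edge d)}
    (Y : Finset (V d)) {g : (Edge d → ℝ) → V d} (hg : Measurable g)
    (hgS : ∀ c c' : Edge d → ℝ, (∀ e ∈ S, c e = c' e) → g c = g c') (hgY : ∀ c, g c ∈ Y) :
    ∑ y ∈ Y, (∫ ω, (1 : ℝ) * (if g (cf X ω) = y then 1 else 0) ∂P) = 1 := by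
  haveI := h.prob
  have h1 := (HY_key h (Set.disjoint_empty S) Y hg hgS hgY (φ := fun _ => (1 : ℝ))
    measurable_const (fun _ _ _ => rfl) (C := 1) (fun _ => by simp) (G := fun _ _ => (1 : ℝ))
    (fun _ _ => measurable_const) (fun _ _ _ _ _ => rfl) (fun _ _ => integrable_const _)).2
  simp only [mul_one, integral_const, probReal_univ, smul_eq_mul] at h1
  exact h1.symm

private lemma HY_disj {k k' : ℤ} (hne : k ≠ k') (e : Edge d) (h1 : e ∈ Lv i₀ k)
    (h2 : e ∈ Lv i₀ k') : False := by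
  obtain ⟨⟨z, hz, hz1⟩, h3⟩ := h1
  obtain ⟨⟨z', hz', hz1'⟩, h4⟩ := h2
  have h5 := h3 z' hz'
  have h6 := h4 z hz
  omega

private lemma HY_nx_congr (hR : Rd i₀ ν ι dsp kap) {c c' : Edge d → ℝ} (x : V d) (s : Bool)
    (hc : ∀ e ∈ Lv i₀ (x i₀), c e = c' e) : nx i₀ ι dsp c x s = nx i₀ ι dsp c' x s := by
  have h1 : (fun t => c (ι x s t)) = fun t => c' (ι x s t) :=
    funext fun t => hc _ (hR.lev x s t)
  unfold nx
  rw [h1]

private lemma HY_nx_true (c : Edge d → ℝ) (x : V d) {j : Fin d} (hj : j ≠ i₀) :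
    nx i₀ ι dsp c x true j = x j + (dsp fun t => c (ι x true t)) j := by
  unfold nx
  simp [sv, Pi.single_eq_of_ne hj]

private lemma HY_nx_false (c : Edge d → ℝ) (x : V d) {j : Fin d} (hj : j ≠ i₀) :
    nx i₀ ι dsp c x false j = x j - (dsp fun t => c (ι x false t)) j := by
  unfold nx
  simp [sv, Pi.single_eq_of_ne hj, sub_eq_add_neg]

private lemma HY_nx_bd (hR : Rd i₀ ν ι dsp kap) (c : Edge d → ℝ) (x : V d) (s : Bool)
    (k : Fin d) : x k - 2 ≤ nx i₀ ι dsp c x s k ∧ nx i₀ ι dsp c x s k ≤ x k + 2 := by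
  have h1 := hR.d1 (fun t => c (ι x s t)) k
  rw [abs_le] at h1
  have h2 : sv ((i₀, true) : St d) k = 0 ∨ sv ((i₀, true) : St d) k = 1 := by
    by_cases hk : k = i₀
    · right
      subst hk
      simp [sv]
    · left
      simp [sv, Pi.single_eq_of_ne hk]
  have h3 : nx i₀ ι dsp c x s k = x k + sv ((i₀, true) : St d) k +
      (if s then (dsp fun t => c (ι x s t)) k else -(dsp fun t => c (ι x s t)) k) := by
    unfold nx
    cases s <;> simp
  rw [h3]
  cases s
  · simp only [Bool.false_eq_true, if_false]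
    rcases h2 with h2 | h2 <;> rw [h2] <;> constructor <;> linarith [h1.1, h1.2]
  · simp only [if_true]
    rcases h2 with h2 | h2 <;> rw [h2] <;> constructor <;> linarith [h1.1, h1.2]

private noncomputable def HY_box (i₀ : Fin d) (x : V d) (l : ℤ) : Finset (V d) := by
  classical
  exact (Finset.Icc (fun k => x k - 4) (fun k => x k + 4)).filter fun y => y i₀ = l

private lemma HY_mem_box {x y : V d} {l : ℤ} (h1 : ∀ k, x k - 4 ≤ y k) (h2 : ∀ k, y k ≤ x k + 4)
    (h3 : y i₀ = l) : y ∈ HY_box i₀ x l := by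
  classical
  unfold HY_box
  rw [Finset.mem_filter, Finset.mem_Icc]
  exact ⟨⟨h1, h2⟩, h3⟩

private lemma HY_of_mem_box {x y : V d} {l : ℤ} (h : y ∈ HY_box i₀ x l) : y i₀ = l := by
  classical
  unfold HY_box at h
  exact (Finset.mem_filter.1 h).2

private lemma HY_mdsp (hR : Rd i₀ ν ι dsp kap) (j : Fin d) :
    Measurable fun ξ : τ → ℝ => ((dsp ξ j : ℤ) : ℝ) :=
  (measurable_from_top (f := fun z : ℤ => (z : ℝ))).comp ((measurable_pi_apply j).comp hR.dm)

private lemma HY_mvec (g : (Edge d → ℝ) → V d) (hg : Measurable g) (j : Fin d) (z : ℤ) :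
    Measurable fun c : Edge d → ℝ => ((g c j - z : ℤ) : ℝ) :=
  (measurable_from_top (f := fun k : ℤ => ((k - z : ℤ) : ℝ))).comp
    ((measurable_pi_apply j).comp hg)

private lemma HY_D (h : Env0 P X ν a b) (hR : Rd i₀ ν ι dsp kap) (j : Fin d) (y : V d)
    (s : Bool) : Integrable (fun ω => (((dsp fun t => cf X ω (ι y s t)) j : ℤ) : ℝ)) P ∧
      ∫ ω, (((dsp fun t => cf X ω (ι y s t)) j : ℤ) : ℝ) ∂P =
        ∫ ξ, ((dsp ξ j : ℤ) : ℝ) ∂(Measure.pi fun _ : τ => ν) := by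
  haveI := h.prob
  have hm : Measurable fun ω => fun t => X (ι y s t) ω :=
    measurable_pi_lambda _ fun t => h.meas _
  constructor
  · refine Integrable.of_bound ((HY_mdsp hR j).comp hm).aestronglyMeasurable 1
      (Filter.Eventually.of_forall fun ω => ?_)
    rw [Real.norm_eq_abs]
    have h1 := hR.d1 (fun t => cf X ω (ι y s t)) j
    exact_mod_cast h1
  · rw [← map_array h (ι y s) (hR.inj y s)]
    exact (integral_map hm.aemeasurable (HY_mdsp hR j).aestronglyMeasurable).symm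

/-- the two rounds in the mean -/
private lemma HY_two (h : Env0 P X ν a b) (hR : Rd i₀ ν ι dsp kap) (x : V d) (j : Fin d)
    (hj : j ≠ i₀) :
    Integrable (fun ω => ((Yn i₀ ι dsp (cf X ω) 1 x j - x j : ℤ) : ℝ)) P ∧
      ∫ ω, ((Yn i₀ ι dsp (cf X ω) 1 x j - x j : ℤ) : ℝ) ∂P = 0 := by
  haveI := h.prob
  have hS : Disjoint (Lv i₀ (x i₀) : Set (Edge d)) (Lv i₀ (x i₀ + 1)) := by
    rw [Set.disjoint_left]
    intro e h1 h2
    exact HY_disj (by omega) e h1 h2
  have hg := hR.measurable_nx x true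
  have hgS : ∀ c c' : Edge d → ℝ, (∀ e ∈ (Lv i₀ (x i₀) : Set (Edge d)), c e = c' e) →
      nx i₀ ι dsp c x true = nx i₀ ι dsp c' x true := fun c c' hc => HY_nx_congr hR x true hc
  have hgY : ∀ c : Edge d → ℝ, nx i₀ ι dsp c x true ∈ HY_box i₀ x (x i₀ + 1) := by
    intro c
    refine HY_mem_box (fun k => ?_) (fun k => ?_) (hR.nx_level c x true)
    · have := (HY_nx_bd hR c x true k).1
      omega
    · have := (HY_nx_bd hR c x true k).2
      omega
  have hk := HY_key h hS (HY_box i₀ x (x i₀ + 1)) hg hgS hgY (φ := fun _ => (1 : ℝ))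
    measurable_const (fun _ _ _ => rfl) (C := 1) (fun _ => by simp)
    (G := fun y c => (((dsp fun t => c (ι y false t)) j : ℤ) : ℝ))
    (fun y _ => (HY_mdsp hR j).comp (measurable_pi_lambda _ fun t => measurable_pi_apply _))
    (fun y hy c c' hc => by
      have h1 : (fun t => c (ι y false t)) = fun t => c' (ι y false t) :=
        funext fun t => hc _ (by
          have h2 := hR.lev y false t
          rw [HY_of_mem_box hy] at h2
          exact h2)
      simp only [h1])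
    (fun y _ => (HY_D h hR j y false).1)
  have hB : ∫ ω, (1 : ℝ) * (((dsp fun t => cf X ω
      (ι (nx i₀ ι dsp (cf X ω) x true) false t)) j : ℤ) : ℝ) ∂P =
        ∫ ξ, ((dsp ξ j : ℤ) : ℝ) ∂(Measure.pi fun _ : τ => ν) := by
    rw [hk.2]
    simp only [(HY_D h hR j _ false).2]
    rw [← Finset.sum_mul]
    have h1 := HY_sum h (HY_box i₀ x (x i₀ + 1)) hg hgS hgY
    rw [h1, one_mul]
  have hu : (fun ω => ((Yn i₀ ι dsp (cf X ω) 1 x j - x j : ℤ) : ℝ)) = fun ω =>
      (((dsp fun t => cf X ω (ι x true t)) j : ℤ) : ℝ) - (1 : ℝ) * (((dsp fun t => cf X ω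
      (ι (nx i₀ ι dsp (cf X ω) x true) false t)) j : ℤ) : ℝ) := by
    funext ω
    have h1 : Yn i₀ ι dsp (cf X ω) 1 x = nx i₀ ι dsp (cf X ω)
        (nx i₀ ι dsp (cf X ω) x true) false := rfl
    rw [h1, HY_nx_false _ _ hj, HY_nx_true _ _ hj, one_mul]
    push_cast
    ring
  rw [hu]
  constructor
  · exact (HY_D h hR j x true).1.sub hk.1
  · rw [integral_sub (HY_D h hR j x true).1 hk.1, (HY_D h hR j x true).2, hB, sub_self]

theorem Rd.mean_Yn (h : Env0 P X ν a b) (hR : Rd i₀ ν ι dsp kap) (n : ℕ) (x : V d)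
    (j : Fin d) (hj : j ≠ i₀) :
    Integrable (fun ω => ((Yn i₀ ι dsp (cf X ω) n x j - x j : ℤ) : ℝ)) P ∧
      ∫ ω, ((Yn i₀ ι dsp (cf X ω) n x j - x j : ℤ) : ℝ) ∂P = 0 ∧
      Integrable (fun ω => ((Yn i₀ ι dsp (cf X ω) n x j - x j : ℤ) : ℝ) ^ 2) P ∧
      ∫ ω, ((Yn i₀ ι dsp (cf X ω) n x j - x j : ℤ) : ℝ) ^ 2 ∂P ≤ 4 * n := by
  haveI := h.prob
  induction n generalizing x with
  | zero =>
    have h1 : ∀ ω, Yn i₀ ι dsp (cf X ω) 0 x = x := fun ω => rfl
    simp [h1]
  | succ n ih =>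
    have hm := HY_cfm h
    obtain ⟨u1, u2⟩ := HY_two h hR x j hj
    have hg := hR.measurable_Yn 1 x
    have hS : Disjoint ({e | ∃ k : ℤ, x i₀ ≤ k ∧ k < x i₀ + 2 * ((1 : ℕ) : ℤ) ∧ e ∈ Lv i₀ k} :
        Set (Edge d)) {e | ∃ k : ℤ, x i₀ + 2 ≤ k ∧ k < x i₀ + 2 + 2 * (n : ℤ) ∧ e ∈ Lv i₀ k} := by
      rw [Set.disjoint_left]
      rintro e ⟨k, h1, h2, h3⟩ ⟨k', h4, h5, h6⟩
      push_cast at h2
      exact HY_disj (by omega) e h3 h6
    have hgS : ∀ c c' : Edge d → ℝ, (∀ e ∈ ({e | ∃ k : ℤ, x i₀ ≤ k ∧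
        k < x i₀ + 2 * ((1 : ℕ) : ℤ) ∧ e ∈ Lv i₀ k} : Set (Edge d)), c e = c' e) →
        Yn i₀ ι dsp c 1 x = Yn i₀ ι dsp c' 1 x := fun c c' hc =>
      (hR.Yn_congr 1 x fun e he => hc e he).1
    have hbd : ∀ (c : Edge d → ℝ) (k : Fin d), x k - 4 ≤ Yn i₀ ι dsp c 1 x k ∧
        Yn i₀ ι dsp c 1 x k ≤ x k + 4 := by
      intro c k
      have h0 : Yn i₀ ι dsp c 1 x = nx i₀ ι dsp c (nx i₀ ι dsp c x true) false := rfl
      have h1 := HY_nx_bd hR c x true k
      have h2 := HY_nx_bd hR c (nx i₀ ι dsp c x true) false k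
      rw [h0]
      omega
    have hgY : ∀ c : Edge d → ℝ, Yn i₀ ι dsp c 1 x ∈ HY_box i₀ x (x i₀ + 2) := by
      intro c
      refine HY_mem_box (fun k => (hbd c k).1) (fun k => (hbd c k).2) ?_
      have h1 := hR.Yn_level c 1 x
      push_cast at h1
      omega
    have hub : ∀ c : Edge d → ℝ, |((Yn i₀ ι dsp c 1 x j - x j : ℤ) : ℝ)| ≤ 2 := by
      intro c
      have h0 : Yn i₀ ι dsp c 1 x = nx i₀ ι dsp c (nx i₀ ι dsp c x true) false := rfl
      have h1 := hR.d1 (fun t => c (ι x true t)) j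
      have h2 := hR.d1 (fun t => c (ι (nx i₀ ι dsp c x true) false t)) j
      rw [abs_le] at h1 h2
      have h3 : |Yn i₀ ι dsp c 1 x j - x j| ≤ 2 := by
        rw [h0, HY_nx_false _ _ hj, HY_nx_true _ _ hj, abs_le]
        constructor <;> linarith [h1.1, h1.2, h2.1, h2.2]
      exact_mod_cast h3
    have hum : Measurable fun c : Edge d → ℝ => ((Yn i₀ ι dsp c 1 x j - x j : ℤ) : ℝ) :=
      HY_mvec _ hg j (x j)
    have huS : ∀ c c' : Edge d → ℝ, (∀ e ∈ ({e | ∃ k : ℤ, x i₀ ≤ k ∧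
        k < x i₀ + 2 * ((1 : ℕ) : ℤ) ∧ e ∈ Lv i₀ k} : Set (Edge d)), c e = c' e) →
        ((Yn i₀ ι dsp c 1 x j - x j : ℤ) : ℝ) = ((Yn i₀ ι dsp c' 1 x j - x j : ℤ) : ℝ) := by
      intro c c' hc
      rw [hgS c c' hc]
    have hWm : ∀ y ∈ HY_box i₀ x (x i₀ + 2),
        Measurable fun c : Edge d → ℝ => ((Yn i₀ ι dsp c n y j - y j : ℤ) : ℝ) :=
      fun y _ => HY_mvec _ (hR.measurable_Yn n y) j (y j)
    have hWS : ∀ y ∈ HY_box i₀ x (x i₀ + 2), ∀ c c' : Edge d → ℝ,
        (∀ e ∈ ({e | ∃ k : ℤ, x i₀ + 2 ≤ k ∧ k < x i₀ + 2 + 2 * (n : ℤ) ∧ e ∈ Lv i₀ k} :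
          Set (Edge d)), c e = c' e) →
        ((Yn i₀ ι dsp c n y j - y j : ℤ) : ℝ) = ((Yn i₀ ι dsp c' n y j - y j : ℤ) : ℝ) := by
      intro y hy c c' hc
      have h1 : Yn i₀ ι dsp c n y = Yn i₀ ι dsp c' n y := by
        refine (hR.Yn_congr n y fun e he => hc e ?_).1
        rw [HY_of_mem_box hy] at he
        exact he
      rw [h1]
    have k1 := HY_key h hS (HY_box i₀ x (x i₀ + 2)) hg hgS hgY (φ := fun _ => (1 : ℝ))
      measurable_const (fun _ _ _ => rfl) (C := 1) (fun _ => by simp)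
      (G := fun y c => ((Yn i₀ ι dsp c n y j - y j : ℤ) : ℝ)) hWm hWS (fun y _ => (ih y).1)
    have k2 := HY_key h hS (HY_box i₀ x (x i₀ + 2)) hg hgS hgY
      (φ := fun c => ((Yn i₀ ι dsp c 1 x j - x j : ℤ) : ℝ)) hum huS (C := 2) hub
      (G := fun y c => ((Yn i₀ ι dsp c n y j - y j : ℤ) : ℝ)) hWm hWS (fun y _ => (ih y).1)
    have k3 := HY_key h hS (HY_box i₀ x (x i₀ + 2)) hg hgS hgY (φ := fun _ => (1 : ℝ))
      measurable_const (fun _ _ _ => rfl) (C := 1) (fun _ => by simp)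
      (G := fun y c => ((Yn i₀ ι dsp c n y j - y j : ℤ) : ℝ) ^ 2)
      (fun y hy => (hWm y hy).pow_const 2) (fun y hy c c' hc => by
        simp only [hWS y hy c c' hc]) (fun y _ => (ih y).2.2.1)
    have i1 : ∫ ω, (1 : ℝ) * ((Yn i₀ ι dsp (cf X ω) n (Yn i₀ ι dsp (cf X ω) 1 x) j -
        Yn i₀ ι dsp (cf X ω) 1 x j : ℤ) : ℝ) ∂P = 0 := by
      rw [k1.2]
      exact Finset.sum_eq_zero fun y _ => by rw [(ih y).2.1, mul_zero]
    have i2 : ∫ ω, ((Yn i₀ ι dsp (cf X ω) 1 x j - x j : ℤ) : ℝ) *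
        ((Yn i₀ ι dsp (cf X ω) n (Yn i₀ ι dsp (cf X ω) 1 x) j -
        Yn i₀ ι dsp (cf X ω) 1 x j : ℤ) : ℝ) ∂P = 0 := by
      rw [k2.2]
      exact Finset.sum_eq_zero fun y _ => by rw [(ih y).2.1, mul_zero]
    have i3 : ∫ ω, (1 : ℝ) * ((Yn i₀ ι dsp (cf X ω) n (Yn i₀ ι dsp (cf X ω) 1 x) j -
        Yn i₀ ι dsp (cf X ω) 1 x j : ℤ) : ℝ) ^ 2 ∂P ≤ 4 * n := by
      rw [k3.2]
      have h1 := HY_sum h (HY_box i₀ x (x i₀ + 2)) hg hgS hgY
      calc ∑ y ∈ HY_box i₀ x (x i₀ + 2), (∫ ω, (1 : ℝ) *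
            (if Yn i₀ ι dsp (cf X ω) 1 x = y then 1 else 0) ∂P) *
            ∫ ω, ((Yn i₀ ι dsp (cf X ω) n y j - y j : ℤ) : ℝ) ^ 2 ∂P
          ≤ ∑ y ∈ HY_box i₀ x (x i₀ + 2), (∫ ω, (1 : ℝ) *
            (if Yn i₀ ι dsp (cf X ω) 1 x = y then 1 else 0) ∂P) * (4 * n) := by
            refine Finset.sum_le_sum fun y _ => mul_le_mul_of_nonneg_left (ih y).2.2.2 ?_
            refine integral_nonneg fun ω => ?_
            show (0 : ℝ) ≤ 1 * (if Yn i₀ ι dsp (cf X ω) 1 x = y then 1 else 0)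
            split_ifs <;> norm_num
        _ = 4 * n := by rw [← Finset.sum_mul, h1, one_mul]
    have usq : Integrable (fun ω => ((Yn i₀ ι dsp (cf X ω) 1 x j - x j : ℤ) : ℝ) ^ 2) P := by
      refine Integrable.of_bound ((hum.pow_const 2).comp hm).aestronglyMeasurable 4
        (Filter.Eventually.of_forall fun ω => ?_)
      rw [Real.norm_eq_abs, abs_pow]
      have h1 := hub (cf X ω)
      have h2 := abs_nonneg ((Yn i₀ ι dsp (cf X ω) 1 x j - x j : ℤ) : ℝ)
      nlinarith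
    have usq' : ∫ ω, ((Yn i₀ ι dsp (cf X ω) 1 x j - x j : ℤ) : ℝ) ^ 2 ∂P ≤ 4 := by
      calc ∫ ω, ((Yn i₀ ι dsp (cf X ω) 1 x j - x j : ℤ) : ℝ) ^ 2 ∂P
          ≤ ∫ _ω, (4 : ℝ) ∂P := by
            refine integral_mono usq (integrable_const _) fun ω => ?_
            have h1 := hub (cf X ω)
            have h2 := abs_nonneg ((Yn i₀ ι dsp (cf X ω) 1 x j - x j : ℤ) : ℝ)
            show ((Yn i₀ ι dsp (cf X ω) 1 x j - x j : ℤ) : ℝ) ^ 2 ≤ 4
            rw [← sq_abs]
            nlinarith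
        _ = 4 := by simp
    have hdec : ∀ ω, ((Yn i₀ ι dsp (cf X ω) (n + 1) x j - x j : ℤ) : ℝ) =
        ((Yn i₀ ι dsp (cf X ω) 1 x j - x j : ℤ) : ℝ) +
        1 * ((Yn i₀ ι dsp (cf X ω) n (Yn i₀ ι dsp (cf X ω) 1 x) j -
        Yn i₀ ι dsp (cf X ω) 1 x j : ℤ) : ℝ) := by
      intro ω
      have h0 : Yn i₀ ι dsp (cf X ω) (n + 1) x =
        Yn i₀ ι dsp (cf X ω) n (Yn i₀ ι dsp (cf X ω) 1 x) := rfl
      rw [h0]
      push_cast
      ring
    have hsq : ∀ ω, ((Yn i₀ ι dsp (cf X ω) (n + 1) x j - x j : ℤ) : ℝ) ^ 2 =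
        (((Yn i₀ ι dsp (cf X ω) 1 x j - x j : ℤ) : ℝ) ^ 2 +
        2 * (((Yn i₀ ι dsp (cf X ω) 1 x j - x j : ℤ) : ℝ) *
          ((Yn i₀ ι dsp (cf X ω) n (Yn i₀ ι dsp (cf X ω) 1 x) j -
        Yn i₀ ι dsp (cf X ω) 1 x j : ℤ) : ℝ))) +
        1 * ((Yn i₀ ι dsp (cf X ω) n (Yn i₀ ι dsp (cf X ω) 1 x) j -
        Yn i₀ ι dsp (cf X ω) 1 x j : ℤ) : ℝ) ^ 2 := by
      intro ω
      rw [hdec]
      ring
    refine ⟨?_, ?_, ?_, ?_⟩
    · rw [funext hdec]
      exact u1.add k1.1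
    · rw [funext hdec, integral_add u1 k1.1, u2, i1, add_zero]
    · rw [funext hsq]
      exact (usq.add (k2.1.const_mul 2)).add k3.1
    · have hfst : Integrable (fun ω => ((Yn i₀ ι dsp (cf X ω) 1 x j - x j : ℤ) : ℝ) ^ 2 +
          2 * (((Yn i₀ ι dsp (cf X ω) 1 x j - x j : ℤ) : ℝ) *
          ((Yn i₀ ι dsp (cf X ω) n (Yn i₀ ι dsp (cf X ω) 1 x) j -
          Yn i₀ ι dsp (cf X ω) 1 x j : ℤ) : ℝ))) P := usq.add (k2.1.const_mul 2)
      rw [funext hsq, integral_add hfst k3.1,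
        integral_add usq (k2.1.const_mul 2), integral_const_mul, i2]
      have hc : ((n + 1 : ℕ) : ℝ) = n + 1 := by
        push_cast
        ring
      rw [hc]
      linarith

end Pool.Agent.Helper98.GK

end

/-! ## HR -/

section

namespace Pool.Agent.Helper98.GK

open MeasureTheory ProbabilityTheory Pool.Agent.Helper79.GR Pool.Agent.Helper79.GQ

variable {Ω : Type*} [MeasurableSpace Ω] {d : ℕ} {P : Measure Ω} {X : Edge d → Ω → ℝ}
  {ν : Measure ℝ} {a b : ℝ} {i₀ : Fin d} {τ : Type} [Fintype τ]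
  {ι : V d → Bool → τ → Edge d} {dsp : (τ → ℝ) → V d} {kap : (τ → ℝ) → ℝ}

private theorem HR_sv_ne (s : St d) {i : Fin d} (hi : i ≠ s.1) : sv s i = 0 := by
  unfold sv
  exact Pi.single_eq_of_ne hi _

/-- a step towards `0` in a coordinate different from `i₀` -/
private theorem HR_step (z : V d) (hz : z ≠ 0) (h0 : z i₀ = 0) :
    ∃ s : St d, s.1 ≠ i₀ ∧ n1 (z - sv s) = n1 z - 1 := by
  obtain ⟨i, hi⟩ := Function.ne_iff.1 hz
  have hi' : z i ≠ 0 := hi
  have hii : i ≠ i₀ := by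
    rintro rfl
    exact hi' h0
  have key : ∀ s : St d, s.1 = i → |((z i - (sv s) i : ℤ) : ℝ)| = |(z i : ℝ)| - 1 →
      n1 (z - sv s) = n1 z - 1 := by
    intro s hs h
    unfold n1
    rw [← Finset.add_sum_erase _ _ (Finset.mem_univ i),
      ← Finset.add_sum_erase Finset.univ (fun j => |(z j : ℝ)|) (Finset.mem_univ i),
      Pi.sub_apply, h]
    have e : ∑ j ∈ Finset.univ.erase i, |(((z - sv s) j : ℤ) : ℝ)| =
        ∑ j ∈ Finset.univ.erase i, |(z j : ℝ)| := by
      refine Finset.sum_congr rfl fun j hj => ?_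
      have hji : j ≠ s.1 := by
        rw [hs]
        exact Finset.ne_of_mem_erase hj
      rw [Pi.sub_apply]
      unfold sv
      rw [Pi.single_eq_of_ne hji, sub_zero]
    rw [e]
    ring
  rcases lt_or_gt_of_ne hi' with h | h
  · refine ⟨(i, false), hii, key _ rfl ?_⟩
    have h1 : (z i : ℝ) ≤ -1 := by exact_mod_cast Int.le_sub_one_of_lt h
    have e : (sv ((i, false) : St d)) i = -1 := by simp [sv]
    rw [e, Int.cast_sub, Int.cast_neg, Int.cast_one, abs_of_nonpos (by linarith),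
      abs_of_nonpos (by linarith)]
    ring
  · refine ⟨(i, true), hii, key _ rfl ?_⟩
    have h1 : (1 : ℝ) ≤ z i := by exact_mod_cast h
    have e : (sv ((i, true) : St d)) i = 1 := by simp [sv]
    rw [e, Int.cast_sub, Int.cast_one, abs_of_nonneg (by linarith),
      abs_of_nonneg (by linarith)]

/-- a shortest walk inside a level -/
private theorem HR_walk (x y : V d) (hxy : x i₀ = y i₀) :
    ∃ w : List (St d), pos x w = y ∧ (w.length : ℝ) = n1 (y - x) ∧
      ∀ e ∈ eds x w, e ∈ Lv i₀ (y i₀) := by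
  obtain ⟨k, hk⟩ := exists_nat_n1 (y - x)
  induction k generalizing x with
  | zero =>
    rw [Nat.cast_zero] at hk
    have h1 := sub_eq_zero.1 (n1_eq_zero.1 hk)
    refine ⟨[], h1.symm, ?_, ?_⟩
    · rw [hk, List.length_nil, Nat.cast_zero]
    · intro e he
      exact absurd he List.not_mem_nil
  | succ k ih =>
    have h0 : y - x ≠ 0 := by
      intro h
      rw [n1_eq_zero.2 h] at hk
      push_cast at hk
      have : (0 : ℝ) ≤ k := Nat.cast_nonneg k
      linarith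
    obtain ⟨s, hsi, hs⟩ := HR_step (i₀ := i₀) (y - x) h0 (by rw [Pi.sub_apply, hxy, sub_self])
    have h1 : n1 (y - (x + sv s)) = k := by
      rw [← sub_sub, hs, hk]
      push_cast
      ring
    have h2 : sv s i₀ = 0 := HR_sv_ne s hsi.symm
    have h3 : (x + sv s) i₀ = y i₀ := by rw [Pi.add_apply, h2, add_zero, hxy]
    obtain ⟨w, hw, hl, he⟩ := ih (x + sv s) h3 h1
    refine ⟨s :: w, hw, ?_, ?_⟩
    · rw [List.length_cons, Nat.cast_add, Nat.cast_one, hl, h1, hk]
      push_cast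
      ring
    · intro e hm
      have hm' : e ∈ ed x s :: eds (x + sv s) w := hm
      rcases List.mem_cons.1 hm' with rfl | hm'
      · have h4 : ∀ z ∈ (ed x s).1, z i₀ = y i₀ := by
          intro z hz
          have hz' : z = x ∨ z = x + sv s := by
            unfold ed at hz
            exact Sym2.mem_iff.1 hz
          rcases hz' with rfl | rfl
          · exact hxy
          · exact h3
        refine ⟨⟨x, ?_, hxy⟩, fun z hz => (h4 z hz).ge⟩
        unfold ed
        exact Sym2.mem_mk_left _ _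
      · exact he e hm'

private theorem HR_cost_congr {c c' : Edge d → ℝ} (x : V d) (w : List (St d))
    (h : ∀ e ∈ eds x w, c e = c' e) : cost c x w = cost c' x w := by
  rw [cost_eq_sum, cost_eq_sum, List.map_congr_left h]

private theorem HR_cost_meas (x : V d) (w : List (St d)) :
    Measurable fun c : Edge d → ℝ => cost c x w := by
  induction w generalizing x with
  | nil => exact measurable_const
  | cons s w ih => exact (measurable_pi_apply _).add (ih (x + sv s))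

private theorem HR_cost (h : Env0 P X ν a b) (hd : 1 ≤ d) (x : V d) (w : List (St d)) :
    Integrable (fun ω => cost (cf X ω) x w) P ∧
      ∫ ω, cost (cf X ω) x w ∂P = w.length * ∫ t, t ∂ν := by
  induction w generalizing x with
  | nil =>
    refine ⟨integrable_zero _ _ _, ?_⟩
    change ∫ ω, (0 : ℝ) ∂P = _
    rw [integral_zero, List.length_nil, Nat.cast_zero, zero_mul]
  | cons s w ih =>
    obtain ⟨h1, h2⟩ := ih (x + sv s)
    have h3 : Integrable (fun ω => X (ed x s) ω) P := by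
      have h4 : Integrable (fun t : ℝ => t) (P.map (X (ed x s))) := by
        rw [h.law]
        exact h.integrable_id hd
      exact (integrable_map_measure measurable_id.aestronglyMeasurable
        (h.meas _).aemeasurable).1 h4
    have h5 : ∫ ω, X (ed x s) ω ∂P = ∫ t, t ∂ν := by
      rw [← h.law (ed x s)]
      exact (integral_map (h.meas _).aemeasurable measurable_id.aestronglyMeasurable).symm
    refine ⟨h3.add h1, ?_⟩
    change ∫ ω, (X (ed x s) ω + cost (cf X ω) (x + sv s) w) ∂P = _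
    rw [integral_add h3 h1, h5, h2, List.length_cons, Nat.cast_add, Nat.cast_one]
    ring

private theorem HR_lv_disj {k k' : ℤ} (hk : k ≠ k') {e : Edge d} (he : e ∈ Lv i₀ k)
    (he' : e ∈ Lv i₀ k') : False := by
  obtain ⟨⟨z, hz, hzk⟩, h1⟩ := he
  obtain ⟨⟨z', hz', hzk'⟩, h2⟩ := he'
  have h3 := h1 z' hz'
  have h4 := h2 z hz
  omega

private theorem HR_nx_bd (hR : Rd i₀ ν ι dsp kap) (c : Edge d → ℝ) (x : V d) (s : Bool)
    (j : Fin d) : |nx i₀ ι dsp c x s j - x j| ≤ 1 := by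
  by_cases hj : j = i₀
  · subst hj
    rw [hR.nx_level]
    simp
  · unfold nx
    have h1 : sv (i₀, true) j = (0 : ℤ) := HR_sv_ne (i₀, true) hj
    cases s
    · have h2 := hR.d1 (fun t => c (ι x false t)) j
      rw [Pi.add_apply, Pi.add_apply, h1, if_neg (by decide), Pi.neg_apply]
      rw [show x j + 0 + -dsp (fun t => c (ι x false t)) j - x j =
        -dsp (fun t => c (ι x false t)) j by ring, abs_neg]
      exact h2
    · have h2 := hR.d1 (fun t => c (ι x true t)) j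
      rw [Pi.add_apply, Pi.add_apply, h1, if_pos rfl]
      rw [show x j + 0 + dsp (fun t => c (ι x true t)) j - x j =
        dsp (fun t => c (ι x true t)) j by ring]
      exact h2

private theorem HR_Yn_bd (hR : Rd i₀ ν ι dsp kap) (c : Edge d → ℝ) (n : ℕ) (x : V d)
    (j : Fin d) : |Yn i₀ ι dsp c n x j - x j| ≤ 2 * n := by
  induction n generalizing x with
  | zero =>
    change |x j - x j| ≤ _
    simp
  | succ n ih =>
    have h1 := HR_nx_bd hR c x true j
    have h2 := HR_nx_bd hR c (nx i₀ ι dsp c x true) false j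
    have h3 := ih (nx i₀ ι dsp c (nx i₀ ι dsp c x true) false)
    unfold Yn
    rw [abs_le] at h1 h2 h3 ⊢
    push_cast
    constructor <;> omega

private theorem HR_Yn_zero (hR : Rd i₀ ν ι dsp kap) (c : Edge d → ℝ) (n : ℕ) :
    Yn i₀ ι dsp c n 0 i₀ = 2 * n := by
  rw [hR.Yn_level]
  simp

/-- the mean of the absolute value of one coordinate -/
private theorem HR_abs (h : Env0 P X ν a b) (hR : Rd i₀ ν ι dsp kap) (n : ℕ) (j : Fin d)
    (hj : j ≠ i₀) :
    Integrable (fun ω => |((Yn i₀ ι dsp (cf X ω) n 0 j : ℤ) : ℝ)|) P ∧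
      ∫ ω, |((Yn i₀ ι dsp (cf X ω) n 0 j : ℤ) : ℝ)| ∂P ≤ 2 * √n := by
  have hP := h.prob
  obtain ⟨i1, -, i2, i3⟩ := hR.mean_Yn h n 0 j hj
  have e0 : ∀ ω, Yn i₀ ι dsp (cf X ω) n 0 j - (0 : V d) j = Yn i₀ ι dsp (cf X ω) n 0 j :=
    fun ω => sub_zero _
  simp only [e0] at i1 i2 i3
  refine ⟨i1.abs, ?_⟩
  rcases Nat.eq_zero_or_pos n with rfl | hn
  · have e1 : ∀ ω, |((Yn i₀ ι dsp (cf X ω) 0 0 j : ℤ) : ℝ)| = 0 := by
      intro ω
      change |(((0 : V d) j : ℤ) : ℝ)| = 0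
      simp
    simp only [e1, integral_zero]
    positivity
  · have hs : 0 < √(n : ℝ) := Real.sqrt_pos.2 (by exact_mod_cast hn)
    have hss : √(n : ℝ) * √(n : ℝ) = n := Real.mul_self_sqrt (Nat.cast_nonneg n)
    have hle : ∀ ω, |((Yn i₀ ι dsp (cf X ω) n 0 j : ℤ) : ℝ)| ≤
        ((Yn i₀ ι dsp (cf X ω) n 0 j : ℤ) : ℝ) ^ 2 * (1 / (4 * √n)) + √n := by
      intro ω
      obtain ⟨y, hy⟩ : ∃ y : ℝ, y = ((Yn i₀ ι dsp (cf X ω) n 0 j : ℤ) : ℝ) := ⟨_, rfl⟩
      rw [← hy]
      have h1 : |y| ^ 2 = y ^ 2 := sq_abs y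
      rw [← h1]
      have h2 : 0 ≤ (|y| - 2 * √n) ^ 2 * (1 / (4 * √n)) := by positivity
      have h3 : (|y| - 2 * √n) ^ 2 * (1 / (4 * √n)) =
          |y| ^ 2 * (1 / (4 * √n)) - |y| + √n := by
        field_simp
        ring
      linarith
    calc ∫ ω, |((Yn i₀ ι dsp (cf X ω) n 0 j : ℤ) : ℝ)| ∂P
        ≤ ∫ ω, (((Yn i₀ ι dsp (cf X ω) n 0 j : ℤ) : ℝ) ^ 2 * (1 / (4 * √n)) + √n) ∂P :=
          integral_mono i1.abs ((i2.mul_const _).add (integrable_const _)) hle
      _ = (∫ ω, ((Yn i₀ ι dsp (cf X ω) n 0 j : ℤ) : ℝ) ^ 2 ∂P) * (1 / (4 * √n)) + √n := by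
          rw [integral_add (i2.mul_const _) (integrable_const _), integral_mul_const,
            integral_const]
          simp
      _ ≤ (4 * n) * (1 / (4 * √n)) + √n := by
          gcongr
      _ = 2 * √n := by
          obtain ⟨r, hr⟩ : ∃ r : ℝ, r = √(n : ℝ) := ⟨_, rfl⟩
          rw [← hr] at hs hss ⊢
          rw [← hss]
          field_simp
          ring

private theorem HR_z (n : ℕ) (j : Fin d) :
    ((2 * n) • sv (i₀, true) : V d) j = if j = i₀ then (2 * n : ℤ) else 0 := by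
  rw [Pi.smul_apply]
  by_cases hj : j = i₀
  · subst hj
    rw [if_pos rfl]
    simp [sv]
  · rw [if_neg hj, HR_sv_ne (i₀, true) hj, smul_zero]

theorem round_return (h : Env0 P X ν a b) (hd : 1 ≤ d) (hR : Rd i₀ ν ι dsp kap) (n : ℕ) :
    ∫ ω, T (cf X ω) (Yn i₀ ι dsp (cf X ω) n 0) ((2 * n) • sv (i₀, true)) ∂P ≤
      (∫ x, x ∂ν) * (d * (2 * √n)) := by
  classical
  have hP := h.prob
  obtain ⟨z, hz⟩ : ∃ z : V d, z = (2 * n) • sv (i₀, true) := ⟨_, rfl⟩
  rw [← hz]
  have hz0 : z i₀ = 2 * n := by rw [hz, HR_z, if_pos rfl]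
  have hzj : ∀ j, j ≠ i₀ → z j = 0 := fun j hj => by rw [hz, HR_z, if_neg hj]
  have hm := h.mean_pos hd
  -- the walks
  have hw : ∀ v : V d, ∃ w : List (St d), v i₀ = 2 * n →
      (pos v w = z ∧ (w.length : ℝ) = n1 (z - v) ∧ ∀ e ∈ eds v w, e ∈ Lv i₀ (2 * n : ℤ)) := by
    intro v
    by_cases hv : v i₀ = 2 * n
    · obtain ⟨w, h1, h2, h3⟩ := HR_walk (i₀ := i₀) v z (hv.trans hz0.symm)
      rw [hz0] at h3
      exact ⟨w, fun _ => ⟨h1, h2, h3⟩⟩
    · exact ⟨[], fun h => absurd h hv⟩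
  choose w hw using hw
  obtain ⟨S, hS⟩ : ∃ S : Finset (V d), S = (Fintype.piFinset fun _ : Fin d =>
      Finset.Icc (-(2 * n : ℤ)) (2 * n)).filter fun v => v i₀ = (2 * n : ℤ) := ⟨_, rfl⟩
  have hSv : ∀ v ∈ S, v i₀ = 2 * n := by
    intro v hv
    rw [hS] at hv
    exact (Finset.mem_filter.1 hv).2
  obtain ⟨Y, hY⟩ : ∃ Y : Ω → V d, Y = fun ω => Yn i₀ ι dsp (cf X ω) n 0 := ⟨_, rfl⟩
  have hYω : ∀ ω, Y ω = Yn i₀ ι dsp (cf X ω) n 0 := fun ω => by rw [hY]
  have hYS : ∀ ω, Y ω ∈ S := by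
    intro ω
    rw [hS, Finset.mem_filter, Fintype.mem_piFinset]
    refine ⟨fun j => ?_, ?_⟩
    · rw [Finset.mem_Icc, hYω]
      have h1 := HR_Yn_bd hR (cf X ω) n 0 j
      rw [abs_le] at h1
      have h2 : (0 : V d) j = 0 := rfl
      omega
    · rw [hYω]
      exact HR_Yn_zero hR _ n
  have hcm : Measurable fun ω => cf X ω := measurable_pi_lambda _ fun e => h.meas e
  have hYm : Measurable Y := by
    rw [hY]
    exact (hR.measurable_Yn n 0).comp hcm
  -- the splitting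
  have hsplit : ∀ (f : V d → ℝ) ω, f (Y ω) = ∑ v ∈ S, (if Y ω = v then (1 : ℝ) else 0) * f v := by
    intro f ω
    rw [Finset.sum_eq_single (Y ω)]
    · rw [if_pos rfl, one_mul]
    · intro v _ hv
      rw [if_neg (Ne.symm hv), zero_mul]
    · intro hn
      exact absurd (hYS ω) hn
  have hI : ∀ v : V d, Integrable (fun ω => if Y ω = v then (1 : ℝ) else 0) P := by
    intro v
    refine Integrable.of_bound (C := 1) ?_ (Filter.Eventually.of_forall fun ω => ?_)
    · exact (Measurable.ite (hYm (measurableSet_singleton v)) measurable_const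
        measurable_const).aestronglyMeasurable
    · split <;> simp
  -- independence
  have hind : ∀ v ∈ S, Integrable (fun ω => (if Y ω = v then (1 : ℝ) else 0) *
      cost (cf X ω) v (w v)) P ∧
      ∫ ω, (if Y ω = v then (1 : ℝ) else 0) * cost (cf X ω) v (w v) ∂P =
      (∫ ω, (if Y ω = v then (1 : ℝ) else 0) ∂P) * (n1 (z - v) * ∫ t, t ∂ν) := by
    intro v hv
    obtain ⟨h1, h2, h3⟩ := hw v (hSv v hv)
    obtain ⟨h4, h5⟩ := HR_cost h hd v (w v)
    have h6 := indep_of_disjoint h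
      {e : Edge d | ∃ k : ℤ, (0 : V d) i₀ ≤ k ∧ k < (0 : V d) i₀ + 2 * n ∧ e ∈ Lv i₀ k}
      (Lv i₀ (2 * n : ℤ))
      (by
        rw [Set.disjoint_left]
        rintro e ⟨k, -, hk, he⟩ he'
        have h7 : (0 : V d) i₀ = 0 := rfl
        exact HR_lv_disj (by omega) he he')
      (fun c => if Yn i₀ ι dsp c n 0 = v then (1 : ℝ) else 0)
      (fun c => cost c v (w v))
      (Measurable.ite (hR.measurable_Yn n 0 (measurableSet_singleton v)) measurable_const
        measurable_const)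
      (HR_cost_meas v (w v))
      (fun c c' hc => by
        have h7 := (hR.Yn_congr n 0 hc).1
        simp only [h7])
      (fun c c' hc => HR_cost_congr v (w v) fun e he => hc e (h3 e he))
    have h8 : IndepFun (fun ω => if Y ω = v then (1 : ℝ) else 0)
        (fun ω => cost (cf X ω) v (w v)) P := by
      rw [hY]
      exact h6
    refine ⟨h8.integrable_mul (hI v) h4, ?_⟩
    rw [← h2, ← h5]
    exact h8.integral_fun_mul_eq_mul_integral (hI v).aestronglyMeasurable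
      h4.aestronglyMeasurable
  have hT : ∀ ω, T (cf X ω) (Y ω) z ≤
      ∑ v ∈ S, (if Y ω = v then (1 : ℝ) else 0) * cost (cf X ω) v (w v) := by
    intro ω
    rw [← hsplit (fun v => cost (cf X ω) v (w v)) ω]
    exact T_le_cost (fun e => h.pos e ω) (hw (Y ω) (hSv _ (hYS ω))).1
  have hn1 : ∀ ω, n1 (z - Y ω) = ∑ j ∈ Finset.univ.erase i₀, |((Y ω j : ℤ) : ℝ)| := by
    intro ω
    unfold n1
    rw [← Finset.add_sum_erase _ _ (Finset.mem_univ i₀)]
    have h1 : (z - Y ω) i₀ = 0 := by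
      rw [Pi.sub_apply, hz0, hSv _ (hYS ω), sub_self]
    rw [h1, Int.cast_zero, abs_zero, zero_add]
    refine Finset.sum_congr rfl fun j hj => ?_
    rw [Pi.sub_apply, hzj j (Finset.ne_of_mem_erase hj), zero_sub, Int.cast_neg, abs_neg]
  have hYe : ∀ ω, Yn i₀ ι dsp (cf X ω) n 0 = Y ω := fun ω => (hYω ω).symm
  have hab : ∀ j, j ≠ i₀ → Integrable (fun ω => |((Y ω j : ℤ) : ℝ)|) P ∧
      ∫ ω, |((Y ω j : ℤ) : ℝ)| ∂P ≤ 2 * √n := by
    intro j hj
    have h1 := HR_abs h hR n j hj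
    simp only [hYe] at h1
    exact h1
  simp only [hYe]
  calc ∫ ω, T (cf X ω) (Y ω) z ∂P
      ≤ ∫ ω, ∑ v ∈ S, (if Y ω = v then (1 : ℝ) else 0) * cost (cf X ω) v (w v) ∂P := by
        refine integral_mono_of_nonneg (Filter.Eventually.of_forall fun ω =>
          T_nonneg (fun e => h.pos e ω) _ _) (integrable_finsetSum _ fun v hv => (hind v hv).1)
          (Filter.Eventually.of_forall hT)
    _ = ∑ v ∈ S, (∫ ω, (if Y ω = v then (1 : ℝ) else 0) ∂P) * (n1 (z - v) * ∫ t, t ∂ν) := by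
        rw [integral_finsetSum _ fun v hv => (hind v hv).1]
        exact Finset.sum_congr rfl fun v hv => (hind v hv).2
    _ = ∫ ω, n1 (z - Y ω) * ∫ t, t ∂ν ∂P := by
        have h1 : ∀ ω, n1 (z - Y ω) * ∫ t, t ∂ν =
            ∑ v ∈ S, (if Y ω = v then (1 : ℝ) else 0) * (n1 (z - v) * ∫ t, t ∂ν) :=
          fun ω => hsplit (fun v => n1 (z - v) * ∫ t, t ∂ν) ω
        simp only [h1]
        rw [integral_finsetSum _ fun v _ => (hI v).mul_const _]
        exact Finset.sum_congr rfl fun v _ => (integral_mul_const _ _).symm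
    _ = (∫ ω, n1 (z - Y ω) ∂P) * ∫ t, t ∂ν := integral_mul_const _ _
    _ = (∑ j ∈ Finset.univ.erase i₀, ∫ ω, |((Y ω j : ℤ) : ℝ)| ∂P) * ∫ t, t ∂ν := by
        simp only [hn1]
        rw [integral_finsetSum _ fun j hj => (hab j (Finset.ne_of_mem_erase hj)).1]
    _ ≤ (d * (2 * √n)) * ∫ t, t ∂ν := by
        refine mul_le_mul_of_nonneg_right ?_ hm.le
        calc ∑ j ∈ Finset.univ.erase i₀, ∫ ω, |((Y ω j : ℤ) : ℝ)| ∂P
            ≤ ∑ _j ∈ Finset.univ.erase i₀, 2 * √n :=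
              Finset.sum_le_sum fun j hj => (hab j (Finset.ne_of_mem_erase hj)).2
          _ ≤ ∑ _j : Fin d, 2 * √n :=
              Finset.sum_le_sum_of_subset_of_nonneg (Finset.erase_subset _ _)
                fun _ _ _ => by positivity
          _ = d * (2 * √n) := by
              rw [Finset.sum_const, Finset.card_univ, Fintype.card_fin, nsmul_eq_mul]
    _ = (∫ x, x ∂ν) * (d * (2 * √n)) := mul_comm _ _

end Pool.Agent.Helper98.GK

end

/-! ## HH -/

section

namespace Pool.Agent.Helper98.GK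

open MeasureTheory ProbabilityTheory Pool.Agent.Helper79.GR Pool.Agent.Helper79.GQ

variable {Ω : Type*} [MeasurableSpace Ω] {d : ℕ} {P : Measure Ω} {X : Edge d → Ω → ℝ}
  {ν : Measure ℝ} {a b : ℝ} {i₀ : Fin d} {τ : Type} [Fintype τ]
  {ι : V d → Bool → τ → Edge d} {dsp : (τ → ℝ) → V d} {kap : (τ → ℝ) → ℝ}

private theorem HH_key (h : Env0 P X ν a b) (hd : 1 ≤ d) (hR : Rd i₀ ν ι dsp kap) (n : ℕ) :
    mm P X ((2 * n) • sv (i₀, true)) ≤
      2 * n * (∫ ξ, kap ξ ∂(Measure.pi fun _ : τ => ν)) + (∫ x, x ∂ν) * (d * (2 * √n)) := by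
  have hX : Measurable fun ω => cf X ω := measurable_pi_iff.2 h.meas
  obtain ⟨z, hz⟩ : ∃ z : V d, z = (2 * n) • sv (i₀, true) := ⟨_, rfl⟩
  have h4 := round_return h hd hR n
  obtain ⟨hKi, hK⟩ := hR.mean_Kn h n 0
  rw [← hz] at h4 ⊢
  have hTi : Integrable (fun ω => T (cf X ω) (Yn i₀ ι dsp (cf X ω) n 0) z) P := by
    refine Integrable.mono' (hKi.add (integrable_T h hd 0 z)) ?_
      (Filter.Eventually.of_forall fun ω => ?_)
    · have h1 : Measurable fun q : V d × (Edge d → ℝ) => T q.2 q.1 z :=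
        measurable_from_prod_countable_right fun y => measurable_T_cfg y z
      have h2 : Measurable fun c : Edge d → ℝ => (Yn i₀ ι dsp c n 0, c) :=
        (hR.measurable_Yn n 0).prodMk measurable_id
      exact ((h1.comp h2).comp hX).aestronglyMeasurable
    · have hc : ∀ e, 0 < cf X ω e := fun e => h.pos e ω
      rw [Real.norm_eq_abs, abs_of_nonneg (T_nonneg hc _ _)]
      have h1 := T_triangle hc (Yn i₀ ι dsp (cf X ω) n 0) 0 z
      rw [T_symm (cf X ω) (Yn i₀ ι dsp (cf X ω) n 0) 0] at h1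
      have h2 := hR.T_le_Kn hc n 0
      exact h1.trans (add_le_add_left h2 _)
  have h3 : mm P X z ≤ ∫ ω, (Kn i₀ ι dsp kap (cf X ω) n 0 +
      T (cf X ω) (Yn i₀ ι dsp (cf X ω) n 0) z) ∂P := by
    unfold mm
    refine integral_mono (integrable_T h hd 0 z) (hKi.add hTi) fun ω => ?_
    have hc : ∀ e, 0 < cf X ω e := fun e => h.pos e ω
    have h1 := T_triangle hc 0 (Yn i₀ ι dsp (cf X ω) n 0) z
    have h2 := hR.T_le_Kn hc n 0
    exact h1.trans (add_le_add_left h2 _)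
  rw [integral_add hKi hTi, hK] at h3
  linarith

theorem round_bound (h : Env0 P X ν a b) (hd : 1 ≤ d) (hR : Rd i₀ ν ι dsp kap) :
    tc (mm P X) (rv (sv (i₀, true))) ≤ ∫ ξ, kap ξ ∂(Measure.pi fun _ : τ => ν) := by
  have hs := subM_mm h hd
  by_contra hcon
  rw [not_le] at hcon
  obtain ⟨D, hD⟩ : ∃ D : ℝ, D = tc (mm P X) (rv (sv (i₀, true))) -
    ∫ ξ, kap ξ ∂(Measure.pi fun _ : τ => ν) := ⟨_, rfl⟩
  have hD0 : 0 < D := by rw [hD]; linarith
  obtain ⟨k, hk⟩ := exists_nat_gt ((∫ x, x ∂ν) * d / D)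
  have hk' : (∫ x, x ∂ν) * d < k * D := (div_lt_iff₀ hD0).1 hk
  have h1 := HH_key h hd hR ((k + 1) ^ 2)
  have h2 := mul_tc_le hs (sv (i₀, true)) (2 * (k + 1) ^ 2)
  have h3 := h2.trans h1
  have h4 : √(((k + 1) ^ 2 : ℕ) : ℝ) = (k : ℝ) + 1 := by
    rw [Nat.cast_pow, Real.sqrt_sq (by positivity)]
    push_cast
    ring
  rw [h4] at h3
  push_cast at h3
  have h5 : 2 * ((k : ℝ) + 1) ^ 2 * D ≤ (∫ x, x ∂ν) * (d * (2 * ((k : ℝ) + 1))) := by
    rw [hD]
    linarith
  have h6 : ((k : ℝ) + 1) * D ≤ (∫ x, x ∂ν) * d := by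
    have hk1 : (0 : ℝ) < 2 * ((k : ℝ) + 1) := by positivity
    refine le_of_mul_le_mul_left ?_ hk1
    linarith
  linarith

end Pool.Agent.Helper98.GK

end

/-! ## HK -/

section

namespace Pool.Agent.Helper98.GK

open MeasureTheory ProbabilityTheory Pool.Agent.Helper79.GR Pool.Agent.Helper79.GQ

theorem exists_beta {d : ℕ} (i₀ : Fin d) (K D : ℕ) (h : K * D + 1 ≤ d) :
    ∃ β : ℕ → Fin D → Fin d, Bet i₀ β K := by
  classical
  have hcard : Fintype.card (Fin K × Fin D) ≤ Fintype.card {i : Fin d // i ≠ i₀} := by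
    rw [Fintype.card_prod, Fintype.card_fin, Fintype.card_fin]
    have h1 : Fintype.card {i : Fin d // i ≠ i₀} = d - 1 := by
      rw [Fintype.card_subtype_compl, Fintype.card_fin, Fintype.card_unique]
    rw [h1]
    omega
  obtain ⟨f⟩ := Function.Embedding.nonempty_of_card_le hcard
  refine ⟨fun k j => if hk : k < K then (f (⟨k, hk⟩, j)).1 else i₀, ?_, ?_⟩
  · intro k hk j
    rw [dif_pos hk]
    exact (f (⟨k, hk⟩, j)).2
  · intro k hk k' hk' j j' hjj
    simp only [dif_pos hk, dif_pos hk'] at hjj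
    have h1 := f.injective (Subtype.ext hjj)
    rw [Prod.mk.injEq, Fin.mk.injEq] at h1
    exact h1

end Pool.Agent.Helper98.GK

end

/-! ## HP -/

section

namespace Pool.Agent.Helper98.GK

open MeasureTheory ProbabilityTheory Pool.Agent.Helper79.GR Pool.Agent.Helper79.GQ

/-- `1 - exp (- y) ≥ min (1 / 2) (y / 2)` -/
private theorem HP_exp {y : ℝ} (hy : 0 ≤ y) : min (1 / 2) (y / 2) ≤ 1 - Real.exp (-y) := by
  rcases le_or_gt y 1 with h | h
  · refine (min_le_right _ _).trans ?_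
    have h1 : Real.exp (-y) ≤ 1 / (1 + y) := by
      rw [Real.exp_neg, one_div]
      have := Real.add_one_le_exp y
      exact inv_anti₀ (by linarith) (by linarith)
    have h2 : 1 / (1 + y) ≤ 1 - y / 2 := by
      rw [div_le_iff₀ (by linarith)]
      nlinarith
    linarith
  · refine (min_le_left _ _).trans ?_
    have h1 : Real.exp (-y) ≤ Real.exp (-1) := Real.exp_le_exp.2 (by linarith)
    have h2 : Real.exp (-1) ≤ 1 / 2 := by
      rw [Real.exp_neg, inv_le_comm₀ (Real.exp_pos _) (by norm_num)]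
      have := Real.add_one_le_exp (1 : ℝ)
      norm_num at this ⊢
      exact this
    linarith

private theorem HP_pow {x : ℝ} (h1 : x ≤ 1) (D : ℕ) : (1 - x) ^ D ≤ Real.exp (-(D * x)) := by
  have h2 : 1 - x ≤ Real.exp (-x) := by
    have := Real.add_one_le_exp (-x)
    linarith
  calc (1 - x) ^ D ≤ Real.exp (-x) ^ D := pow_le_pow_left₀ (by linarith) h2 D
    _ = Real.exp (-(D * x)) := by rw [← Real.exp_nat_mul]; congr 1; ring

theorem perc_bound (ν : Measure ℝ) [IsProbabilityMeasure ν] (D k : ℕ) (s : ℝ)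
    (hD : 4 ≤ D * ν.real (Set.Iic s)) (hk : 1 ≤ 2 ^ (k + 1) * ν.real (Set.Iic s)) :
    (Measure.pi fun _ : Tr D (k + 1) => ν).real {ξ | ¬ good D s (k + 1) ξ} ≤
      Real.exp (-(D * ν.real (Set.Iic s)) / 2) := by
  obtain ⟨q, hq⟩ : ∃ q : ℝ, q = ν.real (Set.Iic s) := ⟨_, rfl⟩
  rw [← hq] at hD hk ⊢
  have hq0 : 0 ≤ q := by rw [hq]; exact measureReal_nonneg
  have hq1 : q ≤ 1 := by rw [hq]; exact measureReal_le_one
  obtain ⟨θ, hθ⟩ : ∃ θ : ℕ → ℝ,
      θ = fun i => (Measure.pi fun _ : Tr D i => ν).real {ξ | good D s i ξ} := ⟨_, rfl⟩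
  have hθ0 : ∀ i, 0 ≤ θ i := fun i => by rw [hθ]; exact measureReal_nonneg
  have hθ1 : ∀ i, θ i ≤ 1 := fun i => by rw [hθ]; exact measureReal_le_one
  have hstep : ∀ i, (Measure.pi fun _ : Tr D (i + 1) => ν).real {ξ | ¬ good D s (i + 1) ξ} ≤
      Real.exp (-(D * (q * θ i))) := by
    intro i
    rw [good_step ν D s i, ← hq]
    have h1 : θ i = (Measure.pi fun _ : Tr D i => ν).real {ξ | good D s i ξ} := by rw [hθ]
    rw [← h1]
    exact HP_pow (by nlinarith [hθ0 i, hθ1 i]) D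
  have hcompl : ∀ i, θ i = 1 -
      (Measure.pi fun _ : Tr D i => ν).real {ξ | ¬ good D s i ξ} := by
    intro i
    have h1 := probReal_compl_eq_one_sub (μ := Measure.pi fun _ : Tr D i => ν)
      (measurableSet_good D s i)
    have h2 : {ξ : Tr D i → ℝ | good D s i ξ}ᶜ = {ξ | ¬ good D s i ξ} := rfl
    rw [h2] at h1
    rw [h1, hθ]
    ring
  have hzero : θ 0 = q := by
    rw [hθ, hq]
    have h1 : {ξ : Tr D 0 → ℝ | good D s 0 ξ} =
        (fun ξ : Tr D 0 → ℝ => ξ ()) ⁻¹' Set.Iic s := rfl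
    have h2 := measurePreserving_eval (fun _ : Tr D 0 => ν) (() : Tr D 0)
    show (Measure.pi fun _ : Tr D 0 => ν).real {ξ : Tr D 0 → ℝ | good D s 0 ξ} = _
    rw [h1, measureReal_def, measureReal_def]
    congr 1
    exact h2.measure_preimage measurableSet_Iic.nullMeasurableSet
  have hmin : ∀ i, min (1 / 2) (2 ^ i * q) ≤ θ i := by
    intro i
    induction i with
    | zero =>
      rw [hzero, pow_zero, one_mul]
      exact min_le_right _ _
    | succ i ih =>
      have h1 := hstep i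
      have h2 := HP_exp (y := D * (q * θ i))
        (mul_nonneg (Nat.cast_nonneg D) (mul_nonneg hq0 (hθ0 i)))
      have h3 : 2 * θ i ≤ D * (q * θ i) / 2 := by
        have h4 : 4 * θ i ≤ (D * q) * θ i := mul_le_mul_of_nonneg_right hD (hθ0 i)
        linarith
      rw [hcompl (i + 1)]
      have h5 : min (1 / 2) (2 ^ (i + 1) * q) ≤ min (1 / 2) (D * (q * θ i) / 2) := by
        refine le_min (min_le_left _ _) ?_
        rcases min_le_iff.1 ih with h6 | h6
        · exact (min_le_left _ _).trans (by linarith)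
        · refine (min_le_right _ _).trans ?_
          rw [pow_succ]
          linarith
      linarith
  have hhalf : 1 / 2 ≤ θ k := by
    refine le_trans (le_min le_rfl ?_) (hmin k)
    rw [pow_succ] at hk
    linarith
  refine (hstep k).trans (Real.exp_le_exp.2 ?_)
  have h1 : (D * q) * (1 / 2) ≤ (D * q) * θ k :=
    mul_le_mul_of_nonneg_left hhalf (by linarith)
  linarith

end Pool.Agent.Helper98.GK

end

/-! ## HI -/

section

namespace Pool.Agent.Helper98.GK

open MeasureTheory ProbabilityTheory Pool.Agent.Helper79.GR Pool.Agent.Helper79.GQ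

variable {Ω : Type*} [MeasurableSpace Ω] {d : ℕ} {P : Measure Ω} {X : Edge d → Ω → ℝ}
  {ν : Measure ℝ} {a b : ℝ}

private theorem HI_opt (ν : Measure ℝ) [IsProbabilityMeasure ν] (α : Type) [Fintype α]
    (A : Set (α → ℝ)) (hA : MeasurableSet A) (hi : Integrable (fun x : ℝ => x) ν) (K : ℝ)
    (kap : (Option α → ℝ) → ℝ)
    (hk1 : ∀ ξ, (fun t => ξ (some t)) ∈ A → kap ξ = K)
    (hk2 : ∀ ξ, (fun t => ξ (some t)) ∉ A → kap ξ = ξ none) :
    Integrable kap (Measure.pi fun _ : Option α => ν) ∧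
      ∫ ξ, kap ξ ∂(Measure.pi fun _ : Option α => ν) =
        (Measure.pi fun _ : α => ν).real A * K +
          (Measure.pi fun _ : α => ν).real Aᶜ * ∫ x, x ∂ν := by
  have h := Measure.pi_map_piOptionEquivProd (β := fun _ : Option α => ℝ) (fun _ => ν)
  have he : ∀ z : (α → ℝ) × ℝ,
      kap ((MeasurableEquiv.piOptionEquivProd fun _ : Option α => ℝ).symm z) =
      A.indicator 1 z.1 * K + Aᶜ.indicator 1 z.1 * z.2 := by
    intro z
    by_cases hz : z.1 ∈ A
    · have h1 : (fun t => (MeasurableEquiv.piOptionEquivProd fun _ : Option α => ℝ).symm z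
          (some t)) ∈ A := hz
      rw [hk1 _ h1, Set.indicator_of_mem hz, Set.indicator_of_notMem
        (show z.1 ∉ Aᶜ from fun h2 => h2 hz)]
      simp
    · have h1 : (fun t => (MeasurableEquiv.piOptionEquivProd fun _ : Option α => ℝ).symm z
          (some t)) ∉ A := hz
      rw [hk2 _ h1, Set.indicator_of_notMem hz, Set.indicator_of_mem (show z.1 ∈ Aᶜ from hz)]
      simp only [Pi.one_apply, zero_mul, one_mul, zero_add]
      rfl
  have hf : (kap ∘ (MeasurableEquiv.piOptionEquivProd fun _ : Option α => ℝ).symm) =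
      fun z : (α → ℝ) × ℝ => A.indicator 1 z.1 * K + Aᶜ.indicator 1 z.1 * z.2 :=
    funext he
  have i1 : Integrable (A.indicator (1 : (α → ℝ) → ℝ)) (Measure.pi fun _ : α => ν) :=
    (integrable_const (1 : ℝ)).indicator hA
  have i2 : Integrable (Aᶜ.indicator (1 : (α → ℝ) → ℝ)) (Measure.pi fun _ : α => ν) :=
    (integrable_const (1 : ℝ)).indicator hA.compl
  have j1 : Integrable (fun z : (α → ℝ) × ℝ => A.indicator (1 : (α → ℝ) → ℝ) z.1 * K)
      ((Measure.pi fun _ : α => ν).prod ν) :=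
    i1.mul_prod (integrable_const K)
  have j2 : Integrable (fun z : (α → ℝ) × ℝ => Aᶜ.indicator (1 : (α → ℝ) → ℝ) z.1 * z.2)
      ((Measure.pi fun _ : α => ν).prod ν) := i2.mul_prod hi
  constructor
  · rw [← h, integrable_map_equiv, hf]
    exact j1.add j2
  · rw [← h, integral_map_equiv]
    have h1 : ∫ z : (α → ℝ) × ℝ,
        kap ((MeasurableEquiv.piOptionEquivProd fun _ : Option α => ℝ).symm z)
        ∂((Measure.pi fun _ : α => ν).prod ν) =
        ∫ z : (α → ℝ) × ℝ, (A.indicator (1 : (α → ℝ) → ℝ) z.1 * K +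
          Aᶜ.indicator (1 : (α → ℝ) → ℝ) z.1 * z.2) ∂((Measure.pi fun _ : α => ν).prod ν) :=
      integral_congr_ae (Filter.Eventually.of_forall he)
    have h2 := integral_prod_mul (μ := Measure.pi fun _ : α => ν) (ν := ν)
      (A.indicator (1 : (α → ℝ) → ℝ)) (fun _ : ℝ => K)
    have h3 := integral_prod_mul (μ := Measure.pi fun _ : α => ν) (ν := ν)
      (Aᶜ.indicator (1 : (α → ℝ) → ℝ)) (fun x : ℝ => x)
    refine h1.trans ?_
    rw [integral_add j1 j2]
    refine (congrArg₂ (· + ·) h2 h3).trans ?_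
    rw [integral_indicator_one hA, integral_indicator_one hA.compl, integral_const]
    simp

theorem axis_bound (h : Env0 P X ν a b) (i₀ : Fin d) (k D : ℕ) (s₀ : ℝ) (hs : 0 ≤ s₀)
    (hkD : (k + 1) * D + 1 ≤ d) (hD : 4 ≤ D * ν.real (Set.Iic s₀))
    (hk : 1 ≤ 2 ^ (k + 1) * ν.real (Set.Iic s₀)) :
    tc (mm P X) (rv (sv (i₀, true))) ≤
      (k + 2) * s₀ + (∫ x, x ∂ν) * Real.exp (-(D * ν.real (Set.Iic s₀)) / 2) := by
  classical
  have hd : 1 ≤ d := by omega
  have hp := h.probν hd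
  obtain ⟨β, hβ⟩ := exists_beta i₀ (k + 1) D hkD
  obtain ⟨dsp₀, hm, h0, h1, hT⟩ := tree_dsp hβ s₀
  let A : Set (Tr D (k + 1) → ℝ) := {ξ | good D s₀ (k + 1) ξ}
  have hA : MeasurableSet A := measurableSet_good D s₀ (k + 1)
  let ι : V d → Bool → Option (Tr D (k + 1)) → Edge d := fun x s o =>
    match o with
    | none => ed x (i₀, true)
    | some t => emb i₀ β s (k + 1) x t
  let dsp : (Option (Tr D (k + 1)) → ℝ) → V d := fun ξ =>
    if (fun t => ξ (some t)) ∈ A then dsp₀ (fun t => ξ (some t)) else 0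
  let kap : (Option (Tr D (k + 1)) → ℝ) → ℝ := fun ξ =>
    if (fun t => ξ (some t)) ∈ A then (k + 2) * s₀ else ξ none
  have hres : Measurable fun (ξ : Option (Tr D (k + 1)) → ℝ) (t : Tr D (k + 1)) => ξ (some t) :=
    measurable_pi_lambda _ fun t => measurable_pi_apply _
  have hopt := HI_opt ν (Tr D (k + 1)) A hA (h.integrable_id hd) ((k + 2) * s₀) kap
    (fun ξ hξ => if_pos hξ) (fun ξ hξ => if_neg hξ)
  have hR : Rd i₀ ν ι dsp kap := by
    refine ⟨?_, ?_, ?_, ?_, ?_, ?_, hopt.1, ?_⟩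
    · intro x s o o' hoo
      cases o with
      | none =>
        cases o' with
        | none => rfl
        | some t' => exact absurd hoo.symm (emb_ne hβ s x t')
      | some t =>
        cases o' with
        | none => exact absurd hoo (emb_ne hβ s x t)
        | some t' => exact congrArg some (emb_injective hβ s x hoo)
    · intro x s o
      cases o with
      | none =>
        have hβ0 : Bet i₀ β 0 := ⟨fun k hk => absurd hk (Nat.not_lt_zero k),
          fun k hk => absurd hk (Nat.not_lt_zero k)⟩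
        exact emb_level (D := D) (K := 0) hβ0 s x ()
      | some t => exact emb_level hβ s x t
    · exact Measurable.ite (hres hA) (hm.comp hres) measurable_const
    · intro ξ
      by_cases hξ : (fun t => ξ (some t)) ∈ A
      · have : dsp ξ = dsp₀ (fun t => ξ (some t)) := if_pos hξ
        rw [this]; exact h0 _
      · have : dsp ξ = 0 := if_neg hξ
        rw [this]; rfl
    · intro ξ j
      by_cases hξ : (fun t => ξ (some t)) ∈ A
      · have : dsp ξ = dsp₀ (fun t => ξ (some t)) := if_pos hξ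
        rw [this, abs_le]
        have := h1 (fun t => ξ (some t)) j
        constructor <;> linarith
      · have : dsp ξ = 0 := if_neg hξ
        rw [this]; simp
    · exact Measurable.ite (hres hA) measurable_const (measurable_pi_apply _)
    · intro c hc x s
      by_cases hξ : (fun t => c (emb i₀ β s (k + 1) x t)) ∈ A
      · have e1 : kap (fun t => c (ι x s t)) = (k + 2) * s₀ := if_pos hξ
        have e2 : dsp (fun t => c (ι x s t)) = dsp₀ (fun t => c (emb i₀ β s (k + 1) x t)) :=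
          if_pos hξ
        have h2 := hT c hc x s hξ
        unfold nx
        rw [e1, e2]
        refine h2.trans (le_of_eq ?_)
        push_cast
        ring
      · have e1 : kap (fun t => c (ι x s t)) = c (ed x (i₀, true)) := if_neg hξ
        have e2 : dsp (fun t => c (ι x s t)) = 0 := if_neg hξ
        unfold nx
        rw [e1, e2, neg_zero, ite_self, add_zero]
        refine (T_le_cost hc (w := [(i₀, true)]) rfl).trans (le_of_eq ?_)
        simp [cost]
  refine (round_bound h hd hR).trans ?_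
  rw [hopt.2]
  have hm0 := (h.mean_pos hd).le
  have hperc : (Measure.pi fun _ : Tr D (k + 1) => ν).real Aᶜ ≤
      Real.exp (-(D * ν.real (Set.Iic s₀)) / 2) := perc_bound ν D k s₀ hD hk
  have hA1 : (Measure.pi fun _ : Tr D (k + 1) => ν).real A ≤ 1 := measureReal_le_one
  have hk0 : (0 : ℝ) ≤ (k + 2) * s₀ := by positivity
  have e1 : (Measure.pi fun _ : Tr D (k + 1) => ν).real A * ((k + 2) * s₀) ≤ (k + 2) * s₀ :=
    mul_le_of_le_one_left hk0 hA1
  have e2 : (Measure.pi fun _ : Tr D (k + 1) => ν).real Aᶜ * (∫ x, x ∂ν) ≤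
      (∫ x, x ∂ν) * Real.exp (-(D * ν.real (Set.Iic s₀)) / 2) := by
    rw [mul_comm]
    exact mul_le_mul_of_nonneg_left hperc hm0
  linarith

end Pool.Agent.Helper98.GK

end
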