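import Pool.Agent.Helper98.GM.M2
import Pool.Agent.Helper98.GM.M4
import Pool.Agent.Helper98.GM.M6
import Pool.Agent.Helper79.GQ.FD
import Pool.Agent.Helper79.GQ.LG

/-!
Project GK (MP_13b103_pr, geodesic rays for laws which touch `0` and are unbounded), part M7: the constants and the final theorem.
Merged from the files of the folder GK (pieces by the whole team).
-/

set_option autoImplicit false

/-! ## HJ -/

section

namespace Pool.Agent.Helper98.GK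

open MeasureTheory

theorem int_lo (ν : Measure ℝ) [IsProbabilityMeasure ν] (hν : ν (Set.Iic 0) = 0)
    (l t : ℝ) (hl : 0 < l) :
    ∫ x, Real.exp (-(l * x)) ∂ν ≤ ν.real (Set.Iic t) + Real.exp (-(l * t)) := by
  have h0 : ∀ᵐ x ∂ν, 0 < x := by
    rw [ae_iff]
    have : {a : ℝ | ¬ 0 < a} = Set.Iic 0 := by
      ext a; simp
    rw [this]; exact hν
  have hi : Integrable (fun x : ℝ => (Set.Iic t).indicator (fun _ => (1 : ℝ)) x
      + Real.exp (-(l * t))) ν := by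
    apply Integrable.add
    · exact (integrable_const (1 : ℝ)).indicator measurableSet_Iic
    · exact integrable_const _
  have h1 : ∫ x, Real.exp (-(l * x)) ∂ν ≤ ∫ x, ((Set.Iic t).indicator (fun _ => (1 : ℝ)) x
      + Real.exp (-(l * t))) ∂ν := by
    apply integral_mono_of_nonneg
    · exact Filter.Eventually.of_forall fun x => (Real.exp_pos _).le
    · exact hi
    · filter_upwards [h0] with x hx
      by_cases hxt : x ≤ t
      · have hm : x ∈ Set.Iic t := hxt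
        rw [Set.indicator_of_mem hm]
        have e1 : Real.exp (-(l * x)) ≤ 1 := by
          rw [Real.exp_le_one_iff]
          have := mul_pos hl hx
          linarith
        have e2 := Real.exp_pos (-(l * t))
        linarith
      · have hm : x ∉ Set.Iic t := hxt
        rw [Set.indicator_of_notMem hm, zero_add]
        apply Real.exp_le_exp.2
        have : l * t ≤ l * x := mul_le_mul_of_nonneg_left (not_le.1 hxt).le hl.le
        linarith
  refine h1.trans (le_of_eq ?_)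
  rw [integral_add ((integrable_const (1 : ℝ)).indicator measurableSet_Iic) (integrable_const _),
    integral_indicator measurableSet_Iic]
  simp

theorem num_lo (ν : Measure ℝ) [IsProbabilityMeasure ν] (hν : ν (Set.Iic 0) = 0)
    (α K t₀ : ℝ) (hα : 0 < α) (ht₀ : 0 < t₀)
    (hK : ∀ t : ℝ, 0 < t → t ≤ t₀ → ν.real (Set.Iic t) ≤ K * t ^ α) :
    ∃ c : ℝ, 0 < c ∧ ∃ d₀ : ℕ, ∀ d : ℕ, d₀ ≤ d → ∃ a : ℝ, 0 < a ∧
      c * (d : ℝ) ^ (-(1 / α)) / Real.log d ≤ a ∧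
      ∃ l : ℝ, 0 < l ∧ 4 * d * (∫ x, Real.exp (-(l * x)) ∂ν) * Real.exp (l * a) ≤ 1 := by
  set K' : ℝ := max K 1 with hK'
  have hK1 : 1 ≤ K' := le_max_right _ _
  have hKK : K ≤ K' := le_max_left _ _
  have hK0 : 0 < K' := by linarith
  have hC : 0 < (16 * K') ^ (-(1 / α)) := Real.rpow_pos_of_pos (by positivity) _
  have hlog2 : 0 < Real.log 2 := Real.log_pos (by norm_num)
  refine ⟨Real.log 2 * (16 * K') ^ (-(1 / α)) / 5, by positivity,
    max 2 ⌈t₀ ^ (-α)⌉₊, fun d hd => ?_⟩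
  have hd2 : 2 ≤ d := le_trans (le_max_left _ _) hd
  have hd2R : (2 : ℝ) ≤ d := by exact_mod_cast hd2
  have hd0 : (0 : ℝ) < d := by linarith
  have hdt : t₀ ^ (-α) ≤ d := by
    have h1 : ⌈t₀ ^ (-α)⌉₊ ≤ d := le_trans (le_max_right _ _) hd
    exact (Nat.le_ceil _).trans (by exact_mod_cast h1)
  set B : ℝ := 16 * d * K' with hB
  have hB0 : 0 < B := by positivity
  set t : ℝ := B ^ (-(1 / α)) with ht
  have htpos : 0 < t := Real.rpow_pos_of_pos hB0 _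
  have htα : t ^ α = B⁻¹ := by
    rw [ht, ← Real.rpow_mul hB0.le, ← Real.rpow_neg_one]
    congr 1
    field_simp
  have htt : t ≤ t₀ := by
    have h1 : t₀ ^ (-α) ≤ B := by
      have : (d : ℝ) ≤ B := by
        rw [hB]
        nlinarith
      linarith
    have h2 : t = (B⁻¹) ^ (1 / α) := by
      rw [ht, Real.inv_rpow hB0.le, Real.rpow_neg hB0.le]
    have h3 : B⁻¹ ≤ t₀ ^ α := by
      rw [Real.rpow_neg ht₀.le] at h1
      exact inv_le_of_inv_le₀ (Real.rpow_pos_of_pos ht₀ _) h1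
    rw [h2]
    calc (B⁻¹) ^ (1 / α) ≤ (t₀ ^ α) ^ (1 / α) :=
          Real.rpow_le_rpow (by positivity) h3 (by positivity)
      _ = t₀ := by
          rw [← Real.rpow_mul ht₀.le]
          have : α * (1 / α) = 1 := by field_simp
          rw [this, Real.rpow_one]
  have hlog : 0 < Real.log (16 * d) := Real.log_pos (by nlinarith)
  set l : ℝ := Real.log (16 * d) / t with hl
  have hlpos : 0 < l := div_pos hlog htpos
  have hlt : l * t = Real.log (16 * d) := by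
    rw [hl]; field_simp
  refine ⟨Real.log 2 / l, div_pos hlog2 hlpos, ?_, l, hlpos, ?_⟩
  · have h1 : Real.log 2 / l = Real.log 2 * t / Real.log (16 * d) := by
      rw [hl]; field_simp
    have h2 : t = (16 * K') ^ (-(1 / α)) * (d : ℝ) ^ (-(1 / α)) := by
      rw [ht, hB, ← Real.mul_rpow (by positivity) hd0.le]
      congr 1; ring
    have hld : 0 < Real.log d := Real.log_pos (by linarith)
    have h3 : Real.log (16 * d) ≤ 5 * Real.log d := by
      rw [Real.log_mul (by norm_num) hd0.ne']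
      have h4 : Real.log 16 = 4 * Real.log 2 := by
        rw [show (16 : ℝ) = 2 ^ (4 : ℕ) by norm_num, Real.log_pow]
        norm_num
      have h5 : Real.log 2 ≤ Real.log d := Real.log_le_log (by norm_num) hd2R
      linarith
    rw [h1]
    rw [div_le_div_iff₀ hld hlog]
    have hX : 0 < Real.log 2 * t := mul_pos hlog2 htpos
    calc Real.log 2 * (16 * K') ^ (-(1 / α)) / 5 * (d : ℝ) ^ (-(1 / α)) * Real.log (16 * d)
        = Real.log 2 * t * (Real.log (16 * d) / 5) := by rw [h2]; ring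
      _ ≤ Real.log 2 * t * Real.log d := by
          apply mul_le_mul_of_nonneg_left _ hX.le
          linarith
  · have h1 := int_lo ν hν l t hlpos
    have h2 : ν.real (Set.Iic t) ≤ 1 / (16 * d) := by
      calc ν.real (Set.Iic t) ≤ K * t ^ α := hK t htpos htt
        _ ≤ K' * t ^ α := mul_le_mul_of_nonneg_right hKK (Real.rpow_nonneg htpos.le _)
        _ = 1 / (16 * d) := by
            rw [htα, hB]; field_simp
    have h3 : Real.exp (-(l * t)) = 1 / (16 * d) := by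
      rw [hlt, Real.exp_neg, Real.exp_log (by positivity), one_div]
    have h4 : Real.exp (l * (Real.log 2 / l)) = 2 := by
      have : l * (Real.log 2 / l) = Real.log 2 := by field_simp
      rw [this, Real.exp_log (by norm_num)]
    rw [h4]
    have h5 : ∫ x, Real.exp (-(l * x)) ∂ν ≤ 1 / (8 * d) := by
      calc ∫ x, Real.exp (-(l * x)) ∂ν ≤ 1 / (16 * d) + 1 / (16 * d) := by
            rw [h3] at h1; linarith
        _ = 1 / (8 * d) := by field_simp; norm_num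
    calc 4 * d * (∫ x, Real.exp (-(l * x)) ∂ν) * 2 ≤ 4 * d * (1 / (8 * d)) * 2 := by
          gcongr
      _ = 1 := by field_simp; norm_num

end Pool.Agent.Helper98.GK

end

/-! ## HJb -/

section

namespace Pool.Agent.Helper98.GK

open MeasureTheory

theorem num_hi (ν : Measure ℝ) [IsProbabilityMeasure ν] (α κ t₀ m : ℝ) (hα : 0 < α)
    (hκ : 0 < κ) (ht₀ : 0 < t₀) (hm : 0 < m)
    (hκt : ∀ t : ℝ, 0 < t → t ≤ t₀ → κ * t ^ α ≤ ν.real (Set.Iic t)) :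
    ∃ C E : ℝ, 0 < C ∧ 0 < E ∧ ∃ d₀ : ℕ, ∀ d : ℕ, d₀ ≤ d → ∃ (k D : ℕ) (s₀ : ℝ),
      0 ≤ s₀ ∧ (k + 1) * D + 1 ≤ d ∧ 4 ≤ D * ν.real (Set.Iic s₀) ∧
      1 ≤ 2 ^ (k + 1) * ν.real (Set.Iic s₀) ∧
      (k + 2) * s₀ + m * Real.exp (-(D * ν.real (Set.Iic s₀)) / 2) ≤
        C * (d : ℝ) ^ (-(1 / α)) * Real.log d ^ E := by
  obtain ⟨A, hA⟩ : ∃ A : ℝ, A = 4 + 2 * (1 / α) := ⟨_, rfl⟩
  have hα' : 0 < 1 / α := one_div_pos.2 hα
  have hA4 : 4 ≤ A := by rw [hA]; linarith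
  have hA0 : 0 < A := by linarith
  have ht₀' : 0 < t₀ ^ α := Real.rpow_pos_of_pos ht₀ _
  obtain ⟨cc, hcc⟩ : ∃ cc : ℝ, cc = min (1 / 8) (κ * t₀ ^ α / (4 * A)) := ⟨_, rfl⟩
  have hcc0 : 0 < cc := by
    rw [hcc]
    exact lt_min (by norm_num) (by positivity)
  have hcc1 : cc ≤ 1 / 8 := by rw [hcc]; exact min_le_left _ _
  have hcc2 : cc ≤ κ * t₀ ^ α / (4 * A) := by rw [hcc]; exact min_le_right _ _
  have hB0 : 0 < (4 * A / κ) ^ (1 / α) := Real.rpow_pos_of_pos (by positivity) _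
  refine ⟨3 * (4 * A / κ) ^ (1 / α) + m, 1 + 2 * (1 / α), by positivity, by positivity, ?_⟩
  have hev : ∀ᶠ x : ℝ in Filter.atTop, 2 ≤ Real.log x ∧ Real.log x ^ 2 ≤ cc * x ∧ 2 ≤ x := by
    have h1 := (Real.isLittleO_pow_log_id_atTop (n := 2)).def hcc0
    filter_upwards [h1, Real.tendsto_log_atTop.eventually_ge_atTop 2,
      Filter.eventually_ge_atTop 2] with x h2 h3 h4
    refine ⟨h3, ?_, h4⟩
    rw [Real.norm_of_nonneg (by positivity), id, Real.norm_of_nonneg (by linarith)] at h2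
    exact h2
  obtain ⟨d₀, hd₀⟩ := Filter.eventually_atTop.1
    (tendsto_natCast_atTop_atTop (R := ℝ) |>.eventually hev)
  refine ⟨d₀, fun d hd => ?_⟩
  obtain ⟨hL2, hLd, hd2⟩ := hd₀ d hd
  obtain ⟨L, hL⟩ : ∃ L : ℝ, L = Real.log d := ⟨_, rfl⟩
  rw [← hL] at hL2 hLd ⊢
  have hd2' : 2 ≤ d := by exact_mod_cast hd2
  have hd0 : (0 : ℝ) < d := by linarith
  have hL0 : 0 < L := by linarith
  -- the number of levels
  have hclog : 0 < Nat.clog 2 d := Nat.clog_pos (by norm_num) hd2'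
  obtain ⟨k, hk⟩ : ∃ k, Nat.clog 2 d = k + 1 := ⟨Nat.clog 2 d - 1, by omega⟩
  have hk1 : d ≤ 2 ^ (k + 1) := by
    rw [← hk]
    exact Nat.le_pow_clog (by norm_num) d
  have hk2 : 2 ^ k < d := by
    have h := Nat.pow_pred_clog_lt_self (b := 2) (by norm_num) (x := d) (by omega)
    rw [hk] at h
    exact h
  have hk3 : (k : ℝ) * Real.log 2 < L := by
    have h1 : ((2 : ℝ) ^ k) < d := by exact_mod_cast hk2
    have h2 := Real.log_lt_log (by positivity) h1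
    rw [Real.log_pow] at h2
    rw [hL]
    exact h2
  have hkL : ((k : ℝ) + 1) ≤ 2 * L := by
    have h1 := Real.log_two_gt_d9
    have h2 : (k : ℝ) * 0.6931471803 ≤ (k : ℝ) * Real.log 2 :=
      mul_le_mul_of_nonneg_left h1.le (Nat.cast_nonneg k)
    nlinarith
  obtain ⟨D, hD⟩ : ∃ D, D = (d - 1) / (k + 1) := ⟨_, rfl⟩
  have hD1 : (k + 1) * D ≤ d - 1 := by
    rw [hD]
    exact Nat.mul_div_le _ _
  have hD2 : d - 1 < (k + 1) * (D + 1) := by
    rw [hD]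
    exact Nat.lt_mul_div_succ _ (Nat.succ_pos k)
  have hDd : D ≤ d := by
    have h1 : D ≤ (k + 1) * D := Nat.le_mul_of_pos_left D (Nat.succ_pos k)
    omega
  have hD3 : (d : ℝ) - 1 ≤ ((k : ℝ) + 1) * (D + 1) := by
    have h1 : d ≤ (k + 1) * (D + 1) + 1 := by omega
    have h2 : (d : ℝ) ≤ ((k : ℝ) + 1) * (D + 1) + 1 := by exact_mod_cast h1
    linarith
  have hD4 : (d : ℝ) ≤ 4 * L * D := by
    have h1 : ((k : ℝ) + 1) * (D + 1) ≤ 2 * L * (D + 1) :=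
      mul_le_mul_of_nonneg_right hkL (by positivity)
    have h2 : 4 * L + 2 ≤ d := by nlinarith
    nlinarith
  have hD0 : (0 : ℝ) < D := by
    by_contra h
    have h1 : (D : ℝ) = 0 := le_antisymm (not_lt.1 h) (Nat.cast_nonneg D)
    rw [h1, mul_zero] at hD4
    linarith
  obtain ⟨y, hy⟩ : ∃ y : ℝ, y = A * L / (κ * D) := ⟨_, rfl⟩
  have hy0 : 0 < y := by rw [hy]; positivity
  have hy1 : y ≤ 4 * A / κ * L ^ 2 * (d : ℝ)⁻¹ := by
    have e1 : 4 * A / κ * L ^ 2 * (d : ℝ)⁻¹ = (A * L / κ) * (4 * L / d) := by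
      field_simp
    have e2 : y = (A * L / κ) * (1 / D) := by
      rw [hy]
      field_simp
    rw [e1, e2]
    apply mul_le_mul_of_nonneg_left _ (by positivity)
    rw [div_le_div_iff₀ hD0 hd0]
    linarith
  have hy2 : y ≤ t₀ ^ α := by
    refine hy1.trans ?_
    have e1 : 4 * A / κ * L ^ 2 * (d : ℝ)⁻¹ ≤ 4 * A / κ * (cc * d) * (d : ℝ)⁻¹ := by
      gcongr
    refine e1.trans ?_
    have e2 : 4 * A / κ * (cc * d) * (d : ℝ)⁻¹ = 4 * A / κ * cc := by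
      field_simp
    rw [e2]
    calc 4 * A / κ * cc ≤ 4 * A / κ * (κ * t₀ ^ α / (4 * A)) := by gcongr
      _ = t₀ ^ α := by field_simp
  have hs0 : 0 < y ^ (1 / α) := Real.rpow_pos_of_pos hy0 _
  have hs1 : (y ^ (1 / α)) ^ α = y := by
    rw [← Real.rpow_mul hy0.le, one_div, inv_mul_cancel₀ hα.ne', Real.rpow_one]
  have hs2 : y ^ (1 / α) ≤ t₀ := by
    have h1 := Real.rpow_le_rpow hy0.le hy2 hα'.le
    rw [← Real.rpow_mul ht₀.le, one_div, mul_inv_cancel₀ hα.ne', Real.rpow_one] at h1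
    rw [one_div]
    exact h1
  have hν := hκt _ hs0 hs2
  rw [hs1] at hν
  have hν1 : A * L / D ≤ ν.real (Set.Iic (y ^ (1 / α))) := by
    refine le_trans (le_of_eq ?_) hν
    rw [hy]
    field_simp
  have hν2 : A * L ≤ D * ν.real (Set.Iic (y ^ (1 / α))) := by
    rw [div_le_iff₀ hD0] at hν1
    linarith
  have hAL : 8 ≤ A * L := by nlinarith
  refine ⟨k, D, y ^ (1 / α), hs0.le, by omega, by linarith, ?_, ?_⟩
  · have h1 : (D : ℝ) ≤ 2 ^ (k + 1) := by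
      have h2 : (D : ℝ) ≤ d := by exact_mod_cast hDd
      have h3 : (d : ℝ) ≤ 2 ^ (k + 1) := by exact_mod_cast hk1
      linarith
    have h2 : D * ν.real (Set.Iic (y ^ (1 / α))) ≤ 2 ^ (k + 1) * ν.real (Set.Iic (y ^ (1 / α))) :=
      mul_le_mul_of_nonneg_right h1 measureReal_nonneg
    linarith
  · have hdp : 0 < (d : ℝ) ^ (-(1 / α)) := Real.rpow_pos_of_pos hd0 _
    have hLE : L ^ (1 + 2 * (1 / α)) = L * L ^ (2 * (1 / α)) := by
      rw [Real.rpow_add hL0, Real.rpow_one]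
    have hLE1 : 1 ≤ L ^ (1 + 2 * (1 / α)) := Real.one_le_rpow (by linarith) (by positivity)
    have e1 : y ^ (1 / α) ≤ (4 * A / κ) ^ (1 / α) * L ^ (2 * (1 / α)) * (d : ℝ) ^ (-(1 / α)) := by
      have h1 := Real.rpow_le_rpow hy0.le hy1 hα'.le
      rw [Real.mul_rpow (by positivity) (by positivity), Real.mul_rpow (by positivity)
        (by positivity), ← Real.rpow_natCast L 2, ← Real.rpow_mul hL0.le,
        Real.inv_rpow hd0.le, ← Real.rpow_neg hd0.le] at h1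
      exact h1
    have e2 : ((k : ℝ) + 2) ≤ 3 * L := by linarith
    have e3 : ((k : ℝ) + 2) * y ^ (1 / α) ≤
        3 * L * ((4 * A / κ) ^ (1 / α) * L ^ (2 * (1 / α)) * (d : ℝ) ^ (-(1 / α))) :=
      mul_le_mul e2 e1 hs0.le (by positivity)
    have e4 : Real.exp (-(D * ν.real (Set.Iic (y ^ (1 / α)))) / 2) ≤ (d : ℝ) ^ (-(1 / α)) := by
      rw [Real.rpow_def_of_pos hd0, ← hL]
      apply Real.exp_le_exp.2
      have h1 : A * L = 4 * L + 2 * ((1 / α) * L) := by rw [hA]; ring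
      have h2 : L * -(1 / α) = -((1 / α) * L) := by ring
      rw [h2]
      linarith
    have e5 : m * Real.exp (-(D * ν.real (Set.Iic (y ^ (1 / α)))) / 2) ≤
        m * (d : ℝ) ^ (-(1 / α)) * L ^ (1 + 2 * (1 / α)) := by
      calc m * Real.exp (-(D * ν.real (Set.Iic (y ^ (1 / α)))) / 2)
          ≤ m * (d : ℝ) ^ (-(1 / α)) := mul_le_mul_of_nonneg_left e4 hm.le
        _ = m * (d : ℝ) ^ (-(1 / α)) * 1 := (mul_one _).symm
        _ ≤ m * (d : ℝ) ^ (-(1 / α)) * L ^ (1 + 2 * (1 / α)) :=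
            mul_le_mul_of_nonneg_left hLE1 (by positivity)
    calc ((k : ℝ) + 2) * y ^ (1 / α) + m * Real.exp (-(D * ν.real (Set.Iic (y ^ (1 / α)))) / 2)
        ≤ 3 * L * ((4 * A / κ) ^ (1 / α) * L ^ (2 * (1 / α)) * (d : ℝ) ^ (-(1 / α))) +
          m * (d : ℝ) ^ (-(1 / α)) * L ^ (1 + 2 * (1 / α)) := add_le_add e3 e5
      _ = (3 * (4 * A / κ) ^ (1 / α) + m) * (d : ℝ) ^ (-(1 / α)) * L ^ (1 + 2 * (1 / α)) := by
          rw [hLE]
          ring

end Pool.Agent.Helper98.GK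

end

/-! ## HJc -/

section

namespace Pool.Agent.Helper98.GK

open MeasureTheory Filter Topology

/-- `a ^ 2 d / (2 t ^ 2) ≥ (c / C) ^ 2 / 2 * d / (log d) ^ (2 + 2 E) ≥ d / (log d) ^ (3 + 2 E)`. -/
theorem num_end (α c C E : ℝ) (hc : 0 < c) (hC : 0 < C) (hE : 0 < E) :
    ∃ d₀ : ℕ, ∀ d : ℕ, d₀ ≤ d → ∀ a t : ℝ, 0 < t →
      c * (d : ℝ) ^ (-(1 / α)) / Real.log d ≤ a →
      t ≤ C * (d : ℝ) ^ (-(1 / α)) * Real.log d ^ E →
      (d : ℝ) / Real.log d ^ (3 + 2 * E) ≤ a ^ 2 * d / (2 * t ^ 2) := by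
  have h1 : Tendsto (fun d : ℕ => Real.log (d : ℝ)) atTop atTop :=
    Real.tendsto_log_atTop.comp tendsto_natCast_atTop_atTop
  obtain ⟨d₀, hd₀⟩ := eventually_atTop.1 (h1.eventually_ge_atTop (max 1 (2 * C ^ 2 / c ^ 2)))
  refine ⟨max d₀ 1, fun d hd a t ht ha htC => ?_⟩
  have hL := hd₀ d ((le_max_left _ _).trans hd)
  have hd1 : 1 ≤ d := (le_max_right _ _).trans hd
  have hd0 : (0 : ℝ) < d := by exact_mod_cast hd1
  obtain ⟨L, hLdef⟩ : ∃ L : ℝ, L = Real.log d := ⟨_, rfl⟩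
  rw [← hLdef] at hL ha htC ⊢
  have hL1 : 1 ≤ L := (le_max_left _ _).trans hL
  have hL2 : 2 * C ^ 2 / c ^ 2 ≤ L := (le_max_right _ _).trans hL
  have hL0 : 0 < L := by linarith
  obtain ⟨x, hx⟩ : ∃ x : ℝ, x = (d : ℝ) ^ (-(1 / α)) := ⟨_, rfl⟩
  rw [← hx] at ha htC
  have hx0 : 0 < x := by rw [hx]; exact Real.rpow_pos_of_pos hd0 _
  obtain ⟨y, hy⟩ : ∃ y : ℝ, y = L ^ E := ⟨_, rfl⟩
  rw [← hy] at htC
  have hy0 : 0 < y := by rw [hy]; exact Real.rpow_pos_of_pos hL0 _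
  have hpow : L ^ (3 + 2 * E) = L ^ 3 * y ^ 2 := by
    rw [Real.rpow_add hL0, hy]
    congr 1
    · exact_mod_cast Real.rpow_natCast L 3
    · rw [← Real.rpow_natCast, ← Real.rpow_mul hL0.le]
      congr 1
      push_cast
      ring
  rw [hpow]
  have ha0 : 0 < c * x / L := by positivity
  have hapos : 0 < a := lt_of_lt_of_le ha0 ha
  have h2 : (c * x / L) ^ 2 ≤ a ^ 2 := pow_le_pow_left₀ ha0.le ha 2
  have h3 : t ^ 2 ≤ (C * x * y) ^ 2 := pow_le_pow_left₀ ht.le htC 2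
  have h4 : (c * x / L) ^ 2 * d / (2 * (C * x * y) ^ 2) ≤ a ^ 2 * d / (2 * t ^ 2) := by
    gcongr
  refine le_trans ?_ h4
  have h5 : (c * x / L) ^ 2 * d / (2 * (C * x * y) ^ 2) = c ^ 2 * d / (2 * C ^ 2 * L ^ 2 * y ^ 2) := by
    field_simp
  rw [h5, div_le_div_iff₀ (by positivity) (by positivity)]
  have h6 : 2 * C ^ 2 ≤ L * c ^ 2 := (div_le_iff₀ (by positivity)).1 hL2
  have h7 : (2 * C ^ 2) * (d * L ^ 2 * y ^ 2) ≤ (L * c ^ 2) * (d * L ^ 2 * y ^ 2) :=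
    mul_le_mul_of_nonneg_right h6 (by positivity)
  nlinarith [h7]

end Pool.Agent.Helper98.GK

end

/-! ## FF -/

section

namespace Pool.Agent.Helper98.GK

open MeasureTheory ProbabilityTheory Pool.Agent.Helper79.GR Pool.Agent.Helper79.GQ

private theorem FF_int (ν : Measure ℝ) (hν : ν (Set.Iic 0) = 0)
    (he : ∃ η : ℝ, 0 < η ∧ Integrable (fun x => Real.exp (η * x)) ν) :
    Integrable (fun x : ℝ => x) ν := by
  obtain ⟨η, hη, hi⟩ := he
  refine (hi.const_mul η⁻¹).mono' measurable_id.aestronglyMeasurable ?_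
  have h1 : ∀ᵐ x ∂ν, x ∉ Set.Iic (0 : ℝ) := measure_eq_zero_iff_ae_notMem.1 hν
  filter_upwards [h1] with x hx
  have h2 : 0 < x := not_le.1 hx
  rw [Real.norm_eq_abs, abs_of_pos h2]
  have h3 := Real.add_one_le_exp (η * x)
  have h4 : η⁻¹ * (η * x) ≤ η⁻¹ * Real.exp (η * x) :=
    mul_le_mul_of_nonneg_left (by linarith) (inv_nonneg.2 hη.le)
  rwa [inv_mul_cancel_left₀ hη.ne'] at h4

private theorem FF_pos (ν : Measure ℝ) [IsProbabilityMeasure ν] (hν : ν (Set.Iic 0) = 0)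
    (hi : Integrable (fun x : ℝ => x) ν) : 0 < ∫ x, x ∂ν := by
  have h1 : ∀ᵐ x ∂ν, x ∉ Set.Iic (0 : ℝ) := measure_eq_zero_iff_ae_notMem.1 hν
  have h2 : 0 ≤ᵐ[ν] fun x : ℝ => x := by
    filter_upwards [h1] with x hx
    exact (not_le.1 hx).le
  refine (integral_pos_iff_support_of_nonneg_ae h2 hi).2 ?_
  by_contra hcon
  have h3 : ν (Function.support fun x : ℝ => x) = 0 := le_antisymm (not_lt.1 hcon) bot_le
  have h4 : (Set.univ : Set ℝ) ⊆ Set.Iic 0 ∪ (Function.support fun x : ℝ => x) := by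
    intro x _
    by_cases hx : x = 0
    · exact Or.inl hx.le
    · exact Or.inr hx
  have h5 : ν (Set.univ : Set ℝ) ≤ 0 := (measure_mono h4).trans ((measure_union_le _ _).trans
    (by rw [hν, h3, add_zero]))
  rw [measure_univ] at h5
  exact absurd h5 (by norm_num)

/-- the case `N ≤ 2 d` -/
private theorem FF_dir {Ω : Type} [MeasurableSpace Ω] {d : ℕ} {P : Measure Ω}
    {X : Edge d → Ω → ℝ} {ν : Measure ℝ} {a b : ℝ} (h : EnvK P X ν a b) (hd : 1 ≤ d) (N : ℕ)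
    (hN : N ≤ 2 * d) : ∃ (w : Fin N → F d) (ρ : Fin N → F d →L[ℝ] ℝ) (g : ℝ),
      Dir (tc (mm P X)) w ρ g :=
  exists_dir hd (nrm_tc h.toEnv0 hd) N (Or.inl hN)

/-- the case `N ≤ exp (d / (log d) ^ E)` -/
private theorem FF_dir2 {Ω : Type} [MeasurableSpace Ω] {d : ℕ} {P : Measure Ω}
    {X : Edge d → Ω → ℝ} {ν : Measure ℝ} {a b : ℝ} (h : EnvK P X ν a b) (hd : 1 ≤ d) (N : ℕ)
    (k D : ℕ) (s₀ t : ℝ) (hs : 0 ≤ s₀) (hkD : (k + 1) * D + 1 ≤ d)
    (hD : 4 ≤ D * ν.real (Set.Iic s₀)) (hk : 1 ≤ 2 ^ (k + 1) * ν.real (Set.Iic s₀))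
    (ht : t = (k + 2) * s₀ + (∫ x, x ∂ν) * Real.exp (-(D * ν.real (Set.Iic s₀)) / 2))
    (ht0 : 0 < t) (hN : (N : ℝ) ≤ Real.exp (a ^ 2 * d / (2 * t ^ 2))) :
    ∃ (w : Fin N → F d) (ρ : Fin N → F d →L[ℝ] ℝ) (g : ℝ), Dir (tc (mm P X)) w ρ g := by
  have h1 : Nrm a t (tc (mm P X)) := nrm_mono (nrm_tc h.toEnv0 hd) fun i => by
    rw [ht]
    exact axis_bound h.toEnv0 i k D s₀ hs hkD hD hk
  exact exists_dir hd h1 N (Or.inr (exists_l d N a t h.apos ht0 hN))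

theorem final : ∀ (ν : Measure ℝ), IsProbabilityMeasure ν → ν (Set.Iic 0) = 0 →
  (∃ η : ℝ, 0 < η ∧ Integrable (fun x => Real.exp (η * x)) ν) → (∀ x, ν {x} ≠ 1) →
  ∃ (E : ℝ) (d₀ : ℕ), ∀ (d : ℕ), 2 ≤ d → ∀ (N : ℕ),
  (N ≤ 2 * d ∨ ((∃ α κ K t₀ : ℝ, 0 < α ∧ 0 < κ ∧ 0 < t₀ ∧ ∀ t : ℝ, 0 < t → t ≤ t₀ →
      κ * t ^ α ≤ ν.real (Set.Iic t) ∧ ν.real (Set.Iic t) ≤ K * t ^ α) ∧
    d₀ ≤ d ∧ (N : ℝ) ≤ Real.exp (d / Real.log d ^ E))) →
  ∀ (Ω : Type) (mΩ : MeasurableSpace Ω) (P : Measure Ω), IsProbabilityMeasure P →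
  ∀ (t : Sym2 (Fin d → ℤ) → Ω → ℝ),
    (∀ e, Measurable (t e)) →
    iIndepFun
      (fun e : {e : Sym2 (Fin d → ℤ) //
          ∃ x y : Fin d → ℤ, e = s(x, y) ∧ ∑ i, |x i - y i| = 1} => t e.1)
      P →
    (∀ x y : Fin d → ℤ, ∑ i, |x i - y i| = 1 →
      Measure.map (t s(x, y)) P = ν) →
    (∃ A : Set Ω, MeasurableSet A ∧ 0 < P A ∧ ∀ ω ∈ A,
      (N : ℕ∞) ≤ Set.encard {γ : ℕ → (Fin d → ℤ) |
        γ 0 = 0 ∧ Function.Injective γ ∧
        (∀ k, ∑ i, |γ k i - γ (k + 1) i| = 1) ∧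
        ∀ m n : ℕ, m ≤ n →
          ∀ (L : ℕ) (q : ℕ → (Fin d → ℤ)), q 0 = γ m → q L = γ n →
            (∀ k < L, ∑ i, |q k i - q (k + 1) i| = 1) →
            ∑ k ∈ Finset.range (n - m), t s(γ (m + k), γ (m + k + 1)) ω ≤
              ∑ k ∈ Finset.range L, t s(q k, q (k + 1)) ω}) ∧
    ∀ᵐ ω ∂P, ∃ γ : Fin N → ℕ → (Fin d → ℤ),
      (∀ i j, i ≠ j → ∀ k l, γ i k ≠ γ j l) ∧
      ∀ j, Function.Injective (γ j) ∧
        (∀ k, ∑ i, |γ j k i - γ j (k + 1) i| = 1) ∧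
        ∀ m n : ℕ, m ≤ n →
          ∀ (L : ℕ) (q : ℕ → (Fin d → ℤ)), q 0 = γ j m → q L = γ j n →
            (∀ k < L, ∑ i, |q k i - q (k + 1) i| = 1) →
            ∑ k ∈ Finset.range (n - m), t s(γ j (m + k), γ j (m + k + 1)) ω ≤
              ∑ k ∈ Finset.range L, t s(q k, q (k + 1)) ω := by
  intro ν hP hν he hpt
  have hint := FF_int ν hν he
  have hm := FF_pos ν hν hint
  by_cases hlaw : ∃ α κ K t₀ : ℝ, 0 < α ∧ 0 < κ ∧ 0 < t₀ ∧ ∀ t : ℝ, 0 < t → t ≤ t₀ →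
      κ * t ^ α ≤ ν.real (Set.Iic t) ∧ ν.real (Set.Iic t) ≤ K * t ^ α
  · obtain ⟨α, κ, K, t₀, hα, hκ, ht₀, hl⟩ := hlaw
    obtain ⟨c, hc, d₁, hd₁⟩ := num_lo ν hν α K t₀ hα ht₀ fun t h1 h2 => (hl t h1 h2).2
    obtain ⟨C, E, hC, hE, d₂, hd₂⟩ := num_hi ν α κ t₀ (∫ x, x ∂ν) hα hκ ht₀ hm
      fun t h1 h2 => (hl t h1 h2).1
    obtain ⟨d₃, hd₃⟩ := num_end α c C E hc hC hE
    refine ⟨3 + 2 * E, max d₁ (max d₂ d₃), ?_⟩
    intro d hd N hN
    rcases hN with hN | ⟨-, hd₀, hN⟩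
    · obtain ⟨a, ha, hlo⟩ := exists_lo ν hν d
      exact final_dir d (by omega) ν hν he hpt N a ha hlo
        fun Ω mΩ P X b hX => FF_dir hX (by omega) N hN
    · obtain ⟨a, ha, hac, hlo⟩ := hd₁ d ((le_max_left _ _).trans hd₀)
      obtain ⟨k, D, s₀, hs, hkD, hD, hk, ht⟩ :=
        hd₂ d (((le_max_left _ _).trans (le_max_right _ _)).trans hd₀)
      have ht0 : 0 < (k + 2) * s₀ +
          (∫ x, x ∂ν) * Real.exp (-(D * ν.real (Set.Iic s₀)) / 2) := by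
        have h1 : 0 ≤ ((k : ℝ) + 2) * s₀ := mul_nonneg (by positivity) hs
        have h2 : 0 < (∫ x, x ∂ν) * Real.exp (-(D * ν.real (Set.Iic s₀)) / 2) :=
          mul_pos hm (Real.exp_pos _)
        linarith
      have h3 := hd₃ d (((le_max_right _ _).trans (le_max_right _ _)).trans hd₀) a _ ht0 hac ht
      exact final_dir d (by omega) ν hν he hpt N a ha hlo fun Ω mΩ P X b hX =>
        FF_dir2 hX (by omega) N k D s₀ _ hs hkD hD hk rfl ht0
          (hN.trans (Real.exp_le_exp.2 h3))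
  · refine ⟨0, 0, ?_⟩
    intro d hd N hN
    rcases hN with hN | ⟨h1, -, -⟩
    · obtain ⟨a, ha, hlo⟩ := exists_lo ν hν d
      exact final_dir d (by omega) ν hν he hpt N a ha hlo
        fun Ω mΩ P X b hX => FF_dir hX (by omega) N hN
    · exact absurd h1 hlaw

end Pool.Agent.Helper98.GK

end
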